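import Pool.Agent.RP5.Yang

/-!
# The alternation functional and cochain certificates
-/

set_option autoImplicit false
set_option linter.unusedSectionVars false

open Finset

namespace Pool.Agent.RP5

section adj
variable {V : Type*} [DecidableEq V] [Fintype V]

theorem sum_bd_mul (c φ : Ch V) :
    ∑ r, bd c r * φ r = ∑ s, c s * ∑ x ∈ s, φ (s.erase x) := by
  have h1 : ∀ r, bd c r * φ r = ∑ x, if x ∈ r then 0 else c (insert x r) * φ r := by
    intro r
    rw [bd_apply, sum_mul]
    refine sum_congr rfl fun x _ => ?_
    split_ifs <;> simp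
  have h2 : ∀ s : Finset (V × Bool), c s * ∑ x ∈ s, φ (s.erase x) =
      ∑ x, if x ∈ s then c s * φ (s.erase x) else 0 := by
    intro s
    rw [mul_sum, ← sum_filter]
    refine sum_congr ?_ fun _ _ => rfl
    ext x; simp
  rw [sum_congr rfl fun r _ => h1 r, sum_congr rfl fun s _ => h2 s, sum_comm,
    sum_comm (s := (univ : Finset (Finset (V × Bool))))]
  refine sum_congr rfl fun x _ => ?_
  rw [← sum_filter_add_sum_filter_not univ (fun r : Finset (V × Bool) => x ∈ r)]
  rw [sum_eq_zero (s := univ.filter (fun r : Finset (V × Bool) => x ∈ r)), zero_add]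
  · rw [← sum_filter (p := fun s : Finset (V × Bool) => x ∈ s)]
    refine sum_bij' (fun r _ => insert x r) (fun s _ => s.erase x) ?_ ?_ ?_ ?_ ?_
    · intro r _
      simp
    · intro s _
      simp
    · intro r hr
      simp only [mem_filter, mem_univ, true_and] at hr
      exact erase_insert hr
    · intro s hs
      simp only [mem_filter, mem_univ, true_and] at hs
      exact insert_erase hs
    · intro r hr
      simp only [mem_filter, mem_univ, true_and] at hr
      rw [if_neg hr, erase_insert hr]
  · intro r hr
    simp only [mem_filter, mem_univ, true_and] at hr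
    rw [if_pos hr]

end adj

variable {V : Type*} [LinearOrder V] [Fintype V]

/-- the number of elements of `s` whose vertex comes before `v` -/
def before (s : Finset (V × Bool)) (v : V) : ℕ := (s.filter fun q => q.1 < v).card

/-- the signs of the elements of `s`, ordered by their vertices, alternate and start with `b` -/
def altp (b : Bool) (s : Finset (V × Bool)) : Prop :=
  ∀ p ∈ s, p.2 = xor b (decide (Odd (before s p.1)))

instance (b : Bool) (s : Finset (V × Bool)) : Decidable (altp b s) := by
  unfold altp; infer_instance

theorem altp_insert {b : Bool} {s : Finset (V × Bool)} {m : V × Bool}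
    (hm : ∀ q ∈ s, q.1 < m.1) :
    altp b (insert m s) ↔ altp b s ∧ m.2 = xor b (decide (Odd s.card)) := by
  have h1 : (insert m s).filter (fun q => q.1 < m.1) = s := by
    ext q
    simp only [mem_filter, mem_insert]
    constructor
    · rintro ⟨rfl | h, h2⟩
      · exact absurd h2 (lt_irrefl _)
      · exact h
    · intro h
      exact ⟨Or.inr h, hm q h⟩
  have h2 : ∀ p ∈ s, (insert m s).filter (fun q => q.1 < p.1) = s.filter (fun q => q.1 < p.1) := by
    intro p hp
    ext q
    simp only [mem_filter, mem_insert]
    constructor
    · rintro ⟨rfl | h, h2⟩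
      · exact absurd (h2.trans (hm p hp)) (lt_irrefl _)
      · exact ⟨h, h2⟩
    · rintro ⟨h, h2⟩
      exact ⟨Or.inr h, h2⟩
  unfold altp before
  constructor
  · intro h
    refine ⟨fun p hp => ?_, ?_⟩
    · rw [← h2 p hp]; exact h p (mem_insert_of_mem hp)
    · have := h m (mem_insert_self _ _)
      rwa [h1] at this
  · rintro ⟨h3, h4⟩ p hp
    rcases mem_insert.mp hp with rfl | hp
    · rw [h1]; exact h4
    · rw [h2 p hp]; exact h3 p hp

/-- indicator of `altp` -/
def altc (b : Bool) : Ch V := fun s => if altp b s then 1 else 0

theorem altp_negS {b : Bool} {s : Finset (V × Bool)} : altp b (negS s) ↔ altp (!b) s := by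
  have hc : ∀ v : V, before (negS s) v = before s v := by
    intro v
    unfold before
    have : (negS s).filter (fun q => q.1 < v) = negS (s.filter fun q => q.1 < v) := by
      ext q
      simp only [mem_filter, mem_negS, neg_fst]
    rw [this, card_negS]
  unfold altp
  constructor
  · intro h p hp
    have := h (neg p) (neg_mem_negS.mpr hp)
    rw [hc] at this
    simp only [neg_apply] at this
    have h2 := congrArg (!·) this
    simp only [Bool.not_not] at h2
    rw [Bool.not_xor]
    exact h2
  · intro h p hp
    rw [hc]
    have := h (neg p) (mem_negS.mp hp)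
    simp only [neg_apply] at this
    rw [Bool.not_xor] at this
    exact Bool.not_inj this

theorem altc_negS (b : Bool) (s : Finset (V × Bool)) : altc b (negS s) = altc (!b) s := by
  unfold altc
  simp only [altp_negS]

theorem altc_erase {s : Finset (V × Bool)} (hs : AF s) (hne : s.Nonempty) (b : Bool) :
    ∑ x ∈ s, altc b (s.erase x) = altc b s + altc (!b) s := by
  induction s using Finset.induction_on_max_value (f := fun p : V × Bool => p.1)
    generalizing b with
  | empty => exact absurd hne not_nonempty_empty
  | insert m s hm hmax ih =>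
    have hs' : AF s := hs.subset (subset_insert _ _)
    have hlt : ∀ q ∈ s, q.1 < m.1 := by
      intro q hq
      refine lt_of_le_of_ne (hmax q hq) fun he => ?_
      have h1 : q ≠ m := fun h => hm (h ▸ hq)
      have h2 : q = neg m := by
        refine Prod.ext he ?_
        have : q.2 ≠ m.2 := fun h => h1 (Prod.ext he h)
        simp only [neg_apply]
        exact Bool.eq_not_of_ne this
      exact hs m (mem_insert_self _ _) (h2 ▸ mem_insert_of_mem hq)
    rw [sum_insert hm, erase_insert hm]
    have h1 : ∀ x ∈ s, altc b ((insert m s).erase x) =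
        altc b (s.erase x) * (if m.2 = xor b (decide (Odd (s.card - 1))) then 1 else 0) := by
      intro x hx
      have hxm : x ≠ m := fun h => hm (h ▸ hx)
      rw [erase_insert_of_ne hxm.symm]
      unfold altc
      have h2 : altp b (insert m (s.erase x)) ↔ altp b (s.erase x) ∧
          m.2 = xor b (decide (Odd (s.card - 1))) := by
        rw [altp_insert fun q hq => hlt q (mem_of_mem_erase hq), card_erase_of_mem hx]
      by_cases ha : altp b (s.erase x) <;>
        by_cases hb : m.2 = xor b (decide (Odd (s.card - 1))) <;> simp [h2, ha, hb]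
    rw [sum_congr rfl h1, ← sum_mul]
    have h3 : ∀ b' : Bool, altc b' (insert m s) =
        altc b' s * (if m.2 = xor b' (decide (Odd s.card)) then 1 else 0) := by
      intro b'
      unfold altc
      by_cases ha : altp b' s <;>
        by_cases hb : m.2 = xor b' (decide (Odd s.card)) <;> simp [altp_insert hlt, ha, hb]
    rw [h3, h3]
    rcases s.eq_empty_or_nonempty with he | hne'
    · subst he
      have : ∀ b' : Bool, altc b' (∅ : Finset (V × Bool)) = 1 := by
        intro b'; simp [altc, altp]
      rw [this, this]
      simp only [sum_empty, zero_mul, add_zero, card_empty]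
      cases m.2 <;> cases b <;> simp
    · rw [ih hs' hne']
      have hc : 0 < s.card := card_pos.mpr hne'
      have hodd : decide (Odd (s.card - 1)) = !decide (Odd s.card) := by
        obtain ⟨c, hc'⟩ : ∃ c, s.card = c + 1 := ⟨s.card - 1, by omega⟩
        rw [hc', Nat.add_sub_cancel]
        rcases Nat.even_or_odd c with h | h
        · have h' : Odd (c + 1) := h.add_one
          have h'' : ¬ Odd c := Nat.not_odd_iff_even.mpr h
          simp [h', h'']
        · have h' : ¬ Odd (c + 1) := Nat.not_odd_iff_even.mpr h.add_one
          simp [h', h]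
      rw [hodd]
      generalize altc b s = A
      generalize altc (!b) s = B
      generalize decide (Odd s.card) = o
      generalize m.2 = m2
      cases b <;> cases o <;> cases m2 <;> simp <;> ring_nf <;>
        simp [show (2 : ZMod 2) = 0 from rfl]

theorem Ess.sum_altc {k : ℕ} {z : Ch V} (h : Ess k z) : ∑ s, z s * altc true s = 1 := by
  have key : ∀ c : Ch V, ∑ s, (c + T c) s * altc true s =
      ∑ s, c s * (altc true s + altc false s) := by
    intro c
    have h1 : ∑ s, T c s * altc true s = ∑ s, c s * altc false s := by
      refine Fintype.sum_equiv ⟨negS, negS, negS_negS, negS_negS⟩ _ _ fun s => ?_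
      simp only [Equiv.coe_fn_mk, T_apply]
      have := altc_negS false s
      rw [this]; rfl
    simp only [Pi.add_apply, add_mul, mul_add, sum_add_distrib, h1]
  induction k generalizing z with
  | zero =>
    obtain ⟨c, h1, h2, h3⟩ := h
    rw [h2, key, ← h3]
    refine sum_congr rfl fun s _ => ?_
    by_cases h0 : c s = 0
    · simp [h0]
    · obtain ⟨h4, h5⟩ := h1 s h0
      obtain ⟨p, rfl⟩ := card_eq_one.mp h5
      have : altc true {p} + altc false {p} = (1 : ZMod 2) := by
        obtain ⟨v, b⟩ := p
        cases b <;> simp [altc, altp, before, filter_singleton]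
      rw [this, mul_one]
  | succ k ih =>
    obtain ⟨c, h1, h2, h3⟩ := h
    rw [h2, key, ← ih h3, sum_bd_mul]
    refine sum_congr rfl fun s _ => ?_
    by_cases h0 : c s = 0
    · simp [h0]
    · obtain ⟨h4, h5⟩ := h1 s h0
      rw [altc_erase h4 (card_pos.mp (by omega))]
      rfl

/-- **Cochain certificate.** There is no witness in dimension `k + 1` all of whose simplices `s`
satisfy `∑ φ (s \ x) = alt s`, for a symmetric function `φ`. -/
theorem IsWit.false_of_cochain {k : ℕ} {K : Finset (V × Bool) → Prop} {z : Ch V}
    (h : IsWit (k + 1) K z) (φ : Ch V) (hφ : ∀ s, φ (negS s) = φ s)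
    (hK : ∀ s, z s ≠ 0 → ∑ x ∈ s, φ (s.erase x) = altc true s + altc false s) : False := by
  obtain ⟨c, hc, hzc, hcz⟩ := exists_half h.ess.supp h.ess.symm
  have h1 := h.ess.sum_altc
  have h2 : ∑ s, (c + T c) s * altc true s = ∑ s, c s * (altc true s + altc false s) := by
    have h1 : ∑ s, T c s * altc true s = ∑ s, c s * altc false s := by
      refine Fintype.sum_equiv ⟨negS, negS, negS_negS, negS_negS⟩ _ _ fun s => ?_
      simp only [Equiv.coe_fn_mk, T_apply]
      have := altc_negS false s
      rw [this]; rfl
    simp only [Pi.add_apply, add_mul, mul_add, sum_add_distrib, h1]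
  rw [hzc, h2] at h1
  have h3 : ∑ s, c s * (altc true s + altc false s) = ∑ r, bd c r * φ r := by
    rw [sum_bd_mul]
    refine sum_congr rfl fun s _ => ?_
    by_cases h0 : c s = 0
    · simp [h0]
    · rw [hK s fun h' => h0 (hcz s h')]
  have h4 : T (bd c) = bd c := by
    have h5 : bd z = bd c + T (bd c) := by
      conv_lhs => rw [hzc]
      rw [bd_add, bd_T]
    have h6 : bd c + (bd c + T (bd c)) = bd c := by rw [← h5, h.cycle, add_zero]
    rw [← add_assoc, add_self_ch, zero_add] at h6
    exact h6
  obtain ⟨x, _, hx2, _⟩ := exists_half hc.bd h4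
  have h7 : ∑ r, bd c r * φ r = 0 := by
    rw [hx2]
    have h8 : ∑ r, T x r * φ r = ∑ r, x r * φ r := by
      refine Fintype.sum_equiv ⟨negS, negS, negS_negS, negS_negS⟩ _ _ fun s => ?_
      simp only [Equiv.coe_fn_mk, T_apply, hφ]
    simp only [Pi.add_apply, add_mul, sum_add_distrib, h8]
    exact CharTwo.add_self_eq_zero _
  rw [h3, h7] at h1
  exact absurd h1 (by decide)

end Pool.Agent.RP5
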