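import Pool.Agent.RP5.Cls11

/-!
# Reduction of the case of 23 vertices to a normal form
-/

set_option autoImplicit false
set_option linter.unusedSectionVars false

open Finset

namespace Pool.Agent.RP5

/-- there is no witness in dimension five for the signed graphs in normal form -/
def NoNormal : Prop :=
  ∀ a : Fin 23 → Fin 23 → Bool, (∀ u v, a u v = a v u) → ∀ j : Fin 4,
    (∀ u v : Fin 11, u ≠ v →
      a (u.castLE (by omega)) (v.castLE (by omega)) = qtab j u v) →
    (∀ u v : Fin 23, 11 ≤ u.1 → u.1 < 17 → 11 ≤ v.1 → v.1 < 17 → u ≠ v → a u v = false) →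
    (∀ u v : Fin 23, 17 ≤ u.1 → 17 ≤ v.1 → u ≠ v → a u v = false) → ¬ P a 5 univ

theorem no23_of_noNormal (hN : NoNormal) {a : Fin 23 → Fin 23 → Bool}
    (ha : ∀ u v, a u v = a v u) : ¬ P a 5 univ := by
  intro hP
  obtain ⟨τ, hτ, hcτ, -⟩ := hP.exists_coh
  have hcτ' : τ.card = 6 := hcτ
  obtain ⟨ε, hε⟩ := hτ.exists_isSgn ha
  have hcT : τᶜ.card = 17 := by
    rw [card_compl, hcτ', Fintype.card_fin]
  have hcompl : (univ : Finset (Fin 23)) \ τ = τᶜ := by
    rw [compl_eq_univ_sdiff]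
  obtain ⟨σ, hσ, hcσ, hστ⟩ : ∃ σ, Coh a σ ∧ σ.card = 6 ∧ σ ⊆ univ \ τ := by
    rcases hP.split hε hcτ with h | h
    · exact h
    · exfalso
      have h2 := card_of_split h (card_pos.mp (by omega))
      rw [hcτ', hcompl, hcT] at h2
      omega
  obtain ⟨f, hf⟩ := exists_enum hcT
  let a17 : Fin 17 → Fin 17 → Bool := pullA f (fun _ => false) a
  have ha17 : ∀ u v, a17 u v = a17 v u := pullA_symm ha _ _
  have hP17 : P a17 4 univ := by
    have h1 : P a 4 (univ \ τ) := hP.step ha hτ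
    exact P.pull h1 f _ (fun v hv => (hf v).mpr (mem_sdiff.mp hv).2)
  let S : Finset (Fin 17) := univ.filter fun u => f u ∈ σ
  have hSmap : S.map f = σ := by
    ext v
    simp only [S, mem_map, mem_filter, mem_univ, true_and]
    constructor
    · rintro ⟨u, hu, rfl⟩; exact hu
    · intro hv
      obtain ⟨u, hu⟩ := (hf v).mpr (mem_sdiff.mp (hστ hv)).2
      exact ⟨u, by rw [hu]; exact hv, hu⟩
  have hcS : S.card = 6 := by
    rw [← hcσ, ← hSmap, card_map]
  have hS : Coh a17 S := by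
    intro u hu v hv w hw huv hvw huw
    simp only [S, mem_filter, mem_univ, true_and] at hu hv hw
    have := hσ _ hu _ hv _ hw (fun h => huv (f.injective h)) (fun h => hvw (f.injective h))
      (fun h => huw (f.injective h))
    simpa [a17, pullA] using this
  have hcW : Sᶜ.card = 11 := by
    rw [card_compl, hcS, Fintype.card_fin]
  obtain ⟨g, hg⟩ := exists_enum hcW
  have hP11 : P (pullA g (fun _ => false) a17) 3 univ := by
    have h1 : P a17 3 (univ \ S) := hP17.step ha17 hS
    exact P.pull h1 g _ (fun v hv => (hg v).mpr (mem_sdiff.mp hv).2)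
  obtain ⟨j, hj⟩ := cls_eleven (pullA_symm ha17 g _) hP11
  obtain ⟨e', δ', h1, h2, -, -⟩ := exists_normal (m := 6) ha17 hS hcS g hg hj
  let b17 : Fin 17 → Fin 17 → Bool := pullA e'.toEmbedding δ' a17
  have hi : IsoTo a17 b17 := ⟨e', δ', fun _ _ _ => rfl⟩
  obtain ⟨e, δ, h3, h4, -, -⟩ := exists_normal (m := 6) ha hτ hcτ' f hf hi
  let b : Fin 23 → Fin 23 → Bool := pullA e.toEmbedding δ a
  have hb : ∀ u v, b u v = b v u := pullA_symm ha _ _
  refine hN b hb j ?_ ?_ ?_ (IsoTo.P ⟨e, δ, fun _ _ _ => rfl⟩ hP)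
  · intro u v huv
    have h5 := h3 (Fin.castAdd 6 u) (Fin.castAdd 6 v) (fun h => huv (Fin.castAdd_injective _ _ h))
    have h6 := h1 u v huv
    rw [← h6]
    exact h5
  · intro u v hu1 hu2 hv1 hv2 huv
    have hu' : u = Fin.castAdd 6 (Fin.natAdd 11 (⟨u.1 - 11, by omega⟩ : Fin 6)) := by
      apply Fin.ext
      simp only [Fin.val_castAdd, Fin.val_natAdd]
      omega
    have hv' : v = Fin.castAdd 6 (Fin.natAdd 11 (⟨v.1 - 11, by omega⟩ : Fin 6)) := by
      apply Fin.ext
      simp only [Fin.val_castAdd, Fin.val_natAdd]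
      omega
    have h5 := h3 (Fin.natAdd 11 (⟨u.1 - 11, by omega⟩ : Fin 6)) (Fin.natAdd 11 (⟨v.1 - 11, by omega⟩ : Fin 6))
      (fun h => huv (by
        have := congrArg Fin.val h
        simp only [Fin.val_natAdd] at this
        apply Fin.ext
        omega))
    have hne : (⟨u.1 - 11, by omega⟩ : Fin 6) ≠ ⟨v.1 - 11, by omega⟩ := by
      intro h
      rw [Fin.mk.injEq] at h
      exact huv (Fin.ext (by omega))
    have h6 := h2 _ _ hne
    rw [hu', hv']
    exact h5.trans h6
  · intro u v hu hv huv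
    have hu' : u = Fin.natAdd 17 (⟨u.1 - 17, by omega⟩ : Fin 6) := by
      apply Fin.ext
      simp only [Fin.val_natAdd]
      omega
    have hv' : v = Fin.natAdd 17 (⟨v.1 - 17, by omega⟩ : Fin 6) := by
      apply Fin.ext
      simp only [Fin.val_natAdd]
      omega
    have hne : (⟨u.1 - 17, by omega⟩ : Fin 6) ≠ ⟨v.1 - 17, by omega⟩ := by
      intro h
      rw [Fin.mk.injEq] at h
      exact huv (Fin.ext (by omega))
    have h5 := h4 _ _ hne
    rw [hu', hv']
    exact h5

end Pool.Agent.RP5
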