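import Pool.Agent.RP5.Bridge2
import Pool.Agent.RP5S.QTab

/-!
# Running the search for four rows over seven points
-/

set_option autoImplicit false
set_option linter.unusedSectionVars false

open Finset

namespace Pool.Agent.RP5

open Eng

/-- check of the incompatibility table -/
def chkInc (T : Tab) : Bool :=
  (List.range T.fac.length).all fun f => (T.inc f).blt (2 ^ T.fac.length) &&
    (List.range T.fac.length).all fun g => !(T.inc f).testBit g ||
      !Nat.beq (Nat.land (Nat.land (T.mask f) (T.mask g)) (Nat.xor (T.val f) (T.val g))) 0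

theorem chkInc_sound {T : Tab} (h : chkInc T = true) : T.incOK := by
  intro f g hg x hf hgx
  simp only [chkInc, List.all_eq_true, List.mem_range, Bool.and_eq_true, Nat.blt_eq,
    Bool.or_eq_true, Bool.not_eq_true'] at h
  have hfN : f < T.fac.length := by
    by_contra hn
    have : T.inc f = 0 := by
      unfold Tab.inc
      rw [List.getD_eq_default _ _ (by omega)]
    rw [this] at hg
    simp at hg
  obtain ⟨h1, h2⟩ := h f hfN
  have hgN : g < T.fac.length := by
    by_contra hn
    rw [Nat.testBit_lt_two_pow (lt_of_lt_of_le h1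
      (Nat.pow_le_pow_right (by norm_num) (by omega)))] at hg
    exact absurd hg (by decide)
  rcases h2 g hgN with h3 | h3
  · rw [hg] at h3; exact absurd h3 (by decide)
  · refine Nat.ne_of_beq_eq_false h3 ?_
    show (T.mask f &&& T.mask g) &&& (T.val f ^^^ T.val g) = 0
    unfold Tab.Covers at hf hgx
    refine Nat.eq_of_testBit_eq fun i => ?_
    rw [← hf, ← hgx]
    simp only [Nat.testBit_and, Nat.testBit_xor, Nat.zero_testBit]
    cases (T.mask f).testBit i <;> cases (T.mask g).testBit i <;> cases x.testBit i <;> rfl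

/-- check of an isomorphism between signed graphs on `ℕ` -/
def chkIsoF (n : ℕ) (a b : ℕ → ℕ → Bool) (p δ : ℕ) : Bool :=
  (List.range n).all fun v => (dig p v).blt n && (List.range v).all fun u =>
    !(dig p u).beq (dig p v) &&
    (b u v == xor (a (dig p u) (dig p v)) (xor (δ.testBit u) (δ.testBit v)))

theorem chkIsoF_sound {n p δ : ℕ} {a b : ℕ → ℕ → Bool} (ha : ∀ u v, a u v = a v u)
    (hb : ∀ u v : Fin n, b u v = b v u) (h : chkIsoF n a b p δ = true) :
    IsoTo (fun u v : Fin n => a u v) (fun u v : Fin n => b u v) := by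
  unfold chkIsoF at h
  simp only [List.all_eq_true, List.mem_range, Bool.and_eq_true, Nat.blt_eq,
    Bool.not_eq_true', beq_iff_eq] at h
  have hlt : ∀ v : Fin n, dig p v < n := fun v => (h v v.2).1
  have hne : ∀ u v : ℕ, u < v → v < n → dig p u ≠ dig p v := by
    intro u v huv hv he
    have := ((h v hv).2 u huv).1
    rw [he] at this
    simp at this
  have hinj : Function.Injective (fun v : Fin n => (⟨dig p v, hlt v⟩ : Fin n)) := by
    intro u v huv
    simp only [Fin.mk.injEq] at huv
    rcases lt_trichotomy (u : ℕ) v with h1 | h1 | h1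
    · exact absurd huv (hne _ _ h1 v.2)
    · exact Fin.ext h1
    · exact absurd huv.symm (hne _ _ h1 u.2)
  refine ⟨Equiv.ofBijective _ (Finite.injective_iff_bijective.mp hinj),
    fun v => δ.testBit v, fun u v huv => ?_⟩
  have key : ∀ u v : Fin n, (u : ℕ) < v → b u v =
      xor (a (dig p u) (dig p v)) (xor (δ.testBit u) (δ.testBit v)) := by
    intro u v huv
    exact ((h v v.2).2 u huv).2
  unfold pullA
  simp only [Equiv.toEmbedding_apply, Equiv.ofBijective_apply]
  rcases lt_or_gt_of_ne (fun he => huv (Fin.ext he)) with h1 | h1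
  · exact key u v h1
  · rw [hb, key v u h1, ha]
    rw [Bool.xor_comm (δ.testBit _)]

/-- the entries of the target tables -/
def qN (j : ℕ) (u v : ℕ) : Bool :=
  if h : j < 4 then ((qrows ⟨j, h⟩).getD u 0).testBit v else false

/-- the leaf check -/
def leaf11 (c : ℕ) (l : List ℕ) (j p δ : ℕ) : Bool :=
  j.blt 4 && chkIsoF 11 (rowG 7 c fun i => l.getD i 0) (qN j) p δ

/-- swapping two rows gives an isomorphic signed graph -/
theorem isoTo_swap (N n c : ℕ) (r : ℕ → ℕ) {i j : ℕ} (hi : n + i < N) (hj : n + j < N) :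
    IsoTo (rowA N n c (r ∘ Equiv.swap i j)) (rowA N n c r) := by
  refine ⟨Equiv.swap ⟨n + i, hi⟩ ⟨n + j, hj⟩, fun _ => false, fun u v huv => ?_⟩
  have key : ∀ u : Fin N, u.1 < n → (Equiv.swap (⟨n + i, hi⟩ : Fin N) ⟨n + j, hj⟩ u) = u := by
    intro u hu
    refine Equiv.swap_apply_of_ne_of_ne ?_ ?_ <;>
    · intro h
      have := congrArg Fin.val h
      simp only at this
      omega
  have key2 : ∀ u : Fin N, n ≤ u.1 →
      n ≤ (Equiv.swap (⟨n + i, hi⟩ : Fin N) ⟨n + j, hj⟩ u).1 ∧
      Equiv.swap i j ((Equiv.swap (⟨n + i, hi⟩ : Fin N) ⟨n + j, hj⟩ u).1 - n) = u.1 - n := by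
    intro u hu
    by_cases h1 : u = ⟨n + i, hi⟩
    · subst h1
      rw [Equiv.swap_apply_left]
      simp
    · by_cases h2 : u = ⟨n + j, hj⟩
      · subst h2
        rw [Equiv.swap_apply_right]
        simp
      · rw [Equiv.swap_apply_of_ne_of_ne h1 h2]
        refine ⟨hu, Equiv.swap_apply_of_ne_of_ne ?_ ?_⟩
        · intro h3
          apply h1
          apply Fin.ext
          simp only
          omega
        · intro h3
          apply h2
          apply Fin.ext
          simp only
          omega
  unfold pullA rowA rowG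
  simp only [Equiv.toEmbedding_apply, Function.comp_apply, Bool.xor_false]
  by_cases hu : u.1 < n
  · rw [key u hu]
    by_cases hv : v.1 < n
    · rw [key v hv, if_pos hu, if_pos hv, if_pos hu, if_pos hv]
    · obtain ⟨h1, h2⟩ := key2 v (by omega)
      rw [if_pos hu, if_neg hv, if_pos hu, if_neg (by omega), h2]
  · obtain ⟨h1, h2⟩ := key2 u (by omega)
    by_cases hv : v.1 < n
    · rw [key v hv, if_neg hu, if_pos hv, if_neg (by omega), if_pos hv, h2]
    · obtain ⟨h3, _⟩ := key2 v (by omega)
      rw [if_neg hu, if_neg hv, if_neg (by omega), if_neg (by omega)]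

theorem qtab_symm : ∀ (j : Fin 4) (u v : Fin 11), qtab j u v = qtab j v u := by
  decide +kernel

/-- **Classification over one base.** -/
theorem base11 {T : Tab} (hn : T.n = 7) {l : List Ins} (h1 : chkCplx T = true)
    (h2 : chkFour T = true) (h3 : chkInc T = true) (h4 : run T 4 (leaf11 T.c) l [([], 0)] = true)
    {r : ℕ → ℕ} (hr : ∀ i < 4, r i < 2 ^ 7) (hP : P (rowA 11 7 T.c r) 3 univ) :
    ∃ j, IsoTo (rowA 11 7 T.c r) (qtab j) := by
  have hH : T.H 4 r := by
    refine H_of_P h1 h2 ?_
    rw [hn]; exact hP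
  refine run_goal (chkInc_sound h3) (m := 4)
    (G := fun r => ∃ j, IsoTo (rowA 11 7 T.c r) (qtab j)) ?_ ?_ h4 (by rw [hn]; exact hr) hH
  · rintro r i j hi hj ⟨k, hk⟩
    refine ⟨k, IsoTo.trans ?_ hk⟩
    have := isoTo_swap 11 7 T.c (r ∘ Equiv.swap i j) (i := i) (j := j) (by omega) (by omega)
    have h5 : (r ∘ Equiv.swap i j) ∘ Equiv.swap i j = r := by
      funext x
      simp
    rw [h5] at this
    exact this
  · intro l j p δ hl hlen r hlr
    simp only [leaf11, Bool.and_eq_true, Nat.blt_eq] at hl
    obtain ⟨hj, hl⟩ := hl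
    refine ⟨⟨j, hj⟩, ?_⟩
    have hb : ∀ u v : Fin 11, qN j u v = qtab ⟨j, hj⟩ u v := by
      intro u v
      unfold qN qtab
      rw [dif_pos hj]
    have h5 := chkIsoF_sound (n := 11) (rowG_symm 7 T.c fun i => l.getD i 0)
      (fun u v => by rw [hb, hb, qtab_symm]) hl
    obtain ⟨e, δ', h6⟩ := h5
    refine ⟨e, δ', fun u v huv => ?_⟩
    rw [← hb]
    refine (h6 u v huv).trans ?_
    have h7 : ∀ u v : Fin 11, rowG 7 T.c (fun i => l.getD i 0) u v = rowA 11 7 T.c r u v := by
      intro u v
      unfold rowA rowG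
      have h8 : ∀ w : Fin 11, 7 ≤ w.1 → l.getD (w.1 - 7) 0 = r (w.1 - 7) := by
        intro w hw
        have hw2 := w.2
        have h9 : w.1 - 7 < l.length := by omega
        rw [List.getD_eq_getElem _ _ h9, hlr _ h9]
      by_cases hu : u.1 < 7
      · by_cases hv : v.1 < 7
        · rw [if_pos hu, if_pos hv, if_pos hu, if_pos hv]
        · rw [if_pos hu, if_neg hv, if_pos hu, if_neg hv]
          simp only
          rw [h8 v (by omega)]
      · by_cases hv : v.1 < 7
        · rw [if_neg hu, if_pos hv, if_neg hu, if_pos hv]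
          simp only
          rw [h8 u (by omega)]
        · rw [if_neg hu, if_neg hv, if_neg hu, if_neg hv]
    unfold pullA
    simp only
    rw [h7]

end Pool.Agent.RP5
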