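import Pool.Agent.RP5.Fan

/-!
# The lower bound `⌈(k+2)²/2⌉ - 2`
-/

set_option autoImplicit false
set_option linter.unusedSectionVars false

open Finset

namespace Pool.Agent.RP5

variable {V : Type*} [DecidableEq V] [Fintype V]

/-- signed vertices coherent with `(t, ε t)` -/
def XX (a : V → V → Bool) (ε : V → Bool) (t : V) : Finset (V × Bool) :=
  univ.filter fun p => (p.1 = t → p.2 = ε t) ∧ (p.1 ≠ t → a t p.1 = xor (ε t) p.2)

theorem mem_XX {a : V → V → Bool} {ε : V → Bool} {t : V} {p : V × Bool} :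
    p ∈ XX a ε t ↔ (p.1 = t → p.2 = ε t) ∧ (p.1 ≠ t → a t p.1 = xor (ε t) p.2) := by
  simp [XX]

theorem AF_XX (a : V → V → Bool) (ε : V → Bool) (t : V) : AF (XX a ε t) := by
  intro p hp hn
  rw [mem_XX] at hp hn
  simp only [neg_apply] at hn
  by_cases h : p.1 = t
  · have h1 := hp.1 h
    have h2 := hn.1 h
    rw [h1] at h2
    exact Bool.not_ne_self _ h2
  · have h1 := hp.2 h
    have h2 := hn.2 h
    rw [h1] at h2
    revert h2
    cases ε t <;> cases p.2 <;> simp

/-- (F) Let `τ` be coherent with `k + 1` elements. Either there is a coherent set with `k + 1`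
elements disjoint from `τ`, or every splitting `τ = I ∪ J` is realised by the signs of a vertex. -/
theorem P.split {a : V → V → Bool} {k : ℕ} {U τ : Finset V}
    {ε : V → Bool} (h : P a k U) (hτ : IsSgn a ε τ) (hcard : τ.card = k + 1) :
    (∃ σ, Coh a σ ∧ σ.card = k + 1 ∧ σ ⊆ U \ τ) ∨
      ∀ I ⊆ τ, I.Nonempty → I ≠ τ → ∃ v ∈ U \ τ, ∃ b, ∀ t ∈ τ,
        (a t v = xor (ε t) b ↔ t ∈ I) := by
  classical
  obtain ⟨z, hz⟩ := h
  by_cases hR : ∃ s, z s ≠ 0 ∧ ∀ p ∈ s, p.1 ∉ τ
  · left
    obtain ⟨s, hs, hsτ⟩ := hR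
    obtain ⟨h1, h2⟩ := hz.supp s hs
    refine ⟨pr s, h1.coh, by rw [card_pr h1, hz.card hs], fun v hv => ?_⟩
    refine mem_sdiff.mpr ⟨h2 hv, ?_⟩
    simp only [pr, mem_image] at hv
    obtain ⟨p, hp, rfl⟩ := hv
    exact hsτ p hp
  · right
    push Not at hR
    intro I hIτ hI hne
    let e : τ ≃ Fin (k + 1) := Finset.equivFinOfCardEq hcard
    let X : Fin (k + 1) → Finset (V × Bool) := fun j =>
      if ((e.symm j : τ) : V) ∈ I then XX a ε (e.symm j : τ) else negS (XX a ε (e.symm j : τ))
    have hX : Half X := by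
      intro j
      simp only [X]
      split_ifs
      · exact AF_XX _ _ _
      · exact (AF_XX _ _ _).negS
    have hcov : ∀ s, z s ≠ 0 → ∃ j, CovBy X s j := by
      intro s hs
      obtain ⟨p, hp, hpτ⟩ := hR s hs
      obtain ⟨h1, _⟩ := hz.supp s hs
      have hc : s ⊆ XX a ε p.1 ∨ s ⊆ negS (XX a ε p.1) := by
        by_cases hb : p.2 = ε p.1
        · left
          intro q hq
          rw [mem_XX]
          refine ⟨fun he => ?_, fun hne => ?_⟩
          · rw [(h1 q hq p hp).1 he, hb]
          · rw [(h1 p hp q hq).2 (Ne.symm hne), hb]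
        · right
          intro q hq
          rw [mem_negS, mem_XX]
          simp only [neg_apply]
          have hb' : p.2 = !ε p.1 := Bool.eq_not_of_ne hb
          refine ⟨fun he => ?_, fun hne => ?_⟩
          · rw [(h1 q hq p hp).1 he, hb', Bool.not_not]
          · rw [(h1 p hp q hq).2 (Ne.symm hne), hb']
            cases ε p.1 <;> cases q.2 <;> rfl
      refine ⟨e ⟨p.1, hpτ⟩, ?_⟩
      unfold CovBy
      simp only [X, Equiv.symm_apply_apply]
      by_cases hi : p.1 ∈ I
      · rw [if_pos hi]; exact hc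
      · rw [if_neg hi, negS_negS]; exact hc.symm
    obtain ⟨s, hs, p, hp, hpX⟩ := hz.fan hX hcov
    have hpt : ∀ t ∈ τ, (t ∈ I → p ∈ XX a ε t) ∧ (t ∉ I → neg p ∈ XX a ε t) := by
      intro t ht
      have := hpX (e ⟨t, ht⟩)
      simp only [X, Equiv.symm_apply_apply] at this
      refine ⟨fun hi => ?_, fun hi => ?_⟩
      · rw [if_pos hi] at this; exact this
      · rw [if_neg hi, mem_negS] at this; exact this
    -- `p.1` is not in `τ`
    have hpτ : p.1 ∉ τ := by
      intro hpτ
      have key : ∀ t ∈ τ, (p ∈ XX a ε t → p.2 = ε p.1) ∧ (neg p ∈ XX a ε t → p.2 = !ε p.1) := by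
        intro t ht
        by_cases he : p.1 = t
        · subst he
          refine ⟨fun h => (mem_XX.mp h).1 rfl, fun h => ?_⟩
          have := (mem_XX.mp h).1 rfl
          simp only [neg_apply] at this
          rw [← this, Bool.not_not]
        · have hs1 := hτ t ht p.1 hpτ (Ne.symm he)
          refine ⟨fun h => ?_, fun h => ?_⟩
          · have := (mem_XX.mp h).2 he
            rw [hs1] at this
            revert this
            cases ε t <;> cases ε p.1 <;> cases p.2 <;> simp
          · have := (mem_XX.mp h).2 he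
            simp only [neg_apply] at this
            rw [hs1] at this
            revert this
            cases ε t <;> cases ε p.1 <;> cases p.2 <;> simp
      obtain ⟨i, hi⟩ := hI
      obtain ⟨j, hj, hjI⟩ : ∃ j ∈ τ, j ∉ I := by
        by_contra hn
        push Not at hn
        exact hne (subset_antisymm hIτ hn)
      have e1 := (key i (hIτ hi)).1 ((hpt i (hIτ hi)).1 hi)
      have e2 := (key j hj).2 ((hpt j hj).2 hjI)
      rw [e1] at e2
      exact Bool.not_ne_self _ e2.symm
    have hpU : p.1 ∈ U := (hz.supp s hs).2 (mem_pr hp)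
    refine ⟨p.1, mem_sdiff.mpr ⟨hpU, hpτ⟩, p.2, fun t ht => ?_⟩
    have hne' : p.1 ≠ t := fun he => hpτ (he ▸ ht)
    constructor
    · intro h1
      by_contra hi
      have := (mem_XX.mp ((hpt t ht).2 hi)).2 hne'
      simp only [neg_apply] at this
      rw [h1] at this
      revert this
      cases ε t <;> cases p.2 <;> simp
    · intro hi
      exact (mem_XX.mp ((hpt t ht).1 hi)).2 hne'

/-- number of vertices outside a coherent set all of whose splittings are realised -/
theorem card_of_split {a : V → V → Bool} {ε : V → Bool} {W τ : Finset V}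
    (h : ∀ I ⊆ τ, I.Nonempty → I ≠ τ → ∃ v ∈ W, ∃ b : Bool, ∀ t ∈ τ,
        (a t v = xor (ε t) b ↔ t ∈ I)) (hne : τ.Nonempty) :
    2 ^ τ.card ≤ 2 * W.card + 2 := by
  classical
  let g : V × Bool → Finset V := fun p => τ.filter fun t => a t p.1 = xor (ε t) p.2
  have h1 : ((τ.powerset.erase ∅).erase τ) ⊆ (W ×ˢ (univ : Finset Bool)).image g := by
    intro I hI
    rw [mem_erase, mem_erase, mem_powerset] at hI
    obtain ⟨v, hv, b, hb⟩ := h I hI.2.2 (nonempty_iff_ne_empty.mpr hI.2.1) hI.1
    rw [mem_image]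
    refine ⟨(v, b), by simp [hv], ?_⟩
    ext t
    simp only [g, mem_filter]
    constructor
    · rintro ⟨h2, h3⟩; exact (hb t h2).mp h3
    · intro h2; exact ⟨hI.2.2 h2, (hb t (hI.2.2 h2)).mpr h2⟩
  have h2 := (card_le_card h1).trans card_image_le
  rw [card_product, card_univ, Fintype.card_bool] at h2
  have h3 : τ ∈ τ.powerset.erase ∅ := by
    rw [mem_erase, mem_powerset]
    exact ⟨hne.ne_empty, Subset.refl _⟩
  rw [card_erase_of_mem h3, card_erase_of_mem (empty_mem_powerset τ), card_powerset] at h2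
  omega

theorem PF.exists_coh {a : V → V → Bool} {k : ℕ} {F : Finset V → Prop} (h : PF a k F) :
    ∃ σ, Coh a σ ∧ σ.card = k + 1 ∧ F σ := by
  obtain ⟨z, hz⟩ := h
  obtain ⟨s, hs⟩ := hz.ne_zero
  obtain ⟨h1, h2⟩ := hz.supp s hs
  exact ⟨pr s, h1.coh, by rw [card_pr h1, hz.card hs], h2⟩

/-- **The lower bound.** -/
theorem P.bound {a : V → V → Bool} (ha : ∀ u v, a u v = a v u) (k : ℕ) :
    ∀ U : Finset V, P a k U → (k + 2) ^ 2 ≤ 2 * U.card + 4 := by
  induction k using Nat.strong_induction_on with
  | _ k ih =>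
    intro U h
    obtain ⟨τ, hτ, hcard, hτU⟩ := h.exists_coh
    obtain ⟨ε, hε⟩ := hτ.exists_isSgn ha
    have hU : (U \ τ).card + τ.card = U.card := card_sdiff_add_card_eq_card hτU
    rcases h.split hε hcard with ⟨σ, hσ, hσc, hσU⟩ | hsp
    · have hU2 : ((U \ τ) \ σ).card + σ.card = (U \ τ).card := card_sdiff_add_card_eq_card hσU
      match k, ih, h, hcard, hσc with
      | 0, ih, h, hcard, hσc => omega
      | 1, ih, h, hcard, hσc => omega
      | k + 2, ih, h, hcard, hσc =>
        have h1 : P a (k + 1) (U \ τ) := h.step ha hτ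
        have h2 : P a k ((U \ τ) \ σ) := h1.step ha hσ
        have h3 := ih k (by omega) _ h2
        have : (k + 2 + 2) ^ 2 = (k + 2) ^ 2 + 4 * (k + 3) := by ring
        rw [this]
        omega
    · have h1 := card_of_split hsp (card_pos.mp (by omega))
      rw [hcard] at h1
      have h2 : (k + 2) ^ 2 ≤ 2 ^ (k + 1) + 2 * k + 4 := by
        clear ih h hcard hU h1 hsp hε
        match k with
        | 0 => norm_num
        | 1 => norm_num
        | 2 => norm_num
        | k + 3 =>
          have : ∀ n : ℕ, (n + 5) ^ 2 ≤ 2 ^ (n + 4) + 2 * (n + 3) + 4 := by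
            intro n
            induction n with
            | zero => norm_num
            | succ n ih =>
              have e1 : 2 ^ (n + 1 + 4) = 2 * 2 ^ (n + 4) := by ring
              rw [e1]
              nlinarith
          exact this k
      omega

end Pool.Agent.RP5
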