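import Mathlib

/-!
# A covering search

Rows are natural numbers `r i < 2 ^ n`; a row `x` covers the facet `f` if `x &&& mask f = val f`.
-/

set_option autoImplicit false
set_option linter.unusedSectionVars false

namespace Pool.Agent.RP5.Eng

/-- tables for the search: facets (mask, values, facets incompatible with it), alternating facets,
ridges (mask, values, facets containing it), free facets (mask, the two facets over it) -/
structure Tab where
  /-- number of columns -/
  n : ℕ
  /-- code of the signed graph -/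
  c : ℕ
  /-- facets -/
  fac : List (ℕ × ℕ × ℕ)
  /-- alternating facets -/
  alt : ℕ
  /-- ridges -/
  star : List (ℕ × ℕ × ℕ)
  /-- free facets -/
  free : List (ℕ × ℕ)

/-- the mask of the facet `f` -/
def Tab.mask (T : Tab) (f : ℕ) : ℕ := (T.fac.getD f (0, 0, 0)).1

/-- the values of the facet `f` -/
def Tab.val (T : Tab) (f : ℕ) : ℕ := (T.fac.getD f (0, 0, 0)).2.1

/-- the facets incompatible with `f` -/
def Tab.inc (T : Tab) (f : ℕ) : ℕ := (T.fac.getD f (0, 0, 0)).2.2

/-- the row `x` covers the facet `f` -/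
def Tab.Covers (T : Tab) (x f : ℕ) : Prop := x &&& T.mask f = T.val f

/-- sum of the selected stars -/
def xorS : List (ℕ × ℕ × ℕ) → ℕ → ℕ
  | [], _ => 0
  | s :: l, p => Nat.xor (Nat.mul s.2.2 (Nat.mod p 2)) (xorS l (Nat.div p 2))

/-- sum of the selected pairs -/
def xorP : List (ℕ × ℕ) → ℕ → ℕ
  | [], _ => 0
  | s :: l, p => Nat.xor (Nat.mul s.2 (Nat.mod p 2)) (xorP l (Nat.div p 2))

/-- the support of the cochain with the parameters `ψ` and `φ` -/
def Tab.E (T : Tab) (ψ φ : ℕ) : ℕ := Nat.xor T.alt (Nat.xor (xorS T.star ψ) (xorP T.free φ))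

/-- the covering hypothesis -/
def Tab.H (T : Tab) (m : ℕ) (r : ℕ → ℕ) : Prop :=
  ∀ ψ φ, ∃ f, (T.E ψ φ).testBit f = true ∧ ∃ i < m, T.Covers (r i) f

/-- what is known about a row: the columns `K` are known and have the values `V`, the facets `X`
are not covered -/
structure RowS where
  /-- known columns -/
  K : ℕ
  /-- values -/
  V : ℕ
  /-- facets not covered -/
  X : ℕ

/-- `x` agrees with the information -/
def MatchR (T : Tab) (ρ : RowS) (x : ℕ) : Prop :=
  x &&& ρ.K = ρ.V ∧ ∀ f, ρ.X.testBit f = true → ¬ T.Covers x f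

/-- meaning of a state -/
def Sem (T : Tab) (m : ℕ) (G : (ℕ → ℕ) → Prop) (s : List RowS × ℕ) : Prop :=
  ∀ r : ℕ → ℕ, (∀ i < m, r i < 2 ^ T.n) → T.H m r →
    (∀ i (h : i < s.1.length), MatchR T s.1[i] (r i)) →
    (∀ i, s.1.length ≤ i → i < m → ∀ f, s.2.testBit f = true → ¬ T.Covers (r i) f) → G r

/-- instructions -/
inductive Ins where
  /-- split: does row `i` cover the facet `f`? -/
  | S (i f : ℕ)
  /-- split: does some new row cover the facet `f`? -/
  | N (f : ℕ)
  /-- refute by a cochain -/
  | R (ψ φ : ℕ)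
  /-- refute: the row `i` covers `f` but it should not -/
  | C (i f : ℕ)
  /-- split the column `v` of row `i` -/
  | B (i v : ℕ)
  /-- leaf, with a certificate for the goal -/
  | L (j p δ : ℕ)

/-- facets excluded for all rows -/
def interX : List RowS → ℕ → ℕ
  | [], x => x
  | ρ :: l, x => Nat.land ρ.X (interX l x)

/-- update of a row which covers `f` -/
def upd (T : Tab) (f : ℕ) (ρ : RowS) : RowS :=
  ⟨Nat.lor ρ.K (T.mask f), Nat.lor ρ.V (T.val f), Nat.lor ρ.X (T.inc f)⟩

/-- update of a row which does not cover `f` -/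
def updN (f : ℕ) (ρ : RowS) : RowS := ⟨ρ.K, ρ.V, Nat.lor ρ.X (Nat.shiftLeft 1 f)⟩

/-- one instruction: the list of children, or `none` if it fails -/
def step (T : Tab) (m : ℕ) (leaf : (List ℕ) → ℕ → ℕ → ℕ → Bool) (I : Ins)
    (s : List RowS × ℕ) : Option (List (List RowS × ℕ)) :=
  match I with
  | .S i f =>
    match s.1[i]? with
    | some ρ => some [(s.1.set i (upd T f ρ), s.2), (s.1.set i (updN f ρ), s.2)]
    | none => none
  | .N f =>
    if s.1.length < m then
      some [(s.1 ++ [⟨T.mask f, T.val f, Nat.lor s.2 (T.inc f)⟩], s.2),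
        (s.1, Nat.lor s.2 (Nat.shiftLeft 1 f))]
    else none
  | .R ψ φ =>
    if s.1.length ≤ m ∧ Nat.beq (Nat.land (T.E ψ φ)
        (interX s.1 (if s.1.length = m then T.E ψ φ else s.2))) (T.E ψ φ) = true then
      some [] else none
  | .C i f =>
    match s.1[i]? with
    | some ρ =>
      if Nat.beq (Nat.land ρ.K (T.mask f)) (T.mask f) && Nat.beq (Nat.land ρ.V (T.mask f)) (T.val f)
        && Nat.testBit ρ.X f then some [] else none
    | none => none
  | .B i v =>
    match s.1[i]? with
    | some ρ => some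
        [(s.1.set i ⟨Nat.lor ρ.K (Nat.shiftLeft 1 v), Nat.lor ρ.V (Nat.shiftLeft 1 v), ρ.X⟩, s.2),
          (s.1.set i ⟨Nat.lor ρ.K (Nat.shiftLeft 1 v), ρ.V, ρ.X⟩, s.2)]
    | none => none
  | .L j p δ =>
    if s.1.length = m ∧ (s.1.all fun ρ => Nat.beq ρ.K (2 ^ T.n - 1)) = true ∧
      leaf (s.1.map RowS.V) j p δ = true then some [] else none

/-- run the instructions on a stack of states -/
def run (T : Tab) (m : ℕ) (leaf : (List ℕ) → ℕ → ℕ → ℕ → Bool) :
    List Ins → List (List RowS × ℕ) → Bool
  | _, [] => true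
  | [], _ :: _ => false
  | I :: l, s :: st =>
    match step T m leaf I s with
    | none => false
    | some ch => run T m leaf l (ch ++ st)

/-- the incompatibility table is correct -/
def Tab.incOK (T : Tab) : Prop := ∀ f g, (T.inc f).testBit g = true → ∀ x, T.Covers x f →
  ¬ T.Covers x g

theorem MatchR.upd {T : Tab} (hT : T.incOK) {ρ : RowS} {x f : ℕ} (h : MatchR T ρ x)
    (hf : T.Covers x f) : MatchR T (upd T f ρ) x := by
  obtain ⟨h1, h2⟩ := h
  refine ⟨?_, ?_⟩
  · show x &&& (ρ.K ||| T.mask f) = ρ.V ||| T.val f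
    rw [Nat.and_or_distrib_left, h1, hf]
  · intro g hg
    have hg' : (ρ.X ||| T.inc f).testBit g = true := hg
    rw [Nat.testBit_or, Bool.or_eq_true] at hg'
    rcases hg' with hg' | hg'
    · exact h2 g hg'
    · exact hT f g hg' x hf

theorem testBit_one_shiftLeft {f g : ℕ} (h : (1 <<< f).testBit g = true) : g = f := by
  rw [Nat.testBit_shiftLeft] at h
  simp only [ge_iff_le, Bool.and_eq_true, decide_eq_true_eq] at h
  obtain ⟨h1, h2⟩ := h
  rw [Nat.testBit_one_eq_true_iff_self_eq_zero] at h2
  omega

theorem MatchR.updN {T : Tab} {ρ : RowS} {x f : ℕ} (h : MatchR T ρ x)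
    (hf : ¬ T.Covers x f) : MatchR T (updN f ρ) x := by
  obtain ⟨h1, h2⟩ := h
  refine ⟨h1, ?_⟩
  intro g hg
  have hg' : (ρ.X ||| (1 <<< f)).testBit g = true := hg
  rw [Nat.testBit_or, Bool.or_eq_true] at hg'
  rcases hg' with hg' | hg'
  · exact h2 g hg'
  · rw [testBit_one_shiftLeft hg']; exact hf

theorem sem_set {T : Tab} {m : ℕ} {G : (ℕ → ℕ) → Prop} {s : List RowS × ℕ} {i : ℕ} {ρ ρ' : RowS}
    (hs : Sem T m G (s.1.set i ρ', s.2)) (hi : s.1[i]? = some ρ) {r : ℕ → ℕ}
    (h1 : ∀ i < m, r i < 2 ^ T.n) (h2 : T.H m r)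
    (h3 : ∀ i (h : i < s.1.length), MatchR T s.1[i] (r i))
    (h4 : ∀ i, s.1.length ≤ i → i < m → ∀ f, s.2.testBit f = true → ¬ T.Covers (r i) f)
    (h5 : MatchR T ρ (r i) → MatchR T ρ' (r i)) : G r := by
  refine hs r h1 h2 ?_ (by simpa using h4)
  intro j hj
  simp only [List.length_set] at hj
  obtain ⟨hi1, hi2⟩ := List.getElem?_eq_some_iff.mp hi
  by_cases hij : i = j
  · subst hij
    simp only [List.getElem_set_self]
    refine h5 ?_
    have := h3 i hi1
    rw [hi2] at this
    exact this
  · simp only [List.getElem_set_ne hij]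
    exact h3 j hj

theorem interX_testBit {l : List RowS} {x f : ℕ} (h : (interX l x).testBit f = true) :
    (∀ i (hi : i < l.length), l[i].X.testBit f = true) ∧ x.testBit f = true := by
  induction l with
  | nil => exact ⟨fun i hi => absurd hi (by simp), h⟩
  | cons ρ l ih =>
    have h' : (ρ.X &&& interX l x).testBit f = true := h
    rw [Nat.testBit_and, Bool.and_eq_true] at h'
    obtain ⟨h1, h2⟩ := ih h'.2
    refine ⟨fun i hi => ?_, h2⟩
    rcases i with _ | i
    · exact h'.1
    · simp only [List.getElem_cons_succ]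
      exact h1 i (by simpa using hi)

theorem step_sound {T : Tab} (hT : T.incOK) {m : ℕ} {G : (ℕ → ℕ) → Prop}
    (hG : ∀ r i j, i < m → j < m → G (r ∘ Equiv.swap i j) → G r)
    {leaf : (List ℕ) → ℕ → ℕ → ℕ → Bool}
    (hleaf : ∀ l j p δ, leaf l j p δ = true → l.length = m → ∀ r : ℕ → ℕ,
      (∀ i (h : i < l.length), r i = l[i]) → G r)
    {I : Ins} {s : List RowS × ℕ} {ch : List (List RowS × ℕ)}
    (h : step T m leaf I s = some ch) (hch : ∀ s' ∈ ch, Sem T m G s') : Sem T m G s := by
  intro r h1 h2 h3 h4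
  rcases I with ⟨i, f⟩ | f | ⟨ψ, φ⟩ | ⟨i, f⟩ | ⟨i, v⟩ | ⟨j, p, δ⟩
  · -- S
    simp only [step] at h
    rcases hi : s.1[i]? with _ | ρ
    · rw [hi] at h; simp at h
    · rw [hi] at h
      simp only [Option.some.injEq] at h
      subst h
      by_cases hc : T.Covers (r i) f
      · exact sem_set (hch _ (by simp)) hi h1 h2 h3 h4 fun hm => hm.upd hT hc
      · exact sem_set (hch (s.1.set i (updN f ρ), s.2) (by simp)) hi h1 h2 h3 h4
          fun hm => hm.updN hc
  · -- N
    simp only [step] at h
    split_ifs at h with hlen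
    simp only [Option.some.injEq] at h
    subst h
    by_cases hc : ∃ i, s.1.length ≤ i ∧ i < m ∧ T.Covers (r i) f
    · obtain ⟨i, hi1, hi2, hi3⟩ := hc
      refine hG r i s.1.length hi2 hlen ?_
      refine hch _ (List.mem_cons_self) (r ∘ Equiv.swap i s.1.length) ?_ ?_ ?_ ?_
      · intro j hj
        refine h1 _ ?_
        rw [Equiv.swap_apply_def]
        split_ifs <;> omega
      · intro ψ φ
        obtain ⟨g, hg, j, hj, hc⟩ := h2 ψ φ
        refine ⟨g, hg, Equiv.swap i s.1.length j, ?_, ?_⟩
        · rw [Equiv.swap_apply_def]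
          split_ifs <;> omega
        · simpa using hc
      · intro j hj
        simp only [List.length_append, List.length_singleton] at hj
        simp only [Function.comp_apply]
        by_cases hjl : j < s.1.length
        · rw [List.getElem_append_left hjl, Equiv.swap_apply_of_ne_of_ne (by omega) (by omega)]
          exact h3 j hjl
        · have hj2 : j = s.1.length := by omega
          subst hj2
          rw [Equiv.swap_apply_right]
          simp only [le_refl, List.getElem_append_right, Nat.sub_self,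
            List.getElem_cons_zero]
          refine ⟨hi3, ?_⟩
          intro g hg
          have hg' : (s.2 ||| T.inc f).testBit g = true := hg
          rw [Nat.testBit_or, Bool.or_eq_true] at hg'
          rcases hg' with hg' | hg'
          · exact h4 i hi1 hi2 g hg'
          · exact hT f g hg' _ hi3
      · intro j hj1 hj2 g hg
        simp only [List.length_append, List.length_singleton] at hj1
        simp only [Function.comp_apply]
        refine h4 _ ?_ ?_ g hg <;>
        · rw [Equiv.swap_apply_def]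
          split_ifs <;> omega
    · push Not at hc
      refine hch (s.1, Nat.lor s.2 (Nat.shiftLeft 1 f)) (by simp) r h1 h2 h3 ?_
      intro i hi1 hi2 g hg
      have hg' : (s.2 ||| (1 <<< f)).testBit g = true := hg
      rw [Nat.testBit_or, Bool.or_eq_true] at hg'
      rcases hg' with hg' | hg'
      · exact h4 i hi1 hi2 g hg'
      · rw [testBit_one_shiftLeft hg']; exact hc i hi1 hi2
  · -- R
    simp only [step] at h
    by_cases hR : s.1.length ≤ m ∧ Nat.beq (Nat.land (T.E ψ φ)
        (interX s.1 (if s.1.length = m then T.E ψ φ else s.2))) (T.E ψ φ) = true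
    swap
    · rw [if_neg hR] at h
      simp at h
    obtain ⟨hlen, hR⟩ := hR
    exfalso
    obtain ⟨f, hf, i, hi, hc⟩ := h2 ψ φ
    have hR' := Nat.eq_of_beq_eq_true hR
    have h5 : ((T.E ψ φ) &&&
        (interX s.1 (if s.1.length = m then T.E ψ φ else s.2))).testBit f = true := by
      have : ((T.E ψ φ) &&& (interX s.1 (if s.1.length = m then T.E ψ φ else s.2))) =
        T.E ψ φ := hR'
      rw [this]; exact hf
    rw [Nat.testBit_and, Bool.and_eq_true] at h5
    obtain ⟨h6, h7⟩ := interX_testBit h5.2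
    by_cases hil : i < s.1.length
    · exact (h3 i hil).2 f (h6 i hil) hc
    · rw [if_neg (by omega)] at h7
      exact h4 i (by omega) hi f h7 hc
  · -- C
    simp only [step] at h
    rcases hi : s.1[i]? with _ | ρ
    · rw [hi] at h; simp at h
    · rw [hi] at h
      obtain ⟨hi1, hi2⟩ := List.getElem?_eq_some_iff.mp hi
      simp only at h
      split_ifs at h with hC
      rw [Bool.and_eq_true, Bool.and_eq_true] at hC
      obtain ⟨⟨hC1, hC2⟩, hC3⟩ := hC
      exfalso
      have h5 := h3 i hi1
      rw [hi2] at h5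
      refine h5.2 f hC3 ?_
      have e1 : ρ.K &&& T.mask f = T.mask f := Nat.eq_of_beq_eq_true hC1
      have e2 : ρ.V &&& T.mask f = T.val f := Nat.eq_of_beq_eq_true hC2
      show r i &&& T.mask f = T.val f
      rw [← e1, ← Nat.land_assoc, h5.1, e2]
  · -- B
    simp only [step] at h
    rcases hi : s.1[i]? with _ | ρ
    · rw [hi] at h; simp at h
    · rw [hi] at h
      simp only [Option.some.injEq] at h
      subst h
      rcases hb : (r i).testBit v with _ | _
      · refine sem_set (hch (s.1.set i ⟨Nat.lor ρ.K (Nat.shiftLeft 1 v), ρ.V, ρ.X⟩, s.2)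
          (by simp)) hi h1 h2 h3 h4 fun hm => ⟨?_, hm.2⟩
        show r i &&& (ρ.K ||| (1 <<< v)) = ρ.V
        rw [Nat.and_or_distrib_left, hm.1]
        have : r i &&& (1 <<< v) = 0 := by
          refine Nat.eq_of_testBit_eq fun j => ?_
          rw [Nat.testBit_and, Nat.zero_testBit]
          by_cases hj : (1 <<< v).testBit j = true
          · rw [testBit_one_shiftLeft hj, hb, Bool.false_and]
          · rw [Bool.not_eq_true] at hj
            rw [hj, Bool.and_false]
        rw [this, Nat.or_zero]
      · refine sem_set (hch (s.1.set i ⟨Nat.lor ρ.K (Nat.shiftLeft 1 v),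
          Nat.lor ρ.V (Nat.shiftLeft 1 v), ρ.X⟩, s.2) (by simp)) hi h1 h2 h3 h4
          fun hm => ⟨?_, hm.2⟩
        show r i &&& (ρ.K ||| (1 <<< v)) = ρ.V ||| (1 <<< v)
        rw [Nat.and_or_distrib_left, hm.1]
        have : r i &&& (1 <<< v) = 1 <<< v := by
          refine Nat.eq_of_testBit_eq fun j => ?_
          rw [Nat.testBit_and]
          by_cases hj : (1 <<< v).testBit j = true
          · rw [testBit_one_shiftLeft hj, hb, Bool.true_and]
          · rw [Bool.not_eq_true] at hj
            rw [hj, Bool.and_false]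
        rw [this]
  · -- L
    simp only [step] at h
    split_ifs at h with hL
    obtain ⟨hlen, hK, hl⟩ := hL
    refine hleaf _ _ _ _ hl (by simpa using hlen) r ?_
    intro i hi
    simp only [List.length_map] at hi
    simp only [List.getElem_map]
    have h5 := (h3 i hi).1
    have h6 := List.all_eq_true.mp hK _ (List.getElem_mem hi)
    have h7 : (s.1[i]).K = 2 ^ T.n - 1 := Nat.eq_of_beq_eq_true h6
    rw [h7, Nat.and_two_pow_sub_one_eq_mod, Nat.mod_eq_of_lt (h1 i (by omega))] at h5
    exact h5

theorem run_sound {T : Tab} (hT : T.incOK) {m : ℕ} {G : (ℕ → ℕ) → Prop}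
    (hG : ∀ r i j, i < m → j < m → G (r ∘ Equiv.swap i j) → G r)
    {leaf : (List ℕ) → ℕ → ℕ → ℕ → Bool}
    (hleaf : ∀ l j p δ, leaf l j p δ = true → l.length = m → ∀ r : ℕ → ℕ,
      (∀ i (h : i < l.length), r i = l[i]) → G r)
    {l : List Ins} {st : List (List RowS × ℕ)} (h : run T m leaf l st = true) :
    ∀ s ∈ st, Sem T m G s := by
  induction l generalizing st with
  | nil =>
    rcases st with _ | ⟨s, st⟩
    · simp
    · simp [run] at h
  | cons I l ih =>
    rcases st with _ | ⟨s, st⟩
    · simp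
    · simp only [run] at h
      rcases hs : step T m leaf I s with _ | ch
      · rw [hs] at h; simp at h
      · rw [hs] at h
        simp only at h
        have h1 := ih h
        intro s' hs'
        rcases List.mem_cons.mp hs' with rfl | hs'
        · exact step_sound hT hG hleaf hs fun s'' hs'' => h1 s'' (List.mem_append_left _ hs'')
        · exact h1 s' (List.mem_append_right _ hs')

/-- the search proves the goal -/
theorem run_goal {T : Tab} (hT : T.incOK) {m : ℕ} {G : (ℕ → ℕ) → Prop}
    (hG : ∀ r i j, i < m → j < m → G (r ∘ Equiv.swap i j) → G r)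
    {leaf : (List ℕ) → ℕ → ℕ → ℕ → Bool}
    (hleaf : ∀ l j p δ, leaf l j p δ = true → l.length = m → ∀ r : ℕ → ℕ,
      (∀ i (h : i < l.length), r i = l[i]) → G r)
    {l : List Ins} (h : run T m leaf l [([], 0)] = true) {r : ℕ → ℕ}
    (h1 : ∀ i < m, r i < 2 ^ T.n) (h2 : T.H m r) : G r := by
  refine run_sound hT hG hleaf h _ (List.mem_singleton_self _) r h1 h2 ?_ ?_
  · intro i hi
    simp at hi
  · intro i _ _ f hf
    simp at hf

end Pool.Agent.RP5.Eng
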