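import Pool.Agent.RP5.Signed

/-!
# Cochain certificates for vertex sets
-/

set_option autoImplicit false
set_option linter.unusedSectionVars false

open Finset

namespace Pool.Agent.RP5

variable {V : Type*} [LinearOrder V] [Fintype V]

/-- parity of the number of elements of `ρ` before `v` -/
def par (ρ : Finset V) (v : V) : Bool := decide (Odd (ρ.filter fun w => w < v).card)

/-- the lifts of `ρ` have alternating signs (with respect to the order of the vertices) -/
def AltU (a : V → V → Bool) (ρ : Finset V) : Prop :=
  ∀ u ∈ ρ, ∀ v ∈ ρ, u < v → a u v = xor (par ρ u) (par ρ v)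

instance (a : V → V → Bool) (ρ : Finset V) : Decidable (AltU a ρ) := by
  unfold AltU; infer_instance

theorem before_eq {a : V → V → Bool} {s : Finset (V × Bool)} (h : CohS a s) (v : V) :
    before s v = ((pr s).filter fun w => w < v).card := by
  unfold before pr
  rw [filter_image, card_image_of_injOn]
  intro p hp q hq he
  exact (h p (mem_filter.mp (mem_coe.mp hp)).1 q (mem_filter.mp (mem_coe.mp hq)).1).1 he

theorem altc_add {a : V → V → Bool} (ha : ∀ u v, a u v = a v u) {s : Finset (V × Bool)}
    (h : CohS a s) (hne : s.Nonempty) :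
    altc true s + altc false s = if AltU a (pr s) then 1 else 0 := by
  have h1 : ∀ b, altp b s ↔ ∀ p ∈ s, p.2 = xor b (par (pr s) p.1) := by
    intro b
    unfold altp par
    refine forall₂_congr fun p _ => ?_
    rw [before_eq h]
  have h2 : ¬ (altp true s ∧ altp false s) := by
    rintro ⟨h3, h4⟩
    obtain ⟨p, hp⟩ := hne
    have e1 := h3 p hp
    have e2 := h4 p hp
    rw [e1] at e2
    revert e2
    generalize decide (Odd (before s p.1)) = x
    cases x <;> simp
  have h3 : AltU a (pr s) ↔ (altp true s ∨ altp false s) := by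
    constructor
    · intro hA
      obtain ⟨p, hp⟩ := hne
      have key : ∀ q ∈ s, xor q.2 (par (pr s) q.1) = xor p.2 (par (pr s) p.1) := by
        intro q hq
        by_cases he : q.1 = p.1
        · have := (h q hq p hp).1 he
          rw [this]
        · have h4 := (h q hq p hp).2 he
          have h5 : a q.1 p.1 = xor (par (pr s) q.1) (par (pr s) p.1) := by
            rcases lt_or_gt_of_ne he with hlt | hlt
            · exact hA _ (mem_pr hq) _ (mem_pr hp) hlt
            · rw [ha, hA _ (mem_pr hp) _ (mem_pr hq) hlt, Bool.xor_comm]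
          rw [h4] at h5
          revert h5
          cases q.2 <;> cases p.2 <;> cases par (pr s) q.1 <;> cases par (pr s) p.1 <;> simp
      rcases hb : xor p.2 (par (pr s) p.1) with _ | _
      · right
        rw [h1]
        intro q hq
        have := key q hq
        rw [hb] at this
        revert this
        cases q.2 <;> cases par (pr s) q.1 <;> simp
      · left
        rw [h1]
        intro q hq
        have := key q hq
        rw [hb] at this
        revert this
        cases q.2 <;> cases par (pr s) q.1 <;> simp
    · intro hor u hu v hv huv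
      have hex : ∃ b, altp b s := by rcases hor with h | h <;> exact ⟨_, h⟩
      obtain ⟨b, hb⟩ := hex
      rw [h1] at hb
      simp only [pr, mem_image] at hu hv
      obtain ⟨p, hp, rfl⟩ := hu
      obtain ⟨q, hq, rfl⟩ := hv
      rw [(h p hp q hq).2 (ne_of_lt huv), hb p hp, hb q hq]
      generalize par (pr s) p.1 = x
      generalize par (pr s) q.1 = y
      cases b <;> cases x <;> cases y <;> rfl
  unfold altc
  by_cases h4 : altp true s <;> by_cases h5 : altp false s
  · exact absurd ⟨h4, h5⟩ h2
  · rw [if_pos h4, if_neg h5, if_pos (h3.mpr (Or.inl h4)), add_zero]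
  · rw [if_neg h4, if_pos h5, if_pos (h3.mpr (Or.inr h5)), zero_add]
  · rw [if_neg h4, if_neg h5, if_neg (fun h6 => (h3.mp h6).elim h4 h5), add_zero]

theorem pr_erase {a : V → V → Bool} {s : Finset (V × Bool)} (h : CohS a s) {p : V × Bool}
    (hp : p ∈ s) : pr (s.erase p) = (pr s).erase p.1 := by
  ext u
  simp only [pr, mem_image, mem_erase]
  constructor
  · rintro ⟨q, ⟨hqp, hq⟩, rfl⟩
    exact ⟨fun he => hqp ((h q hq p hp).1 he), q, hq, rfl⟩
  · rintro ⟨hne, q, hq, rfl⟩
    exact ⟨q, ⟨fun he => hne (by rw [he]), hq⟩, rfl⟩

/-- (C) cochain certificate: if every coherent `ρ` with `k + 2` elements satisfying `F` has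
`∑ φ (ρ \ x) = [AltU ρ]` mod 2, then there is no witness in dimension `k + 1`. -/
theorem PF.false_of_cert {a : V → V → Bool} (ha : ∀ u v, a u v = a v u) {k : ℕ}
    {F : Finset V → Prop} (h : PF a (k + 1) F) (φ : Finset V → ZMod 2)
    (hφ : ∀ ρ, Coh a ρ → ρ.card = k + 2 → F ρ →
      ∑ x ∈ ρ, φ (ρ.erase x) = if AltU a ρ then 1 else 0) : False := by
  obtain ⟨z, hz⟩ := h
  refine hz.false_of_cochain (fun s => φ (pr s)) (fun s => by simp only [pr_negS]) ?_
  intro s hs
  obtain ⟨h1, h2⟩ := hz.supp s hs
  have hcard := hz.card hs
  rw [altc_add ha h1 (card_pos.mp (by omega)),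
    ← hφ (pr s) h1.coh (by rw [card_pr h1, hcard]) h2]
  symm
  refine sum_bij' (fun u _ => if (u, true) ∈ s then (u, true) else (u, false)) (fun p _ => p.1)
    ?_ ?_ ?_ ?_ ?_
  · intro u hu
    simp only [pr, mem_image] at hu
    obtain ⟨p, hp, rfl⟩ := hu
    rcases hb : p.2 with _ | _
    · have hp' : (p.1, false) ∈ s := by rw [← hb]; exact hp
      split_ifs with h3
      · exact h3
      · exact hp'
    · have hp' : (p.1, true) ∈ s := by rw [← hb]; exact hp
      rw [if_pos hp']; exact hp'
  · intro p hp
    exact mem_pr hp
  · intro u hu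
    split_ifs <;> rfl
  · intro p hp
    split_ifs with h3
    · exact (h1 _ h3 p hp).1 rfl
    · rcases hb : p.2 with _ | _
      · exact Prod.ext rfl hb.symm
      · exact absurd (by rw [← hb]; exact hp) h3
  · intro u hu
    have hm : (if (u, true) ∈ s then (u, true) else (u, false)) ∈ s := by
      simp only [pr, mem_image] at hu
      obtain ⟨p, hp, rfl⟩ := hu
      rcases hb : p.2 with _ | _
      · have hp' : (p.1, false) ∈ s := by rw [← hb]; exact hp
        split_ifs with h3
        · exact h3
        · exact hp'
      · have hp' : (p.1, true) ∈ s := by rw [← hb]; exact hp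
        rw [if_pos hp']; exact hp'
    rw [pr_erase h1 hm]
    have : (if (u, true) ∈ s then (u, true) else (u, false) : V × Bool).1 = u := by
      split_ifs <;> rfl
    rw [this]

end Pool.Agent.RP5
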