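import Pool.Agent.RP5.Transfer
import Pool.Agent.RP5.Cert

/-!
# Codes for signed graphs and isomorphisms
-/

set_option autoImplicit false
set_option linter.unusedSectionVars false

open Finset

namespace Pool.Agent.RP5

section general

variable {V : Type*} [DecidableEq V] [Fintype V]

theorem CohS.congr {a b : V → V → Bool} (hab : ∀ u v, u ≠ v → a u v = b u v)
    {s : Finset (V × Bool)} (h : CohS a s) : CohS b s := fun p hp q hq =>
  ⟨(h p hp q hq).1, fun hne => by rw [← hab _ _ hne]; exact (h p hp q hq).2 hne⟩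

theorem PF.congr {a b : V → V → Bool} (hab : ∀ u v, u ≠ v → a u v = b u v) {k : ℕ}
    {F : Finset V → Prop} (h : PF a k F) : PF b k F := by
  obtain ⟨z, hz⟩ := h
  exact ⟨z, ⟨fun s hs => ⟨(hz.supp s hs).1.congr hab, (hz.supp s hs).2⟩, hz.cycle, hz.ess⟩⟩

theorem P.congr {a b : V → V → Bool} (hab : ∀ u v, u ≠ v → a u v = b u v) {k : ℕ}
    {U : Finset V} (h : P a k U) : P b k U := PF.congr hab h

end general

/-- position of the pair `u < v` -/
def pos (u v : ℕ) : ℕ := v * (v - 1) / 2 + u

/-- the signed graph on `ℕ` with code `c` -/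
def tgN (c u v : ℕ) : Bool :=
  if u < v then c.testBit (pos u v) else if v < u then c.testBit (pos v u) else false

/-- the signed graph on `Fin n` with code `c` -/
def tg (n c : ℕ) : Fin n → Fin n → Bool := fun u v => tgN c u v

theorem tgN_symm (c u v : ℕ) : tgN c u v = tgN c v u := by
  unfold tgN
  rcases lt_trichotomy u v with h | h | h
  · rw [if_pos h, if_neg (by omega), if_pos h]
  · subst h; rfl
  · rw [if_neg (by omega), if_pos h, if_pos h]

theorem tg_symm (n c : ℕ) (u v : Fin n) : tg n c u v = tg n c v u := tgN_symm _ _ _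

/-- `b` is obtained from `a` by a permutation and a switching -/
def IsoTo {n : ℕ} (a b : Fin n → Fin n → Bool) : Prop :=
  ∃ (e : Equiv.Perm (Fin n)) (δ : Fin n → Bool),
    ∀ u v, u ≠ v → b u v = pullA e.toEmbedding δ a u v

theorem IsoTo.refl {n : ℕ} (a : Fin n → Fin n → Bool) : IsoTo a a :=
  ⟨Equiv.refl _, fun _ => false, fun u v _ => by simp [pullA]⟩

theorem IsoTo.trans {n : ℕ} {a b c : Fin n → Fin n → Bool} (h : IsoTo a b) (h' : IsoTo b c) :
    IsoTo a c := by
  obtain ⟨e, δ, h⟩ := h
  obtain ⟨e', δ', h'⟩ := h'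
  refine ⟨e'.trans e, fun v => xor (δ (e' v)) (δ' v), fun u v huv => ?_⟩
  rw [h' u v huv]
  unfold pullA
  rw [h _ _ (fun he => huv (by simpa using he))]
  unfold pullA
  simp only [Equiv.toEmbedding_apply, Equiv.trans_apply]
  generalize a _ _ = x
  cases x <;> cases δ (e' u) <;> cases δ (e' v) <;> cases δ' u <;> cases δ' v <;> rfl

theorem IsoTo.P {n : ℕ} {a b : Fin n → Fin n → Bool} (h : IsoTo a b) {k : ℕ}
    (hP : P a k univ) : P b k univ := by
  obtain ⟨e, δ, h⟩ := h
  refine P.congr (fun u v huv => (h u v huv).symm) (P.pull hP e.toEmbedding δ ?_)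
  intro v _
  exact ⟨e.symm v, by simp⟩

/-- digit `u` of `p` in base 32 -/
def dig (p u : ℕ) : ℕ := (p >>> (5 * u)) % 32

/-- check of an isomorphism with the permutation `p` (digits in base 32) and switching `δ` -/
def chkIso (n c d p δ : ℕ) : Bool :=
  (List.range n).all fun v => (dig p v).blt n && (List.range v).all fun u =>
    !(dig p u).beq (dig p v) &&
    (tgN d u v == xor (tgN c (dig p u) (dig p v)) (xor (δ.testBit u) (δ.testBit v)))

theorem chkIso_sound {n c d p δ : ℕ} (h : chkIso n c d p δ = true) :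
    IsoTo (tg n c) (tg n d) := by
  unfold chkIso at h
  simp only [List.all_eq_true, List.mem_range, Bool.and_eq_true, Nat.blt_eq,
    Bool.not_eq_true', beq_iff_eq] at h
  have hlt : ∀ v : Fin n, dig p v < n := fun v => (h v v.2).1
  have hne : ∀ u v : ℕ, u < v → v < n → dig p u ≠ dig p v := by
    intro u v huv hv he
    have := ((h v hv).2 u huv).1
    rw [he] at this
    simp at this
  have hinj : Function.Injective (fun v : Fin n => (⟨dig p v, hlt v⟩ : Fin n)) := by
    intro u v huv
    simp only [Fin.mk.injEq] at huv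
    rcases lt_trichotomy (u : ℕ) v with h1 | h1 | h1
    · exact absurd huv (hne _ _ h1 v.2)
    · exact Fin.ext h1
    · exact absurd huv.symm (hne _ _ h1 u.2)
  refine ⟨Equiv.ofBijective _ (Finite.injective_iff_bijective.mp hinj),
    fun v => δ.testBit v, fun u v huv => ?_⟩
  have key : ∀ u v : Fin n, (u : ℕ) < v → tg n d u v =
      xor (tgN c (dig p u) (dig p v)) (xor (δ.testBit u) (δ.testBit v)) := by
    intro u v huv
    exact ((h v v.2).2 u huv).2
  unfold pullA
  simp only [Equiv.toEmbedding_apply, Equiv.ofBijective_apply]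
  rcases lt_or_gt_of_ne (fun he => huv (Fin.ext he)) with h1 | h1
  · exact key u v h1
  · rw [tg_symm, key v u h1, tg_symm]
    simp only [tg]
    rw [Bool.xor_comm (δ.testBit _)]

/-- every signed graph on `n` points for which `Q` holds is isomorphic to one in the list -/
def Cls (n : ℕ) (Q : (Fin n → Fin n → Bool) → Prop) (L : List ℕ) : Prop :=
  ∀ a : Fin n → Fin n → Bool, (∀ u v, a u v = a v u) → Q a → ∃ c ∈ L, IsoTo a (tg n c)

/-- the code of the signed graph with one more vertex, with signs `r` -/
def extC (n c r : ℕ) : ℕ := c ^^^ (r <<< (n * (n - 1) / 2))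

end Pool.Agent.RP5
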