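import Pool.Agent.RP5.Cov
import Pool.Agent.RP5.Iso
import Pool.Agent.RP5.Eng

/-!
# The covering hypothesis for a signed graph with a coherent set of rows (dimension two)
-/

set_option autoImplicit false
set_option linter.unusedSectionVars false

open Finset

namespace Pool.Agent.RP5

open Eng

/-- the signed graph with first part `tgN c` on `n` points, followed by a coherent set whose
vertices have the signs `r i` -/
def rowG (n c : ℕ) (r : ℕ → ℕ) (u v : ℕ) : Bool :=
  if u < n then (if v < n then tgN c u v else (r (v - n)).testBit u)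
  else (if v < n then (r (u - n)).testBit v else false)

theorem rowG_symm (n c : ℕ) (r : ℕ → ℕ) (u v : ℕ) : rowG n c r u v = rowG n c r v u := by
  unfold rowG
  by_cases h1 : u < n <;> by_cases h2 : v < n <;> simp [h1, h2, tgN_symm c u v]

/-- the same on `Fin N` -/
def rowA (N n c : ℕ) (r : ℕ → ℕ) : Fin N → Fin N → Bool := fun u v => rowG n c r u v

theorem rowA_symm (N n c : ℕ) (r : ℕ → ℕ) (u v : Fin N) :
    rowA N n c r u v = rowA N n c r v u := rowG_symm _ _ _ _ _

section codes

variable {N : ℕ}

/-- the mask of a set of vertices -/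
def cM (ρ : Finset (Fin N)) : ℕ := Nat.ofBits fun v : Fin N => decide (v ∈ ρ)

/-- the mask of the negative vertices of a signed set -/
def cV (r : Finset (Fin N × Bool)) : ℕ := Nat.ofBits fun v : Fin N => decide ((v, true) ∈ r)

theorem testBit_cM (ρ : Finset (Fin N)) (i : ℕ) :
    (cM ρ).testBit i = decide (∃ h : i < N, (⟨i, h⟩ : Fin N) ∈ ρ) := by
  unfold cM
  by_cases h : i < N
  · rw [Nat.testBit_ofBits_lt _ _ h]
    simp [h]
  · rw [Nat.testBit_ofBits_ge _ _ (by omega)]
    simp [h]

theorem testBit_cV (r : Finset (Fin N × Bool)) (i : ℕ) :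
    (cV r).testBit i = decide (∃ h : i < N, ((⟨i, h⟩ : Fin N), true) ∈ r) := by
  unfold cV
  by_cases h : i < N
  · rw [Nat.testBit_ofBits_lt _ _ h]
    simp [h]
  · rw [Nat.testBit_ofBits_ge _ _ (by omega)]
    simp [h]

/-- a bit -/
def bt (u : ℕ) : ℕ := Nat.shiftLeft 1 u

/-- a bit, if the sign is negative -/
def sb (s : Bool) (u : ℕ) : ℕ := bif s then bt u else 0

theorem testBit_bt (u i : ℕ) : (bt u).testBit i = decide (i = u) := by
  show (1 <<< u).testBit i = _
  rw [Nat.testBit_shiftLeft]
  by_cases h : i = u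
  · subst h; simp
  · rw [decide_eq_false h]
    by_cases h2 : u ≤ i
    · rw [Bool.and_eq_false_iff]
      right
      rw [Bool.eq_false_iff]
      intro h3
      rw [Nat.testBit_one_eq_true_iff_self_eq_zero] at h3
      omega
    · simp [h2]

theorem testBit_sb (s : Bool) (u i : ℕ) : (sb s u).testBit i = (s && decide (i = u)) := by
  cases s
  · simp [sb]
  · simp [sb, testBit_bt]

theorem cM_two (u v : Fin N) : cM {u, v} = Nat.lor (bt u) (bt v) := by
  refine Nat.eq_of_testBit_eq fun i => ?_
  rw [testBit_cM]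
  show _ = (bt u ||| bt v).testBit i
  rw [Nat.testBit_or, testBit_bt, testBit_bt, ← Bool.decide_or]
  refine decide_eq_decide.mpr ?_
  simp only [mem_insert, mem_singleton, Fin.ext_iff]
  constructor
  · rintro ⟨_, h⟩; exact h
  · rintro (h | h)
    · exact ⟨by omega, Or.inl h⟩
    · exact ⟨by omega, Or.inr h⟩

theorem cM_three (u v w : Fin N) : cM {u, v, w} = Nat.lor (bt u) (Nat.lor (bt v) (bt w)) := by
  refine Nat.eq_of_testBit_eq fun i => ?_
  rw [testBit_cM]
  show _ = (bt u ||| (bt v ||| bt w)).testBit i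
  rw [Nat.testBit_or, Nat.testBit_or, testBit_bt, testBit_bt, testBit_bt, ← Bool.decide_or,
    ← Bool.decide_or]
  refine decide_eq_decide.mpr ?_
  simp only [mem_insert, mem_singleton, Fin.ext_iff]
  constructor
  · rintro ⟨_, h⟩; exact h
  · rintro (h | h | h)
    · exact ⟨by omega, Or.inl h⟩
    · exact ⟨by omega, Or.inr (Or.inl h)⟩
    · exact ⟨by omega, Or.inr (Or.inr h)⟩

theorem cV_two (u v : Fin N) (s t : Bool) :
    cV {(u, s), (v, t)} = Nat.lor (sb s u) (sb t v) := by
  refine Nat.eq_of_testBit_eq fun i => ?_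
  rw [testBit_cV]
  show _ = (sb s u ||| sb t v).testBit i
  rw [Nat.testBit_or, testBit_sb, testBit_sb]
  simp only [mem_insert, mem_singleton, Prod.mk.injEq, Fin.ext_iff]
  have hu := u.2
  have hv := v.2
  by_cases h1 : i = u <;> by_cases h2 : i = v <;> cases s <;> cases t <;>
    simp_all

theorem cV_three (u v w : Fin N) (s t q : Bool) :
    cV {(u, s), (v, t), (w, q)} = Nat.lor (sb s u) (Nat.lor (sb t v) (sb q w)) := by
  refine Nat.eq_of_testBit_eq fun i => ?_
  rw [testBit_cV]
  show _ = (sb s u ||| (sb t v ||| sb q w)).testBit i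
  rw [Nat.testBit_or, Nat.testBit_or, testBit_sb, testBit_sb, testBit_sb]
  simp only [mem_insert, mem_singleton, Prod.mk.injEq, Fin.ext_iff]
  have hu := u.2
  have hv := v.2
  have hw := w.2
  by_cases h1 : i = u <;> by_cases h2 : i = v <;> by_cases h3 : i = w <;> cases s <;> cases t <;>
    cases q <;> simp_all

end codes

end Pool.Agent.RP5
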