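import Pool.Agent.RP5.Bridge

/-!
# The covering hypothesis for a signed graph with a coherent set of rows, II
-/

set_option autoImplicit false
set_option linter.unusedSectionVars false

open Finset

namespace Pool.Agent.RP5

open Eng

/-- is `g` the ridge `(u, s), (v, t)`? -/
def isR (g : ℕ × ℕ × ℕ) (u : ℕ) (s : Bool) (v : ℕ) (t : Bool) : Bool :=
  Nat.beq g.1 (Nat.lor (bt u) (bt v)) && Nat.beq g.2.1 (Nat.lor (sb s u) (sb t v))

/-- checks at the facet `(u, s1), (v, s2), (w, s3)` -/
def chkTri (T : Tab) (u v w : ℕ) (s1 s2 s3 : Bool) (f : ℕ) : Bool :=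
  Nat.beq (T.mask f) (Nat.lor (bt u) (Nat.lor (bt v) (bt w))) &&
  Nat.beq (T.val f) (Nat.lor (sb s1 u) (Nat.lor (sb s2 v) (sb s3 w))) &&
    (T.alt.testBit f == (s1 && !s2 && s3)) &&
    (T.star.all fun g => g.2.2.testBit f ==
      xor (isR g v s2 w s3) (xor (isR g u s1 w s3) (isR g u s1 v s2))) &&
    T.free.all fun g => g.2.testBit f == Nat.beq g.1 (Nat.lor (bt u) (Nat.lor (bt v) (bt w)))

/-- the index of the facet `(u, s1), (v, s2), (w, s3)` -/
def idxTri (T : Tab) (u v w : ℕ) (s1 s2 s3 : Bool) : ℕ :=
  T.fac.findIdx fun e => Nat.beq e.1 (Nat.lor (bt u) (Nat.lor (bt v) (bt w))) &&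
    Nat.beq e.2.1 (Nat.lor (sb s1 u) (Nat.lor (sb s2 v) (sb s3 w)))

/-- the triple is not balanced -/
def inc3 (c u v w : ℕ) : Bool := xor (xor (tgN c u v) (tgN c v w)) (tgN c u w)

/-- checks of the tables at all triples -/
def chkCplx (T : Tab) : Bool :=
  (List.range T.n).all fun w => (List.range w).all fun v => (List.range v).all fun u =>
    inc3 T.c u v w ||
      (chkTri T u v w false (tgN T.c u v) (tgN T.c u w)
        (idxTri T u v w false (tgN T.c u v) (tgN T.c u w)) &&
      chkTri T u v w true (!tgN T.c u v) (!tgN T.c u w)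
        (idxTri T u v w true (!tgN T.c u v) (!tgN T.c u w)))

/-- the mask of a triple -/
def m3 (u v w : ℕ) : ℕ := Nat.lor (bt u) (Nat.lor (bt v) (bt w))

/-- checks of the tables at all quadruples -/
def chkFour (T : Tab) : Bool :=
  (List.range T.n).all fun x => (List.range x).all fun w => (List.range w).all fun v =>
    (List.range v).all fun u =>
    (inc3 T.c u v w || inc3 T.c u v x || inc3 T.c u w x || inc3 T.c v w x) ||
      (!(tgN T.c u v && tgN T.c v w && tgN T.c w x) &&
        T.free.all fun g => !Nat.beq g.1 (m3 u v w) && !Nat.beq g.1 (m3 u v x) &&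
          !Nat.beq g.1 (m3 u w x) && !Nat.beq g.1 (m3 v w x))

/-- a bit as an element of `ZMod 2` -/
def b2z (b : Bool) : ZMod 2 := if b then 1 else 0

theorem b2z_xor (a b : Bool) : b2z (xor a b) = b2z a + b2z b := by
  cases a <;> cases b <;> decide

theorem b2z_ne {b : Bool} (h : b2z b ≠ 0) : b = true := by
  cases b
  · exact absurd rfl h
  · rfl

section cochains

variable {N : ℕ}

/-- the cochain of selected ridges -/
def PsiS : List (ℕ × ℕ × ℕ) → ℕ → Finset (Fin N × Bool) → ZMod 2
  | [], _ => fun _ => 0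
  | s :: l, p => fun g => (if p % 2 = 1 ∧ s.1 = cM (pr g) ∧ s.2.1 = cV g then 1 else 0) +
      PsiS l (p / 2) g

/-- the cochain of selected free facets -/
def PhiS : List (ℕ × ℕ) → ℕ → Finset (Fin N) → ZMod 2
  | [], _ => fun _ => 0
  | s :: l, p => fun ρ => (if p % 2 = 1 ∧ s.1 = cM ρ then 1 else 0) + PhiS l (p / 2) ρ

theorem testBit_mul_mod (x p f : ℕ) :
    (Nat.mul x (Nat.mod p 2)).testBit f = (decide (p % 2 = 1) && x.testBit f) := by
  show (x * (p % 2)).testBit f = _
  rcases Nat.mod_two_eq_zero_or_one p with h | h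
  · rw [h]; simp
  · rw [h]; simp

theorem xorS_testBit (r : Finset (Fin N × Bool)) (f : ℕ) :
    ∀ (l : List (ℕ × ℕ × ℕ)) (p : ℕ),
    (∀ g ∈ l, b2z (g.2.2.testBit f) =
      ∑ x ∈ r, if (g.1 = cM (pr (r.erase x)) ∧ g.2.1 = cV (r.erase x)) then (1 : ZMod 2) else 0) →
    b2z ((xorS l p).testBit f) = ∑ x ∈ r, PsiS l p (r.erase x)
  | [], p, _ => by simp [xorS, PsiS, b2z]
  | s :: l, p, h => by
    have h1 : xorS (s :: l) p = (Nat.mul s.2.2 (Nat.mod p 2)) ^^^ (xorS l (p / 2)) := rfl
    rw [h1, Nat.testBit_xor, b2z_xor, xorS_testBit r f l (p / 2)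
      fun g hg => h g (List.mem_cons_of_mem _ hg), testBit_mul_mod]
    simp only [PsiS, sum_add_distrib]
    congr 1
    rcases Nat.mod_two_eq_zero_or_one p with h2 | h2
    · simp [h2, b2z]
    · simp only [h2, decide_true, Bool.true_and, true_and]
      exact h s List.mem_cons_self

theorem xorP_testBit (ρ : Finset (Fin N)) (f : ℕ) :
    ∀ (l : List (ℕ × ℕ)) (p : ℕ),
    (∀ g ∈ l, b2z (g.2.testBit f) = if g.1 = cM ρ then (1 : ZMod 2) else 0) →
    b2z ((xorP l p).testBit f) = PhiS l p ρ
  | [], p, _ => by simp [xorP, PhiS, b2z]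
  | s :: l, p, h => by
    have h1 : xorP (s :: l) p = (Nat.mul s.2 (Nat.mod p 2)) ^^^ (xorP l (p / 2)) := rfl
    rw [h1, Nat.testBit_xor, b2z_xor, xorP_testBit ρ f l (p / 2)
      fun g hg => h g (List.mem_cons_of_mem _ hg), testBit_mul_mod]
    simp only [PhiS]
    congr 1
    rcases Nat.mod_two_eq_zero_or_one p with h2 | h2
    · simp [h2, b2z]
    · simp only [h2, decide_true, Bool.true_and, true_and]
      exact h s List.mem_cons_self

theorem PhiS_eq_zero (ρ : Finset (Fin N)) :
    ∀ (l : List (ℕ × ℕ)) (p : ℕ), (∀ g ∈ l, g.1 ≠ cM ρ) → PhiS l p ρ = 0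
  | [], p, _ => rfl
  | s :: l, p, h => by
    simp only [PhiS]
    rw [if_neg (fun h1 => h s List.mem_cons_self h1.2), PhiS_eq_zero ρ l (p / 2)
      (fun g hg => h g (List.mem_cons_of_mem _ hg)), add_zero]

/-- a coherent signed triple, explicitly -/
theorem CohS.exists_three {a : Fin N → Fin N → Bool} {q : Finset (Fin N × Bool)} (h : CohS a q)
    (hc : q.card = 3) : ∃ (u v w : Fin N) (s1 s2 s3 : Bool), u < v ∧ v < w ∧
      q = {(u, s1), (v, s2), (w, s3)} := by
  have hcard : (pr q).card = 3 := by rw [card_pr h, hc]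
  let e := (pr q).orderEmbOfFin hcard
  have hm : ∀ i, e i ∈ pr q := fun i => (pr q).orderEmbOfFin_mem hcard i
  have hex : ∀ i, ∃ s, (e i, s) ∈ q := by
    intro i
    have := hm i
    simp only [pr, mem_image] at this
    obtain ⟨p, hp, hpe⟩ := this
    exact ⟨p.2, by rw [← hpe]; exact hp⟩
  choose s hs using hex
  have h01 : e 0 < e 1 := e.strictMono (by decide)
  have h12 : e 1 < e 2 := e.strictMono (by decide)
  refine ⟨e 0, e 1, e 2, s 0, s 1, s 2, h01, h12, ?_⟩
  symm
  apply eq_of_subset_of_card_le
  · intro p hp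
    simp only [mem_insert, mem_singleton] at hp
    rcases hp with rfl | rfl | rfl <;> exact hs _
  · rw [hc, card_insert_of_notMem, card_insert_of_notMem, card_singleton]
    · simp only [mem_singleton, Prod.mk.injEq, not_and]
      intro h1; exact absurd h1 h12.ne
    · simp only [mem_insert, mem_singleton, Prod.mk.injEq, not_or, not_and]
      exact ⟨fun h1 => absurd h1 h01.ne, fun h1 => absurd h1 (h01.trans h12).ne⟩

/-- a set with four elements, explicitly -/
theorem exists_four {ρ : Finset (Fin N)} (hc : ρ.card = 4) :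
    ∃ (u v w x : Fin N), u < v ∧ v < w ∧ w < x ∧ ρ = {u, v, w, x} := by
  let e := ρ.orderEmbOfFin hc
  have hm : ∀ i, e i ∈ ρ := fun i => ρ.orderEmbOfFin_mem hc i
  have h01 : e 0 < e 1 := e.strictMono (by decide)
  have h12 : e 1 < e 2 := e.strictMono (by decide)
  have h23 : e 2 < e 3 := e.strictMono (by decide)
  refine ⟨e 0, e 1, e 2, e 3, h01, h12, h23, ?_⟩
  symm
  apply eq_of_subset_of_card_le
  · intro p hp
    simp only [mem_insert, mem_singleton] at hp
    rcases hp with rfl | rfl | rfl | rfl <;> exact hm _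
  · rw [hc, card_insert_of_notMem, card_insert_of_notMem, card_insert_of_notMem, card_singleton]
    · simp only [mem_singleton]; exact h23.ne
    · simp only [mem_insert, mem_singleton, not_or]
      exact ⟨h12.ne, (h12.trans h23).ne⟩
    · simp only [mem_insert, mem_singleton, not_or]
      exact ⟨h01.ne, (h01.trans h12).ne, (h01.trans (h12.trans h23)).ne⟩

theorem altc_three {u v w : Fin N} {s1 s2 s3 : Bool} (huv : u < v) (hvw : v < w) :
    altc true ({(u, s1), (v, s2), (w, s3)} : Finset (Fin N × Bool)) =
      b2z (s1 && !s2 && s3) := by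
  have huw := huv.trans hvw
  have b1 : before ({(u, s1), (v, s2), (w, s3)} : Finset (Fin N × Bool)) u = 0 := by
    unfold before
    rw [card_eq_zero]
    ext p
    simp only [mem_filter, mem_insert, mem_singleton, notMem_empty, iff_false]
    rintro ⟨rfl | rfl | rfl, h⟩
    · exact lt_irrefl _ h
    · exact lt_asymm h huv
    · exact lt_asymm h huw
  have b2 : before ({(u, s1), (v, s2), (w, s3)} : Finset (Fin N × Bool)) v = 1 := by
    unfold before
    rw [card_eq_one]
    refine ⟨(u, s1), ?_⟩
    ext p
    simp only [mem_filter, mem_insert, mem_singleton]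
    constructor
    · rintro ⟨rfl | rfl | rfl, h⟩
      · rfl
      · exact absurd h (lt_irrefl _)
      · exact absurd h (lt_asymm hvw)
    · rintro rfl; exact ⟨Or.inl rfl, huv⟩
  have b3 : before ({(u, s1), (v, s2), (w, s3)} : Finset (Fin N × Bool)) w = 2 := by
    unfold before
    rw [card_eq_two]
    refine ⟨(u, s1), (v, s2), fun h => huv.ne (Prod.ext_iff.mp h).1, ?_⟩
    ext p
    simp only [mem_filter, mem_insert, mem_singleton]
    constructor
    · rintro ⟨rfl | rfl | rfl, h⟩
      · exact Or.inl rfl
      · exact Or.inr rfl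
      · exact absurd h (lt_irrefl _)
    · rintro (rfl | rfl)
      · exact ⟨Or.inl rfl, huw⟩
      · exact ⟨Or.inr (Or.inl rfl), hvw⟩
  unfold altc b2z
  refine if_congr ?_ rfl rfl
  unfold altp
  simp only [mem_insert, mem_singleton, forall_eq_or_imp, forall_eq, b1, b2, b3,
    Bool.and_eq_true, Bool.not_eq_true']
  have e0 : decide (Odd 0) = false := by decide
  have e1 : decide (Odd 1) = true := by decide
  have e2 : decide (Odd 2) = false := by decide
  rw [e0, e1, e2]
  simp only [Bool.xor_false, Bool.xor_true, Bool.not_true, and_assoc]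

theorem pr_three (u v w : Fin N) (s1 s2 s3 : Bool) :
    pr ({(u, s1), (v, s2), (w, s3)} : Finset (Fin N × Bool)) = {u, v, w} := by
  simp [pr, image_insert]

theorem pr_two (u v : Fin N) (s1 s2 : Bool) :
    pr ({(u, s1), (v, s2)} : Finset (Fin N × Bool)) = {u, v} := by
  simp [pr, image_insert]

end cochains

/-- **The bridge.** -/
theorem H_of_P {T : Tab} {m : ℕ} (hc1 : chkCplx T = true) (hc2 : chkFour T = true)
    {r : ℕ → ℕ} (hP : P (rowA (T.n + m) T.n T.c r) 3 univ) : T.H m r := by
  intro ψ φ
  simp only [chkCplx, List.all_eq_true, List.mem_range, Bool.or_eq_true,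
    Bool.and_eq_true] at hc1
  have hmemS : ∀ v : Fin (T.n + m), v ∈ (univ.filter fun v : Fin (T.n + m) => T.n ≤ v.1) ↔
      T.n ≤ v.1 := by simp
  have hmemW : ∀ v : Fin (T.n + m),
      v ∈ (univ : Finset (Fin (T.n + m))) \ (univ.filter fun v => T.n ≤ v.1) ↔ v.1 < T.n := by
    simp
  have hS : IsSgn (rowA (T.n + m) T.n T.c r) (fun _ => false)
      (univ.filter fun v : Fin (T.n + m) => T.n ≤ v.1) := by
    intro u hu v hv _
    rw [hmemS] at hu hv
    unfold rowA rowG
    rw [if_neg (by omega), if_neg (by omega)]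
    rfl
  have htg : ∀ u v : Fin (T.n + m), u.1 < T.n → v.1 < T.n →
      rowA (T.n + m) T.n T.c r u v = tgN T.c u v := by
    intro u v hu hv
    unfold rowA rowG
    rw [if_pos hu, if_pos hv]
  -- quadruples
  have hfour : ∀ ρ, Coh (rowA (T.n + m) T.n T.c r) ρ → ρ.card = 4 →
      ρ ⊆ univ \ (univ.filter fun v : Fin (T.n + m) => T.n ≤ v.1) →
      ∃ u v w x : Fin (T.n + m), u < v ∧ v < w ∧ w < x ∧ ρ = {u, v, w, x} ∧
        (!(tgN T.c u v && tgN T.c v w && tgN T.c w x)) = true ∧
        ∀ g ∈ T.free, g.1 ≠ m3 u v w ∧ g.1 ≠ m3 u v x ∧ g.1 ≠ m3 u w x ∧ g.1 ≠ m3 v w x := by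
    intro ρ hρ hcard hρW
    obtain ⟨u, v, w, x, huv, hvw, hwx, rfl⟩ := exists_four hcard
    have hu := (hmemW u).mp (hρW (by simp))
    have hv := (hmemW v).mp (hρW (by simp))
    have hw := (hmemW w).mp (hρW (by simp))
    have hx := (hmemW x).mp (hρW (by simp))
    refine ⟨u, v, w, x, huv, hvw, hwx, rfl, ?_⟩
    simp only [chkFour, List.all_eq_true, List.mem_range] at hc2
    have h1 := hc2 x hx w hwx v hvw u huv
    have hi : ∀ p ∈ ({u, v, w, x} : Finset (Fin (T.n + m))),
        ∀ q ∈ ({u, v, w, x} : Finset (Fin (T.n + m))),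
        ∀ y ∈ ({u, v, w, x} : Finset (Fin (T.n + m))), p < q → q < y → p.1 < T.n → q.1 < T.n →
          y.1 < T.n → inc3 T.c p q y = false := by
      intro p hp q hq y hy hpq hqy hp' hq' hy'
      have := hρ p hp q hq y hy hpq.ne hqy.ne (hpq.trans hqy).ne
      rw [htg p q hp' hq', htg q y hq' hy', htg p y hp' hy'] at this
      unfold inc3
      rw [this]; simp
    rw [hi u (by simp) v (by simp) w (by simp) huv hvw hu hv hw,
      hi u (by simp) v (by simp) x (by simp) huv (hvw.trans hwx) hu hv hx,
      hi u (by simp) w (by simp) x (by simp) (huv.trans hvw) hwx hu hw hx,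
      hi v (by simp) w (by simp) x (by simp) hvw hwx hv hw hx] at h1
    simp only [Bool.or_self, Bool.false_or, Bool.and_eq_true] at h1
    refine ⟨h1.1, ?_⟩
    intro g hg
    have h2 := List.all_eq_true.mp h1.2 g hg
    simp only [Bool.and_eq_true, Bool.not_eq_true'] at h2
    obtain ⟨⟨⟨h3, h4⟩, h5⟩, h6⟩ := h2
    exact ⟨Nat.ne_of_beq_eq_false h3, Nat.ne_of_beq_eq_false h4, Nat.ne_of_beq_eq_false h5,
      Nat.ne_of_beq_eq_false h6⟩
  obtain ⟨q, hq1, hq2, hq3, ⟨x, hx, hxq⟩, hq4⟩ := hP.cov (rowA_symm _ _ _ _) (k := 2) hS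
    (by
      intro ρ hρ hcard hρW hA
      obtain ⟨u, v, w, x, huv, hvw, hwx, rfl, h1, _⟩ := hfour ρ hρ hcard hρW
      have hu := (hmemW u).mp (hρW (by simp))
      have hv := (hmemW v).mp (hρW (by simp))
      have hw := (hmemW w).mp (hρW (by simp))
      have hx := (hmemW x).mp (hρW (by simp))
      have huw := huv.trans hvw
      have hux := huw.trans hwx
      have hvx := hvw.trans hwx
      have p0 : par {u, v, w, x} u = false := by
        unfold par
        rw [decide_eq_false_iff_not]
        have : (({u, v, w, x} : Finset (Fin (T.n + m))).filter fun y => y < u) = ∅ := by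
          ext y; simp only [mem_filter, mem_insert, mem_singleton, notMem_empty, iff_false]
          rintro ⟨rfl | rfl | rfl | rfl, h3⟩
          · exact lt_irrefl _ h3
          · exact lt_asymm h3 huv
          · exact lt_asymm h3 huw
          · exact lt_asymm h3 hux
        rw [this, card_empty]; decide
      have p1 : par {u, v, w, x} v = true := by
        unfold par
        rw [decide_eq_true_eq]
        have : (({u, v, w, x} : Finset (Fin (T.n + m))).filter fun y => y < v) = {u} := by
          ext y; simp only [mem_filter, mem_insert, mem_singleton]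
          constructor
          · rintro ⟨rfl | rfl | rfl | rfl, h3⟩
            · rfl
            · exact absurd h3 (lt_irrefl _)
            · exact absurd h3 (lt_asymm hvw)
            · exact absurd h3 (lt_asymm hvx)
          · rintro rfl; exact ⟨Or.inl rfl, huv⟩
        rw [this, card_singleton]; decide
      have p2 : par {u, v, w, x} w = false := by
        unfold par
        rw [decide_eq_false_iff_not]
        have : (({u, v, w, x} : Finset (Fin (T.n + m))).filter fun y => y < w) = {u, v} := by
          ext y; simp only [mem_filter, mem_insert, mem_singleton]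
          constructor
          · rintro ⟨rfl | rfl | rfl | rfl, h3⟩
            · exact Or.inl rfl
            · exact Or.inr rfl
            · exact absurd h3 (lt_irrefl _)
            · exact absurd h3 (lt_asymm hwx)
          · rintro (rfl | rfl)
            · exact ⟨Or.inl rfl, huw⟩
            · exact ⟨Or.inr (Or.inl rfl), hvw⟩
        rw [this, card_pair huv.ne]; decide
      have p3 : par {u, v, w, x} x = true := by
        unfold par
        rw [decide_eq_true_eq]
        have : (({u, v, w, x} : Finset (Fin (T.n + m))).filter fun y => y < x) = {u, v, w} := by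
          ext y; simp only [mem_filter, mem_insert, mem_singleton]
          constructor
          · rintro ⟨rfl | rfl | rfl | rfl, h3⟩
            · exact Or.inl rfl
            · exact Or.inr (Or.inl rfl)
            · exact Or.inr (Or.inr rfl)
            · exact absurd h3 (lt_irrefl _)
          · rintro (rfl | rfl | rfl)
            · exact ⟨Or.inl rfl, hux⟩
            · exact ⟨Or.inr (Or.inl rfl), hvx⟩
            · exact ⟨Or.inr (Or.inr (Or.inl rfl)), hwx⟩
        rw [this, card_insert_of_notMem (by simp [huv.ne, huw.ne]), card_pair hvw.ne]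
        decide
      have e1 := hA u (by simp) v (by simp) huv
      have e2 := hA v (by simp) w (by simp) hvw
      have e3 := hA w (by simp) x (by simp) hwx
      rw [htg u v hu hv, p0, p1] at e1
      rw [htg v w hv hw, p1, p2] at e2
      rw [htg w x hw hx, p2, p3] at e3
      rw [e1, e2, e3] at h1
      simp at h1)
    (PsiS T.star ψ) (PhiS T.free φ)
    (by
      intro ρ hρ hcard hρW
      obtain ⟨u, v, w, x, huv, hvw, hwx, rfl, _, h2⟩ := hfour ρ hρ hcard hρW
      have huw := huv.trans hvw
      have hux := huw.trans hwx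
      have hvx := hvw.trans hwx
      have e1 : ({u, v, w, x} : Finset (Fin (T.n + m))).erase u = {v, w, x} := by
        rw [erase_insert]; simp [huv.ne, huw.ne, hux.ne]
      have e2 : ({u, v, w, x} : Finset (Fin (T.n + m))).erase v = {u, w, x} := by
        ext y; simp only [mem_erase, mem_insert, mem_singleton]
        constructor
        · rintro ⟨h3, h4 | h4 | h4⟩
          · exact Or.inl h4
          · exact absurd h4 h3
          · exact Or.inr h4
        · rintro (rfl | rfl | rfl)
          · exact ⟨huv.ne, by simp⟩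
          · exact ⟨hvw.ne', by simp⟩
          · exact ⟨hvx.ne', by simp⟩
      have e3 : ({u, v, w, x} : Finset (Fin (T.n + m))).erase w = {u, v, x} := by
        ext y; simp only [mem_erase, mem_insert, mem_singleton]
        constructor
        · rintro ⟨h3, h4 | h4 | h4 | h4⟩
          · exact Or.inl h4
          · exact Or.inr (Or.inl h4)
          · exact absurd h4 h3
          · exact Or.inr (Or.inr h4)
        · rintro (rfl | rfl | rfl)
          · exact ⟨huw.ne, by simp⟩
          · exact ⟨hvw.ne, by simp⟩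
          · exact ⟨hwx.ne', by simp⟩
      have e4 : ({u, v, w, x} : Finset (Fin (T.n + m))).erase x = {u, v, w} := by
        ext y; simp only [mem_erase, mem_insert, mem_singleton]
        constructor
        · rintro ⟨h3, h4 | h4 | h4 | h4⟩
          · exact Or.inl h4
          · exact Or.inr (Or.inl h4)
          · exact Or.inr (Or.inr h4)
          · exact absurd h4 h3
        · rintro (rfl | rfl | rfl)
          · exact ⟨hux.ne, by simp⟩
          · exact ⟨hvx.ne, by simp⟩
          · exact ⟨hwx.ne, by simp⟩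
      refine sum_eq_zero fun y hy => ?_
      refine PhiS_eq_zero _ _ _ fun g hg => ?_
      obtain ⟨g1, g2, g3, g4⟩ := h2 g hg
      simp only [mem_insert, mem_singleton] at hy
      rcases hy with rfl | rfl | rfl | rfl
      · rw [e1, cM_three]; exact g4
      · rw [e2, cM_three]; exact g3
      · rw [e3, cM_three]; exact g2
      · rw [e4, cM_three]; exact g1)
  obtain ⟨u, v, w, s1, s2, s3, huv, hvw, rfl⟩ := hq1.exists_three hq2
  have huw := huv.trans hvw
  rw [pr_three] at hq3 hq4
  have hu := (hmemW u).mp (hq3 (by simp))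
  have hv := (hmemW v).mp (hq3 (by simp))
  have hw := (hmemW w).mp (hq3 (by simp))
  have a12 : tgN T.c u v = xor s1 s2 := by
    have := (hq1 (u, s1) (by simp) (v, s2) (by simp)).2 huv.ne
    rw [htg u v hu hv] at this
    exact this
  have a13 : tgN T.c u w = xor s1 s3 := by
    have := (hq1 (u, s1) (by simp) (w, s3) (by simp)).2 huw.ne
    rw [htg u w hu hw] at this
    exact this
  have a23 : tgN T.c v w = xor s2 s3 := by
    have := (hq1 (v, s2) (by simp) (w, s3) (by simp)).2 hvw.ne
    rw [htg v w hv hw] at this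
    exact this
  have hck : ∃ f, chkTri T u v w s1 s2 s3 f = true := by
    have h1 := hc1 w hw v hvw u huv
    have h2 : inc3 T.c u v w = false := by
      unfold inc3
      rw [a12, a13, a23]
      cases s1 <;> cases s2 <;> cases s3 <;> rfl
    rw [h2] at h1
    simp only [Bool.false_eq_true, false_or] at h1
    rw [a12, a13] at h1
    cases s1
    · exact ⟨idxTri T u v w false (xor false s2) (xor false s3), by simpa using h1.1⟩
    · exact ⟨idxTri T u v w true (!xor true s2) (!xor true s3), by simpa using h1.2⟩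
  obtain ⟨f, hf⟩ := hck
  simp only [chkTri, Bool.and_eq_true, beq_iff_eq, List.all_eq_true] at hf
  obtain ⟨⟨⟨⟨f1, f2⟩, f3⟩, f4⟩, f5⟩ := hf
  have f1' := Nat.eq_of_beq_eq_true f1
  have f2' := Nat.eq_of_beq_eq_true f2
  have er1 : ({(u, s1), (v, s2), (w, s3)} : Finset (Fin (T.n + m) × Bool)).erase (u, s1) =
      {(v, s2), (w, s3)} := by
    rw [erase_insert]
    simp only [mem_insert, mem_singleton, Prod.mk.injEq, not_or, not_and]
    exact ⟨fun h1 => absurd h1 huv.ne, fun h1 => absurd h1 huw.ne⟩
  have er2 : ({(u, s1), (v, s2), (w, s3)} : Finset (Fin (T.n + m) × Bool)).erase (v, s2) =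
      {(u, s1), (w, s3)} := by
    ext y; simp only [mem_erase, mem_insert, mem_singleton]
    constructor
    · rintro ⟨h3, h4 | h4 | h4⟩
      · exact Or.inl h4
      · exact absurd h4 h3
      · exact Or.inr h4
    · rintro (rfl | rfl)
      · exact ⟨fun h => huv.ne (Prod.ext_iff.mp h).1, by simp⟩
      · exact ⟨fun h => hvw.ne' (Prod.ext_iff.mp h).1, by simp⟩
  have er3 : ({(u, s1), (v, s2), (w, s3)} : Finset (Fin (T.n + m) × Bool)).erase (w, s3) =
      {(u, s1), (v, s2)} := by
    ext y; simp only [mem_erase, mem_insert, mem_singleton]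
    constructor
    · rintro ⟨h3, h4 | h4 | h4⟩
      · exact Or.inl h4
      · exact Or.inr h4
      · exact absurd h4 h3
    · rintro (rfl | rfl)
      · exact ⟨fun h => huw.ne (Prod.ext_iff.mp h).1, by simp⟩
      · exact ⟨fun h => hvw.ne (Prod.ext_iff.mp h).1, by simp⟩
  refine ⟨f, ?_, ?_⟩
  · -- the cochain does not vanish
    apply b2z_ne
    have h1 : T.E ψ φ = T.alt ^^^ (xorS T.star ψ ^^^ xorP T.free φ) := rfl
    rw [h1, Nat.testBit_xor, Nat.testBit_xor, b2z_xor, b2z_xor, f3,
      xorS_testBit ({(u, s1), (v, s2), (w, s3)} : Finset (Fin (T.n + m) × Bool)) f T.star ψ ?_,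
      xorP_testBit ({u, v, w} : Finset (Fin (T.n + m))) f T.free φ ?_,
      ← altc_three huv hvw, ← add_assoc]
    · exact hq4
    · intro g hg
      rw [f5 g hg, cM_three]
      unfold b2z
      refine if_congr ?_ rfl rfl
      exact ⟨Nat.eq_of_beq_eq_true, fun h => by rw [h]; exact Nat.beq_refl _⟩
    · intro g hg
      have hne1 : (u, s1) ∉ ({(v, s2), (w, s3)} : Finset (Fin (T.n + m) × Bool)) := by
        simp only [mem_insert, mem_singleton, Prod.mk.injEq, not_or, not_and]
        exact ⟨fun h1 => absurd h1 huv.ne, fun h1 => absurd h1 huw.ne⟩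
      have hne2 : (v, s2) ∉ ({(w, s3)} : Finset (Fin (T.n + m) × Bool)) := by
        simp only [mem_singleton, Prod.mk.injEq, not_and]
        exact fun h1 => absurd h1 hvw.ne
      have hR : ∀ (u v : Fin (T.n + m)) (s t : Bool), b2z (isR g u s v t) =
          if (g.1 = cM (pr ({(u, s), (v, t)} : Finset (Fin (T.n + m) × Bool))) ∧
            g.2.1 = cV ({(u, s), (v, t)} : Finset (Fin (T.n + m) × Bool))) then
            (1 : ZMod 2) else 0 := by
        intro u v s t
        unfold b2z isR
        refine if_congr ?_ rfl rfl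
        rw [pr_two, cM_two, cV_two, Bool.and_eq_true]
        exact and_congr ⟨Nat.eq_of_beq_eq_true, fun h => by rw [h]; exact Nat.beq_refl _⟩
          ⟨Nat.eq_of_beq_eq_true, fun h => by rw [h]; exact Nat.beq_refl _⟩
      rw [f4 g hg, b2z_xor, b2z_xor, sum_insert hne1, sum_insert hne2, sum_singleton,
        er1, er2, er3, hR, hR, hR]
  · -- the facet is covered
    rw [mem_lift] at hx
    have hxS := (hmemS x.1).mp hx.1
    refine ⟨x.1.1 - T.n, by omega, ?_⟩
    unfold Tab.Covers
    rw [f1', f2', ← cM_three, ← cV_three]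
    have hsgn : ∀ (y : Fin (T.n + m)) (s : Bool),
        (y, s) ∈ ({(u, s1), (v, s2), (w, s3)} : Finset (Fin (T.n + m) × Bool)) → y.1 < T.n →
        (r (x.1.1 - T.n)).testBit y = s := by
      intro y s hy hyn
      have h1 := (hxq x (mem_insert_self _ _) (y, s) (mem_insert_of_mem hy)).2
        (fun he => by have : x.1.1 = y.1 := by rw [he]
                      omega)
      rw [hx.2] at h1
      unfold rowA rowG at h1
      rw [if_neg (by omega), if_pos hyn] at h1
      simpa using h1
    refine Nat.eq_of_testBit_eq fun i => ?_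
    rw [Nat.testBit_and, testBit_cM, testBit_cV]
    have k1 := hsgn u s1 (by simp) hu
    have k2 := hsgn v s2 (by simp) hv
    have k3 := hsgn w s3 (by simp) hw
    simp only [mem_insert, mem_singleton, Prod.mk.injEq, Fin.ext_iff]
    have hu2 := u.2
    have hv2 := v.2
    have hw2 := w.2
    have n1 : (u : ℕ) < v := huv
    have n2 : (v : ℕ) < w := hvw
    by_cases h1 : i = u
    · subst h1
      rw [k1]
      have : ∃ _ : (u : ℕ) < T.n + m, (u : ℕ) = u ∨ (u : ℕ) = v ∨ (u : ℕ) = w :=
        ⟨hu2, Or.inl rfl⟩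
      rw [decide_eq_true this, Bool.and_true]
      cases s1
      · symm
        rw [decide_eq_false_iff_not]
        rintro ⟨_, h | h | h⟩
        · exact absurd h.2 (by decide)
        · omega
        · omega
      · symm
        rw [decide_eq_true_eq]
        exact ⟨hu2, Or.inl ⟨rfl, rfl⟩⟩
    · by_cases h2 : i = v
      · subst h2
        rw [k2]
        have : ∃ _ : (v : ℕ) < T.n + m, (v : ℕ) = u ∨ (v : ℕ) = v ∨ (v : ℕ) = w :=
          ⟨hv2, Or.inr (Or.inl rfl)⟩
        rw [decide_eq_true this, Bool.and_true]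
        cases s2
        · symm
          rw [decide_eq_false_iff_not]
          rintro ⟨_, h | h | h⟩
          · omega
          · exact absurd h.2 (by decide)
          · omega
        · symm
          rw [decide_eq_true_eq]
          exact ⟨hv2, Or.inr (Or.inl ⟨rfl, rfl⟩)⟩
      · by_cases h3 : i = w
        · subst h3
          rw [k3]
          have : ∃ _ : (w : ℕ) < T.n + m, (w : ℕ) = u ∨ (w : ℕ) = v ∨ (w : ℕ) = w :=
            ⟨hw2, Or.inr (Or.inr rfl)⟩
          rw [decide_eq_true this, Bool.and_true]
          cases s3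
          · symm
            rw [decide_eq_false_iff_not]
            rintro ⟨_, h | h | h⟩
            · omega
            · omega
            · exact absurd h.2 (by decide)
          · symm
            rw [decide_eq_true_eq]
            exact ⟨hw2, Or.inr (Or.inr ⟨rfl, rfl⟩)⟩
        · have e1 : ¬ ∃ _ : i < T.n + m, i = u ∨ i = v ∨ i = w := by
            rintro ⟨_, h | h | h⟩
            · exact h1 h
            · exact h2 h
            · exact h3 h
          have e2 : ¬ ∃ _ : i < T.n + m, (i = u ∧ true = s1) ∨ (i = v ∧ true = s2) ∨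
              (i = w ∧ true = s3) := by
            rintro ⟨_, h | h | h⟩
            · exact h1 h.1
            · exact h2 h.1
            · exact h3 h.1
          rw [decide_eq_false e1, decide_eq_false e2, Bool.and_false]

end Pool.Agent.RP5
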