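import Mathlib

/-!
# Mod 2 chains on signed sets and Yang's index

`V × Bool` is the set of signed vertices; a chain is a function from finite sets of signed
vertices to `ZMod 2`.
-/

set_option autoImplicit false
set_option linter.unusedSectionVars false

open Finset

namespace Pool.Agent.RP5

variable {V : Type*} [DecidableEq V]

/-- the antipodal map on signed vertices -/
def neg : V × Bool ≃ V × Bool := (Equiv.refl V).prodCongr Equiv.boolNot

@[simp] theorem neg_apply (p : V × Bool) : neg p = (p.1, !p.2) := rfl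

@[simp] theorem neg_fst (p : V × Bool) : (neg p).1 = p.1 := rfl

@[simp] theorem neg_neg' (p : V × Bool) : neg (neg p) = p := by simp

theorem neg_ne (p : V × Bool) : neg p ≠ p := by
  intro h
  have := congrArg Prod.snd h
  simp at this

/-- the antipode of a set of signed vertices -/
def negS (s : Finset (V × Bool)) : Finset (V × Bool) := s.map neg.toEmbedding

theorem mem_negS {s : Finset (V × Bool)} {p : V × Bool} : p ∈ negS s ↔ neg p ∈ s := by
  unfold negS
  simp only [mem_map_equiv]
  rfl

theorem neg_mem_negS {s : Finset (V × Bool)} {p : V × Bool} : neg p ∈ negS s ↔ p ∈ s := by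
  rw [mem_negS, neg_neg']

@[simp] theorem negS_negS (s : Finset (V × Bool)) : negS (negS s) = s := by
  ext p
  rw [mem_negS, mem_negS, neg_neg']

@[simp] theorem card_negS (s : Finset (V × Bool)) : (negS s).card = s.card := by
  simp [negS]

theorem negS_insert (x : V × Bool) (s : Finset (V × Bool)) :
    negS (insert x s) = insert (neg x) (negS s) := by
  ext p
  rw [mem_negS, mem_insert, mem_insert, mem_negS]
  constructor
  · rintro (h | h)
    · left; rw [← h, neg_neg']
    · right; exact h
  · rintro (h | h)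
    · left; rw [h, neg_neg']
    · right; exact h

theorem negS_injective : Function.Injective (negS : Finset (V × Bool) → Finset (V × Bool)) :=
  fun s t h => by rw [← negS_negS s, h, negS_negS]

@[simp] theorem negS_empty : negS (∅ : Finset (V × Bool)) = ∅ := rfl

/-- mod 2 chains -/
abbrev Ch (V : Type*) := Finset (V × Bool) → ZMod 2

/-- the antipodal map on chains -/
def T (z : Ch V) : Ch V := fun s => z (negS s)

theorem T_apply (z : Ch V) (s : Finset (V × Bool)) : T z s = z (negS s) := rfl

@[simp] theorem T_T (z : Ch V) : T (T z) = z := by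
  funext s
  simp [T]

theorem T_add (z w : Ch V) : T (z + w) = T z + T w := rfl

@[simp] theorem add_self_ch (z : Ch V) : z + z = 0 := by
  funext s
  exact CharTwo.add_self_eq_zero _

variable [Fintype V]

/-- the boundary -/
def bd (z : Ch V) : Ch V := fun r => ∑ x, if x ∈ r then 0 else z (insert x r)

theorem bd_apply (z : Ch V) (r : Finset (V × Bool)) :
    bd z r = ∑ x, if x ∈ r then 0 else z (insert x r) := rfl

theorem bd_add (z w : Ch V) : bd (z + w) = bd z + bd w := by
  funext r
  simp only [bd_apply, Pi.add_apply, ← sum_add_distrib]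
  refine sum_congr rfl fun x _ => ?_
  split_ifs <;> simp

@[simp] theorem bd_zero : bd (0 : Ch V) = 0 := by
  funext r
  simp [bd_apply]

theorem sum_sum_symm {α : Type*} [Fintype α] [DecidableEq α] (F : α → α → ZMod 2)
    (hs : ∀ x y, F x y = F y x) (hd : ∀ x, F x x = 0) : ∑ x, ∑ y, F x y = 0 := by
  rw [← Fintype.sum_prod_type']
  refine sum_involution (fun p _ => (p.2, p.1)) ?_ ?_ ?_ ?_
  · intro p _
    rw [hs p.2 p.1]
    exact CharTwo.add_self_eq_zero _
  · rintro ⟨x, y⟩ _ h1 h2
    have h3 : x = y := by simpa using (Prod.ext_iff.mp h2).2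
    apply h1
    simp only
    rw [h3]
    exact hd y
  · intro p _
    exact mem_univ _
  · intro p _
    rfl

theorem bd_bd (z : Ch V) : bd (bd z) = 0 := by
  funext r
  rw [bd_apply]
  have h1 : ∀ x : V × Bool, (if x ∈ r then 0 else bd z (insert x r)) =
      ∑ y, if x ∈ r ∨ y ∈ r ∨ x = y then 0 else z (insert y (insert x r)) := by
    intro x
    split_ifs with h
    · symm
      refine sum_eq_zero fun y _ => ?_
      simp [h]
    · rw [bd_apply]
      refine sum_congr rfl fun y _ => ?_
      simp only [mem_insert, h, false_or]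
      by_cases h1 : y ∈ r
      · simp [h1]
      · by_cases h2 : x = y
        · simp [h2]
        · have h3 : y ≠ x := fun h => h2 h.symm
          simp [h1, h2, h3]
  rw [sum_congr rfl fun x _ => h1 x]
  refine sum_sum_symm _ ?_ ?_
  · intro x y
    by_cases h : x ∈ r ∨ y ∈ r ∨ x = y
    · have h' : y ∈ r ∨ x ∈ r ∨ y = x := by tauto
      rw [if_pos h, if_pos h']
    · have h' : ¬ (y ∈ r ∨ x ∈ r ∨ y = x) := by
        intro h2; apply h; rcases h2 with h2 | h2 | h2
        · exact Or.inr (Or.inl h2)
        · exact Or.inl h2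
        · exact Or.inr (Or.inr h2.symm)
      rw [if_neg h, if_neg h', insert_comm]
  · intro x
    simp

theorem bd_T (z : Ch V) : bd (T z) = T (bd z) := by
  funext r
  rw [T_apply, bd_apply, bd_apply]
  refine Fintype.sum_equiv neg _ _ fun x => ?_
  simp only [T_apply, negS_insert, neg_mem_negS]

/-- no antipodal pair in `s` -/
def AF (s : Finset (V × Bool)) : Prop := ∀ p ∈ s, neg p ∉ s

theorem AF.subset {s t : Finset (V × Bool)} (h : AF s) (hts : t ⊆ s) : AF t :=
  fun p hp hn => h p (hts hp) (hts hn)

theorem AF.negS {s : Finset (V × Bool)} (h : AF s) : AF (negS s) := by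
  intro p hp hn
  rw [mem_negS] at hp hn
  exact h _ hp hn

theorem AF.negS_ne {s : Finset (V × Bool)} (h : AF s) (hs : s.Nonempty) :
    Pool.Agent.RP5.negS s ≠ s := by
  obtain ⟨p, hp⟩ := hs
  intro he
  refine h p hp ?_
  rw [← he, mem_negS, neg_neg']
  exact hp

/-- `z` is supported on antipode free sets with `k + 1` elements -/
def Supp (k : ℕ) (z : Ch V) : Prop := ∀ s, z s ≠ 0 → AF s ∧ s.card = k + 1

theorem Supp.add {k : ℕ} {z w : Ch V} (hz : Supp k z) (hw : Supp k w) : Supp k (z + w) := by
  intro s hs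
  by_cases h : z s = 0
  · refine hw s fun h' => hs ?_
    rw [Pi.add_apply, h, h', add_zero]
  · exact hz s h

theorem Supp.T {k : ℕ} {z : Ch V} (hz : Supp k z) : Supp k (T z) := by
  intro s hs
  obtain ⟨h1, h2⟩ := hz _ hs
  refine ⟨?_, by rw [card_negS] at h2; exact h2⟩
  have := h1.negS
  rwa [negS_negS] at this

theorem exists_of_bd_ne {z : Ch V} {r : Finset (V × Bool)} (h : bd z r ≠ 0) :
    ∃ x, x ∉ r ∧ z (insert x r) ≠ 0 := by
  rw [bd_apply] at h
  obtain ⟨x, _, hx⟩ := exists_ne_zero_of_sum_ne_zero h
  by_cases hr : x ∈ r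
  · rw [if_pos hr] at hx; exact absurd rfl hx
  · rw [if_neg hr] at hx; exact ⟨x, hr, hx⟩

theorem Supp.bd {k : ℕ} {z : Ch V} (hz : Supp (k + 1) z) : Supp k (bd z) := by
  intro r hr
  obtain ⟨x, hx, hzx⟩ := exists_of_bd_ne hr
  obtain ⟨h1, h2⟩ := hz _ hzx
  refine ⟨h1.subset (subset_insert x r), ?_⟩
  rw [card_insert_of_notMem hx] at h2
  omega

/-- the sum of all values of the boundary of a chain of edges is zero -/
theorem sum_bd {x : Ch V} (hx : Supp 1 x) : ∑ s, bd x s = 0 := by
  have h1 : ∑ s, bd x s = ∑ p : (V × Bool) × Finset (V × Bool),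
      if p.1 ∈ p.2 then 0 else x (insert p.1 p.2) := by
    rw [Fintype.sum_prod_type_right]
    rfl
  rw [h1]
  -- pair (p, {q}) with (q, {p})
  have h2 : ∑ p : (V × Bool) × Finset (V × Bool), (if p.1 ∈ p.2 then 0 else x (insert p.1 p.2)) =
      ∑ p : (V × Bool), ∑ q : (V × Bool), if p = q then 0 else x {p, q} := by
    rw [← Fintype.sum_prod_type']
    symm
    refine sum_of_injOn (fun p : (V × Bool) × (V × Bool) => (p.1, {p.2})) ?_ ?_ ?_ ?_
    · rintro ⟨p, q⟩ _ ⟨p', q'⟩ _ h
      simp only [Prod.mk.injEq, singleton_inj] at h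
      exact Prod.ext h.1 h.2
    · intro p _
      exact mem_coe.mpr (mem_univ _)
    · rintro ⟨p, s⟩ _ hps
      simp only
      split_ifs with hm
      · rfl
      · by_contra hne
        obtain ⟨-, hc⟩ := hx _ hne
        rw [card_insert_of_notMem hm] at hc
        obtain ⟨q, hq⟩ := card_eq_one.mp (by omega : s.card = 1)
        exact hps ⟨(p, q), mem_coe.mpr (mem_univ _), by rw [hq]⟩
    · rintro ⟨p, q⟩ _
      simp only [mem_singleton]
  rw [h2]
  refine sum_sum_symm _ ?_ ?_
  · intro p q
    by_cases h : p = q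
    · rw [h]
    · rw [if_neg h, if_neg fun h' => h h'.symm, pair_comm]
  · intro p
    simp

end Pool.Agent.RP5
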