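import Pool.Agent.RP5.Iso

/-!
# Normal form of a signed graph with a coherent set
-/

set_option autoImplicit false
set_option linter.unusedSectionVars false

open Finset

namespace Pool.Agent.RP5

variable {V : Type*} [DecidableEq V] [Fintype V]

theorem P.step' {a : V → V → Bool} (ha : ∀ u v, a u v = a v u) {k : ℕ} {U S W : Finset V}
    (h : P a (k + 1) U) (hS : Coh a S) (hW : U \ S = W) : P a k W := by
  rw [← hW]; exact h.step ha hS

/-- the pulled back graph is symmetric -/
theorem pullA_symm {W : Type*} {a : V → V → Bool} (ha : ∀ u v, a u v = a v u) (f : W ↪ V)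
    (δ : W → Bool) (u v : W) : pullA f δ a u v = pullA f δ a v u := by
  unfold pullA
  rw [ha, Bool.xor_comm (δ u)]

/-- **Normal form.** Let `S` be a coherent set with `m` elements, let `f` be an enumeration of its
complement, and let the signed graph on the complement be isomorphic to `b`. Then the
graph is isomorphic to one on `Fin (n + m)` which is `b` on the first `n` points and
positive on the last `m` points. -/
theorem exists_normal {n m : ℕ} {a : V → V → Bool} (ha : ∀ u v, a u v = a v u) {S : Finset V}
    (hS : Coh a S) (hcS : S.card = m) (f : Fin n ↪ V) (hf : ∀ v, v ∈ Set.range f ↔ v ∉ S)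
    {b : Fin n → Fin n → Bool} (hb : IsoTo (pullA f (fun _ => false) a) b) :
    ∃ (e : Fin (n + m) ≃ V) (δ : Fin (n + m) → Bool),
      (∀ u v : Fin n, u ≠ v →
        pullA e.toEmbedding δ a (Fin.castAdd m u) (Fin.castAdd m v) = b u v) ∧
      (∀ i j : Fin m, i ≠ j →
        pullA e.toEmbedding δ a (Fin.natAdd n i) (Fin.natAdd n j) = false) ∧
      (∀ i : Fin m, e (Fin.natAdd n i) ∈ S) ∧ ∀ u : Fin n, e (Fin.castAdd m u) ∉ S := by
  classical
  obtain ⟨ε, hε⟩ := hS.exists_isSgn ha
  obtain ⟨e₀, δ₀, hb⟩ := hb
  let g : Fin m ≃ S := (S.equivFinOfCardEq hcS).symm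
  let F : Fin (n + m) → V := fun x => Fin.addCases (fun u => f (e₀ u)) (fun i => (g i : V)) x
  have hF1 : ∀ u : Fin n, F (Fin.castAdd m u) = f (e₀ u) := fun u => by simp [F]
  have hF2 : ∀ i : Fin m, F (Fin.natAdd n i) = g i := fun i => by simp [F]
  have hFS : ∀ i : Fin m, F (Fin.natAdd n i) ∈ S := fun i => by rw [hF2]; exact (g i).2
  have hFn : ∀ u : Fin n, F (Fin.castAdd m u) ∉ S := fun u => by
    rw [hF1]; exact (hf _).mp ⟨_, rfl⟩
  have hbij : Function.Bijective F := by
    constructor
    · intro x y hxy
      induction x using Fin.addCases with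
      | left u =>
        induction y using Fin.addCases with
        | left v =>
          rw [hF1, hF1] at hxy
          rw [e₀.injective (f.injective hxy)]
        | right j =>
          exfalso
          have := hFn u
          rw [hxy] at this
          exact this (hFS j)
      | right i =>
        induction y using Fin.addCases with
        | left v =>
          exfalso
          have := hFn v
          rw [← hxy] at this
          exact this (hFS i)
        | right j =>
          rw [hF2, hF2] at hxy
          rw [g.injective (Subtype.ext hxy)]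
    · intro v
      by_cases hv : v ∈ S
      · refine ⟨Fin.natAdd n (g.symm ⟨v, hv⟩), ?_⟩
        rw [hF2]; simp
      · obtain ⟨u, hu⟩ := (hf v).mpr hv
        refine ⟨Fin.castAdd m (e₀.symm u), ?_⟩
        rw [hF1]; simp [hu]
  refine ⟨Equiv.ofBijective F hbij,
    fun x => Fin.addCases (fun u => δ₀ u) (fun i => ε (g i : V)) x, ?_, ?_, ?_, ?_⟩
  · intro u v huv
    have h1 := hb u v huv
    unfold pullA at h1 ⊢
    simp only [Equiv.toEmbedding_apply, Equiv.ofBijective_apply, Fin.addCases_left, hF1]
    simp only [Equiv.toEmbedding_apply, Bool.xor_false] at h1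
    rw [h1]
  · intro i j hij
    unfold pullA
    simp only [Equiv.toEmbedding_apply, Equiv.ofBijective_apply, Fin.addCases_right, hF2]
    rw [hε _ (g i).2 _ (g j).2 (fun h => hij (g.injective (Subtype.ext h)))]
    simp
  · intro i
    exact hFS i
  · intro u
    exact hFn u

/-- an enumeration of the complement of a set -/
theorem exists_enum {n : ℕ} {S : Finset V} (h : Sᶜ.card = n) :
    ∃ f : Fin n ↪ V, ∀ v, v ∈ Set.range f ↔ v ∉ S := by
  classical
  let g : Fin n ≃ (Sᶜ : Finset V) := (Sᶜ.equivFinOfCardEq h).symm
  refine ⟨⟨fun i => (g i : V), fun i j hij => g.injective (Subtype.ext hij)⟩, fun v => ?_⟩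
  constructor
  · rintro ⟨i, rfl⟩
    have := (g i).2
    rw [mem_compl] at this
    exact this
  · intro hv
    refine ⟨g.symm ⟨v, mem_compl.mpr hv⟩, ?_⟩
    show (g (g.symm ⟨v, mem_compl.mpr hv⟩) : V) = v
    rw [Equiv.apply_symm_apply]

end Pool.Agent.RP5
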