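import Pool.Agent.RP5.Eng

/-!
# Tables and instructions for the base number 3 on seven points
-/

set_option autoImplicit false

namespace Pool.Agent.RP5

open Eng

/-- tables -/
def tab3 : Tab where
  n := 7
  c := 1255616
  fac := [(7, 0, 178956970), (7, 7, 89478485), (11, 0, 2695539370), (11, 11, 1347769685), (19, 16, 292203178), (19, 3, 580212053), (13, 0, 2860690090), (13, 13, 1430345045), (37, 0, 1250273962), (37, 37, 2236241237), (73, 0, 2761058986), (73, 73, 1482790229), (14, 0, 2863311530), (14, 14, 1431655765), (70, 64, 1521133226), (70, 6, 2773834069), (42, 32, 2779425194), (42, 10, 1515542101), (50, 48, 2506793258), (50, 2, 1788170773), (82, 80, 1500161066), (82, 2, 2794805269), (28, 0, 2862000794), (28, 28, 1432966501), (52, 0, 1788191378), (52, 52, 2506772833), (100, 64, 1520805506), (100, 36, 2774161729), (88, 0, 2794875032), (88, 88, 1500091492), (104, 32, 2778360200), (104, 72, 1516607044)]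
  alt := 2147483648
  star := [(3, 0, 21), (3, 3, 42), (5, 0, 321), (5, 5, 642), (9, 0, 1092), (9, 9, 2184), (17, 16, 16), (17, 1, 32), (33, 0, 256), (33, 33, 512), (65, 0, 1024), (65, 65, 2048), (6, 0, 20481), (6, 6, 40962), (10, 0, 69636), (10, 10, 139272), (18, 16, 1310736), (18, 2, 2621472), (34, 32, 327680), (34, 2, 655360), (66, 64, 1064960), (66, 2, 2129920), (12, 0, 4198464), (12, 12, 8396928), (20, 0, 20971520), (20, 20, 41943040), (36, 0, 83886336), (36, 36, 167772672), (68, 64, 67125248), (68, 4, 134250496), (24, 0, 272629760), (24, 24, 545259520), (40, 32, 1073807360), (40, 8, 2147614720), (72, 0, 1342178304), (72, 72, 2684356608), (48, 0, 17301504), (48, 48, 33816576), (80, 0, 270532608), (80, 80, 537919488), (96, 64, 2214592512), (96, 32, 1207959552)]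
  free := [(19, 48), (37, 768), (73, 3072), (70, 49152), (42, 196608), (50, 786432), (82, 3145728), (28, 12582912), (52, 50331648), (100, 201326592), (88, 805306368), (104, 3221225472)]

/-- instructions -/
def ins3 : List Ins := [
  .N 14, .N 15, .S 0 16, .N 24, .N 29, .S 1 27,
  .S 2 19, .S 1 30, .S 3 23, .S 2 26, .S 1 21, .S 3 25,
  .S 2 17, .S 0 22, .S 3 18, .S 1 1, .S 2 3, .S 3 7,
  .B 0 0, .L 3 214482316203329 1644, .L 2 10282842363070496 1036, .R 8589968010 0, .R 8589967360 0, .R 8589967490 0,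
  .R 77331185989 0, .R 77326712832 0, .R 8589934592 0, .R 8631911050 0, .R 8590590080 0, .R 77377044736 0,
  .R 8598356618 0, .R 81625891141 0, .R 8590458880 0, .R 8766128266 0, .R 10745840266 0, .R 77309935616 0,
  .N 16, .S 1 17, .S 1 19, .N 23, .S 0 24, .S 2 28,
  .S 3 18, .S 3 20, .S 2 27, .S 0 22, .R 0 0, .R 77326712832 0,
  .R 8766128266 0, .R 77331251461 0, .R 77331185989 0, .R 78400454656 0, .R 77309935616 0, .R 8598356618 0,
  .N 19, .S 1 23, .S 3 21, .S 2 25, .S 0 26, .S 2 27,
  .S 0 20, .S 3 22, .S 0 29, .S 0 0, .S 2 2, .S 3 6,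
  .B 1 0, .L 2 10281742884997152 292, .L 3 214481276015937 1542, .R 77330907136 0, .R 77330907461 0, .R 77330907396 0,
  .R 10745840266 0, .R 77326712832 0, .R 77331251461 0, .R 8766128266 0, .R 77377044736 0, .R 8631911050 0,
  .R 8590590080 0, .R 8598356618 0, .R 8590458880 0, .N 17, .S 0 18, .S 2 22,
  .S 3 24, .S 1 23, .S 3 21, .R 0 0, .R 8590590080 0, .R 8598356618 0,
  .R 77309935616 0, .R 77326712832 0, .S 2 18, .S 0 22, .S 2 20, .S 1 27,
  .S 3 19, .R 10745840266 0, .R 8590458880 0, .R 8766128266 0, .R 77331251461 0, .R 77326712832 0,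
  .R 77331185989 0, .R 8589934592 0, .R 77330923845 0, .R 8589975682 0, .R 77330911492 0]

end Pool.Agent.RP5
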