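import Pool.Agent.RP5.Base11
import Pool.Agent.RP5.Ins0
import Pool.Agent.RP5.Ins1
import Pool.Agent.RP5.Ins2
import Pool.Agent.RP5.Ins3
import Pool.Agent.RP5.Ins4

/-!
# Four rows over the five two-graphs on seven points
-/

set_option autoImplicit false

open Finset

namespace Pool.Agent.RP5

open Eng

theorem base11_0 {r : ℕ → ℕ} (hr : ∀ i < 4, r i < 2 ^ 7)
    (hP : P (rowA 11 7 tab0.c r) 3 univ) : ∃ j, IsoTo (rowA 11 7 tab0.c r) (qtab j) :=
  base11 rfl (l := ins0) (by decide +kernel) (by decide +kernel) (by decide +kernel)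
    (by decide +kernel) hr hP

theorem base11_1 {r : ℕ → ℕ} (hr : ∀ i < 4, r i < 2 ^ 7)
    (hP : P (rowA 11 7 tab1.c r) 3 univ) : ∃ j, IsoTo (rowA 11 7 tab1.c r) (qtab j) :=
  base11 rfl (l := ins1) (by decide +kernel) (by decide +kernel) (by decide +kernel)
    (by decide +kernel) hr hP

theorem base11_2 {r : ℕ → ℕ} (hr : ∀ i < 4, r i < 2 ^ 7)
    (hP : P (rowA 11 7 tab2.c r) 3 univ) : ∃ j, IsoTo (rowA 11 7 tab2.c r) (qtab j) :=
  base11 rfl (l := ins2) (by decide +kernel) (by decide +kernel) (by decide +kernel)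
    (by decide +kernel) hr hP

theorem base11_3 {r : ℕ → ℕ} (hr : ∀ i < 4, r i < 2 ^ 7)
    (hP : P (rowA 11 7 tab3.c r) 3 univ) : ∃ j, IsoTo (rowA 11 7 tab3.c r) (qtab j) :=
  base11 rfl (l := ins3) (by decide +kernel) (by decide +kernel) (by decide +kernel)
    (by decide +kernel) hr hP

theorem base11_4 {r : ℕ → ℕ} (hr : ∀ i < 4, r i < 2 ^ 7)
    (hP : P (rowA 11 7 tab4.c r) 3 univ) : ∃ j, IsoTo (rowA 11 7 tab4.c r) (qtab j) :=
  base11 rfl (l := ins4) (by decide +kernel) (by decide +kernel) (by decide +kernel)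
    (by decide +kernel) hr hP

end Pool.Agent.RP5
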