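import Pool.Agent.RP5.Cls7
import Pool.Agent.RP5.Normal
import Pool.Agent.RP5.T11
import Pool.Agent.RP5.Bound

/-!
# The two-graphs on eleven points which carry a witness in dimension three: four classes
-/

set_option autoImplicit false
set_option linter.unusedSectionVars false

open Finset

namespace Pool.Agent.RP5

open Eng

theorem base11_all {c : ℕ} (hc : c ∈ G7) : ∃ c', IsoTo (tg 7 c) (tg 7 c') ∧
    ∀ r : ℕ → ℕ, (∀ i < 4, r i < 2 ^ 7) → P (rowA 11 7 c' r) 3 univ →
      ∃ j, IsoTo (rowA 11 7 c' r) (qtab j) := by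
  simp only [G7, List.mem_cons, List.not_mem_nil, or_false] at hc
  rcases hc with rfl | rfl | rfl | rfl | rfl
  · exact ⟨414208, IsoTo.refl _, fun r h1 h2 => base11_0 h1 h2⟩
  · exact ⟨1118656, chkIso_sound (p := 6614517792) (δ := 16) (by decide +kernel),
      fun r h1 h2 => base11_1 h1 h2⟩
  · exact ⟨227480, chkIso_sound (p := 6614517792) (δ := 8) (by decide +kernel),
      fun r h1 h2 => base11_2 h1 h2⟩
  · exact ⟨1255616, chkIso_sound (p := 6614517792) (δ := 16) (by decide +kernel),
      fun r h1 h2 => base11_3 h1 h2⟩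
  · exact ⟨2038432, IsoTo.refl _, fun r h1 h2 => base11_4 h1 h2⟩

/-- **The two-graphs on eleven points with a witness in dimension three: four classes.** -/
theorem cls_eleven {a : Fin 11 → Fin 11 → Bool} (ha : ∀ u v, a u v = a v u)
    (hP : P a 3 univ) : ∃ j, IsoTo a (qtab j) := by
  obtain ⟨S, hS, hcS, _⟩ := hP.exists_coh
  have hcT : Sᶜ.card = 7 := by
    rw [card_compl, hcS, Fintype.card_fin]
  obtain ⟨f, hf⟩ := exists_enum hcT
  have hP2 : P a 2 (univ \ S) := hP.step ha hS
  have hP3 : P (pullA f (fun _ => false) a) 2 univ :=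
    P.pull hP2 f _ (fun v hv => (hf v).mpr (mem_sdiff.mp hv).2)
  obtain ⟨c, hc, hi⟩ := cls_seven _ (pullA_symm ha f _) hP3
  obtain ⟨c', hcc, hr⟩ := base11_all hc
  obtain ⟨e, δ, h1, h2, _, _⟩ := exists_normal (m := 4) ha hS hcS f hf (hi.trans hcc)
  let b : Fin (7 + 4) → Fin (7 + 4) → Bool := pullA e.toEmbedding δ a
  have hb : ∀ u v, b u v = b v u := pullA_symm ha _ _
  let r : ℕ → ℕ := fun i =>
    if h : i < 4 then Nat.ofBits (fun v : Fin 7 => b (Fin.natAdd 7 ⟨i, h⟩) (Fin.castAdd 4 v))
    else 0
  have hr7 : ∀ i < 4, r i < 2 ^ 7 := by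
    intro i hi
    simp only [r, dif_pos hi]
    exact Nat.ofBits_lt_two_pow _
  have hrow : ∀ u v : Fin (7 + 4), u ≠ v → rowA (7 + 4) 7 c' r u v = b u v := by
    have hlr : ∀ (i : Fin 4) (v : Fin 7), (r i).testBit v =
        b (Fin.natAdd 7 i) (Fin.castAdd 4 v) := by
      intro i v
      simp only [r, dif_pos i.2]
      rw [Nat.testBit_ofBits_lt _ _ v.2]
    intro u v huv
    induction u using Fin.addCases with
    | left u =>
      induction v using Fin.addCases with
      | left v =>
        have hne : u ≠ v := fun h => huv (by rw [h])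
        have h3 := h1 u v hne
        unfold rowA rowG
        simp only [Fin.val_castAdd]
        rw [if_pos u.2, if_pos v.2]
        exact h3.symm
      | right j =>
        unfold rowA rowG
        simp only [Fin.val_castAdd, Fin.val_natAdd]
        rw [if_pos u.2, if_neg (by omega), Nat.add_sub_cancel_left, hlr, hb]
    | right i =>
      induction v using Fin.addCases with
      | left v =>
        unfold rowA rowG
        simp only [Fin.val_castAdd, Fin.val_natAdd]
        rw [if_neg (by omega), if_pos v.2, Nat.add_sub_cancel_left, hlr]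
      | right j =>
        have hne : i ≠ j := fun h => huv (by rw [h])
        have h3 := h2 i j hne
        unfold rowA rowG
        simp only [Fin.val_natAdd]
        rw [if_neg (by omega), if_neg (by omega)]
        exact h3.symm
  have hiso : IsoTo a (rowA 11 7 c' r) := ⟨e, δ, fun u v huv => hrow u v huv⟩
  obtain ⟨j, hj⟩ := hr r hr7 (hiso.P hP)
  exact ⟨j, hiso.trans hj⟩

end Pool.Agent.RP5
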