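import Pool.Agent.RP5.Tab7

/-!
# The two-graphs on seven points which carry a witness in dimension two
-/

set_option autoImplicit false
set_option linter.unusedSectionVars false

open Finset

namespace Pool.Agent.RP5

/-- check the certificates for all extensions of `c` with signs `r, r + 1, …, 2 ^ n - 1` -/
def chkRow (n c : ℕ) (L' : List ℕ) : ℕ → List (ℕ × ℕ × ℕ) → Bool
  | r, [] => r == 2 ^ n
  | r, x :: l => L'.contains x.1 && chkIso (n + 1) (extC n c r) x.1 x.2.1 x.2.2 &&
      chkRow n c L' (r + 1) l

theorem chkRow_sound {n c : ℕ} {L' : List ℕ} {l : List (ℕ × ℕ × ℕ)} {r : ℕ}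
    (h : chkRow n c L' r l = true) {s : ℕ} (h1 : r ≤ s) (h2 : s < 2 ^ n) :
    ∃ d ∈ L', IsoTo (tg (n + 1) (extC n c s)) (tg (n + 1) d) := by
  induction l generalizing r with
  | nil =>
    simp only [chkRow, beq_iff_eq] at h
    omega
  | cons x l ih =>
    simp only [chkRow, Bool.and_eq_true] at h
    rcases Nat.eq_or_lt_of_le h1 with rfl | h3
    · exact ⟨x.1, List.contains_iff_mem.mp h.1.1, chkIso_sound h.1.2⟩
    · exact ih h.2 h3

/-- check the certificates for all extensions of the members of a list -/
def chkAll (n : ℕ) (L' : List ℕ) : List ℕ → List (List (ℕ × ℕ × ℕ)) → Bool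
  | [], _ => true
  | c :: L, x :: l => chkRow n c L' 0 x && chkAll n L' L l
  | _ :: _, [] => false

theorem chkAll_sound {n : ℕ} {L L' : List ℕ} {l : List (List (ℕ × ℕ × ℕ))}
    (h : chkAll n L' L l = true) {c : ℕ} (hc : c ∈ L) {s : ℕ} (h2 : s < 2 ^ n) :
    ∃ d ∈ L', IsoTo (tg (n + 1) (extC n c s)) (tg (n + 1) d) := by
  induction L generalizing l with
  | nil => simp at hc
  | cons c' L ih =>
    rcases l with _ | ⟨x, l⟩
    · simp [chkAll] at h
    · simp only [chkAll, Bool.and_eq_true] at h
      rcases List.mem_cons.mp hc with rfl | hc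
      · exact chkRow_sound h.1 (Nat.zero_le _) h2
      · exact ih h.2 hc

/-- all two-graphs on `n` points -/
def AllTG (n : ℕ) (L : List ℕ) : Prop := Cls n (fun _ => True) L

theorem AllTG.ext {n : ℕ} {L L' : List ℕ} (h : AllTG n L)
    (hL : L.all (fun c => c.blt (2 ^ (n * (n - 1) / 2))) = true)
    {l : List (List (ℕ × ℕ × ℕ))} (hc : chkAll n L' L l = true) : AllTG (n + 1) L' := by
  refine Cls.ext h ?_ (fun _ _ => trivial) (fun _ _ _ _ => trivial) ?_
  · intro c hc
    simpa using List.all_eq_true.mp hL c hc
  · intro c hcL r hr _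
    exact chkAll_sound hc hcL hr

theorem allTG_two : AllTG 2 L2 := by
  intro a ha _
  refine ⟨0, by simp [L2], Equiv.refl _, fun v => if v = 0 then a 0 1 else false, ?_⟩
  intro u v huv
  have h0 : tg 2 0 u v = false := by simp [tg, tgN]
  rw [h0]
  unfold pullA
  have h1 := ha 1 0
  fin_cases u <;> fin_cases v
  · exact absurd rfl huv
  · simp
  · simp [h1]
  · exact absurd rfl huv

theorem allTG_three : AllTG 3 L3 := allTG_two.ext (by decide +kernel) (l := C3) (by decide +kernel)

theorem allTG_four : AllTG 4 L4 := allTG_three.ext (by decide +kernel) (l := C4) (by decide +kernel)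

theorem allTG_five : AllTG 5 L5 := allTG_four.ext (by decide +kernel) (l := C5) (by decide +kernel)

theorem allTG_six : AllTG 6 L6 := allTG_five.ext (by decide +kernel) (l := C6) (by decide +kernel)

theorem allTG_seven : AllTG 7 L7 := allTG_six.ext (by decide +kernel) (l := C7) (by decide +kernel)

/-- check of a cochain on pairs -/
def chkEta (n c η : ℕ) : Bool :=
  (List.range n).all fun w => (List.range w).all fun v => (List.range v).all fun u =>
    xor (xor (tgN c u v) (tgN c v w)) (tgN c u w) ||
      (xor (xor (η.testBit (pos u v)) (η.testBit (pos v w))) (η.testBit (pos u w)) ==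
        (tgN c u v && tgN c v w && !tgN c u w))

theorem chkEta_sound {n c η : ℕ} (h : chkEta n c η = true) : ¬ P (tg n c) 2 univ := by
  intro hP
  simp only [chkEta, List.all_eq_true, List.mem_range, Bool.or_eq_true, beq_iff_eq] at h
  let φ : Finset (Fin n) → ZMod 2 := fun ρ =>
    if ∃ u v : Fin n, u < v ∧ ρ = {u, v} ∧ η.testBit (pos u v) = true then 1 else 0
  have hφ : ∀ u v : Fin n, u < v → φ {u, v} = if η.testBit (pos u v) then 1 else 0 := by
    intro u v huv
    simp only [φ]
    refine if_congr ⟨?_, fun h => ⟨u, v, huv, rfl, h⟩⟩ rfl rfl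
    rintro ⟨u', v', huv', he, h⟩
    have h1 : u' ∈ ({u, v} : Finset (Fin n)) := by rw [he]; simp
    have h2 : v' ∈ ({u, v} : Finset (Fin n)) := by rw [he]; simp
    have h3 : u ∈ ({u', v'} : Finset (Fin n)) := by rw [← he]; simp
    have h4 : v ∈ ({u', v'} : Finset (Fin n)) := by rw [← he]; simp
    simp only [mem_insert, mem_singleton] at h1 h2 h3 h4
    have e1 : u' = u := by
      rcases h1 with h1 | h1
      · exact h1
      · rcases h3 with h3 | h3
        · exact h3.symm
        · subst h1; subst h3; exact absurd (huv.trans huv') (lt_irrefl _)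
    have e2 : v' = v := by
      subst e1
      rcases h2 with h2 | h2
      · exact absurd huv' (by rw [h2]; exact lt_irrefl _)
      · exact h2
    subst e1 e2
    exact h
  refine PF.false_of_cert (tg_symm n c) hP φ ?_
  intro ρ hρ hcard _
  obtain ⟨u, v, w, huv, hvw, rfl⟩ : ∃ u v w : Fin n, u < v ∧ v < w ∧ ρ = {u, v, w} := by
    have h1 : 3 ≤ ρ.card := hcard.ge
    refine ⟨ρ.orderEmbOfFin hcard 0, ρ.orderEmbOfFin hcard 1, ρ.orderEmbOfFin hcard 2,
      by simp, by simp, ?_⟩
    have h2 := ρ.image_orderEmbOfFin_univ hcard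
    conv_lhs => rw [← h2]
    rw [show (univ : Finset (Fin (1 + 2))) = {0, 1, 2} by decide]
    simp
  have huw := huv.trans hvw
  have h1 := hρ u (by simp) v (by simp) w (by simp) huv.ne hvw.ne huw.ne
  have h2 := h w w.2 v hvw u huv
  have e1 : ({u, v, w} : Finset (Fin n)).erase u = {v, w} := by
    ext x; simp only [mem_erase, mem_insert, mem_singleton]
    constructor
    · rintro ⟨h3, h4 | h4⟩
      · exact absurd h4 h3
      · exact h4
    · rintro (rfl | rfl)
      · exact ⟨huv.ne', by simp⟩
      · exact ⟨huw.ne', by simp⟩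
  have e2 : ({u, v, w} : Finset (Fin n)).erase v = {u, w} := by
    ext x; simp only [mem_erase, mem_insert, mem_singleton]
    constructor
    · rintro ⟨h3, h4 | h4 | h4⟩
      · exact Or.inl h4
      · exact absurd h4 h3
      · exact Or.inr h4
    · rintro (rfl | rfl)
      · exact ⟨huv.ne, by simp⟩
      · exact ⟨hvw.ne', by simp⟩
  have e3 : ({u, v, w} : Finset (Fin n)).erase w = {u, v} := by
    ext x; simp only [mem_erase, mem_insert, mem_singleton]
    constructor
    · rintro ⟨h3, h4 | h4 | h4⟩
      · exact Or.inl h4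
      · exact Or.inr h4
      · exact absurd h4 h3
    · rintro (rfl | rfl)
      · exact ⟨huw.ne, by simp⟩
      · exact ⟨hvw.ne, by simp⟩
  rw [sum_insert (by simp [huv.ne, huw.ne]), sum_insert (by simp [hvw.ne]), sum_singleton,
    e1, e2, e3, hφ _ _ hvw, hφ _ _ huw, hφ _ _ huv]
  have p1 : par {u, v, w} u = false := by
    unfold par
    rw [decide_eq_false_iff_not]
    have : (({u, v, w} : Finset (Fin n)).filter fun x => x < u) = ∅ := by
      ext x; simp only [mem_filter, mem_insert, mem_singleton, notMem_empty, iff_false]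
      rintro ⟨rfl | rfl | rfl, h3⟩
      · exact lt_irrefl _ h3
      · exact lt_asymm h3 huv
      · exact lt_asymm h3 huw
    rw [this, card_empty]; decide
  have p2 : par {u, v, w} v = true := by
    unfold par
    rw [decide_eq_true_eq]
    have : (({u, v, w} : Finset (Fin n)).filter fun x => x < v) = {u} := by
      ext x; simp only [mem_filter, mem_insert, mem_singleton]
      constructor
      · rintro ⟨rfl | rfl | rfl, h3⟩
        · rfl
        · exact absurd h3 (lt_irrefl _)
        · exact absurd h3 (lt_asymm hvw)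
      · rintro rfl; exact ⟨Or.inl rfl, huv⟩
    rw [this, card_singleton]; decide
  have p3 : par {u, v, w} w = false := by
    unfold par
    rw [decide_eq_false_iff_not]
    have : (({u, v, w} : Finset (Fin n)).filter fun x => x < w) = {u, v} := by
      ext x; simp only [mem_filter, mem_insert, mem_singleton]
      constructor
      · rintro ⟨rfl | rfl | rfl, h3⟩
        · exact Or.inl rfl
        · exact Or.inr rfl
        · exact absurd h3 (lt_irrefl _)
      · rintro (rfl | rfl)
        · exact ⟨Or.inl rfl, huw⟩
        · exact ⟨Or.inr (Or.inl rfl), hvw⟩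
    rw [this, card_pair huv.ne]; decide
  have hA : AltU (tg n c) {u, v, w} ↔
      (tg n c u v = true ∧ tg n c v w = true ∧ tg n c u w = false) := by
    unfold AltU
    constructor
    · intro h3
      refine ⟨?_, ?_, ?_⟩
      · rw [h3 u (by simp) v (by simp) huv, p1, p2]; rfl
      · rw [h3 v (by simp) w (by simp) hvw, p2, p3]; rfl
      · rw [h3 u (by simp) w (by simp) huw, p1, p3]; rfl
    · rintro ⟨h3, h4, h5⟩ x hx y hy hxy
      simp only [mem_insert, mem_singleton] at hx hy
      rcases hx with rfl | rfl | rfl <;> rcases hy with rfl | rfl | rfl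
      · exact absurd hxy (lt_irrefl _)
      · rw [h3, p1, p2]; rfl
      · rw [h5, p1, p3]; rfl
      · exact absurd hxy (lt_asymm huv)
      · exact absurd hxy (lt_irrefl _)
      · rw [h4, p2, p3]; rfl
      · exact absurd hxy (lt_asymm huw)
      · exact absurd hxy (lt_asymm hvw)
      · exact absurd hxy (lt_irrefl _)
  have h3 : xor (xor (tgN c u v) (tgN c v w)) (tgN c u w) = false := by
    have : xor (tgN c u v) (tgN c v w) = tgN c u w := h1
    rw [this]; simp
  rw [h3] at h2
  simp only [Bool.false_eq_true, false_or] at h2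
  have hAlt : (if AltU (tg n c) {u, v, w} then (1 : ZMod 2) else 0) =
      if (tgN c u v && tgN c v w && !tgN c u w) = true then 1 else 0 := by
    refine if_congr ?_ rfl rfl
    rw [hA]
    simp only [tg, Bool.and_eq_true, Bool.not_eq_true', and_assoc]
  rw [hAlt, ← h2]
  generalize η.testBit (pos u v) = x
  generalize η.testBit (pos v w) = y
  generalize η.testBit (pos u w) = z
  cases x <;> cases y <;> cases z <;> decide

/-- **The two-graphs on seven points with a witness in dimension two: five classes.** -/
theorem cls_seven : Cls 7 (fun a => P a 2 univ) G7 := by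
  intro a ha hP
  obtain ⟨c, hc, hi⟩ := allTG_seven a ha trivial
  have h1 : K7.all (fun x => chkEta 7 x.1 x.2) = true := by decide +kernel
  have h2 : L7.all (fun c => G7.contains c || K7.any fun x => x.1 == c) = true := by
    decide +kernel
  rw [List.all_eq_true] at h1 h2
  have h3 := h2 c hc
  rw [Bool.or_eq_true] at h3
  rcases h3 with h3 | h3
  · exact ⟨c, List.contains_iff_mem.mp h3, hi⟩
  · exfalso
    rw [List.any_eq_true] at h3
    obtain ⟨x, hx, he⟩ := h3
    rw [beq_iff_eq] at he
    have h4 := chkEta_sound (h1 x hx)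
    rw [he] at h4
    exact h4 (hi.P hP)

end Pool.Agent.RP5
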