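import Pool.Agent.RP5.Gc

/-!
# The covering statement used by the searches
-/

set_option autoImplicit false
set_option linter.unusedSectionVars false

open Finset

namespace Pool.Agent.RP5

variable {V : Type*} [LinearOrder V] [Fintype V]

/-- the recursion for signed graphs, with explicit chains -/
theorem P.exists_t {a : V → V → Bool} {k : ℕ} {U S : Finset V}
    {ε : V → Bool} (h : P a (k + 1) U) (hS : IsSgn a ε S) :
    ∃ t x0 : Ch V, bd t = 0 ∧ Ess k (t + bd x0) ∧
      (∀ r, t r ≠ 0 → CohS a r ∧ r.card = k + 1 ∧ pr r ⊆ U \ S ∧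
        ∃ x ∈ lift ε S, CohS a (insert x r)) ∧
      ∀ s, x0 s ≠ 0 → CohS a s ∧ s.card = k + 2 ∧ pr s ⊆ U \ S := by
  obtain ⟨z, hz⟩ := h
  obtain ⟨t, x0, ht, hx0, hbt, hess⟩ := hz.step' (lift ε S) (by
    intro s hs p hp hps q hq hqs
    obtain ⟨h1, _⟩ := hz.supp s hs
    rw [mem_lift] at hp hq
    by_cases he : p.1 = q.1
    · have : p = q := Prod.ext he (by rw [hp.2, hq.2, he])
      subst this
      exact h1.af p hps hqs
    · have h2 := (h1 p hps _ hqs).2 he
      rw [neg_fst, hS _ hp.1 _ hq.1 he, hp.2] at h2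
      simp only [neg_apply, hq.2] at h2
      revert h2
      cases ε p.1 <;> cases ε q.1 <;> simp)
  have hpr : ∀ (x : V × Bool) (r : Finset (V × Bool)), pr (insert x r) = insert x.1 (pr r) := by
    intro x r
    simp [pr, image_insert]
  have hnS : ∀ (s : Finset (V × Bool)), (∀ p ∈ lift ε S, p ∉ s ∧ neg p ∉ s) →
      ∀ v ∈ pr s, v ∉ S := by
    intro s hs v hv hvS
    simp only [pr, mem_image] at hv
    obtain ⟨q, hq, rfl⟩ := hv
    have h3 := hs (q.1, ε q.1) (mem_lift.mpr ⟨hvS, rfl⟩)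
    by_cases he : q.2 = ε q.1
    · exact h3.1 (by rw [← he]; exact hq)
    · refine h3.2 ?_
      have : q = neg (q.1, ε q.1) := Prod.ext rfl (by simpa using Bool.eq_not_of_ne he)
      rw [← this]; exact hq
  refine ⟨t, x0, hbt, hess, ?_, ?_⟩
  · intro r hr
    obtain ⟨h1, x, hx, hxz⟩ := ht r hr
    obtain ⟨h3, h4⟩ := hz.supp _ hxz
    refine ⟨h3.subset (subset_insert _ _), ?_, fun v hv => mem_sdiff.mpr ⟨h4 ?_, hnS r h1 v hv⟩,
      x, hx, h3⟩
    · have h6 : (insert x r).card = k + 2 := hz.card hxz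
      rw [card_insert_of_notMem (h1 x hx).1] at h6
      omega
    · rw [hpr]; exact mem_insert_of_mem hv
  · intro s hs
    obtain ⟨h1, h2⟩ := hx0 s hs
    obtain ⟨h3, h4⟩ := hz.supp s h1
    refine ⟨h3, hz.card h1, fun v hv => mem_sdiff.mpr ⟨h4 hv, hnS s h2 v hv⟩⟩

theorem sum_symm_fn {k : ℕ} {y : Ch V} (hy : Ess k y) (φ : Ch V) (hφ : ∀ s, φ (negS s) = φ s) :
    ∑ r, y r * φ r = 0 := by
  obtain ⟨w, _, hyw, _⟩ := exists_half hy.supp hy.symm
  have h1 : ∑ s, T w s * φ s = ∑ s, w s * φ s := by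
    refine Fintype.sum_equiv ⟨negS, negS, negS_negS, negS_negS⟩ _ _ fun s => ?_
    simp only [Equiv.coe_fn_mk, T_apply, hφ]
  rw [hyw]
  simp only [Pi.add_apply, add_mul, sum_add_distrib, h1, CharTwo.add_self_eq_zero]

/-- **The covering statement.** If the coherent `(k + 3)`-sets of `U \ S` are not alternating, then
for all cochains `ψ` on signed `(k + 1)`-sets and all cocycles `φ` on `(k + 2)`-sets some signed
`(k + 2)`-set `r` covered by `S` has `altc r + δψ r + φ r = 1`. -/
theorem P.cov {a : V → V → Bool} (ha : ∀ u v, a u v = a v u) {k : ℕ} {U S : Finset V}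
    {ε : V → Bool} (h : P a (k + 1) U) (hS : IsSgn a ε S)
    (hno : ∀ ρ, Coh a ρ → ρ.card = k + 2 → ρ ⊆ U \ S → ¬ AltU a ρ)
    (ψ : Finset (V × Bool) → ZMod 2) (φ : Finset V → ZMod 2)
    (hφ : ∀ ρ, Coh a ρ → ρ.card = k + 2 → ρ ⊆ U \ S → ∑ v ∈ ρ, φ (ρ.erase v) = 0) :
    ∃ r, CohS a r ∧ r.card = k + 1 ∧ pr r ⊆ U \ S ∧ (∃ x ∈ lift ε S, CohS a (insert x r)) ∧
      altc true r + (∑ x ∈ r, ψ (r.erase x)) + φ (pr r) ≠ 0 := by
  obtain ⟨t, x0, hbt, hess, ht, hx0⟩ := h.exists_t hS
  have h1 : ∑ r, t r * altc true r = 1 := by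
    have h2 := hess.sum_altc
    simp only [Pi.add_apply, add_mul, sum_add_distrib] at h2
    rw [sum_bd_mul] at h2
    rw [← h2]
    conv_lhs => rw [← add_zero (∑ r, t r * altc true r)]
    congr 1
    symm
    refine sum_eq_zero fun s _ => ?_
    by_cases h0 : x0 s = 0
    · simp [h0]
    · obtain ⟨h3, h4, h5⟩ := hx0 s h0
      rw [altc_erase h3.af (card_pos.mp (by omega))]
      have h6 := altc_add ha h3 (card_pos.mp (by omega))
      rw [if_neg (hno _ h3.coh (by rw [card_pr h3, h4]) h5)] at h6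
      rw [show altc true s + altc (!true) s = 0 from h6, mul_zero]
  have h2 : ∑ r, t r * ∑ x ∈ r, ψ (r.erase x) = 0 := by
    rw [← sum_bd_mul, hbt]
    simp
  have h3 : ∑ r, t r * φ (pr r) = 0 := by
    have h4 := sum_symm_fn hess (fun r => φ (pr r)) (fun s => by simp only [pr_negS])
    simp only [Pi.add_apply, add_mul, sum_add_distrib] at h4
    rw [sum_bd_mul] at h4
    rw [← h4]
    conv_lhs => rw [← add_zero (∑ r, t r * φ (pr r))]
    congr 1
    symm
    refine sum_eq_zero fun s _ => ?_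
    by_cases h0 : x0 s = 0
    · simp [h0]
    · obtain ⟨h5, h6, h7⟩ := hx0 s h0
      have h8 := hφ (pr s) h5.coh (by rw [card_pr h5, h6]) h7
      have h9 : ∑ x ∈ s, φ (pr (s.erase x)) = ∑ v ∈ pr s, φ ((pr s).erase v) := by
        refine sum_bij' (fun (p : V × Bool) _ => p.1)
          (fun u _ => if (u, true) ∈ s then (u, true) else (u, false)) ?_ ?_ ?_ ?_ ?_
        · intro p hp
          exact mem_pr hp
        · intro u hu
          simp only [pr, mem_image] at hu
          obtain ⟨p, hp, rfl⟩ := hu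
          rcases hb : p.2 with _ | _
          · have hp' : (p.1, false) ∈ s := by rw [← hb]; exact hp
            split_ifs with h3
            · exact h3
            · exact hp'
          · have hp' : (p.1, true) ∈ s := by rw [← hb]; exact hp
            rw [if_pos hp']; exact hp'
        · intro p hp
          split_ifs with h3
          · exact (h5 _ h3 p hp).1 rfl
          · rcases hb : p.2 with _ | _
            · exact Prod.ext rfl hb.symm
            · exact absurd (by rw [← hb]; exact hp) h3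
        · intro u hu
          split_ifs <;> rfl
        · intro p hp
          rw [pr_erase h5 hp]
      rw [h9, h8, mul_zero]
  by_contra hn
  push Not at hn
  have h5 : ∑ r, t r * (altc true r + (∑ x ∈ r, ψ (r.erase x)) + φ (pr r)) = 1 := by
    simp only [mul_add, sum_add_distrib]
    rw [h1, h2, h3]
    simp
  have h6 : ∑ r, t r * (altc true r + (∑ x ∈ r, ψ (r.erase x)) + φ (pr r)) = 0 := by
    refine sum_eq_zero fun r _ => ?_
    by_cases h0 : t r = 0
    · rw [h0, zero_mul]
    · obtain ⟨h7, h8, h9, h10⟩ := ht r h0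
      rw [hn r h7 h8 h9 h10, mul_zero]
  rw [h6] at h5
  exact absurd h5 (by decide)

end Pool.Agent.RP5
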