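import Pool.Agent.RP5.Signed

/-!
# Labellings of a cubical grid give witnesses

Cells of the grid `[-L, L]^k` (`L` even) are functions `m : Fin k → ℤ`: an odd coordinate `m i`
stands for the edge `[m i - 1, m i + 1]`, an even coordinate for a point.
-/

set_option autoImplicit false
set_option linter.unusedSectionVars false

open Finset

namespace Pool.Agent.RP5

section cone
variable {V : Type*} [DecidableEq V]

/-- the cone -/
def cone (p : V × Bool) (c : Ch V) : Ch V := fun s => if p ∈ s then c (s.erase p) else 0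

/-- a single simplex -/
def single (t : Finset (V × Bool)) : Ch V := fun s => if s = t then 1 else 0

theorem cone_zero (p : V × Bool) : cone p (0 : Ch V) = 0 := by
  funext s; simp [cone]

theorem cone_supp {p : V × Bool} {c : Ch V} {s : Finset (V × Bool)} (h : cone p c s ≠ 0) :
    p ∈ s ∧ c (s.erase p) ≠ 0 := by
  unfold cone at h
  split_ifs at h with h1
  · exact ⟨h1, h⟩
  · exact absurd rfl h

theorem negS_erase (s : Finset (V × Bool)) (p : V × Bool) :
    (negS s).erase p = negS (s.erase (neg p)) := by
  ext q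
  rw [mem_erase, mem_negS, mem_negS, mem_erase]
  refine and_congr_left fun _ => ?_
  rw [not_iff_not]
  constructor
  · intro h; rw [h]
  · intro h
    have := congrArg neg h
    rwa [neg_neg', neg_neg'] at this

theorem T_cone (p : V × Bool) (c : Ch V) : T (cone p c) = cone (neg p) (T c) := by
  funext s
  unfold T cone
  simp only [mem_negS]
  by_cases h : neg p ∈ s
  · rw [if_pos h, if_pos h, negS_erase]
  · rw [if_neg h, if_neg h]

theorem T_single (t : Finset (V × Bool)) : T (single t) = single (negS t) := by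
  funext s
  unfold T single
  have : negS s = t ↔ s = negS t := by
    constructor
    · intro h; rw [← h, negS_negS]
    · intro h; rw [h, negS_negS]
  simp only [this]

variable [Fintype V]

theorem bd_cone (p : V × Bool) (c : Ch V) : bd (cone p c) = c + cone p (bd c) := by
  funext r
  rw [Pi.add_apply]
  by_cases hp : p ∈ r
  · have h1 : bd (cone p c) r = ∑ x, if x ∈ r then 0 else c (insert x (r.erase p)) := by
      rw [bd_apply]
      refine sum_congr rfl fun x _ => ?_
      split_ifs with hx
      · rfl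
      · have hxp : x ≠ p := fun h => hx (h ▸ hp)
        rw [cone, if_pos (mem_insert_of_mem hp), erase_insert_of_ne hxp]
    have h2 : cone p (bd c) r = ∑ x, if x ∈ r.erase p then 0 else c (insert x (r.erase p)) := by
      rw [cone, if_pos hp, bd_apply]
    rw [h1, h2]
    have h3 : ∀ x, (if x ∈ r.erase p then 0 else c (insert x (r.erase p))) =
        (if x ∈ r then 0 else c (insert x (r.erase p))) + (if x = p then c r else 0) := by
      intro x
      by_cases hx : x = p
      · subst hx
        rw [if_neg (notMem_erase x r), if_pos hp, if_pos rfl, insert_erase hp, zero_add]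
      · rw [if_neg hx, add_zero]
        by_cases hxr : x ∈ r
        · rw [if_pos hxr, if_pos (mem_erase.mpr ⟨hx, hxr⟩)]
        · rw [if_neg hxr, if_neg (fun h => hxr (mem_of_mem_erase h))]
    rw [sum_congr rfl fun x _ => h3 x, sum_add_distrib, sum_ite_eq' univ p, if_pos (mem_univ _)]
    generalize (∑ x, if x ∈ r then 0 else c (insert x (r.erase p))) = A
    have : c r + (A + c r) = A + (c r + c r) := by ring
    rw [this, CharTwo.add_self_eq_zero, add_zero]
  · have h2 : cone p (bd c) r = 0 := by rw [cone, if_neg hp]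
    rw [h2, add_zero, bd_apply, sum_eq_single p]
    · rw [if_neg hp, cone, if_pos (mem_insert_self _ _), erase_insert hp]
    · intro x _ hx
      split_ifs with hxr
      · rfl
      · rw [cone, if_neg]
        rw [mem_insert]
        rintro (h | h)
        · exact hx h.symm
        · exact hp h
    · intro h; exact absurd (mem_univ _) h

theorem bd_single_single (p : V × Bool) : bd (single {p}) = single ∅ := by
  funext r
  rw [bd_apply]
  by_cases hr : r = ∅
  · subst hr
    rw [single, if_pos rfl, sum_eq_single p]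
    · simp [single]
    · intro x _ hx
      rw [if_neg (notMem_empty _), single, if_neg]
      intro h
      exact hx (by simpa using h)
    · intro h; exact absurd (mem_univ _) h
  · rw [single, if_neg hr]
    refine sum_eq_zero fun x _ => ?_
    split_ifs with hx
    · rfl
    · rw [single, if_neg]
      intro h
      obtain ⟨q, hq⟩ := nonempty_iff_ne_empty.mpr hr
      have h1 : q ∈ ({p} : Finset (V × Bool)) := h ▸ mem_insert_of_mem hq
      have h2 : x ∈ ({p} : Finset (V × Bool)) := h ▸ mem_insert_self _ _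
      rw [mem_singleton] at h1 h2
      exact hx (by rw [h2, ← h1]; exact hq)

theorem bd_sum {ι : Type*} (s : Finset ι) (f : ι → Ch V) : bd (∑ i ∈ s, f i) = ∑ i ∈ s, bd (f i) := by
  classical
  induction s using Finset.induction_on with
  | empty => simp
  | insert i s hi ih => rw [sum_insert hi, sum_insert hi, bd_add, ih]

omit [Fintype V] in
theorem T_sum {ι : Type*} (s : Finset ι) (f : ι → Ch V) : T (∑ i ∈ s, f i) = ∑ i ∈ s, T (f i) := by
  classical
  induction s using Finset.induction_on with
  | empty => rfl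
  | insert i s hi ih => rw [sum_insert hi, sum_insert hi, T_add, ih]

end cone

section cells
variable {k : ℕ}

/-- shift a coordinate up -/
def up (m : Fin k → ℤ) (i : Fin k) : Fin k → ℤ := Function.update m i (m i + 1)
/-- shift a coordinate down -/
def dn (m : Fin k → ℤ) (i : Fin k) : Fin k → ℤ := Function.update m i (m i - 1)

/-- odd coordinates -/
def odds (m : Fin k → ℤ) : Finset (Fin k) := univ.filter fun i => Odd (m i)

theorem mem_odds {m : Fin k → ℤ} {i : Fin k} : i ∈ odds m ↔ Odd (m i) := by
  simp [odds]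

/-- faces of a cell -/
def IsFace (m' m : Fin k → ℤ) : Prop :=
  ∀ i, m' i = m i ∨ (Odd (m i) ∧ (m' i = m i + 1 ∨ m' i = m i - 1))

theorem IsFace.refl (m : Fin k → ℤ) : IsFace m m := fun _ => Or.inl rfl

theorem odd_add_one_iff {x : ℤ} : Odd (x + 1) ↔ ¬ Odd x := by
  rw [← Int.not_even_iff_odd, Int.even_add_one, not_not, Int.not_odd_iff_even]

theorem odd_sub_one_iff {x : ℤ} : Odd (x - 1) ↔ ¬ Odd x := by
  have := @odd_add_one_iff (x - 1)
  rw [sub_add_cancel] at this
  tauto

theorem odds_up {m : Fin k → ℤ} {i : Fin k} (hi : i ∈ odds m) : odds (up m i) = (odds m).erase i := by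
  have hi' : Odd (m i) := (mem_filter.mp hi).2
  ext j
  rw [mem_erase, mem_odds, mem_odds]
  by_cases hj : j = i
  · subst hj
    simp [up, odd_add_one_iff, hi']
  · simp [up, Function.update_of_ne hj, hj]

theorem odds_dn {m : Fin k → ℤ} {i : Fin k} (hi : i ∈ odds m) : odds (dn m i) = (odds m).erase i := by
  have hi' : Odd (m i) := (mem_filter.mp hi).2
  ext j
  rw [mem_erase, mem_odds, mem_odds]
  by_cases hj : j = i
  · subst hj
    simp [dn, odd_sub_one_iff, hi']
  · simp [dn, Function.update_of_ne hj, hj]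

theorem IsFace.of_up {m m' : Fin k → ℤ} {i : Fin k} (hi : i ∈ odds m) (h : IsFace m' (up m i)) :
    IsFace m' m := by
  have hi' : Odd (m i) := (mem_filter.mp hi).2
  intro j
  have hj := h j
  by_cases hji : j = i
  · subst hji
    simp only [up, Function.update_self] at hj
    rcases hj with hj | ⟨hj, _⟩
    · exact Or.inr ⟨hi', Or.inl hj⟩
    · exact absurd hi' (odd_add_one_iff.mp hj)
  · simp only [up, Function.update_of_ne hji] at hj
    exact hj

theorem IsFace.of_dn {m m' : Fin k → ℤ} {i : Fin k} (hi : i ∈ odds m) (h : IsFace m' (dn m i)) :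
    IsFace m' m := by
  have hi' : Odd (m i) := (mem_filter.mp hi).2
  intro j
  have hj := h j
  by_cases hji : j = i
  · subst hji
    simp only [dn, Function.update_self] at hj
    rcases hj with hj | ⟨hj, _⟩
    · exact Or.inr ⟨hi', Or.inr hj⟩
    · exact absurd hi' (odd_sub_one_iff.mp hj)
  · simp only [dn, Function.update_of_ne hji] at hj
    exact hj

theorem IsFace.neg {m m' : Fin k → ℤ} (h : IsFace m' m) : IsFace (-m') (-m) := by
  intro i
  rcases h i with h | ⟨h1, h2⟩
  · left; simp [h]
  · right
    refine ⟨by simpa using h1, ?_⟩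
    rcases h2 with h2 | h2
    · right; simp [h2]; ring
    · left; simp [h2]; ring

theorem neg_up (m : Fin k → ℤ) (i : Fin k) : -(up m i) = dn (-m) i := by
  funext j
  by_cases hj : j = i
  · subst hj; simp [up, dn]; ring
  · simp [up, dn, Function.update_of_ne hj]

theorem neg_dn (m : Fin k → ℤ) (i : Fin k) : -(dn m i) = up (-m) i := by
  funext j
  by_cases hj : j = i
  · subst hj; simp [up, dn]; ring
  · simp [up, dn, Function.update_of_ne hj]

theorem odds_neg (m : Fin k → ℤ) : odds (-m) = odds m := by
  ext j; simp [odds]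

variable {V : Type*} [DecidableEq V]

/-- the image of the (barycentrically subdivided) cell `m` under the labelling `lam` -/
def Phi (lam : (Fin k → ℤ) → V × Bool) : ℕ → (Fin k → ℤ) → Ch V
  | 0, m => single {lam m}
  | d + 1, m => cone (lam m) (∑ i ∈ odds m, (Phi lam d (up m i) + Phi lam d (dn m i)))

/-- boundary of a cell -/
def BPhi (lam : (Fin k → ℤ) → V × Bool) (d : ℕ) (m : Fin k → ℤ) : Ch V :=
  ∑ i ∈ odds m, (Phi lam d (up m i) + Phi lam d (dn m i))

theorem Phi_succ (lam : (Fin k → ℤ) → V × Bool) (d : ℕ) (m : Fin k → ℤ) :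
    Phi lam (d + 1) m = cone (lam m) (BPhi lam d m) := rfl

theorem exists_of_sum_ne {ι : Type*} {s : Finset ι} {f : ι → Ch V} {t : Finset (V × Bool)}
    (h : (∑ i ∈ s, f i) t ≠ 0) : ∃ i ∈ s, f i t ≠ 0 := by
  rw [Finset.sum_apply] at h
  exact exists_ne_zero_of_sum_ne_zero h

theorem Phi_supp (lam : (Fin k → ℤ) → V × Bool) (d : ℕ) (m : Fin k → ℤ) {s : Finset (V × Bool)}
    (h : Phi lam d m s ≠ 0) : s.card = d + 1 ∧ ∀ p ∈ s, ∃ m', IsFace m' m ∧ lam m' = p := by
  induction d generalizing m s with
  | zero =>
    have : s = {lam m} := by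
      by_contra hne
      exact h (by simp only [Phi, single, if_neg hne])
    subst this
    refine ⟨card_singleton _, fun p hp => ⟨m, IsFace.refl m, ?_⟩⟩
    exact (mem_singleton.mp hp).symm
  | succ d ih =>
    obtain ⟨h1, h2⟩ := cone_supp h
    obtain ⟨i, hi, h3⟩ := exists_of_sum_ne h2
    have h4 : Phi lam d (up m i) (s.erase (lam m)) ≠ 0 ∨
        Phi lam d (dn m i) (s.erase (lam m)) ≠ 0 := by
      by_contra hn
      push Not at hn
      exact h3 (by rw [Pi.add_apply, hn.1, hn.2, add_zero])
    have h5 : (s.erase (lam m)).card = d + 1 ∧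
        ∀ p ∈ s.erase (lam m), ∃ m', IsFace m' m ∧ lam m' = p := by
      rcases h4 with h4 | h4
      · obtain ⟨h5, h6⟩ := ih _ h4
        exact ⟨h5, fun p hp => by
          obtain ⟨m', hm', he⟩ := h6 p hp
          exact ⟨m', hm'.of_up hi, he⟩⟩
      · obtain ⟨h5, h6⟩ := ih _ h4
        exact ⟨h5, fun p hp => by
          obtain ⟨m', hm', he⟩ := h6 p hp
          exact ⟨m', hm'.of_dn hi, he⟩⟩
    refine ⟨?_, fun p hp => ?_⟩
    · have := h5.1
      rw [card_erase_of_mem h1] at this
      have := card_pos.mpr ⟨_, h1⟩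
      omega
    · by_cases hpm : p = lam m
      · exact ⟨m, IsFace.refl m, hpm.symm⟩
      · exact h5.2 p (mem_erase.mpr ⟨hpm, hp⟩)

theorem T_Phi (lam : (Fin k → ℤ) → V × Bool) (d : ℕ) (m : Fin k → ℤ)
    (h : ∀ m', IsFace m' m → lam (-m') = neg (lam m')) : T (Phi lam d m) = Phi lam d (-m) := by
  induction d generalizing m with
  | zero =>
    simp only [Phi]
    rw [T_single, h m (IsFace.refl m)]
    congr 1
  | succ d ih =>
    simp only [Phi]
    rw [T_cone, T_sum, h m (IsFace.refl m), odds_neg]
    congr 1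
    refine sum_congr rfl fun i hi => ?_
    rw [T_add, ih _ fun m' hm' => h m' (hm'.of_up hi), ih _ fun m' hm' => h m' (hm'.of_dn hi),
      neg_up, neg_dn, add_comm]

variable [Fintype V]

theorem sum_pairs_symm (O : Finset (Fin k)) (G : Fin k → Fin k → ZMod 2)
    (hG : ∀ i ∈ O, ∀ j ∈ O, i ≠ j → G i j = G j i) : ∑ i ∈ O, ∑ j ∈ O.erase i, G i j = 0 := by
  have h1 : ∑ i ∈ O, ∑ j ∈ O.erase i, G i j =
      ∑ i, ∑ j, if i ∈ O ∧ j ∈ O ∧ i ≠ j then G i j else 0 := by
    rw [← sum_filter_add_sum_filter_not univ (fun i => i ∈ O)]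
    have h2 : (univ.filter fun i => i ∈ O) = O := by ext; simp
    rw [h2]
    have h3 : (∑ i ∈ univ.filter (fun i => ¬ i ∈ O),
        ∑ j, if i ∈ O ∧ j ∈ O ∧ i ≠ j then G i j else 0) = 0 := by
      refine sum_eq_zero fun i hi => sum_eq_zero fun j _ => ?_
      rw [if_neg]
      rintro ⟨h, _⟩
      exact (mem_filter.mp hi).2 h
    rw [h3, add_zero]
    refine sum_congr rfl fun i hi => ?_
    rw [← sum_filter]
    refine sum_congr ?_ fun _ _ => rfl
    ext j
    simp only [mem_erase, mem_filter, mem_univ, true_and]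
    constructor
    · rintro ⟨h4, h5⟩; exact ⟨hi, h5, fun h => h4 h.symm⟩
    · rintro ⟨_, h5, h6⟩; exact ⟨fun h => h6 h.symm, h5⟩
  rw [h1]
  refine sum_sum_symm _ ?_ ?_
  · intro i j
    by_cases h : i ∈ O ∧ j ∈ O ∧ i ≠ j
    · have h' : j ∈ O ∧ i ∈ O ∧ j ≠ i := ⟨h.2.1, h.1, fun he => h.2.2 he.symm⟩
      rw [if_pos h, if_pos h']
      exact hG i h.1 j h.2.1 h.2.2
    · have h' : ¬ (j ∈ O ∧ i ∈ O ∧ j ≠ i) := fun h2 => h ⟨h2.2.1, h2.1, fun he => h2.2.2 he.symm⟩
      rw [if_neg h, if_neg h']
  · intro i
    rw [if_neg]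
    rintro ⟨_, _, h⟩
    exact h rfl

theorem bd_BPhi (lam : (Fin k → ℤ) → V × Bool) (d : ℕ) (m : Fin k → ℤ)
    (hm : (odds m).card = d + 1)
    (ih : ∀ m' : Fin k → ℤ, (odds m').card = d → 0 < d →
      bd (Phi lam d m') = BPhi lam (d - 1) m') : bd (BPhi lam d m) = 0 := by
  cases d with
  | zero =>
    obtain ⟨i, hi⟩ := card_eq_one.mp (by omega : (odds m).card = 1)
    rw [BPhi, hi, sum_singleton, bd_add]
    simp only [Phi]
    rw [bd_single_single, bd_single_single]
    exact add_self_ch _
  | succ d =>
    rw [BPhi, bd_sum]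
    funext s
    rw [Finset.sum_apply, Pi.zero_apply]
    have h1 : ∀ i ∈ odds m, bd (Phi lam (d + 1) (up m i) + Phi lam (d + 1) (dn m i)) s =
        ∑ j ∈ (odds m).erase i, ((Phi lam d (up (up m i) j) s + Phi lam d (dn (up m i) j) s) +
          (Phi lam d (up (dn m i) j) s + Phi lam d (dn (dn m i) j) s)) := by
      intro i hi
      rw [bd_add, ih _ (by rw [odds_up hi, card_erase_of_mem hi, hm]; rfl) (Nat.succ_pos _),
        ih _ (by rw [odds_dn hi, card_erase_of_mem hi, hm]; rfl) (Nat.succ_pos _)]
      simp only [BPhi, odds_up hi, odds_dn hi, Nat.add_sub_cancel]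
      rw [Pi.add_apply, Finset.sum_apply, Finset.sum_apply, ← sum_add_distrib]
      rfl
    rw [sum_congr rfl h1]
    refine sum_pairs_symm _ (fun i j => (Phi lam d (up (up m i) j) s +
      Phi lam d (dn (up m i) j) s) + (Phi lam d (up (dn m i) j) s + Phi lam d (dn (dn m i) j) s)) ?_
    intro i _ j _ hij
    have e1 : up (up m i) j = up (up m j) i := by
      simp only [up, Function.update_of_ne hij, Function.update_of_ne hij.symm]
      rw [Function.update_comm hij]
    have e2 : dn (up m i) j = up (dn m j) i := by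
      simp only [up, dn, Function.update_of_ne hij, Function.update_of_ne hij.symm]
      rw [Function.update_comm hij]
    have e3 : up (dn m i) j = dn (up m j) i := by
      simp only [up, dn, Function.update_of_ne hij, Function.update_of_ne hij.symm]
      rw [Function.update_comm hij]
    have e4 : dn (dn m i) j = dn (dn m j) i := by
      simp only [dn, Function.update_of_ne hij, Function.update_of_ne hij.symm]
      rw [Function.update_comm hij]
    rw [e1, e2, e3, e4]
    ring

theorem bd_Phi (lam : (Fin k → ℤ) → V × Bool) (d : ℕ) (m : Fin k → ℤ)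
    (hm : (odds m).card = d + 1) : bd (Phi lam (d + 1) m) = BPhi lam d m := by
  induction d generalizing m with
  | zero =>
    rw [Phi_succ, bd_cone, bd_BPhi lam 0 m hm (fun _ _ h => absurd h (lt_irrefl _)), cone_zero,
      add_zero]
  | succ d ih =>
    rw [Phi_succ, bd_cone, bd_BPhi lam (d + 1) m hm (fun m' hm' _ => ih m' hm'), cone_zero,
      add_zero]

end cells

end Pool.Agent.RP5
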