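import Mathlib

/-!
# Real projective space and geometric realizations
-/

set_option autoImplicit false

namespace Pool.Agent.RP5

/-- the unit sphere `S^k` in `ℝ^(k+1)` -/
abbrev Sph (k : ℕ) := Metric.sphere (0 : EuclideanSpace ℝ (Fin (k + 1))) 1

/-- the antipodal relation on the sphere: `x ~ y` if and only if `x = y` or `x = -y` -/
def antipodal (k : ℕ) : Setoid (Sph k) where
  r x y := x = y ∨ x = -y
  iseqv := by
    refine ⟨fun x => Or.inl rfl, ?_, ?_⟩
    · rintro x y (h | h)
      · exact Or.inl h.symm
      · right; rw [h, neg_neg]
    · rintro x y z (h1 | h1) (h2 | h2)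
      · left; rw [h1, h2]
      · right; rw [h1, h2]
      · right; rw [h1, h2]
      · left; rw [h1, h2, neg_neg]

/-- real projective space `ℝP^k`: the quotient of the sphere by the antipodal map, with the
quotient topology -/
abbrev RP (k : ℕ) := Quotient (antipodal k)

/-- the geometric realization of an abstract simplicial complex with finite vertex set `V`, with
the subspace topology of `V → ℝ`: the points of the standard simplex whose support is a face -/
def realization {V : Type*} [Fintype V] (K : AbstractSimplicialComplex V) : Set (V → ℝ) :=
  {x | x ∈ stdSimplex ℝ V ∧ Finset.univ.filter (fun v => x v ≠ 0) ∈ K.faces}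

end Pool.Agent.RP5
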