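import Mathlib

/-!
# A covering search on bit masks
-/

set_option autoImplicit false

namespace Pool.Agent.RP5

/-- the union of a list of masks -/
def orL : List ℕ → ℕ
  | [] => 0
  | c :: L => c ||| orL L

theorem orL_testBit {P : List ℕ} {i : ℕ} (h : (orL P).testBit i = true) :
    ∃ c ∈ P, c.testBit i = true := by
  induction P with
  | nil => simp [orL] at h
  | cons c P ih =>
    simp only [orL, Nat.testBit_or, Bool.or_eq_true] at h
    rcases h with h | h
    · exact ⟨c, List.mem_cons_self, h⟩
    · obtain ⟨d, hd, h2⟩ := ih h
      exact ⟨d, List.mem_cons_of_mem _ hd, h2⟩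

theorem orL_erase {P : List ℕ} {c : ℕ} (h : c ∈ P) : c ||| orL (P.erase c) = orL P := by
  induction P with
  | nil => simp at h
  | cons d P ih =>
    by_cases hdc : d = c
    · subst hdc
      simp [orL]
    · rw [List.erase_cons_tail (by simpa using hdc)]
      have hc : c ∈ P := by
        rcases List.mem_cons.mp h with h | h
        · exact absurd h.symm hdc
        · exact h
      simp only [orL]
      rw [← ih hc, ← Nat.lor_assoc, ← Nat.lor_assoc, Nat.lor_comm c d]

/-- can `F` be covered by `u` and `n` further masks of the list? -/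
def srch (L : List ℕ) (F : ℕ) : ℕ → ℕ → Bool
  | 0, u => (u &&& F) == F
  | n + 1, u => (u &&& F) == F ||
      L.any fun c => c.testBit (Nat.log2 (F ^^^ (u &&& F))) && srch L F n (u ||| c)

theorem srch_sound (L : List ℕ) (F : ℕ) : ∀ (n u : ℕ) (P : List ℕ), P.length ≤ n →
    (∀ c ∈ P, c ∈ L) → (u ||| orL P) &&& F = F → srch L F n u = true
  | 0, u, P, h1, _, h3 => by
    have : P = [] := List.length_eq_zero_iff.mp (by omega)
    subst this
    simp only [orL, Nat.or_zero] at h3
    simp [srch, h3]
  | n + 1, u, P, h1, h2, h3 => by
    rw [srch]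
    by_cases hu : (u &&& F) = F
    · simp [hu]
    · rw [Bool.or_eq_true]
      right
      have hx : F ^^^ (u &&& F) ≠ 0 := by
        intro h
        rw [Nat.xor_eq_zero_iff] at h
        exact hu h.symm
      have hb := Nat.testBit_log2 hx
      generalize Nat.log2 (F ^^^ (u &&& F)) = i at *
      have hF : F.testBit i = true ∧ u.testBit i = false := by
        rw [Nat.testBit_xor, Nat.testBit_and] at hb
        revert hb
        cases F.testBit i <;> cases u.testBit i <;> simp
      have h4 : ((u ||| orL P) &&& F).testBit i = true := by rw [h3]; exact hF.1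
      rw [Nat.testBit_and, Nat.testBit_or, hF.2, hF.1, Bool.false_or, Bool.and_true] at h4
      obtain ⟨c, hc, hci⟩ := orL_testBit h4
      rw [List.any_eq_true]
      refine ⟨c, h2 c hc, ?_⟩
      rw [hci, Bool.true_and]
      refine srch_sound L F n (u ||| c) (P.erase c) ?_ ?_ ?_
      · rw [List.length_erase_of_mem hc]; omega
      · intro d hd
        exact h2 d (List.mem_of_mem_erase hd)
      · rw [Nat.lor_assoc, orL_erase hc]
        exact h3

end Pool.Agent.RP5
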