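import Pool.Agent.RP5.Transfer
import Pool.Agent.RP5.Search

/-!
# Two disjoint simplices

An essential symmetric cycle of dimension at least three contains two disjoint simplices.
-/

set_option autoImplicit false
set_option linter.unusedSectionVars false

open Finset

namespace Pool.Agent.RP5

variable {V : Type*} [DecidableEq V] [Fintype V]

/-- all simplices of the chain pairwise have a common vertex -/
def Meet (z : Ch V) : Prop := ∀ s t, z s ≠ 0 → z t ≠ 0 → ∃ v, v ∈ pr s ∧ v ∈ pr t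

theorem mem_pr_iff {s : Finset (V × Bool)} {v : V} : v ∈ pr s ↔ ∃ p ∈ s, p.1 = v := by
  simp only [pr, mem_image]

theorem pr_insert (x : V × Bool) (r : Finset (V × Bool)) :
    pr (insert x r) = insert x.1 (pr r) := by
  simp [pr, image_insert]

theorem eq_or_neg_of_fst {p q : V × Bool} (h : p.1 = q.1) : p = q ∨ p = neg q := by
  by_cases h2 : p.2 = q.2
  · left; exact Prod.ext h h2
  · right
    refine Prod.ext h ?_
    rw [neg_apply]
    exact Bool.eq_not_of_ne h2

/-- a coherent set and a coherent set which meet do not meet antipodally -/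
theorem CohS.no_anti {a : V → V → Bool} {s τ : Finset (V × Bool)} (hs : CohS a s)
    (hτ : CohS a τ) {p q : V × Bool} (hp : p ∈ τ) (hps : p ∈ s) (hq : q ∈ τ) : neg q ∉ s := by
  intro hqs
  by_cases he : p.1 = q.1
  · have : p = q := (hτ p hp q hq).1 he
    subst this
    exact hs.af p hps hqs
  · have h2 := (hs p hps _ hqs).2 he
    have h3 := (hτ p hp q hq).2 he
    rw [neg_fst, h3] at h2
    simp only [neg_apply] at h2
    revert h2
    cases p.2 <;> cases q.2 <;> simp

/-- descent for cycles whose simplices pairwise meet -/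
theorem IsWit.descent {a : V → V → Bool} {k : ℕ} {z : Ch V} (h : IsWit (k + 1) (CohS a) z)
    (hm : Meet z) {τ : Finset (V × Bool)} (hτ : z τ ≠ 0) :
    ∃ y, IsWit k (CohS a) y ∧ Meet y ∧
      ∀ r, y r ≠ 0 → (∀ p ∈ τ, p ∉ r ∧ neg p ∉ r) ∧ ∃ x ∈ τ, z (insert x r) ≠ 0 := by
  have hcτ : CohS a τ := h.supp τ hτ
  obtain ⟨y, hy⟩ := h.step τ fun s hs p hp hps q hq => (h.supp s hs).no_anti hcτ hp hps hq
  have hcov : ∀ r, y r ≠ 0 → (∀ p ∈ τ, p ∉ r ∧ neg p ∉ r) ∧ ∃ x ∈ τ, z (insert x r) ≠ 0 := by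
    intro r hr
    obtain ⟨h1, h2⟩ := hy.supp r hr
    refine ⟨h1, ?_⟩
    rcases h2 with h2 | ⟨x, _, hx, hx2⟩
    · exact h2
    · exfalso
      obtain ⟨v, hv1, hv2⟩ := hm _ _ hτ hx
      rw [mem_pr_iff] at hv1 hv2
      obtain ⟨p, hp, rfl⟩ := hv1
      obtain ⟨q, hq, hqp⟩ := hv2
      rcases eq_or_neg_of_fst hqp with rfl | rfl
      · exact (hx2 _ hp).1 hq
      · exact (hx2 _ hp).2 hq
  have hyw : IsWit k (CohS a) y := by
    refine ⟨fun r hr => ?_, hy.cycle, hy.ess⟩
    obtain ⟨_, x, _, hx⟩ := hcov r hr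
    exact (h.supp _ hx).subset (subset_insert _ _)
  refine ⟨y, hyw, ?_, hcov⟩
  intro r1 r2 hr1 hr2
  by_contra hno
  push Not at hno
  obtain ⟨ha1, x1, hx1, hz1⟩ := hcov r1 hr1
  obtain ⟨ha1', x1', hx1', hz1'⟩ := hcov (negS r1) (by rw [hyw.symm_apply]; exact hr1)
  obtain ⟨ha2, x2, hx2, hz2⟩ := hcov r2 hr2
  have key : ∀ (r : Finset (V × Bool)) (x : V × Bool), pr r = pr r1 → x ∈ τ →
      z (insert x r) ≠ 0 → x.1 = x2.1 := by
    intro r x hr hx hz
    have hxr2 : x.1 ∉ pr r2 := by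
      intro hxr
      rw [mem_pr_iff] at hxr
      obtain ⟨p, hp, hpx⟩ := hxr
      rcases eq_or_neg_of_fst hpx with rfl | rfl
      · exact (ha2 _ hx).1 hp
      · exact (ha2 _ hx).2 hp
    have hx2r : x2.1 ∉ pr r1 := by
      intro hxr
      rw [mem_pr_iff] at hxr
      obtain ⟨p, hp, hpx⟩ := hxr
      rcases eq_or_neg_of_fst hpx with rfl | rfl
      · exact (ha1 _ hx2).1 hp
      · exact (ha1 _ hx2).2 hp
    obtain ⟨v, hv1, hv2⟩ := hm _ _ hz hz2
    rw [pr_insert, mem_insert, hr] at hv1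
    rw [pr_insert, mem_insert] at hv2
    rcases hv1 with rfl | hv1
    · rcases hv2 with hv2 | hv2
      · exact hv2
      · exact absurd hv2 hxr2
    · rcases hv2 with rfl | hv2
      · exact absurd hv1 hx2r
      · exact absurd hv2 (hno v hv1)
  have e1 := key r1 x1 rfl hx1 hz1
  have e2 := key (negS r1) x1' (pr_negS r1) hx1' hz1'
  have e3 : x1 = x1' := (hcτ _ hx1 _ hx1').1 (e1.trans e2.symm)
  subst e3
  have hne : r1.Nonempty := card_pos.mp (by rw [hyw.card hr1]; omega)
  obtain ⟨q, hq⟩ := hne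
  have hq1 : x1.1 ≠ q.1 := by
    intro he
    rcases eq_or_neg_of_fst he.symm with rfl | rfl
    · exact (ha1 _ hx1).1 hq
    · exact (ha1 _ hx1).2 hq
  have f1 := (h.supp _ hz1 x1 (mem_insert_self _ _) q (mem_insert_of_mem hq)).2 hq1
  have f2 := (h.supp _ hz1' x1 (mem_insert_self _ _) (neg q)
    (mem_insert_of_mem (neg_mem_negS.mpr hq))).2 (by rw [neg_fst]; exact hq1)
  rw [neg_fst, f1] at f2
  simp only [neg_apply] at f2
  revert f2
  cases x1.2 <;> cases q.2 <;> simp

theorem CohS.ne_fst {a : V → V → Bool} {x y : V × Bool} (h : CohS a {x, y}) (hxy : x ≠ y) :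
    x.1 ≠ y.1 := fun he => hxy ((h x (by simp) y (by simp)).1 he)

theorem CohS.sign {a : V → V → Bool} {s : Finset (V × Bool)} (h : CohS a s) {x y : V × Bool}
    (hx : x ∈ s) (hy : y ∈ s) (hxy : x.1 ≠ y.1) : a x.1 y.1 = xor x.2 y.2 := (h x hx y hy).2 hxy

/-- a pairwise meeting essential cycle of dimension one is an incoherent triangle -/
theorem IsWit.hexagon {a : V → V → Bool} (ha : ∀ u v, a u v = a v u) {y : Ch V}
    (h : IsWit 1 (CohS a) y) (hm : Meet y) :
    ∃ d e f : V × Bool, d.1 ≠ e.1 ∧ e.1 ≠ f.1 ∧ d.1 ≠ f.1 ∧ y {d, e} ≠ 0 ∧ y {e, f} ≠ 0 ∧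
      y {f, neg d} ≠ 0 := by
  obtain ⟨r, hr⟩ := h.ne_zero
  obtain ⟨d, e, hde, rfl⟩ := card_eq_two.mp (h.card hr)
  have hde1 : d.1 ≠ e.1 := (h.supp _ hr).ne_fst hde
  have ex : ∀ d e : V × Bool, d ≠ e → y {d, e} ≠ 0 →
      ∃ v, v.1 ≠ d.1 ∧ v.1 ≠ e.1 ∧ y {e, v} ≠ 0 := by
    intro d e hde hr
    have hde1 : d.1 ≠ e.1 := (h.supp _ hr).ne_fst hde
    obtain ⟨v, hv, hvz⟩ := h.exchange hr (t := d) (by simp)
    have he : ({d, e} : Finset (V × Bool)).erase d = {e} := by
      ext q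
      simp only [mem_erase, mem_insert, mem_singleton]
      constructor
      · rintro ⟨h1, h2 | h2⟩
        · exact absurd h2 h1
        · exact h2
      · rintro rfl
        exact ⟨fun h => hde h.symm, Or.inr rfl⟩
    rw [he] at hvz
    simp only [mem_insert, mem_singleton, not_or] at hv
    have hve : v.1 ≠ e.1 := (h.supp _ hvz).ne_fst hv.2
    refine ⟨v, ?_, hve, by rw [pair_comm]; exact hvz⟩
    intro hvd
    rcases eq_or_neg_of_fst hvd with rfl | rfl
    · exact hv.1 rfl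
    · have f1 := (h.supp _ hr).sign (x := d) (y := e) (by simp) (by simp) hde1
      have f2 := (h.supp _ hvz).sign (x := neg d) (y := e) (by simp) (by simp) hve
      rw [neg_fst, f1] at f2
      simp only [neg_apply] at f2
      revert f2
      cases d.2 <;> cases e.2 <;> simp
  obtain ⟨v, hvd, hve, hyv⟩ := ex d e hde hr
  obtain ⟨w, hwe, hwd, hyw⟩ := ex e d hde.symm (by rw [pair_comm]; exact hr)
  have hvw : v.1 = w.1 := by
    obtain ⟨u, hu1, hu2⟩ := hm _ _ hyv hyw
    simp only [pr_insert, mem_insert, mem_pr_iff, mem_singleton, exists_eq_left] at hu1 hu2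
    rcases hu1 with rfl | rfl
    · rcases hu2 with h2 | h2
      · exact absurd h2.symm hde1
      · exact absurd h2 hwe
    · rcases hu2 with h2 | h2
      · exact absurd h2 hvd
      · exact h2.symm
  rcases eq_or_neg_of_fst hvw.symm with rfl | rfl
  · -- the triangle is coherent, impossible
    exfalso
    have hcoh : CohS a {d, e, w} := by
      have h1 := h.supp _ hr
      have h2 := h.supp _ hyv
      have h3 := h.supp _ hyw
      intro p hp q hq
      simp only [mem_insert, mem_singleton] at hp hq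
      rcases hp with rfl | rfl | rfl <;> rcases hq with rfl | rfl | rfl
      · simp
      · exact h1 _ (by simp) _ (by simp)
      · exact h3 _ (by simp) _ (by simp)
      · exact h1 _ (by simp) _ (by simp)
      · simp
      · exact h2 _ (by simp) _ (by simp)
      · exact h3 _ (by simp) _ (by simp)
      · exact h2 _ (by simp) _ (by simp)
      · simp
    have hP : P a 1 (pr {d, e, w}) := by
      refine ⟨y, ⟨fun s hs => ⟨h.supp s hs, ?_⟩, h.cycle, h.ess⟩⟩
      obtain ⟨p, q, hpq, rfl⟩ := card_eq_two.mp (h.card hs)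
      have hpq1 : p.1 ≠ q.1 := (h.supp _ hs).ne_fst hpq
      obtain ⟨u1, hu1, hu1'⟩ := hm _ _ hs hr
      obtain ⟨u2, hu2, hu2'⟩ := hm _ _ hs hyv
      obtain ⟨u3, hu3, hu3'⟩ := hm _ _ hs hyw
      simp only [pr_insert, mem_insert, mem_pr_iff, mem_singleton, exists_eq_left] at *
      intro u hu
      simp only [pr_insert, mem_insert, mem_pr_iff, mem_singleton, exists_eq_left] at *
      rcases hu with rfl | rfl <;> rcases hu1 with rfl | rfl <;> rcases hu2 with rfl | rfl <;>
        rcases hu3 with rfl | rfl <;> grind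
    have h0 := hP.step ha hcoh.coh
    rw [sdiff_self] at h0
    have := h0.card_lt
    simp at this
  · refine ⟨d, e, v, hde1, fun h => hve h.symm, fun h => hvd h.symm, hr, hyv, ?_⟩
    have := h.symm_apply {d, neg v}
    rw [show negS {d, neg v} = ({v, neg d} : Finset (V × Bool)) by
      ext q
      rw [mem_negS]
      simp only [mem_insert, mem_singleton]
      constructor
      · rintro (h | h)
        · right; rw [← h, neg_neg']
        · left; exact neg.injective h
      · rintro (h | h)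
        · right; rw [h]
        · left; rw [h, neg_neg']] at this
    rw [this]
    exact hyw

/-- the two normal forms of the two-graph of the icosahedron -/
def t6 (c : Bool) (i j : Fin 6) : Bool :=
  ((cond c [52, 32, 41, 4, 1, 7] [20, 48, 33, 0, 3, 6] : List ℕ).getD i.val 0).testBit j.val

/-- a pairwise meeting essential cycle of dimension two lives on an icosahedral two-graph -/
theorem IsWit.icosa {a : V → V → Bool} (ha : ∀ u v, a u v = a v u) {z : Ch V}
    (h : IsWit 2 (CohS a) z) (hm : Meet z) :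
    ∃ (f : Fin 6 ↪ V) (δ : Fin 6 → Bool) (c : Bool),
      (∀ i j, i ≠ j → pullA f δ a i j = t6 c i j) ∧
      ∀ s, z s ≠ 0 → ∀ p ∈ s, p.1 ∈ Set.range f := by
  obtain ⟨τ, hτ⟩ := h.ne_zero
  obtain ⟨y, hy, hym, hcov⟩ := h.descent hm hτ
  obtain ⟨d, e, f, hde, hef, hdf, hyde, hyef, hyfd⟩ := hy.hexagon ha hym
  have hcτ : CohS a τ := h.supp τ hτ
  have hcard : τ.card = 3 := h.card hτ
  have cov : ∀ p q : V × Bool, y {p, q} ≠ 0 → ∃ X ∈ τ, X.1 ≠ p.1 ∧ X.1 ≠ q.1 ∧
      z (insert X {p, q}) ≠ 0 ∧ a X.1 p.1 = xor X.2 p.2 ∧ a X.1 q.1 = xor X.2 q.2 := by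
    intro p q hpq
    obtain ⟨h1, X, hX, hXz⟩ := hcov _ hpq
    have h2 := h1 X hX
    simp only [mem_insert, mem_singleton, not_or] at h2
    have hXp : X.1 ≠ p.1 := by
      intro he
      rcases eq_or_neg_of_fst he with rfl | rfl
      · exact h2.1.1 rfl
      · exact h2.2.1 (neg_neg' _)
    have hXq : X.1 ≠ q.1 := by
      intro he
      rcases eq_or_neg_of_fst he with rfl | rfl
      · exact h2.1.2 rfl
      · exact h2.2.2 (neg_neg' _)
    refine ⟨X, hX, hXp, hXq, hXz, ?_, ?_⟩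
    · exact (h.supp _ hXz).sign (by simp) (by simp) hXp
    · exact (h.supp _ hXz).sign (by simp) (by simp) hXq
  have hneg : ∀ p q : V × Bool, y {p, q} ≠ 0 → y {neg p, neg q} ≠ 0 := by
    intro p q hpq
    have := hy.symm_apply {neg p, neg q}
    rw [show negS {neg p, neg q} = ({p, q} : Finset (V × Bool)) by
      ext r
      rw [mem_negS]
      simp only [mem_insert, mem_singleton]
      rw [neg.injective.eq_iff, neg.injective.eq_iff]] at this
    rw [← this]
    exact hpq
  obtain ⟨A, hA, hAd, hAe, hzA, aAd, aAe⟩ := cov _ _ hyde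
  obtain ⟨B, hB, hBf, hBd, hzB, aBf, aBd⟩ := cov _ _ hyfd
  obtain ⟨C, hC, hCe, hCf, hzC, aCe, aCf⟩ := cov _ _ (hneg _ _ hyef)
  obtain ⟨X2, hX2, hX2e, hX2f, hzX2, aX2e, aX2f⟩ := cov _ _ hyef
  obtain ⟨X4, hX4, hX4d, hX4e, hzX4, aX4d, aX4e⟩ := cov _ _ (hneg _ _ hyde)
  obtain ⟨X6, hX6, hX6f, hX6d, hzX6, aX6f, aX6d⟩ := cov _ _ (hneg _ _ hyfd)
  have ade := (hy.supp _ hyde).sign (x := d) (y := e) (by simp) (by simp) hde
  have aef := (hy.supp _ hyef).sign (x := e) (y := f) (by simp) (by simp) hef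
  have afd := (hy.supp _ hyfd).sign (x := f) (y := neg d) (by simp) (by simp)
    (by rw [neg_fst]; exact hdf.symm)
  simp only [neg_apply, Bool.not_not] at aBd aCe aCf aX4d aX4e aX6f aX6d afd
  simp only [neg_fst] at hBd hCe hCf hX4d hX4e hX6f hX6d
  have hav : ∀ p q : V × Bool, y {p, q} ≠ 0 → ∀ X ∈ τ, X.1 ≠ p.1 := by
    intro p q hpq X hX he
    have h2 := (hcov _ hpq).1 X hX
    simp only [mem_insert, mem_singleton, not_or] at h2
    rcases eq_or_neg_of_fst he with rfl | rfl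
    · exact h2.1.1 rfl
    · exact h2.2.1 (neg_neg' _)
  have hAf : A.1 ≠ f.1 := hav _ _ hyfd A hA
  have hBe : B.1 ≠ e.1 := hav _ _ hyef B hB
  have hCd : C.1 ≠ d.1 := hav _ _ hyde C hC
  have hAB : A.1 ≠ B.1 := by
    intro he
    rcases eq_or_neg_of_fst he with rfl | rfl
    · rw [aAd] at aBd
      revert aBd; cases A.2 <;> cases d.2 <;> simp
    · exact (hcτ.af B hB) hA
  have hAC : A.1 ≠ C.1 := by
    intro he
    rcases eq_or_neg_of_fst he with rfl | rfl
    · rw [aAe] at aCe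
      revert aCe; cases A.2 <;> cases e.2 <;> simp
    · exact (hcτ.af C hC) hA
  have hBC : B.1 ≠ C.1 := by
    intro he
    rcases eq_or_neg_of_fst he with rfl | rfl
    · rw [aBf] at aCf
      revert aCf; cases B.2 <;> cases f.2 <;> simp
    · exact (hcτ.af C hC) hB
  have aAB := hcτ.sign hA hB hAB
  have aAC := hcτ.sign hA hC hAC
  have aBC := hcτ.sign hB hC hBC
  have hτeq : τ = {A, B, C} := by
    symm
    apply eq_of_subset_of_card_le
    · intro x hx
      simp only [mem_insert, mem_singleton] at hx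
      rcases hx with rfl | rfl | rfl <;> assumption
    · rw [hcard, card_eq_three.mpr ⟨A, B, C, fun h => hAB (by rw [h]), fun h => hAC (by rw [h]),
        fun h => hBC (by rw [h]), rfl⟩]
  rw [hτeq] at hX2 hX4 hX6
  simp only [mem_insert, mem_singleton] at hX2 hX4 hX6
  -- the three remaining signs
  obtain ⟨c, hα, hβ, hγ, hX2', hX4', hX6'⟩ : ∃ c : Bool, a A.1 f.1 = xor c (xor A.2 f.2) ∧
      a B.1 e.1 = xor (!c) (xor B.2 e.2) ∧ a C.1 d.1 = xor c (xor C.2 d.2) ∧
      X2 = (cond c B A) ∧ X4 = (cond c C B) ∧ X6 = (cond c A C) := by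
    have h2 : (X2 = A ∧ a A.1 f.1 = xor A.2 f.2) ∨ (X2 = B ∧ a B.1 e.1 = xor B.2 e.2) := by
      rcases hX2 with rfl | rfl | rfl
      · exact Or.inl ⟨rfl, aX2f⟩
      · exact Or.inr ⟨rfl, aX2e⟩
      · exfalso
        rw [aX2e] at aCe
        revert aCe; cases X2.2 <;> cases e.2 <;> simp
    have h4 : (X4 = B ∧ a B.1 e.1 = !(xor B.2 e.2)) ∨ (X4 = C ∧ a C.1 d.1 = !(xor C.2 d.2)) := by
      rcases hX4 with rfl | rfl | rfl
      · exfalso
        rw [aX4d] at aAd
        revert aAd; cases X4.2 <;> cases d.2 <;> simp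
      · refine Or.inl ⟨rfl, ?_⟩
        rw [aX4e]; cases X4.2 <;> cases e.2 <;> rfl
      · refine Or.inr ⟨rfl, ?_⟩
        rw [aX4d]; cases X4.2 <;> cases d.2 <;> rfl
    have h6 : (X6 = A ∧ a A.1 f.1 = !(xor A.2 f.2)) ∨ (X6 = C ∧ a C.1 d.1 = xor C.2 d.2) := by
      rcases hX6 with rfl | rfl | rfl
      · refine Or.inl ⟨rfl, ?_⟩
        rw [aX6f]; cases X6.2 <;> cases f.2 <;> rfl
      · exfalso
        rw [aX6f] at aBf
        revert aBf; cases X6.2 <;> cases f.2 <;> simp
      · exact Or.inr ⟨rfl, aX6d⟩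
    generalize a A.1 f.1 = u at *
    generalize a B.1 e.1 = v at *
    generalize a C.1 d.1 = w at *
    rcases h2 with ⟨h2, h2'⟩ | ⟨h2, h2'⟩
    · have h6' : X6 = C ∧ w = xor C.2 d.2 := by
        rcases h6 with ⟨_, h6⟩ | h6
        · exfalso; rw [h2'] at h6; revert h6; cases A.2 <;> cases f.2 <;> simp
        · exact h6
      have h4' : X4 = B ∧ v = !(xor B.2 e.2) := by
        rcases h4 with h4 | ⟨_, h4⟩
        · exact h4
        · exfalso; rw [h6'.2] at h4; revert h4; cases C.2 <;> cases d.2 <;> simp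
      refine ⟨false, ?_, ?_, ?_, h2, h4'.1, h6'.1⟩
      · rw [h2', Bool.false_xor]
      · rw [h4'.2]; simp
      · rw [h6'.2, Bool.false_xor]
    · have h4' : X4 = C ∧ w = !(xor C.2 d.2) := by
        rcases h4 with ⟨_, h4⟩ | h4
        · exfalso; rw [h2'] at h4; revert h4; cases B.2 <;> cases e.2 <;> simp
        · exact h4
      have h6' : X6 = A ∧ u = !(xor A.2 f.2) := by
        rcases h6 with h6 | ⟨_, h6⟩
        · exact h6
        · exfalso; rw [h4'.2] at h6; revert h6; cases C.2 <;> cases d.2 <;> simp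
      refine ⟨true, ?_, ?_, ?_, h2, h4'.1, h6'.1⟩
      · rw [h6'.2]; simp
      · rw [h2']; simp
      · rw [h4'.2]; simp
  let g : Fin 6 → V × Bool := ![d, e, f, A, B, C]
  have hinj : Function.Injective fun i => (g i).1 := by
    have hall : ∀ i j : Fin 6, i < j → (g i).1 ≠ (g j).1 := by
      intro i j hij
      fin_cases i <;> fin_cases j <;> simp [g] at hij ⊢ <;>
        first
        | assumption
        | exact Ne.symm (by assumption)
    intro i j hij
    by_contra hne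
    rcases lt_or_gt_of_ne hne with h1 | h1
    · exact hall i j h1 hij
    · exact hall j i h1 hij.symm
  have hsgn : ∀ i j : Fin 6, i < j → a (g i).1 (g j).1 = xor (RP5.t6 c i j) (xor (g i).2 (g j).2) := by
    have e1 : a d.1 f.1 = xor true (xor d.2 f.2) := by
      rw [ha, afd]; cases d.2 <;> cases f.2 <;> rfl
    have e2 : a d.1 A.1 = xor false (xor d.2 A.2) := by
      rw [ha, aAd]; cases d.2 <;> cases A.2 <;> rfl
    have e3 : a d.1 B.1 = xor true (xor d.2 B.2) := by
      rw [ha, aBd]; cases d.2 <;> cases B.2 <;> rfl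
    have e4 : a d.1 C.1 = xor c (xor d.2 C.2) := by
      rw [ha, hγ]; cases c <;> cases d.2 <;> cases C.2 <;> rfl
    have e5 : a e.1 A.1 = xor false (xor e.2 A.2) := by
      rw [ha, aAe]; cases e.2 <;> cases A.2 <;> rfl
    have e6 : a e.1 B.1 = xor (!c) (xor e.2 B.2) := by
      rw [ha, hβ]; cases c <;> cases e.2 <;> cases B.2 <;> rfl
    have e7 : a e.1 C.1 = xor true (xor e.2 C.2) := by
      rw [ha, aCe]; cases e.2 <;> cases C.2 <;> rfl
    have e8 : a f.1 A.1 = xor c (xor f.2 A.2) := by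
      rw [ha, hα]; cases c <;> cases f.2 <;> cases A.2 <;> rfl
    have e9 : a f.1 B.1 = xor false (xor f.2 B.2) := by
      rw [ha, aBf]; cases f.2 <;> cases B.2 <;> rfl
    have e10 : a f.1 C.1 = xor true (xor f.2 C.2) := by
      rw [ha, aCf]; cases f.2 <;> cases C.2 <;> rfl
    have hT : ∀ c, RP5.t6 c 0 1 = false ∧ RP5.t6 c 0 2 = true ∧ RP5.t6 c 0 3 = false ∧
        RP5.t6 c 0 4 = true ∧ RP5.t6 c 0 5 = c ∧ RP5.t6 c 1 2 = false ∧ RP5.t6 c 1 3 = false ∧
        RP5.t6 c 1 4 = (!c) ∧ RP5.t6 c 1 5 = true ∧ RP5.t6 c 2 3 = c ∧ RP5.t6 c 2 4 = false ∧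
        RP5.t6 c 2 5 = true ∧ RP5.t6 c 3 4 = false ∧ RP5.t6 c 3 5 = false ∧
        RP5.t6 c 4 5 = false := by decide
    obtain ⟨t1, t2, t3, t4, t5, t6, t7, t8, t9, t10, t11, t12, t13, t14, t15⟩ := hT c
    intro i j hij
    fin_cases i <;> fin_cases j <;> first
      | (exfalso; revert hij; decide)
      | skip
    · show a d.1 e.1 = xor (RP5.t6 c 0 1) (xor d.2 e.2); rw [t1, ade, Bool.false_xor]
    · show a d.1 f.1 = xor (RP5.t6 c 0 2) (xor d.2 f.2); rw [t2, e1]
    · show a d.1 A.1 = xor (RP5.t6 c 0 3) (xor d.2 A.2); rw [t3, e2]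
    · show a d.1 B.1 = xor (RP5.t6 c 0 4) (xor d.2 B.2); rw [t4, e3]
    · show a d.1 C.1 = xor (RP5.t6 c 0 5) (xor d.2 C.2); rw [t5, e4]
    · show a e.1 f.1 = xor (RP5.t6 c 1 2) (xor e.2 f.2); rw [t6, aef, Bool.false_xor]
    · show a e.1 A.1 = xor (RP5.t6 c 1 3) (xor e.2 A.2); rw [t7, e5]
    · show a e.1 B.1 = xor (RP5.t6 c 1 4) (xor e.2 B.2); rw [t8, e6]
    · show a e.1 C.1 = xor (RP5.t6 c 1 5) (xor e.2 C.2); rw [t9, e7]
    · show a f.1 A.1 = xor (RP5.t6 c 2 3) (xor f.2 A.2); rw [t10, e8]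
    · show a f.1 B.1 = xor (RP5.t6 c 2 4) (xor f.2 B.2); rw [t11, e9]
    · show a f.1 C.1 = xor (RP5.t6 c 2 5) (xor f.2 C.2); rw [t12, e10]
    · show a A.1 B.1 = xor (RP5.t6 c 3 4) (xor A.2 B.2); rw [t13, aAB, Bool.false_xor]
    · show a A.1 C.1 = xor (RP5.t6 c 3 5) (xor A.2 C.2); rw [t14, aAC, Bool.false_xor]
    · show a B.1 C.1 = xor (RP5.t6 c 4 5) (xor B.2 C.2); rw [t15, aBC, Bool.false_xor]
  have hsym : ∀ c i j, RP5.t6 c i j = RP5.t6 c j i := by decide
  refine ⟨⟨fun i => (g i).1, hinj⟩, fun i => (g i).2, c, ?_, ?_⟩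
  · intro i j hij
    simp only [pullA, Function.Embedding.coeFn_mk]
    rcases lt_or_gt_of_ne hij with h1 | h1
    · rw [hsgn i j h1]
      generalize RP5.t6 c i j = x
      cases x <;> cases (g i).2 <;> cases (g j).2 <;> rfl
    · rw [ha, hsgn j i h1, hsym c i j]
      generalize RP5.t6 c j i = x
      cases x <;> cases (g i).2 <;> cases (g j).2 <;> rfl
  · intro s hs p hp
    -- the support meets seven triples
    have hmeet : ∀ i j k : Fin 6, (∃ t, z t ≠ 0 ∧ pr t = {(g i).1, (g j).1, (g k).1}) →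
        (g i).1 ∈ pr s ∨ (g j).1 ∈ pr s ∨ (g k).1 ∈ pr s := by
      rintro i j k ⟨t, ht, hpt⟩
      obtain ⟨v, hv1, hv2⟩ := hm _ _ hs ht
      rw [hpt] at hv2
      simp only [mem_insert, mem_singleton] at hv2
      rcases hv2 with rfl | rfl | rfl
      · exact Or.inl hv1
      · exact Or.inr (Or.inl hv1)
      · exact Or.inr (Or.inr hv1)
    have k1 := hmeet 3 0 1 ⟨_, hzA, by simp [g, pr]⟩
    have k2 := hmeet 4 2 0 ⟨_, hzB, by simp [g, pr]⟩
    have k3 := hmeet 5 1 2 ⟨_, hzC, by simp [g, pr]⟩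
    have k4 := hmeet 3 4 5 ⟨_, hτ, by rw [hτeq]; simp [g, pr]⟩
    have k5 := hmeet (cond c 4 3) 1 2 ⟨_, hzX2, by rw [hX2']; cases c <;> simp [g, pr]⟩
    have k6 := hmeet (cond c 5 4) 0 1 ⟨_, hzX4, by rw [hX4']; cases c <;> simp [g, pr]⟩
    have k7 := hmeet (cond c 3 5) 2 0 ⟨_, hzX6, by rw [hX6']; cases c <;> simp [g, pr]⟩
    let H : Finset (Fin 6) := univ.filter fun i => (g i).1 ∈ pr s
    have hH : 3 ≤ H.card := by
      have hdec : ∀ (c b0 b1 b2 b3 b4 b5 : Bool), (b3 || b0 || b1) = true →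
          (b4 || b2 || b0) = true → (b5 || b1 || b2) = true → (b3 || b4 || b5) = true →
          (cond c b4 b3 || b1 || b2) = true → (cond c b5 b4 || b0 || b1) = true →
          (cond c b3 b5 || b2 || b0) = true →
          3 ≤ b0.toNat + b1.toNat + b2.toNat + b3.toNat + b4.toNat + b5.toNat := by decide
      have hs2 := hdec c (decide ((g 0).1 ∈ pr s)) (decide ((g 1).1 ∈ pr s))
        (decide ((g 2).1 ∈ pr s)) (decide ((g 3).1 ∈ pr s)) (decide ((g 4).1 ∈ pr s))
        (decide ((g 5).1 ∈ pr s))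
        (by simpa [or_assoc] using k1) (by simpa [or_assoc] using k2)
        (by simpa [or_assoc] using k3) (by simpa [or_assoc] using k4)
        (by cases c <;> simpa [or_assoc] using k5) (by cases c <;> simpa [or_assoc] using k6)
        (by cases c <;> simpa [or_assoc] using k7)
      have hs3 : H.card = (decide ((g 0).1 ∈ pr s)).toNat + (decide ((g 1).1 ∈ pr s)).toNat +
          (decide ((g 2).1 ∈ pr s)).toNat + (decide ((g 3).1 ∈ pr s)).toNat +
          (decide ((g 4).1 ∈ pr s)).toNat + (decide ((g 5).1 ∈ pr s)).toNat := by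
        simp only [H, card_filter, Fin.sum_univ_six, Bool.toNat, Bool.cond_decide]
      rw [hs3]
      exact hs2
    have hHs : H.map ⟨fun i => (g i).1, hinj⟩ ⊆ pr s := by
      intro v hv
      simp only [mem_map, H, mem_filter, mem_univ, true_and, Function.Embedding.coeFn_mk] at hv
      obtain ⟨i, hi, rfl⟩ := hv
      exact hi
    have heq : H.map ⟨fun i => (g i).1, hinj⟩ = pr s := by
      apply eq_of_subset_of_card_le hHs
      rw [card_map, card_pr (h.supp s hs), h.card hs]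
      exact hH
    have hp' := mem_pr hp
    rw [← heq, mem_map] at hp'
    obtain ⟨i, _, hi⟩ := hp'
    exact ⟨i, hi⟩

/-- the coherent triples of `t6 c` -/
def tri (c : Bool) (i : Fin 10) : Fin 6 × Fin 6 × Fin 6 :=
  (cond c
    [(0, 1, 3), (0, 1, 5), (0, 2, 3), (0, 2, 4), (0, 4, 5), (1, 2, 4), (1, 2, 5), (1, 3, 4),
      (2, 3, 5), (3, 4, 5)]
    [(0, 1, 3), (0, 1, 4), (0, 2, 4), (0, 2, 5), (0, 3, 5), (1, 2, 3), (1, 2, 5), (1, 4, 5),
      (2, 3, 4), (3, 4, 5)]).getD i.val (0, 0, 0)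

/-- the neighbours of the triples -/
def nbt (c : Bool) (i : Fin 10) : Fin 10 × Fin 10 × Fin 10 :=
  (cond c
    [(7, 2, 1), (6, 4, 0), (8, 0, 3), (5, 4, 2), (9, 1, 3), (3, 7, 6), (8, 1, 5), (9, 5, 0),
      (9, 6, 2), (4, 8, 7)]
    [(5, 4, 1), (7, 2, 0), (8, 1, 3), (6, 4, 2), (9, 3, 0), (8, 0, 6), (3, 7, 5), (9, 6, 1),
      (9, 2, 5), (7, 4, 8)]).getD i.val (0, 0, 0)

/-- a triple as a set -/
def tset (t : Fin 6 × Fin 6 × Fin 6) : Finset (Fin 6) := {t.1, t.2.1, t.2.2}

instance {V : Type*} [DecidableEq V] (a : V → V → Bool) (S : Finset V) : Decidable (Coh a S) := by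
  unfold Coh; infer_instance

theorem tri_coh (c : Bool) (S : Finset (Fin 6)) (hS : S.card = 3) (h : Coh (t6 c) S) :
    ∃ i, S = tset (tri c i) := by
  revert c S
  decide +kernel

theorem tri_nb (c : Bool) (i : Fin 10) (v : Fin 6) (hv : v ∉ tset (tri c i)) :
    (Coh (t6 c) (insert v ((tset (tri c i)).erase (tri c i).1)) →
      insert v ((tset (tri c i)).erase (tri c i).1) = tset (tri c (nbt c i).1)) ∧
    (Coh (t6 c) (insert v ((tset (tri c i)).erase (tri c i).2.1)) →
      insert v ((tset (tri c i)).erase (tri c i).2.1) = tset (tri c (nbt c i).2.1)) ∧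
    (Coh (t6 c) (insert v ((tset (tri c i)).erase (tri c i).2.2)) →
      insert v ((tset (tri c i)).erase (tri c i).2.2) = tset (tri c (nbt c i).2.2)) := by
  revert c i v
  decide +kernel

theorem tri_conn (c : Bool) (b : ℕ) (hb : b < 1024) (i : Fin 10) (hi : b.testBit i.val = true)
    (h : ∀ i : Fin 10, b.testBit i.val = true → b.testBit (nbt c i).1.val = true ∧
      b.testBit (nbt c i).2.1.val = true ∧ b.testBit (nbt c i).2.2.val = true) :
    ∀ j : Fin 10, b.testBit j.val = true := by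
  have key : ∀ (c : Bool) (b : Fin 1024), (∃ i : Fin 10, b.val.testBit i.val = true) →
      (∀ i : Fin 10, b.val.testBit i.val = true → b.val.testBit (nbt c i).1.val = true ∧
        b.val.testBit (nbt c i).2.1.val = true ∧ b.val.testBit (nbt c i).2.2.val = true) →
      ∀ j : Fin 10, b.val.testBit j.val = true := by decide +kernel
  exact key c ⟨b, hb⟩ ⟨i, hi⟩ h

/-- every essential cycle on `t6 c` contains all coherent triples -/
theorem t6_full {c : Bool} {z : Ch (Fin 6)} (h : IsWit 2 (CohS (t6 c)) z) (j : Fin 10) :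
    ∃ s, z s ≠ 0 ∧ pr s = tset (tri c j) := by
  classical
  have hPF : PF (t6 c) 2 (fun ρ => ∃ s, z s ≠ 0 ∧ pr s = ρ) :=
    ⟨z, ⟨fun s hs => ⟨h.supp s hs, s, hs, rfl⟩, h.cycle, h.ess⟩⟩
  obtain ⟨Z, ⟨ρ0, hρ0⟩, hZ, hex⟩ := hPF.exchange
  have hbit : ∀ (p : Fin 10 → Prop) [DecidablePred p], ∃ b : ℕ, b < 1024 ∧
      ∀ i : Fin 10, b.testBit i.val = true ↔ p i := by
    intro p _
    have : ∀ q : Fin 10 → Bool, ∃ b : Fin 1024, ∀ i : Fin 10, b.val.testBit i.val = q i :=
      fun q => ⟨⟨(BitVec.ofFnLE q).toNat, (BitVec.ofFnLE q).isLt⟩, fun i => by simp⟩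
    obtain ⟨b, hb⟩ := this fun i => decide (p i)
    exact ⟨b.val, b.isLt, fun i => by rw [hb]; simp⟩
  obtain ⟨b, hb, hbZ⟩ := hbit fun i => tset (tri c i) ∈ Z
  obtain ⟨i0, hi0⟩ := tri_coh c ρ0 (hZ _ hρ0).2.1 (hZ _ hρ0).2.2
  have hall := tri_conn c b hb i0 ((hbZ i0).mpr (hi0 ▸ hρ0)) (by
    intro i hi
    rw [hbZ] at hi
    simp only [hbZ]
    refine ⟨?_, ?_, ?_⟩
    · obtain ⟨v, hv, hvZ⟩ := hex _ hi (tri c i).1 (by simp [tset])
      rw [← (tri_nb c i v hv).1 (hZ _ hvZ).2.2]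
      exact hvZ
    · obtain ⟨v, hv, hvZ⟩ := hex _ hi (tri c i).2.1 (by simp [tset])
      rw [← (tri_nb c i v hv).2.1 (hZ _ hvZ).2.2]
      exact hvZ
    · obtain ⟨v, hv, hvZ⟩ := hex _ hi (tri c i).2.2 (by simp [tset])
      rw [← (tri_nb c i v hv).2.2 (hZ _ hvZ).2.2]
      exact hvZ)
  exact (hZ _ ((hbZ j).mp (hall j))).1

/-- does the half set `π` cover the lift of the `i`-th triple which starts with `b`? -/
def hit (c : Bool) (π : Fin 6 → Bool) (i : Fin 10) (b : Bool) : Bool :=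
  π (tri c i).1 == b && (π (tri c i).2.1 == xor b (t6 c (tri c i).1 (tri c i).2.1) &&
    π (tri c i).2.2 == xor b (t6 c (tri c i).1 (tri c i).2.2))

/-- the mask of the covered lifts -/
def cmask (c : Bool) (w : ℕ) : ℕ :=
  ((List.finRange 10).map fun i => (hit c (fun k => w.testBit k.val) i false).toNat <<< (2 * i.val)
    + (hit c (fun k => w.testBit k.val) i true).toNat <<< (2 * i.val + 1)).foldl (· + ·) 0

theorem cmask_spec (c : Bool) (w : Fin 64) (i : Fin 10) (b : Bool) :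
    (cmask c w.val).testBit (2 * i.val + b.toNat) = hit c (fun k => w.val.testBit k.val) i b := by
  revert c w i b
  decide +kernel

/-- four half sets do not cover the icosahedron -/
theorem no_four (c : Bool) :
    srch ((List.range 64).map (cmask c)) (2 ^ 20 - 1) 4 0 = false := by
  revert c
  decide +kernel

theorem tset_sub (c : Bool) (i : Fin 10) : (tri c i).1 ≠ (tri c i).2.1 ∧
    (tri c i).1 ≠ (tri c i).2.2 ∧ (tri c i).2.1 ≠ (tri c i).2.2 := by
  revert c i
  decide

/-- there is no pairwise meeting essential cycle of dimension three -/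
theorem IsWit.not_meet_three {a : V → V → Bool} (ha : ∀ u v, a u v = a v u) {z : Ch V}
    (h : IsWit 3 (CohS a) z) : ¬ Meet z := by
  classical
  intro hm
  obtain ⟨τ, hτ⟩ := h.ne_zero
  obtain ⟨y, hy, hym, hcov⟩ := h.descent hm hτ
  obtain ⟨f, δ, c, hf, hR⟩ := hy.icosa ha hym
  have hR' : InR f y := hR
  have hcoh : ∀ s, CohS (pullA f δ a) s → CohS (t6 c) s := by
    intro s hs p hp q hq
    refine ⟨(hs p hp q hq).1, fun hne => ?_⟩
    rw [← hf _ _ hne]
    exact (hs p hp q hq).2 hne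
  have hz' : IsWit 2 (CohS (t6 c)) (Pool.Agent.RP5.pull f δ y) := by
    refine ⟨fun s hs => hcoh s (hy.supp _ hs).pull, ?_, hy.ess.pull hR'⟩
    rw [← pull_bd f δ hR', hy.cycle]
    rfl
  -- every lift of a coherent triple is covered
  have hcover : ∀ (i : Fin 10) (b : Bool), ∃ x ∈ τ,
      hit c (fun k => xor (a x.1 (f k)) (xor x.2 (δ k))) i b = true := by
    intro i b
    obtain ⟨s0, hs0, hpr0⟩ := t6_full hz' i
    obtain ⟨s, hs, hprs, hbs⟩ : ∃ s, Pool.Agent.RP5.pull f δ y s ≠ 0 ∧ pr s = tset (tri c i) ∧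
        ((tri c i).1, b) ∈ s := by
      have hmem : (tri c i).1 ∈ pr s0 := by rw [hpr0]; simp [tset]
      rw [mem_pr_iff] at hmem
      obtain ⟨p, hp, hpi⟩ := hmem
      by_cases hb : p.2 = b
      · exact ⟨s0, hs0, hpr0, by rw [← hpi, ← hb]; exact hp⟩
      · refine ⟨negS s0, by rw [hz'.symm_apply]; exact hs0, by rw [pr_negS, hpr0], ?_⟩
        rw [mem_negS]
        have : neg ((tri c i).1, b) = p := by
          refine Prod.ext hpi.symm ?_
          simp only [neg_apply]
          exact (Bool.eq_not_of_ne hb).symm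
        rw [this]; exact hp
    have hcs := hz'.supp s hs
    obtain ⟨_, x, hx, hxz⟩ := hcov _ hs
    have hxc := h.supp _ hxz
    have hxav := (hcov _ hs).1 x hx
    -- signs on `s`
    have hsx : ∀ k e, (k, e) ∈ s → xor (a x.1 (f k)) (xor x.2 (δ k)) = e := by
      intro k e hke
      have hmem : sgnEmb f δ (k, e) ∈ s.map (sgnEmb f δ) := mem_map_of_mem _ hke
      have hne : x.1 ≠ (sgnEmb f δ (k, e)).1 := by
        intro he
        rcases eq_or_neg_of_fst he with h1 | h1
        · exact hxav.1 (h1 ▸ hmem)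
        · apply hxav.2
          rw [h1, neg_neg']
          exact hmem
      have := hxc.sign (mem_insert_self _ _) (mem_insert_of_mem hmem) hne
      rw [sgnEmb_apply] at this
      simp only at this
      rw [this]
      cases x.2 <;> cases e <;> cases δ k <;> rfl
    obtain ⟨n1, n2, n3⟩ := tset_sub c i
    have hget : ∀ k, k ∈ tset (tri c i) → k ≠ (tri c i).1 →
        (k, xor b (t6 c (tri c i).1 k)) ∈ s := by
      intro k hk hk1
      rw [← hprs, mem_pr_iff] at hk
      obtain ⟨q, hq, rfl⟩ := hk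
      have h1 := hcs.sign hbs hq hk1.symm
      simp only at h1
      rw [h1]
      have : xor b (xor b q.2) = q.2 := by cases b <;> cases q.2 <;> rfl
      rw [this]; exact hq
    refine ⟨x, hx, ?_⟩
    unfold hit
    beta_reduce
    rw [hsx _ _ hbs, hsx _ _ (hget (tri c i).2.1 (by simp [tset]) n1.symm),
      hsx _ _ (hget (tri c i).2.2 (by simp [tset]) n2.symm)]
    simp
  -- codes
  let π : V × Bool → Fin 6 → Bool := fun x k => xor (a x.1 (f k)) (xor x.2 (δ k))
  let w : V × Bool → Fin 64 := fun x => ⟨(BitVec.ofFnLE (π x)).toNat, (BitVec.ofFnLE (π x)).isLt⟩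
  have hw : ∀ x (k : Fin 6), (w x).val.testBit k.val = π x k := by
    intro x k
    simp [w]
  let Ps : List ℕ := τ.toList.map fun x => cmask c (w x).val
  have hsr := srch_sound ((List.range 64).map (cmask c)) (2 ^ 20 - 1) 4 0 Ps
    (by simp [Ps, h.card hτ]) (by
      intro m hm
      simp only [Ps, List.mem_map] at hm
      obtain ⟨x, _, rfl⟩ := hm
      rw [List.mem_map]
      exact ⟨(w x).val, List.mem_range.mpr (w x).isLt, rfl⟩) (by
      rw [Nat.zero_or]
      apply Nat.eq_of_testBit_eq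
      intro j
      rw [Nat.testBit_and, Nat.testBit_two_pow_sub_one]
      by_cases hj : j < 20
      · simp only [hj, decide_true, Bool.and_true]
        obtain ⟨i, b, hib⟩ : ∃ (i : Fin 10) (b : Bool), j = 2 * i.val + b.toNat := by
          rcases Nat.mod_two_eq_zero_or_one j with h0 | h0
          · exact ⟨⟨j / 2, by omega⟩, false, by simp; omega⟩
          · exact ⟨⟨j / 2, by omega⟩, true, by simp; omega⟩
        obtain ⟨x, hx, hxi⟩ := hcover i b
        have hbit : (cmask c (w x).val).testBit j = true := by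
          rw [hib, cmask_spec]
          simp only [hw]
          exact hxi
        have hmem : cmask c (w x).val ∈ Ps := by
          simp only [Ps, List.mem_map, mem_toList]
          exact ⟨x, hx, rfl⟩
        rw [← orL_erase hmem, Nat.testBit_or, hbit, Bool.true_or]
      · simp [hj])
  rw [no_four] at hsr
  exact absurd hsr (by decide)

/-- an essential cycle of dimension at least three has two disjoint simplices -/
theorem IsWit.not_meet {a : V → V → Bool} (ha : ∀ u v, a u v = a v u) (k : ℕ) {z : Ch V}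
    (h : IsWit (k + 3) (CohS a) z) : ¬ Meet z := by
  induction k generalizing z with
  | zero => exact h.not_meet_three ha
  | succ k ih =>
    intro hm
    obtain ⟨τ, hτ⟩ := h.ne_zero
    obtain ⟨y, hy, hym, _⟩ := h.descent hm hτ
    exact ih hy hym

/-- **Disjointness.** -/
theorem P.disjoint {a : V → V → Bool} (ha : ∀ u v, a u v = a v u) {k : ℕ} (hk : 3 ≤ k)
    {U : Finset V} (h : P a k U) : ∃ S T : Finset V, Coh a S ∧ Coh a T ∧ S.card = k + 1 ∧
      T.card = k + 1 ∧ S ⊆ U ∧ T ⊆ U ∧ Disjoint S T := by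
  obtain ⟨z, hz⟩ := h
  obtain ⟨k, rfl⟩ : ∃ j, k = j + 3 := ⟨k - 3, by omega⟩
  have hz' : IsWit (k + 3) (CohS a) z := ⟨fun s hs => (hz.supp s hs).1, hz.cycle, hz.ess⟩
  have hnm := hz'.not_meet ha
  unfold Meet at hnm
  push Not at hnm
  obtain ⟨s, t, hs, ht, hst⟩ := hnm
  refine ⟨pr s, pr t, (hz'.supp s hs).coh, (hz'.supp t ht).coh, ?_, ?_, (hz.supp s hs).2,
    (hz.supp t ht).2, disjoint_left.mpr hst⟩
  · rw [card_pr (hz'.supp s hs), hz'.card hs]
  · rw [card_pr (hz'.supp t ht), hz'.card ht]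

/-- The lower bound for the number of points. -/
theorem P.card_ge {a : V → V → Bool} (ha : ∀ u v, a u v = a v u) : ∀ {k : ℕ} {U : Finset V},
    P a k U → (k + 1) * (k + 2) / 2 + (k - 1) / 2 ≤ U.card
  | 0, U, h => by
    have := h.card_lt
    simp only [zero_add, one_mul, Nat.zero_sub, Nat.zero_div, add_zero]
    omega
  | 1, U, h => by
    have h1 := h.card_lt
    obtain ⟨T, hTU, hT⟩ := exists_subset_card_eq (show 2 ≤ U.card by omega)
    have hc : Coh a T := by
      intro u hu v hv w hw huv hvw huw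
      exfalso
      have : ({u, v, w} : Finset V) ⊆ T := by
        intro x hx
        simp only [mem_insert, mem_singleton] at hx
        rcases hx with rfl | rfl | rfl <;> assumption
      have h2 := card_le_card this
      rw [card_eq_three.mpr ⟨u, v, w, huv, huw, hvw, rfl⟩] at h2
      omega
    have h2 := (h.step ha hc).card_lt
    rw [card_sdiff_of_subset hTU] at h2
    simp only [Nat.reduceAdd, Nat.reduceMul, Nat.reduceDiv, Nat.sub_self, Nat.zero_div]
    omega
  | 2, U, h => by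
    obtain ⟨Z, ⟨ρ, hρ⟩, hZ, _⟩ := PF.exchange h
    obtain ⟨h1, h2, h3⟩ := hZ ρ hρ
    have h4 := P.card_ge ha (P.step ha h h3)
    rw [card_sdiff_of_subset h1] at h4
    simp only [Nat.reduceAdd, Nat.reduceMul, Nat.reduceDiv, Nat.reduceSub] at h4 ⊢
    have := card_le_card h1
    omega
  | k + 3, U, h => by
    obtain ⟨S, T, hS, hT, hSc, hTc, hSU, hTU, hST⟩ := h.disjoint ha (by omega)
    have h1 : P a (k + 1) ((U \ S) \ T) := P.step ha (P.step ha h hS) hT
    have h2 := P.card_ge ha h1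
    have hTU' : T ⊆ U \ S := by
      intro x hx
      exact mem_sdiff.mpr ⟨hTU hx, fun hxS => disjoint_left.mp hST hxS hx⟩
    rw [card_sdiff_of_subset hTU', card_sdiff_of_subset hSU] at h2
    have h3 := card_le_card hTU'
    rw [card_sdiff_of_subset hSU] at h3
    have h4 := card_le_card hSU
    have e1 : (k + 3 + 1) * (k + 3 + 2) / 2 = (k + 1 + 1) * (k + 1 + 2) / 2 + (2 * k + 7) := by
      have : (k + 3 + 1) * (k + 3 + 2) = (k + 1 + 1) * (k + 1 + 2) + (2 * k + 7) * 2 := by ring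
      rw [this, Nat.add_mul_div_right _ _ (by norm_num)]
    have e2 : (k + 3 - 1) / 2 = (k + 1 - 1) / 2 + 1 := by omega
    rw [e1, e2]
    omega

end Pool.Agent.RP5
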