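import Pool.Agent.RP5.Cube
import Pool.Agent.RP5.Alt

/-!
# A Ky Fan type lemma for covers by half sets

Let `z` be a `k`-dimensional witness and `X 0, ..., X k` sets of signed vertices, none containing
an antipodal pair, such that every simplex of `z` is contained in some `X j` or in the antipode
of some `X j`.  Then some vertex lies in all the `X j`.
-/

set_option autoImplicit false
set_option linter.unusedSectionVars false

open Finset

namespace Pool.Agent.RP5

variable {V : Type*} [DecidableEq V] {k : ℕ}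

/-- `ρ` lies in `X j` or in its antipode -/
def CovBy (X : Fin (k + 1) → Finset (V × Bool)) (ρ : Finset (V × Bool)) (j : Fin (k + 1)) : Prop :=
  ρ ⊆ X j ∨ ρ ⊆ negS (X j)

theorem CovBy.negS {X : Fin (k + 1) → Finset (V × Bool)} {ρ : Finset (V × Bool)} {j : Fin (k + 1)}
    (h : CovBy X ρ j) : CovBy X (negS ρ) j := by
  rcases h with h | h
  · right
    intro p hp
    rw [mem_negS] at hp ⊢
    exact h hp
  · left
    intro p hp
    rw [mem_negS] at hp
    have := h hp
    rwa [mem_negS, neg_neg'] at this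

theorem CovBy.mono {X : Fin (k + 1) → Finset (V × Bool)} {ρ σ : Finset (V × Bool)}
    {j : Fin (k + 1)} (h : CovBy X ρ j) (hs : σ ⊆ ρ) : CovBy X σ j := by
  rcases h with h | h
  · exact Or.inl (hs.trans h)
  · exact Or.inr (hs.trans h)

open Classical in
/-- an index for `ρ` -/
noncomputable def idx (X : Fin (k + 1) → Finset (V × Bool)) (ρ : Finset (V × Bool)) : Fin (k + 1) :=
  if h : (univ.filter fun j => CovBy X ρ j).Nonempty then (univ.filter fun j => CovBy X ρ j).min' h
  else 0

theorem idx_spec {X : Fin (k + 1) → Finset (V × Bool)} {ρ : Finset (V × Bool)}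
    (h : ∃ j, CovBy X ρ j) : CovBy X ρ (idx X ρ) := by
  classical
  have hne : (univ.filter fun j => CovBy X ρ j).Nonempty := by
    obtain ⟨j, hj⟩ := h
    exact ⟨j, mem_filter.mpr ⟨mem_univ _, hj⟩⟩
  unfold idx
  rw [dif_pos hne]
  exact (mem_filter.mp (min'_mem _ hne)).2

theorem idx_negS (X : Fin (k + 1) → Finset (V × Bool)) (ρ : Finset (V × Bool)) :
    idx X (negS ρ) = idx X ρ := by
  classical
  have h : ∀ j, CovBy X (negS ρ) j ↔ CovBy X ρ j := by
    intro j
    constructor
    · intro h; have := h.negS; rwa [negS_negS] at this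
    · intro h; exact h.negS
  unfold idx
  simp only [h]

/-- the label of `ρ`; the signs alternate with the index -/
noncomputable def lab (X : Fin (k + 1) → Finset (V × Bool)) (ρ : Finset (V × Bool)) :
    Fin (k + 1) × Bool :=
  (idx X ρ, xor (decide (ρ ⊆ X (idx X ρ))) (decide (Odd (idx X ρ : ℕ))))

/-- half sets -/
def Half (X : Fin (k + 1) → Finset (V × Bool)) : Prop := ∀ j, AF (X j)

theorem Half.not_both {X : Fin (k + 1) → Finset (V × Bool)} (hX : Half X)
    {ρ : Finset (V × Bool)} (hne : ρ.Nonempty) {j : Fin (k + 1)} (h1 : ρ ⊆ X j)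
    (h2 : ρ ⊆ negS (X j)) : False := by
  obtain ⟨p, hp⟩ := hne
  exact hX j p (h1 hp) (mem_negS.mp (h2 hp))

theorem lab_negS {X : Fin (k + 1) → Finset (V × Bool)} (hX : Half X) {ρ : Finset (V × Bool)}
    (hne : ρ.Nonempty) (h : ∃ j, CovBy X ρ j) : lab X (negS ρ) = neg (lab X ρ) := by
  have hne' : (negS ρ).Nonempty := by rw [← card_pos, card_negS]; exact card_pos.mpr hne
  refine Prod.ext (idx_negS X ρ) ?_
  simp only [lab, neg_apply, idx_negS]
  rcases idx_spec h with h1 | h1
  · have h2 : ¬ negS ρ ⊆ X (idx X ρ) := by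
      intro h3
      refine hX.not_both hne' h3 ?_
      intro p hp
      rw [mem_negS] at hp ⊢
      exact h1 hp
    simp [h1, h2]
  · have h2 : negS ρ ⊆ X (idx X ρ) := by
      intro p hp
      rw [mem_negS] at hp
      have := h1 hp
      rwa [mem_negS, neg_neg'] at this
    have h3 : ¬ ρ ⊆ X (idx X ρ) := fun h3 => hX.not_both hne h3 h1
    simp [h2, h3]

/-- the label of a subset is not opposite to the label of the set -/
theorem lab_ne_neg {X : Fin (k + 1) → Finset (V × Bool)} (hX : Half X) {ρ σ : Finset (V × Bool)}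
    (hσ : σ.Nonempty) (hs : σ ⊆ ρ) (h : ∃ j, CovBy X ρ j) : lab X σ ≠ neg (lab X ρ) := by
  intro he
  have h1 : idx X σ = idx X ρ := congrArg Prod.fst he
  have h2 := congrArg Prod.snd he
  simp only [lab, neg_apply, h1] at h2
  rcases idx_spec h with h3 | h3
  · have h4 : σ ⊆ X (idx X ρ) := hs.trans h3
    simp [h3, h4] at h2
  · have h4 : ¬ σ ⊆ X (idx X ρ) := fun h5 => hX.not_both hσ h5 (hs.trans h3)
    have h5 : ¬ ρ ⊆ X (idx X ρ) := fun h5 => h4 (hs.trans h5)
    simp [h4, h5] at h2

/-- the image of the barycentric subdivision of a simplex -/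
noncomputable def Psi (X : Fin (k + 1) → Finset (V × Bool)) : ℕ → Finset (V × Bool) → Ch (Fin (k + 1))
  | 0, ρ => single {lab X ρ}
  | d + 1, ρ => cone (lab X ρ) (∑ x ∈ ρ, Psi X d (ρ.erase x))

/-- a vertex agrees with a label -/
def Agree (X : Fin (k + 1) → Finset (V × Bool)) (p : V × Bool) (q : Fin (k + 1) × Bool) : Prop :=
  if xor q.2 (decide (Odd (q.1 : ℕ))) then p ∈ X q.1 else p ∈ negS (X q.1)

theorem agree_lab {X : Fin (k + 1) → Finset (V × Bool)} {ρ : Finset (V × Bool)}
    (h : ∃ j, CovBy X ρ j) {p : V × Bool} (hp : p ∈ ρ) : Agree X p (lab X ρ) := by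
  have hx : ∀ b d : Bool, xor (xor b d) d = b := by
    intro b d; cases b <;> cases d <;> rfl
  change if xor (xor (decide (ρ ⊆ X (idx X ρ))) (decide (Odd (idx X ρ : ℕ))))
    (decide (Odd (idx X ρ : ℕ))) then p ∈ X (idx X ρ) else p ∈ negS (X (idx X ρ))
  rw [hx]
  rcases idx_spec h with h3 | h3
  · rw [decide_eq_true h3, if_pos rfl]
    exact h3 hp
  · by_cases h4 : ρ ⊆ X (idx X ρ)
    · rw [decide_eq_true h4, if_pos rfl]
      exact h4 hp
    · rw [decide_eq_false h4, if_neg Bool.false_ne_true]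
      exact h3 hp

theorem Psi_supp {X : Fin (k + 1) → Finset (V × Bool)} (hX : Half X) (d : ℕ)
    {ρ : Finset (V × Bool)} (hρ : ρ.card = d + 1) (hc : ∃ j, CovBy X ρ j)
    {s : Finset (Fin (k + 1) × Bool)} (h : Psi X d ρ s ≠ 0) :
    s.card = d + 1 ∧ AF s ∧ (∀ q ∈ s, ∃ σ ⊆ ρ, σ.Nonempty ∧ lab X σ = q) ∧
      ∃ p ∈ ρ, ∀ q ∈ s, Agree X p q := by
  induction d generalizing ρ s with
  | zero =>
    have hs : s = {lab X ρ} := by
      by_contra hne
      exact h (by simp only [Psi, single, if_neg hne])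
    have hne : ρ.Nonempty := card_pos.mp (by omega)
    subst hs
    refine ⟨card_singleton _, ?_, ?_, ?_⟩
    · intro q hq hn
      rw [mem_singleton] at hq hn
      exact neg_ne q (hn.trans hq.symm)
    · intro q hq
      exact ⟨ρ, Subset.refl _, hne, (mem_singleton.mp hq).symm⟩
    · obtain ⟨p, hp⟩ := hne
      refine ⟨p, hp, fun q hq => ?_⟩
      rw [mem_singleton] at hq
      rw [hq]
      exact agree_lab hc hp
  | succ d ih =>
    obtain ⟨h1, h2⟩ := cone_supp h
    obtain ⟨x, hx, h3⟩ := exists_of_sum_ne h2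
    have hce : (ρ.erase x).card = d + 1 := by rw [card_erase_of_mem hx, hρ]; rfl
    obtain ⟨h4, h5, h6, p, hp, h7⟩ := ih hce
      (by obtain ⟨j, hj⟩ := hc; exact ⟨j, hj.mono (erase_subset _ _)⟩) h3
    have hne : ρ.Nonempty := card_pos.mp (by omega)
    refine ⟨?_, ?_, ?_, p, mem_of_mem_erase hp, ?_⟩
    · rw [card_erase_of_mem h1] at h4
      have := card_pos.mpr ⟨_, h1⟩
      omega
    · -- antipode free
      have key : ∀ q ∈ s.erase (lab X ρ), q ≠ neg (lab X ρ) := by
        intro q hq he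
        obtain ⟨σ, hσ, hσn, hl⟩ := h6 q hq
        exact lab_ne_neg hX hσn (hσ.trans (erase_subset _ _)) hc (hl.trans he)
      intro q hq hn
      by_cases hq1 : q = lab X ρ
      · subst hq1
        have : neg (lab X ρ) ∈ s.erase (lab X ρ) := mem_erase.mpr ⟨neg_ne _, hn⟩
        exact key _ this rfl
      · have hq2 : q ∈ s.erase (lab X ρ) := mem_erase.mpr ⟨hq1, hq⟩
        by_cases hn1 : neg q = lab X ρ
        · exact key q hq2 (by rw [← hn1, neg_neg'])
        · exact h5 q hq2 (mem_erase.mpr ⟨hn1, hn⟩)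
    · intro q hq
      by_cases hq1 : q = lab X ρ
      · exact ⟨ρ, Subset.refl _, hne, hq1.symm⟩
      · obtain ⟨σ, hσ, hσn, hl⟩ := h6 q (mem_erase.mpr ⟨hq1, hq⟩)
        exact ⟨σ, hσ.trans (erase_subset _ _), hσn, hl⟩
    · intro q hq
      by_cases hq1 : q = lab X ρ
      · rw [hq1]; exact agree_lab hc (mem_of_mem_erase hp)
      · exact h7 q (mem_erase.mpr ⟨hq1, hq⟩)

theorem T_Psi {X : Fin (k + 1) → Finset (V × Bool)} (hX : Half X) (d : ℕ)
    {ρ : Finset (V × Bool)} (hρ : ρ.card = d + 1) (hc : ∃ j, CovBy X ρ j) :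
    T (Psi X d ρ) = Psi X d (negS ρ) := by
  induction d generalizing ρ with
  | zero =>
    have hne : ρ.Nonempty := card_pos.mp (by omega)
    simp only [Psi]
    rw [T_single, lab_negS hX hne hc]
    rfl
  | succ d ih =>
    have hne : ρ.Nonempty := card_pos.mp (by omega)
    simp only [Psi]
    rw [T_cone, lab_negS hX hne hc, T_sum]
    congr 1
    refine sum_bij' (fun x _ => neg x) (fun x _ => neg x) ?_ ?_ ?_ ?_ ?_
    · intro x hx; rw [neg_mem_negS]; exact hx
    · intro x hx; exact mem_negS.mp hx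
    · intro x _; exact neg_neg' x
    · intro x _; exact neg_neg' x
    · intro x hx
      rw [ih (by rw [card_erase_of_mem hx, hρ]; rfl)
        (by obtain ⟨j, hj⟩ := hc; exact ⟨j, hj.mono (erase_subset _ _)⟩), negS_erase, neg_neg']

theorem bd_sum_Psi {X : Fin (k + 1) → Finset (V × Bool)} (d : ℕ)
    {ρ : Finset (V × Bool)} (hρ : ρ.card = d + 2)
    (ih : ∀ σ : Finset (V × Bool), σ.card = d + 1 → 0 < d →
      bd (Psi X d σ) = ∑ x ∈ σ, Psi X (d - 1) (σ.erase x)) :
    bd (∑ x ∈ ρ, Psi X d (ρ.erase x)) = 0 := by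
  rw [bd_sum]
  cases d with
  | zero =>
    obtain ⟨p, q, hpq, rfl⟩ := card_eq_two.mp hρ
    rw [sum_pair hpq]
    simp only [Psi]
    rw [bd_single_single, bd_single_single]
    exact add_self_ch _
  | succ d =>
    funext s
    rw [Finset.sum_apply, Pi.zero_apply]
    have h1 : ∀ x ∈ ρ, bd (Psi X (d + 1) (ρ.erase x)) s =
        ∑ y ∈ ρ.erase x, Psi X d ((ρ.erase x).erase y) s := by
      intro x hx
      rw [ih _ (by rw [card_erase_of_mem hx, hρ]; rfl) (Nat.succ_pos _), Finset.sum_apply]
      rfl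
    rw [sum_congr rfl h1]
    -- symmetric double sum
    have h2 : ∑ x ∈ ρ, ∑ y ∈ ρ.erase x, Psi X d ((ρ.erase x).erase y) s =
        ∑ p ∈ (ρ ×ˢ ρ).filter (fun p => p.1 ≠ p.2), Psi X d ((ρ.erase p.1).erase p.2) s := by
      rw [sum_filter, sum_product]
      refine sum_congr rfl fun x hx => ?_
      rw [← sum_filter]
      refine sum_congr ?_ fun _ _ => rfl
      ext y
      simp only [mem_erase, mem_filter]
      constructor
      · rintro ⟨h3, h4⟩; exact ⟨h4, fun h => h3 h.symm⟩
      · rintro ⟨h3, h4⟩; exact ⟨fun h => h4 h.symm, h3⟩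
    rw [h2]
    refine sum_involution (fun p _ => (p.2, p.1)) ?_ ?_ ?_ ?_
    · intro p _
      have : (ρ.erase p.2).erase p.1 = (ρ.erase p.1).erase p.2 := erase_right_comm
      simp only [this]
      exact CharTwo.add_self_eq_zero _
    · rintro ⟨x, y⟩ hp _ h3
      have h4 : y = x := congrArg Prod.fst h3
      exact (mem_filter.mp hp).2 h4.symm
    · rintro ⟨x, y⟩ hp
      rw [mem_filter, mem_product] at hp ⊢
      exact ⟨⟨hp.1.2, hp.1.1⟩, fun h => hp.2 h.symm⟩
    · rintro ⟨x, y⟩ _
      rfl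

theorem bd_Psi {X : Fin (k + 1) → Finset (V × Bool)} (d : ℕ)
    {ρ : Finset (V × Bool)} (hρ : ρ.card = d + 2) :
    bd (Psi X (d + 1) ρ) = ∑ x ∈ ρ, Psi X d (ρ.erase x) := by
  induction d generalizing ρ with
  | zero =>
    simp only [Psi]
    have h0 := bd_sum_Psi (X := X) 0 hρ (fun _ _ h => absurd h (lt_irrefl _))
    simp only [Psi] at h0
    rw [bd_cone, h0, cone_zero, add_zero]
  | succ d ih =>
    rw [Psi, bd_cone, bd_sum_Psi (d + 1) hρ (fun σ hσ _ => ih hσ), cone_zero, add_zero]

variable [Fintype V]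

/-- push forward of chains -/
noncomputable def push (X : Fin (k + 1) → Finset (V × Bool)) (d : ℕ) (c : Ch V) : Ch (Fin (k + 1)) :=
  ∑ s, c s • Psi X d s

theorem push_apply (X : Fin (k + 1) → Finset (V × Bool)) (d : ℕ) (c : Ch V)
    (t : Finset (Fin (k + 1) × Bool)) : push X d c t = ∑ s, c s * Psi X d s t := by
  simp only [push, Finset.sum_apply, Pi.smul_apply, smul_eq_mul]

theorem push_add (X : Fin (k + 1) → Finset (V × Bool)) (d : ℕ) (c c' : Ch V) :
    push X d (c + c') = push X d c + push X d c' := by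
  funext t
  simp only [push_apply, Pi.add_apply, add_mul, sum_add_distrib]

theorem push_T {X : Fin (k + 1) → Finset (V × Bool)} (hX : Half X) {d : ℕ} {c : Ch V}
    (hc : Supp d c) (hcov : ∀ s, c s ≠ 0 → ∃ j, CovBy X s j) :
    push X d (T c) = T (push X d c) := by
  funext t
  rw [T_apply, push_apply, push_apply]
  refine Fintype.sum_equiv ⟨negS, negS, negS_negS, negS_negS⟩ _ _ fun s => ?_
  change T c s * Psi X d s t = c (negS s) * Psi X d (negS s) (negS t)
  rw [T_apply]
  by_cases h : c (negS s) = 0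
  · rw [h, zero_mul, zero_mul]
  · congr 1
    have h1 := T_Psi hX d (ρ := negS s) (hc _ h).2 (hcov _ h)
    rw [← T_apply (Psi X d (negS s)) t, h1, negS_negS]

theorem push_bd (X : Fin (k + 1) → Finset (V × Bool)) {d : ℕ} {c : Ch V} (hc : Supp (d + 1) c) :
    bd (push X (d + 1) c) = push X d (bd c) := by
  funext t
  rw [push_apply, sum_bd_mul, push, bd_sum, Finset.sum_apply]
  refine sum_congr rfl fun s _ => ?_
  by_cases h : c s = 0
  · rw [h, zero_mul, zero_smul, bd_zero, Pi.zero_apply]
  · have h1 : bd (c s • Psi X (d + 1) s) = c s • bd (Psi X (d + 1) s) := by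
      funext r
      simp only [bd_apply, Pi.smul_apply, smul_eq_mul, mul_sum]
      refine sum_congr rfl fun x _ => ?_
      split_ifs <;> simp
    rw [h1, bd_Psi d (hc s h).2, Pi.smul_apply, Finset.sum_apply, smul_eq_mul]

theorem push_supp {X : Fin (k + 1) → Finset (V × Bool)} (hX : Half X) {d : ℕ} {c : Ch V}
    (hc : Supp d c) (hcov : ∀ s, c s ≠ 0 → ∃ j, CovBy X s j) : Supp d (push X d c) := by
  intro t ht
  rw [push_apply] at ht
  obtain ⟨s, _, hs⟩ := exists_ne_zero_of_sum_ne_zero ht
  have h1 := left_ne_zero_of_mul hs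
  have h2 := Psi_supp hX d (hc s h1).2 (hcov s h1) (right_ne_zero_of_mul hs)
  exact ⟨h2.2.1, h2.1⟩

theorem Ess.push {X : Fin (k + 1) → Finset (V × Bool)} (hX : Half X) {d : ℕ} {z : Ch V}
    (h : Ess d z) (hcov : ∀ s, z s ≠ 0 → ∃ j, CovBy X s j) : Ess d (push X d z) := by
  induction d generalizing z with
  | zero =>
    -- choose a half inside the support
    obtain ⟨c0, h1, h2, h3⟩ := h
    have hs : Supp 0 z := by rw [h2]; exact h1.add h1.T
    have hT : T z = z := by rw [h2, T_add, T_T, add_comm]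
    obtain ⟨c, hc1, hc2, hc3⟩ := exists_half hs hT
    have hcc : ∀ s, c s ≠ 0 → ∃ j, CovBy X s j := fun s hs' => hcov s fun h' => hs' (hc3 s h')
    refine ⟨Pool.Agent.RP5.push X 0 c, push_supp hX hc1 hcc, ?_, ?_⟩
    · conv_lhs => rw [hc2]
      rw [push_add, push_T hX hc1 hcc]
    · -- total sums
      have hsum : ∑ t, Pool.Agent.RP5.push X 0 c t = ∑ s, c s := by
        simp only [push_apply]
        rw [sum_comm]
        refine sum_congr rfl fun s _ => ?_
        rw [← mul_sum]
        simp only [Psi, single]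
        rw [sum_ite_eq' univ, if_pos (mem_univ _), mul_one]
      rw [hsum, ← h3]
      have hd : Supp 0 (c + c0) := hc1.add h1
      have hs' : T (c + c0) = c + c0 := by
        have h4 : c + T c = c0 + T c0 := by rw [← hc2, h2]
        rw [T_add]
        calc T c + T c0 = (c + c) + T c + T c0 := by rw [add_self_ch, zero_add]
          _ = c + (c + T c) + T c0 := by abel
          _ = c + (c0 + T c0) + T c0 := by rw [h4]
          _ = c + c0 + (T c0 + T c0) := by abel
          _ = c + c0 := by rw [add_self_ch, add_zero]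
      obtain ⟨x, _, hx2, _⟩ := exists_half hd hs'
      have h5 : c = c0 + (x + T x) := by
        rw [← hx2]
        calc c = c + (c0 + c0) := by rw [add_self_ch, add_zero]
          _ = c0 + (c + c0) := by abel
      have h4 : ∑ s, T x s = ∑ s, x s := by
        refine Fintype.sum_equiv ⟨negS, negS, negS_negS, negS_negS⟩ _ _ fun s => rfl
      rw [h5]
      simp only [Pi.add_apply, sum_add_distrib, h4]
      rw [CharTwo.add_self_eq_zero, add_zero]
  | succ d ih =>
    obtain ⟨c, hc1, hc2, hc3⟩ := exists_half h.supp h.symm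
    have hcc : ∀ s, c s ≠ 0 → ∃ j, CovBy X s j := fun s hs' => hcov s fun h' => hs' (hc3 s h')
    refine ⟨Pool.Agent.RP5.push X (d + 1) c, push_supp hX hc1 hcc, ?_, ?_⟩
    · conv_lhs => rw [hc2]
      rw [push_add, push_T hX hc1 hcc]
    · rw [push_bd X hc1]
      refine ih (h.half hc1 hc2) ?_
      intro r hr
      obtain ⟨x, _, hx⟩ := exists_of_bd_ne hr
      obtain ⟨j, hj⟩ := hcc _ hx
      exact ⟨j, hj.mono (subset_insert _ _)⟩

/-- **Fan type lemma.** -/
theorem IsWit.fan {K : Finset (V × Bool) → Prop} {z : Ch V} (h : IsWit k K z)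
    {X : Fin (k + 1) → Finset (V × Bool)} (hX : Half X)
    (hcov : ∀ s, z s ≠ 0 → ∃ j, CovBy X s j) : ∃ s, z s ≠ 0 ∧ ∃ p ∈ s, ∀ j, p ∈ X j := by
  classical
  have h1 := (h.ess.push hX hcov).sum_altc
  have h2 : ∃ t, push X k z t * altc true t ≠ 0 := by
    by_contra hn
    push Not at hn
    rw [sum_eq_zero fun t _ => hn t] at h1
    exact absurd h1 (by decide)
  obtain ⟨t, ht⟩ := h2
  have h3 := left_ne_zero_of_mul ht
  have h4 : altp true t := by
    by_contra hn
    exact right_ne_zero_of_mul ht (by simp only [altc, if_neg hn])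
  rw [push_apply] at h3
  obtain ⟨s, _, hs⟩ := exists_ne_zero_of_sum_ne_zero h3
  have h5 := left_ne_zero_of_mul hs
  obtain ⟨h6, h7, _, p, hp, h8⟩ := Psi_supp hX k (h.card h5) (hcov s h5) (right_ne_zero_of_mul hs)
  refine ⟨s, h5, p, hp, fun j => ?_⟩
  -- all labels occur
  have hpr : (pr t).card = t.card := by
    refine card_image_of_injOn fun q hq q' hq' he => ?_
    by_contra hne
    have : q' = neg q := by
      refine Prod.ext he.symm ?_
      have : q'.2 ≠ q.2 := fun h => hne (Prod.ext he h.symm)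
      simp only [neg_apply]
      exact Bool.eq_not_of_ne this
    exact h7 q hq (this ▸ hq')
  have hun : pr t = univ := by
    rw [← card_eq_iff_eq_univ, hpr, h6, Fintype.card_fin]
  have hj : j ∈ pr t := by rw [hun]; exact mem_univ _
  simp only [pr, mem_image] at hj
  obtain ⟨q, hq, rfl⟩ := hj
  have h9 := h8 q hq
  have hbef : before t q.1 = (q.1 : ℕ) := by
    unfold before
    have e1 : (t.filter fun x => x.1 < q.1).card = ((pr t).filter fun i => i < q.1).card := by
      unfold pr
      rw [filter_image, card_image_of_injOn]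
      intro x hx y hy he
      have hx' := (mem_filter.mp (mem_coe.mp hx)).1
      have hy' := (mem_filter.mp (mem_coe.mp hy)).1
      by_contra hne
      have : y = neg x := by
        refine Prod.ext he.symm ?_
        have : y.2 ≠ x.2 := fun h => hne (Prod.ext he h.symm)
        simp only [neg_apply]
        exact Bool.eq_not_of_ne this
      exact h7 x hx' (this ▸ hy')
    have h3 : (univ.filter fun i : Fin (k + 1) => i < q.1) = Iio q.1 := by ext; simp
    rw [e1, hun, h3, Fin.card_Iio]
  have h10 := h4 q hq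
  rw [hbef] at h10
  unfold Agree at h9
  rw [h10, Bool.xor_assoc, Bool.xor_self, Bool.xor_false, if_pos rfl] at h9
  exact h9

end Pool.Agent.RP5
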