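import Pool.Agent.RP5.Cert

/-!
# The generalised covering lemma
-/

set_option autoImplicit false
set_option linter.unusedSectionVars false

open Finset

namespace Pool.Agent.RP5

section step
variable {V : Type*} [DecidableEq V] [Fintype V]

/-- the recursion, with the decomposition of the new witness -/
theorem IsWit.step_decomp {k : ℕ} {K : Finset (V × Bool) → Prop} {z : Ch V}
    (h : IsWit (k + 1) K z) (τ : Finset (V × Bool))
    (hτ : ∀ s, z s ≠ 0 → ∀ p ∈ τ, p ∈ s → ∀ q ∈ τ, neg q ∉ s) :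
    ∃ c x : Ch V, IsWit k (fun r => ∀ p ∈ τ, p ∉ r ∧ neg p ∉ r) (bd (c + x)) ∧
      (∀ s, c s ≠ 0 → z s ≠ 0 ∧ ∃ p ∈ τ, p ∈ s) ∧
      (∀ s, x s ≠ 0 → z s ≠ 0 ∧ ∀ p ∈ τ, p ∉ s ∧ neg p ∉ s) := by
  classical
  have hsym := h.ess.symm
  have hzneg : ∀ s, z (Pool.Agent.RP5.negS s) = z s := fun s => congrFun hsym s
  let z0 : Ch V := fun s => if (∀ p ∈ τ, p ∉ s ∧ neg p ∉ s) then z s else 0
  have hz0s : Supp (k + 1) z0 := by
    intro s hs
    refine h.ess.supp s fun h' => hs ?_
    simp only [z0, h', ite_self]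
  have hcond : ∀ s : Finset (V × Bool), (∀ p ∈ τ, p ∉ Pool.Agent.RP5.negS s ∧
      neg p ∉ Pool.Agent.RP5.negS s) ↔ (∀ p ∈ τ, p ∉ s ∧ neg p ∉ s) := by
    intro s
    refine forall₂_congr fun p _ => ?_
    rw [neg_mem_negS, mem_negS, and_comm]
  have hz0T : T z0 = z0 := by
    funext s
    simp only [T_apply, z0, hcond, hzneg]
  obtain ⟨x0, hx0, hx0', hx0''⟩ := exists_half hz0s hz0T
  let zt : Ch V := fun s => if (∃ p ∈ τ, p ∈ s) then z s else 0
  have hcz : z = zt + T zt + z0 := by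
    funext s
    simp only [Pi.add_apply, T_apply, z0, zt, hzneg]
    by_cases h0 : z s = 0
    · simp [h0]
    · by_cases h1 : ∃ p ∈ τ, p ∈ s
      · have h2 : ¬ ∃ p ∈ τ, p ∈ Pool.Agent.RP5.negS s := by
          rintro ⟨q, hq, hqs⟩
          obtain ⟨p, hp, hps⟩ := h1
          rw [mem_negS] at hqs
          exact hτ s h0 p hp hps q hq hqs
        have h3 : ¬ ∀ p ∈ τ, p ∉ s ∧ neg p ∉ s := by
          obtain ⟨p, hp, hps⟩ := h1
          intro h4
          exact (h4 p hp).1 hps
        rw [if_pos h1, if_neg h2, if_neg h3]; ring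
      · by_cases h2 : ∃ p ∈ τ, p ∈ Pool.Agent.RP5.negS s
        · have h3 : ¬ ∀ p ∈ τ, p ∉ s ∧ neg p ∉ s := by
            obtain ⟨p, hp, hps⟩ := h2
            intro h4
            rw [mem_negS] at hps
            exact (h4 p hp).2 hps
          rw [if_neg h1, if_pos h2, if_neg h3]; ring
        · have h3 : ∀ p ∈ τ, p ∉ s ∧ neg p ∉ s := by
            intro p hp
            refine ⟨fun hps => h1 ⟨p, hp, hps⟩, fun hps => h2 ⟨p, hp, ?_⟩⟩
            rw [mem_negS]; exact hps
          rw [if_neg h1, if_neg h2, if_pos h3]; ring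
  have hzt : Supp (k + 1) zt := by
    intro s hs
    refine h.ess.supp s fun h' => hs ?_
    simp only [zt, h', ite_self]
  have hc : Supp (k + 1) (zt + x0) := hzt.add hx0
  have hzc : z = (zt + x0) + T (zt + x0) := by
    rw [T_add]
    calc z = zt + T zt + z0 := hcz
      _ = zt + T zt + (x0 + T x0) := by rw [← hx0']
      _ = _ := by abel
  have hess : Ess k (bd (zt + x0)) := h.ess.half hc hzc
  have hx0z : ∀ s, x0 s ≠ 0 → z s ≠ 0 ∧ ∀ p ∈ τ, p ∉ s ∧ neg p ∉ s := by
    intro s hs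
    have h1 : z0 s ≠ 0 := fun h' => hs (hx0'' s h')
    simp only [z0] at h1
    split_ifs at h1 with h2
    · exact ⟨h1, h2⟩
    · exact absurd rfl h1
  have hztz : ∀ s, zt s ≠ 0 → z s ≠ 0 ∧ ∃ p ∈ τ, p ∈ s := by
    intro s hs
    simp only [zt] at hs
    split_ifs at hs with h2
    · exact ⟨hs, h2⟩
    · exact absurd rfl hs
  have hav : ∀ r, bd (zt + x0) r ≠ 0 → ∀ p ∈ τ, p ∉ r ∧ neg p ∉ r := by
    intro r hr p hp
    constructor
    · intro hpr
      apply hr
      have h1 : bd (zt + x0) r = bd z r := by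
        rw [bd_apply, bd_apply]
        refine sum_congr rfl fun x _ => ?_
        split_ifs with hx
        · rfl
        · have h2 : x0 (insert x r) = 0 := by
            by_contra h3
            exact ((hx0z _ h3).2 p hp).1 (mem_insert_of_mem hpr)
          have h3 : zt (insert x r) = z (insert x r) :=
            if_pos ⟨p, hp, mem_insert_of_mem hpr⟩
          rw [Pi.add_apply, h2, h3, add_zero]
      rw [h1, h.cycle]; rfl
    · intro hpr
      apply hr
      rw [bd_apply]
      refine sum_eq_zero fun x _ => ?_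
      split_ifs with hx
      · rfl
      · have h2 : x0 (insert x r) = 0 := by
          by_contra h3
          exact ((hx0z _ h3).2 p hp).2 (mem_insert_of_mem hpr)
        have h3 : zt (insert x r) = 0 := by
          by_contra h4
          obtain ⟨h6, q, hq, hqr⟩ := hztz _ h4
          exact hτ _ h6 q hq hqr p hp (mem_insert_of_mem hpr)
        rw [Pi.add_apply, h2, h3, add_zero]
  exact ⟨zt, x0, ⟨hav, bd_bd _, hess⟩, hztz, hx0z⟩

end step

variable {V : Type*} [LinearOrder V] [Fintype V]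

/-- the pairing of a witness with an odd function is one -/
theorem IsWit.pair {k : ℕ} {K : Finset (V × Bool) → Prop} {z : Ch V}
    (h : IsWit (k + 1) K z) (E φ : Ch V) (hφ : ∀ s, φ (negS s) = φ s)
    (hE : ∀ s, z s ≠ 0 → E s + E (negS s) =
      altc true s + altc false s + ∑ x ∈ s, φ (s.erase x)) : ∑ s, z s * E s = 1 := by
  obtain ⟨c, hc, hzc, hcz⟩ := exists_half h.ess.supp h.ess.symm
  have key : ∀ F : Ch V, ∑ s, (c + T c) s * F s = ∑ s, c s * (F s + F (negS s)) := by
    intro F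
    have h1 : ∑ s, T c s * F s = ∑ s, c s * F (negS s) := by
      refine Fintype.sum_equiv ⟨negS, negS, negS_negS, negS_negS⟩ _ _ fun s => ?_
      simp only [Equiv.coe_fn_mk, T_apply, negS_negS]
    simp only [Pi.add_apply, add_mul, mul_add, sum_add_distrib, h1]
  have h1 := h.ess.sum_altc
  rw [hzc, key] at h1
  rw [hzc, key]
  have h2 : ∑ s, c s * (E s + E (negS s)) = ∑ s, c s * (altc true s + altc true (negS s)) +
      ∑ s, c s * ∑ x ∈ s, φ (s.erase x) := by
    rw [← sum_add_distrib]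
    refine sum_congr rfl fun s _ => ?_
    by_cases h0 : c s = 0
    · simp [h0]
    · rw [hE s fun h' => h0 (hcz s h'), altc_negS true s, Bool.not_true]
      ring
  rw [h2, h1, ← sum_bd_mul]
  have h4 : T (bd c) = bd c := by
    have h5 : bd z = bd c + T (bd c) := by
      conv_lhs => rw [hzc]
      rw [bd_add, bd_T]
    have h6 : bd c + (bd c + T (bd c)) = bd c := by rw [← h5, h.cycle, add_zero]
    rw [← add_assoc, add_self_ch, zero_add] at h6
    exact h6
  obtain ⟨x, _, hx2, _⟩ := exists_half hc.bd h4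
  have h7 : ∑ r, bd c r * φ r = 0 := by
    rw [hx2]
    have h8 : ∑ r, T x r * φ r = ∑ r, x r * φ r := by
      refine Fintype.sum_equiv ⟨negS, negS, negS_negS, negS_negS⟩ _ _ fun s => ?_
      simp only [Equiv.coe_fn_mk, T_apply, hφ]
    simp only [Pi.add_apply, add_mul, sum_add_distrib, h8]
    exact CharTwo.add_self_eq_zero _
  rw [h7, add_zero]

/-- **Generalised covering lemma** for witnesses. -/
theorem IsWit.gc {k : ℕ} {K : Finset (V × Bool) → Prop} {z : Ch V}
    (h : IsWit (k + 2) K z) (τ : Finset (V × Bool))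
    (hτ : ∀ s, z s ≠ 0 → ∀ p ∈ τ, p ∈ s → ∀ q ∈ τ, neg q ∉ s)
    (E φ : Ch V) (hφ : ∀ s, φ (negS s) = φ s)
    (hcoc : ∀ s, z s ≠ 0 → (∀ p ∈ τ, p ∉ s ∧ neg p ∉ s) → ∑ x ∈ s, E (s.erase x) = 0)
    (hE : ∀ r, (∃ x, x ∉ r ∧ z (insert x r) ≠ 0) → (∀ p ∈ τ, p ∉ r ∧ neg p ∉ r) →
      E r + E (negS r) = altc true r + altc false r + ∑ x ∈ r, φ (r.erase x)) :
    ∃ r, E r ≠ 0 ∧ (∀ p ∈ τ, p ∉ r ∧ neg p ∉ r) ∧ ∃ x ∈ τ, z (insert x r) ≠ 0 := by
  classical
  obtain ⟨c, x, hy, hc, hx⟩ := h.step_decomp τ hτ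
  have hface : ∀ r, bd (c + x) r ≠ 0 → ∃ u, u ∉ r ∧ z (insert u r) ≠ 0 := by
    intro r hr
    obtain ⟨u, hu, hcu⟩ := exists_of_bd_ne hr
    refine ⟨u, hu, ?_⟩
    by_cases h1 : c (insert u r) = 0
    · have h2 : x (insert u r) ≠ 0 := by
        intro h3
        apply hcu
        rw [Pi.add_apply, h1, h3, add_zero]
      exact (hx _ h2).1
    · exact (hc _ h1).1
  have hpair := hy.pair E φ hφ fun r hr => hE r (hface r hr) (hy.supp r hr)
  -- the part of `x` does not contribute
  have h1 : ∀ r, bd (c + x) r * E r = (if (∀ p ∈ τ, p ∉ r ∧ neg p ∉ r) then bd c r * E r else 0) +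
      bd x r * E r := by
    intro r
    by_cases hr : ∀ p ∈ τ, p ∉ r ∧ neg p ∉ r
    · rw [if_pos hr, bd_add, Pi.add_apply, add_mul]
    · rw [if_neg hr, zero_add]
      have h2 : bd (c + x) r = 0 := by
        by_contra h3
        exact hr (hy.supp r h3)
      have h4 : bd x r = 0 := by
        by_contra h5
        obtain ⟨u, hu, hxu⟩ := exists_of_bd_ne h5
        exact hr fun p hp => ⟨fun h6 => ((hx _ hxu).2 p hp).1 (mem_insert_of_mem h6),
          fun h6 => ((hx _ hxu).2 p hp).2 (mem_insert_of_mem h6)⟩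
      rw [h2, h4]
  have h2 : ∑ r, bd x r * E r = 0 := by
    rw [sum_bd_mul]
    refine sum_eq_zero fun s _ => ?_
    by_cases h0 : x s = 0
    · rw [h0, zero_mul]
    · rw [hcoc s (hx s h0).1 (hx s h0).2, mul_zero]
  rw [sum_congr rfl fun r _ => h1 r, sum_add_distrib, h2, add_zero] at hpair
  obtain ⟨r, _, hr⟩ := exists_ne_zero_of_sum_ne_zero (by rw [hpair]; exact one_ne_zero :
    (∑ r, if (∀ p ∈ τ, p ∉ r ∧ neg p ∉ r) then bd c r * E r else 0) ≠ 0)
  split_ifs at hr with hav
  · have hE' : E r ≠ 0 := fun h' => hr (by rw [h', mul_zero])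
    have hc' : bd c r ≠ 0 := fun h' => hr (by rw [h', zero_mul])
    obtain ⟨u, hu, hcu⟩ := exists_of_bd_ne hc'
    obtain ⟨h3, p, hp, hpr⟩ := hc _ hcu
    refine ⟨r, hE', hav, u, ?_, h3⟩
    rcases mem_insert.mp hpr with rfl | h4
    · exact hp
    · exact absurd h4 (hav p hp).1
  · exact absurd rfl hr

/-- **Generalised covering lemma.** Let `S` be coherent with signs `ε`, let `E` be a function on
signed sets which is a cocycle on `U \ S` and whose symmetrisation is cohomologous to the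
alternation function. If `P a (k + 2) U`, then some set in the support of `E` is covered by `S`. -/
theorem P.gc_alt {a : V → V → Bool} (ha : ∀ u v, a u v = a v u) {k : ℕ} {U S : Finset V}
    {ε : V → Bool} (h : P a (k + 2) U) (hS : IsSgn a ε S) (E : Finset (V × Bool) → ZMod 2)
    (c : Finset V → ZMod 2)
    (hcoc : ∀ s, CohS a s → s.card = k + 3 → pr s ⊆ U \ S → ∑ x ∈ s, E (s.erase x) = 0)
    (hodd : ∀ r, CohS a r → r.card = k + 2 → pr r ⊆ U \ S →
      E r + E (negS r) = (if AltU a (pr r) then 1 else 0) + ∑ x ∈ pr r, c ((pr r).erase x)) :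
    ∃ r, E r ≠ 0 ∧ CohS a r ∧ r.card = k + 2 ∧ pr r ⊆ U \ S ∧
      ∃ t ∈ S, ∀ p ∈ r, a t p.1 = xor (ε t) p.2 := by
  classical
  obtain ⟨z, hz⟩ := h
  have hτ : ∀ s, z s ≠ 0 → ∀ p ∈ lift ε S, p ∈ s → ∀ q ∈ lift ε S, neg q ∉ s := by
    intro s hs p hp hps q hq hqs
    obtain ⟨h1, _⟩ := hz.supp s hs
    rw [mem_lift] at hp hq
    by_cases he : p.1 = q.1
    · have : p = q := Prod.ext he (by rw [hp.2, hq.2, he])
      subst this
      exact h1.af p hps hqs
    · have h2 := (h1 p hps _ hqs).2 he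
      rw [neg_fst, hS _ hp.1 _ hq.1 he, hp.2] at h2
      simp only [neg_apply, hq.2] at h2
      revert h2
      cases ε p.1 <;> cases ε q.1 <;> simp
  have hnS : ∀ (s : Finset (V × Bool)), (∀ p ∈ lift ε S, p ∉ s ∧ neg p ∉ s) →
      ∀ v ∈ pr s, v ∉ S := by
    intro s hs v hv hvS
    simp only [pr, mem_image] at hv
    obtain ⟨q, hq, rfl⟩ := hv
    have h3 := hs (q.1, ε q.1) (mem_lift.mpr ⟨hvS, rfl⟩)
    by_cases he : q.2 = ε q.1
    · exact h3.1 (by rw [← he]; exact hq)
    · refine h3.2 ?_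
      have : q = neg (q.1, ε q.1) := Prod.ext rfl (by simpa using Bool.eq_not_of_ne he)
      rw [← this]; exact hq
  have hprm : ∀ {s t : Finset (V × Bool)}, s ⊆ t → pr s ⊆ pr t := fun h => image_subset_image h
  obtain ⟨r, hr, hav, x, hx, hxz⟩ := hz.gc (lift ε S) hτ E (fun s => c (pr s))
    (fun s => by simp only [pr_negS]) (by
      intro s hs hs2
      obtain ⟨h1, h2⟩ := hz.supp s hs
      exact hcoc s h1 (hz.card hs) fun v hv => mem_sdiff.mpr ⟨h2 hv, hnS s hs2 v hv⟩) (by
      rintro r ⟨u, hu, huz⟩ hr2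
      obtain ⟨h1, h2⟩ := hz.supp _ huz
      have hcr : CohS a r := h1.subset (subset_insert _ _)
      have hcard : r.card = k + 2 := by
        have := hz.card huz
        rw [card_insert_of_notMem hu] at this
        omega
      have hne : r.Nonempty := card_pos.mp (by omega)
      rw [hodd r hcr hcard fun v hv =>
        mem_sdiff.mpr ⟨h2 (hprm (subset_insert _ _) hv), hnS r hr2 v hv⟩, altc_add ha hcr hne]
      congr 1
      -- sums over `r` and over `pr r`
      symm
      refine sum_bij (fun p _ => p.1) (fun p hp => mem_image_of_mem _ hp)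
        (fun p hp q hq he => (hcr p hp q hq).1 he) (fun v hv => ?_) (fun p hp => ?_)
      · simp only [pr, mem_image] at hv
        obtain ⟨p, hp, rfl⟩ := hv
        exact ⟨p, hp, rfl⟩
      · rw [pr_erase hcr hp])
  obtain ⟨h1, h2⟩ := hz.supp _ hxz
  have hxr : x ∉ r := (hav x hx).1
  have hcard : r.card = k + 2 := by
    have := hz.card hxz
    rw [card_insert_of_notMem hxr] at this
    omega
  refine ⟨r, hr, h1.subset (subset_insert _ _), hcard, fun v hv =>
    mem_sdiff.mpr ⟨h2 (hprm (subset_insert _ _) hv), hnS r hav v hv⟩, ?_⟩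
  rw [mem_lift] at hx
  refine ⟨x.1, hx.1, fun p hp => ?_⟩
  have hne : x.1 ≠ p.1 := by
    intro he
    exact hnS r hav p.1 (mem_image_of_mem _ hp) (he ▸ hx.1)
  rw [(h1 x (mem_insert_self _ _) p (mem_insert_of_mem hp)).2 hne, hx.2]

end Pool.Agent.RP5
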