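import Pool.Agent.RP5.Cert

/-!
# The generalised covering lemma
-/

set_option autoImplicit false
set_option linter.unusedSectionVars false

open Finset

namespace Pool.Agent.RP5

variable {V : Type*} [LinearOrder V] [Fintype V]

/-- **The recursion**, with explicit chains: a witness `z` in dimension `k + 1` and a set `τ` of
signed vertices such that no simplex of `z` meets both `τ` and its antipode give a cycle `t`,
all of whose simplices are covered by `τ`, which becomes essential after adding a boundary. -/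
theorem IsWit.step' {k : ℕ} {K : Finset (V × Bool) → Prop} {z : Ch V} (h : IsWit (k + 1) K z)
    (τ : Finset (V × Bool)) (hτ : ∀ s, z s ≠ 0 → ∀ p ∈ τ, p ∈ s → ∀ q ∈ τ, neg q ∉ s) :
    ∃ t x0 : Ch V,
      (∀ r, t r ≠ 0 → (∀ p ∈ τ, p ∉ r ∧ neg p ∉ r) ∧ ∃ x ∈ τ, z (insert x r) ≠ 0) ∧
      (∀ s, x0 s ≠ 0 → z s ≠ 0 ∧ ∀ p ∈ τ, p ∉ s ∧ neg p ∉ s) ∧
      bd t = 0 ∧ Ess k (t + bd x0) := by
  classical
  have hsym := h.ess.symm
  have hzneg : ∀ s, z (Pool.Agent.RP5.negS s) = z s := fun s => congrFun hsym s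
  let z0 : Ch V := fun s => if (∀ p ∈ τ, p ∉ s ∧ neg p ∉ s) then z s else 0
  have hz0s : Supp (k + 1) z0 := by
    intro s hs
    refine h.ess.supp s fun h' => hs ?_
    simp only [z0, h', ite_self]
  have hcond : ∀ s : Finset (V × Bool), (∀ p ∈ τ, p ∉ Pool.Agent.RP5.negS s ∧
      neg p ∉ Pool.Agent.RP5.negS s) ↔ (∀ p ∈ τ, p ∉ s ∧ neg p ∉ s) := by
    intro s
    refine forall₂_congr fun p _ => ?_
    rw [neg_mem_negS, mem_negS, and_comm]
  have hz0T : T z0 = z0 := by
    funext s
    simp only [T_apply, z0, hcond, hzneg]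
  obtain ⟨x0, hx0, hx0', hx0''⟩ := exists_half hz0s hz0T
  let zt : Ch V := fun s => if (∃ p ∈ τ, p ∈ s) then z s else 0
  have hcz : z = zt + T zt + z0 := by
    funext s
    simp only [Pi.add_apply, T_apply, z0, zt, hzneg]
    by_cases h0 : z s = 0
    · simp [h0]
    · by_cases h1 : ∃ p ∈ τ, p ∈ s
      · have h2 : ¬ ∃ p ∈ τ, p ∈ Pool.Agent.RP5.negS s := by
          rintro ⟨q, hq, hqs⟩
          obtain ⟨p, hp, hps⟩ := h1
          rw [mem_negS] at hqs
          exact hτ s h0 p hp hps q hq hqs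
        have h3 : ¬ ∀ p ∈ τ, p ∉ s ∧ neg p ∉ s := by
          obtain ⟨p, hp, hps⟩ := h1
          intro h4
          exact (h4 p hp).1 hps
        rw [if_pos h1, if_neg h2, if_neg h3]; ring
      · by_cases h2 : ∃ p ∈ τ, p ∈ Pool.Agent.RP5.negS s
        · have h3 : ¬ ∀ p ∈ τ, p ∉ s ∧ neg p ∉ s := by
            obtain ⟨p, hp, hps⟩ := h2
            intro h4
            rw [mem_negS] at hps
            exact (h4 p hp).2 hps
          rw [if_neg h1, if_pos h2, if_neg h3]; ring
        · have h3 : ∀ p ∈ τ, p ∉ s ∧ neg p ∉ s := by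
            intro p hp
            refine ⟨fun hps => h1 ⟨p, hp, hps⟩, fun hps => h2 ⟨p, hp, ?_⟩⟩
            rw [mem_negS]; exact hps
          rw [if_neg h1, if_neg h2, if_pos h3]; ring
  have hzt : Supp (k + 1) zt := by
    intro s hs
    refine h.ess.supp s fun h' => hs ?_
    simp only [zt, h', ite_self]
  have hc : Supp (k + 1) (zt + x0) := hzt.add hx0
  have hzc : z = (zt + x0) + T (zt + x0) := by
    rw [T_add]
    calc z = zt + T zt + z0 := hcz
      _ = zt + T zt + (x0 + T x0) := by rw [← hx0']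
      _ = _ := by abel
  have hess : Ess k (bd (zt + x0)) := h.ess.half hc hzc
  have hx0z : ∀ s, x0 s ≠ 0 → z s ≠ 0 ∧ ∀ p ∈ τ, p ∉ s ∧ neg p ∉ s := by
    intro s hs
    have h1 : z0 s ≠ 0 := fun h' => hs (hx0'' s h')
    simp only [z0] at h1
    split_ifs at h1 with h2
    · exact ⟨h1, h2⟩
    · exact absurd rfl h1
  have hav : ∀ r, bd zt r ≠ 0 → ∀ p ∈ τ, p ∉ r ∧ neg p ∉ r := by
    intro r hr p hp
    constructor
    · intro hpr
      apply hr
      have h1 : bd zt r = bd z r := by
        rw [bd_apply, bd_apply]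
        refine sum_congr rfl fun x _ => ?_
        split_ifs with hx
        · rfl
        · exact if_pos ⟨p, hp, mem_insert_of_mem hpr⟩
      rw [h1, h.cycle]; rfl
    · intro hpr
      apply hr
      rw [bd_apply]
      refine sum_eq_zero fun x _ => ?_
      split_ifs with hx
      · rfl
      · by_contra h4
        have h5 : ∃ q ∈ τ, q ∈ insert x r := by
          by_contra h6
          exact h4 (if_neg h6)
        have h6 : z (insert x r) ≠ 0 := by
          intro h7
          apply h4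
          simp only [zt, h7, ite_self]
        obtain ⟨q, hq, hqr⟩ := h5
        exact hτ _ h6 q hq hqr p hp (mem_insert_of_mem hpr)
  refine ⟨bd zt, x0, ?_, hx0z, bd_bd _, by rw [← bd_add]; exact hess⟩
  intro r hr
  refine ⟨hav r hr, ?_⟩
  obtain ⟨x, hx, hxc⟩ := exists_of_bd_ne hr
  have h5 : ∃ q ∈ τ, q ∈ insert x r := by
    by_contra h6
    exact hxc (if_neg h6)
  have h6 : z (insert x r) ≠ 0 := by
    intro h7
    apply hxc
    simp only [zt, h7, ite_self]
  obtain ⟨q, hq, hqr⟩ := h5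
  have hqx : q = x := by
    rcases mem_insert.mp hqr with h7 | h7
    · exact h7
    · exact absurd h7 (hav r hr q hq).1
  exact ⟨x, hqx ▸ hq, h6⟩

/-- sums against a cochain which is odd on essential symmetric cycles -/
theorem Ess.sum_mul {k : ℕ} {y : Ch V} (hy : Ess (k + 1) y) (hcyc : bd y = 0) (E c : Ch V)
    (hc : ∀ s, c (negS s) = c s)
    (hE : ∀ r, y r ≠ 0 →
      E r + E (negS r) = altc true r + altc false r + ∑ x ∈ r, c (r.erase x)) :
    ∑ r, y r * E r = 1 := by
  obtain ⟨w, hw, hyw, hwy⟩ := exists_half hy.supp hy.symm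
  have h1 := hy.sum_altc
  have key : ∀ w G : Ch V, ∑ s, (w + T w) s * G s = ∑ s, w s * (G s + G (negS s)) := by
    intro w G
    have h1 : ∑ s, T w s * G s = ∑ s, w s * G (negS s) := by
      refine Fintype.sum_equiv ⟨negS, negS, negS_negS, negS_negS⟩ _ _ fun s => ?_
      simp only [Equiv.coe_fn_mk, T_apply, negS_negS]
    simp only [Pi.add_apply, add_mul, mul_add, sum_add_distrib, h1]
  have h3 : ∑ s, w s * ∑ x ∈ s, c (s.erase x) = ∑ r, bd w r * c r := by
    rw [sum_bd_mul]
  have h4 : T (bd w) = bd w := by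
    have h5 : bd y = bd w + T (bd w) := by
      conv_lhs => rw [hyw]
      rw [bd_add, bd_T]
    have h6 : bd w + (bd w + T (bd w)) = bd w := by rw [← h5, hcyc, add_zero]
    rw [← add_assoc, add_self_ch, zero_add] at h6
    exact h6
  obtain ⟨x, _, hx2, _⟩ := exists_half hw.bd h4
  have h7 : ∑ r, bd w r * c r = 0 := by
    rw [hx2, key]
    simp only [hc, CharTwo.add_self_eq_zero, mul_zero, sum_const_zero]
  have h8 : ∑ s, y s * altc true s = ∑ s, w s * (altc true s + altc false s) := by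
    rw [hyw, key]
    refine sum_congr rfl fun s _ => ?_
    rw [altc_negS true s]
    rfl
  rw [hyw, key]
  have h9 : ∀ s, w s * (E s + E (negS s)) =
      w s * (altc true s + altc false s) + w s * ∑ x ∈ s, c (s.erase x) := by
    intro s
    by_cases h0 : w s = 0
    · simp [h0]
    · rw [hE s fun h' => h0 (hwy s h'), mul_add]
  simp only [h9, sum_add_distrib]
  rw [← h8, h1, h3, h7, add_zero]

/-- **The generalised covering lemma.** Let `S` be coherent with signs `ε`, and let `E` be a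
cochain on the signed coherent sets of `U \ S` which is a cocycle on the coherent `(k + 3)`-sets
of `U \ S` and which is odd on essential cycles. Then some signed set in the support of `E` is
covered by the lift of `S`. -/
theorem P.gc {a : V → V → Bool} (ha : ∀ u v, a u v = a v u) {k : ℕ} {U S : Finset V}
    {ε : V → Bool} (h : P a (k + 2) U) (hS : IsSgn a ε S) (E : Finset (V × Bool) → ZMod 2)
    (c : Finset V → ZMod 2)
    (hE1 : ∀ s, CohS a s → s.card = k + 3 → pr s ⊆ U \ S → ∑ x ∈ s, E (s.erase x) = 0)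
    (hE2 : ∀ r, CohS a r → r.card = k + 2 → pr r ⊆ U \ S →
      E r + E (negS r) = (if AltU a (pr r) then 1 else 0) + ∑ v ∈ pr r, c ((pr r).erase v)) :
    ∃ r, CohS a r ∧ r.card = k + 2 ∧ pr r ⊆ U \ S ∧ E r ≠ 0 ∧
      ∃ x ∈ lift ε S, CohS a (insert x r) := by
  obtain ⟨z, hz⟩ := h
  obtain ⟨t, x0, ht, hx0, hbt, hess⟩ := hz.step' (lift ε S) (by
    intro s hs p hp hps q hq hqs
    obtain ⟨h1, _⟩ := hz.supp s hs
    rw [mem_lift] at hp hq
    by_cases he : p.1 = q.1
    · have : p = q := Prod.ext he (by rw [hp.2, hq.2, he])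
      subst this
      exact h1.af p hps hqs
    · have h2 := (h1 p hps _ hqs).2 he
      rw [neg_fst, hS _ hp.1 _ hq.1 he, hp.2] at h2
      simp only [neg_apply, hq.2] at h2
      revert h2
      cases ε p.1 <;> cases ε q.1 <;> simp)
  have hpr : ∀ (x : V × Bool) (r : Finset (V × Bool)), pr (insert x r) = insert x.1 (pr r) := by
    intro x r
    simp [pr, image_insert]
  have hnS : ∀ (s : Finset (V × Bool)), (∀ p ∈ lift ε S, p ∉ s ∧ neg p ∉ s) →
      ∀ v ∈ pr s, v ∉ S := by
    intro s hs v hv hvS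
    simp only [pr, mem_image] at hv
    obtain ⟨q, hq, rfl⟩ := hv
    have h3 := hs (q.1, ε q.1) (mem_lift.mpr ⟨hvS, rfl⟩)
    by_cases he : q.2 = ε q.1
    · exact h3.1 (by rw [← he]; exact hq)
    · refine h3.2 ?_
      have : q = neg (q.1, ε q.1) := Prod.ext rfl (by simpa using Bool.eq_not_of_ne he)
      rw [← this]; exact hq
  -- the chain `x0` lives on coherent sets of `U \ S`
  have hx0' : ∀ s, x0 s ≠ 0 → CohS a s ∧ s.card = k + 3 ∧ pr s ⊆ U \ S := by
    intro s hs
    obtain ⟨h1, h2⟩ := hx0 s hs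
    obtain ⟨h3, h4⟩ := hz.supp s h1
    refine ⟨h3, hz.card h1, fun v hv => mem_sdiff.mpr ⟨h4 hv, hnS s h2 v hv⟩⟩
  have ht' : ∀ r, t r ≠ 0 → CohS a r ∧ pr r ⊆ U \ S ∧ ∃ x ∈ lift ε S, CohS a (insert x r) := by
    intro r hr
    obtain ⟨h1, x, hx, hxz⟩ := ht r hr
    obtain ⟨h3, h4⟩ := hz.supp _ hxz
    refine ⟨h3.subset (subset_insert _ _), fun v hv => mem_sdiff.mpr ⟨h4 ?_, hnS r h1 v hv⟩,
      x, hx, h3⟩
    rw [hpr]; exact mem_insert_of_mem hv
  have hcyc : bd (t + bd x0) = 0 := by rw [bd_add, hbt, bd_bd, add_zero]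
  have hy : ∀ r, (t + bd x0) r ≠ 0 → CohS a r ∧ r.card = k + 2 ∧ pr r ⊆ U \ S := by
    intro r hr
    have hcard := (hess.supp r hr).2
    by_cases h1 : t r = 0
    · rw [Pi.add_apply, h1, zero_add] at hr
      obtain ⟨x, hx, hxc⟩ := exists_of_bd_ne hr
      obtain ⟨h3, _, h5⟩ := hx0' _ hxc
      exact ⟨h3.subset (subset_insert _ _), hcard, fun v hv =>
        h5 (by rw [hpr]; exact mem_insert_of_mem hv)⟩
    · obtain ⟨h3, h4, _⟩ := ht' r h1
      exact ⟨h3, hcard, h4⟩
  have hsum : ∑ r, (t + bd x0) r * E r = 1 := by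
    refine hess.sum_mul hcyc E (fun s => c (pr s)) (fun s => by rw [pr_negS]) ?_
    intro r hr
    obtain ⟨h1, h2, h3⟩ := hy r hr
    rw [hE2 r h1 h2 h3, altc_add ha h1 (card_pos.mp (by omega))]
    congr 1
    symm
    refine sum_bij' (fun (p : V × Bool) _ => p.1)
      (fun u _ => if (u, true) ∈ r then (u, true) else (u, false)) ?_ ?_ ?_ ?_ ?_
    · intro p hp
      exact mem_pr hp
    · intro u hu
      simp only [pr, mem_image] at hu
      obtain ⟨p, hp, rfl⟩ := hu
      rcases hb : p.2 with _ | _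
      · have hp' : (p.1, false) ∈ r := by rw [← hb]; exact hp
        split_ifs with h3
        · exact h3
        · exact hp'
      · have hp' : (p.1, true) ∈ r := by rw [← hb]; exact hp
        rw [if_pos hp']; exact hp'
    · intro p hp
      split_ifs with h3
      · exact (h1 _ h3 p hp).1 rfl
      · rcases hb : p.2 with _ | _
        · exact Prod.ext rfl hb.symm
        · exact absurd (by rw [← hb]; exact hp) h3
    · intro u hu
      split_ifs <;> rfl
    · intro p hp
      rw [pr_erase h1 hp]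
  have hsplit : ∑ r, bd x0 r * E r = 0 := by
    rw [sum_bd_mul]
    refine sum_eq_zero fun s _ => ?_
    by_cases h0 : x0 s = 0
    · simp [h0]
    · obtain ⟨h3, h4, h5⟩ := hx0' s h0
      rw [hE1 s h3 h4 h5, mul_zero]
  have hfin : ∑ r, t r * E r = 1 := by
    simp only [Pi.add_apply, add_mul, sum_add_distrib] at hsum
    rw [hsplit, add_zero] at hsum
    exact hsum
  obtain ⟨r, hr⟩ : ∃ r, t r * E r ≠ 0 := by
    by_contra hn
    push Not at hn
    rw [sum_eq_zero fun r _ => hn r] at hfin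
    exact absurd hfin (by decide)
  have hr1 : t r ≠ 0 := left_ne_zero_of_mul hr
  obtain ⟨h3, h4, h5⟩ := ht' r hr1
  refine ⟨r, h3, ?_, h4, right_ne_zero_of_mul hr, h5⟩
  obtain ⟨_, x, hx, hxz⟩ := ht r hr1
  have h6 : (insert x r).card = k + 3 := hz.card hxz
  have hxr : x ∉ r := by
    intro hxr
    exact ((ht r hr1).1 x hx).1 hxr
  rw [card_insert_of_notMem hxr] at h6
  omega

end Pool.Agent.RP5
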