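import Pool.Agent.RP5.Cube
import Pool.Agent.RP5.Alt

/-!
# The cycle of a labelled grid
-/

set_option autoImplicit false
set_option linter.unusedSectionVars false

open Finset

namespace Pool.Agent.RP5

section sums

theorem sum_piFinset_split {k : ℕ} {M : Type*} [AddCommMonoid M] (A : Fin k → Finset ℤ)
    (i : Fin k) (g : (Fin k → ℤ) → M) :
    ∑ m ∈ Fintype.piFinset A, g m =
      ∑ b ∈ Fintype.piFinset (Function.update A i {0}), ∑ o ∈ A i, g (Function.update b i o) := by
  rw [← sum_product']
  refine sum_bij' (fun m _ => (Function.update m i 0, m i))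
    (fun p _ => Function.update p.1 i p.2) ?_ ?_ ?_ ?_ ?_
  · intro m hm
    rw [Fintype.mem_piFinset] at hm
    rw [mem_product, Fintype.mem_piFinset]
    refine ⟨fun j => ?_, hm i⟩
    by_cases hj : j = i
    · subst hj; simp
    · simp only [Function.update_of_ne hj]; exact hm j
  · rintro ⟨b, o⟩ hbo
    rw [mem_product, Fintype.mem_piFinset] at hbo
    rw [Fintype.mem_piFinset]
    intro j
    by_cases hj : j = i
    · subst hj; simp only [Function.update_self]; exact hbo.2
    · simp only [Function.update_of_ne hj]
      have := hbo.1 j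
      rwa [Function.update_of_ne hj] at this
  · intro m _
    simp
  · rintro ⟨b, o⟩ hbo
    rw [mem_product, Fintype.mem_piFinset] at hbo
    have h0 : b i = 0 := by
      have := hbo.1 i
      simpa using this
    simp only [Function.update_idem, Function.update_self]
    rw [← h0, Function.update_eq_self]
  · intro m _
    simp

/-- the odd numbers between `-2N` and `2N` -/
def oddset (N : ℕ) : Finset ℤ := (range (2 * N)).image fun j : ℕ => 2 * (j : ℤ) + 1 - 2 * N

theorem mem_oddset {N : ℕ} {x : ℤ} : x ∈ oddset N ↔ Odd x ∧ |x| < 2 * N := by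
  simp only [oddset, mem_image, mem_range]
  constructor
  · rintro ⟨j, hj, rfl⟩
    refine ⟨⟨(j : ℤ) - N, by ring⟩, ?_⟩
    rw [abs_lt]
    omega
  · rintro ⟨⟨y, rfl⟩, h⟩
    rw [abs_lt] at h
    refine ⟨(y + N).toNat, ?_, ?_⟩
    · omega
    · have : ((y + N).toNat : ℤ) = y + N := Int.toNat_of_nonneg (by omega)
      rw [this]; ring

theorem sum_oddset {N : ℕ} (h : ℤ → ZMod 2) :
    ∑ o ∈ oddset N, (h (o + 1) + h (o - 1)) = h (2 * N) + h (-(2 * N)) := by
  rw [oddset, sum_image (by intro a _ b _ hab; simp only at hab; omega)]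
  have key : ∀ n : ℕ, ∑ j ∈ range n, (h (2 * (j : ℤ) + 1 - 2 * N + 1) + h (2 * (j : ℤ) + 1 - 2 * N - 1))
      = h (2 * (n : ℤ) - 2 * N) + h (-(2 * N)) := by
    intro n
    induction n with
    | zero => simp [CharTwo.add_self_eq_zero]
    | succ n ih =>
      rw [sum_range_succ, ih]
      have e1 : 2 * (n : ℤ) + 1 - 2 * N + 1 = 2 * ((n + 1 : ℕ) : ℤ) - 2 * N := by push_cast; ring
      have e2 : 2 * (n : ℤ) + 1 - 2 * N - 1 = 2 * (n : ℤ) - 2 * N := by ring
      rw [e1, e2]
      generalize h (2 * (n : ℤ) - 2 * N) = A
      generalize h (-(2 * N)) = B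
      generalize h (2 * ((n + 1 : ℕ) : ℤ) - 2 * N) = C
      have : A + B + (C + A) = C + B + (A + A) := by ring
      rw [this, CharTwo.add_self_eq_zero, add_zero]
  have := key (2 * N)
  rw [this]
  congr 2
  push_cast; ring

end sums

section faces
variable {k : ℕ}

/-- values of the coordinates of the cells in the face `J` of the cube `[-2N, 2N]^k` -/
def AJ (N : ℕ) (J : Finset (Fin k × Bool)) (i : Fin k) : Finset ℤ :=
  if (i, true) ∈ J then {2 * (N : ℤ)} else if (i, false) ∈ J then {-(2 * (N : ℤ))} else oddset N

/-- the cells of the face `J` -/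
def cells (N : ℕ) (J : Finset (Fin k × Bool)) : Finset (Fin k → ℤ) := Fintype.piFinset (AJ N J)

theorem AJ_insert_true {N : ℕ} {J : Finset (Fin k × Bool)} {i : Fin k} :
    AJ N (insert (i, true) J) = Function.update (AJ N J) i {2 * (N : ℤ)} := by
  funext j
  by_cases hj : j = i
  · subst hj; simp [AJ]
  · simp [AJ, Function.update_of_ne hj, hj]

theorem AJ_insert_false {N : ℕ} {J : Finset (Fin k × Bool)} {i : Fin k} (hi : (i, true) ∉ J) :
    AJ N (insert (i, false) J) = Function.update (AJ N J) i {-(2 * (N : ℤ))} := by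
  funext j
  by_cases hj : j = i
  · subst hj; simp [AJ, hi]
  · simp [AJ, Function.update_of_ne hj, hj]

theorem odd_mem_AJ {N : ℕ} {J : Finset (Fin k × Bool)} {i : Fin k} {x : ℤ} (h : x ∈ AJ N J i) :
    Odd x ↔ i ∉ pr J := by
  have hne : ¬ Odd (2 * (N : ℤ)) := by simp
  have hne' : ¬ Odd (-(2 * (N : ℤ))) := by simp
  unfold AJ at h
  split_ifs at h with h1 h2
  · rw [mem_singleton] at h
    subst h
    simp only [hne, false_iff, not_not]
    exact mem_pr h1
  · rw [mem_singleton] at h
    subst h
    simp only [hne', false_iff, not_not]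
    exact mem_pr h2
  · refine iff_of_true (mem_oddset.mp h).1 ?_
    intro hi
    simp only [pr, mem_image] at hi
    obtain ⟨p, hp, rfl⟩ := hi
    rcases hb : p.2 with _ | _
    · exact h2 (by rw [← hb]; exact hp)
    · exact h1 (by rw [← hb]; exact hp)

theorem odds_cells {N : ℕ} {J : Finset (Fin k × Bool)} {m : Fin k → ℤ} (hm : m ∈ cells N J) :
    odds m = univ \ pr J := by
  ext i
  rw [mem_odds, mem_sdiff]
  have := Fintype.mem_piFinset.mp hm i
  rw [odd_mem_AJ this]
  simp

theorem abs_cells {N : ℕ} {J : Finset (Fin k × Bool)} {m : Fin k → ℤ} (hm : m ∈ cells N J)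
    (i : Fin k) : |m i| ≤ 2 * N := by
  have := Fintype.mem_piFinset.mp hm i
  unfold AJ at this
  split_ifs at this with h1 h2
  · rw [mem_singleton] at this; rw [this]; simp
  · rw [mem_singleton] at this; rw [this]; simp
  · exact (mem_oddset.mp this).2.le

theorem card_pr_AF {J : Finset (Fin k × Bool)} (hJ : AF J) : (pr J).card = J.card := by
  refine card_image_of_injOn fun p hp q hq he => ?_
  by_contra hne
  have : q = neg p := by
    refine Prod.ext he.symm ?_
    have : q.2 ≠ p.2 := fun h => hne (Prod.ext he h.symm)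
    simp only [neg_apply]
    exact Bool.eq_not_of_ne this
  exact hJ p hp (this ▸ hq)

theorem card_odds_cells {N : ℕ} {J : Finset (Fin k × Bool)} {m : Fin k → ℤ} (hJ : AF J)
    (hm : m ∈ cells N J) : (odds m).card = k - J.card := by
  rw [odds_cells hm, card_sdiff_of_subset (subset_univ _), card_pr_AF hJ, card_univ,
    Fintype.card_fin]

theorem bdry_cells {N : ℕ} (hN : 0 < N) {J : Finset (Fin k × Bool)} {m : Fin k → ℤ}
    (hne : J.Nonempty) (hm : m ∈ cells N J) : ∃ i, |m i| = 2 * N := by
  obtain ⟨p, hp⟩ := hne
  refine ⟨p.1, ?_⟩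
  have := Fintype.mem_piFinset.mp hm p.1
  unfold AJ at this
  split_ifs at this with h1 h2
  · rw [mem_singleton] at this; rw [this]; simp
  · rw [mem_singleton] at this; rw [this]; simp
  · exfalso
    rcases hb : p.2 with _ | _
    · exact h2 (by rw [← hb]; exact hp)
    · exact h1 (by rw [← hb]; exact hp)

theorem abs_face {N : ℕ} {m m' : Fin k → ℤ} (h : IsFace m' m) (hm : ∀ i, |m i| ≤ 2 * N) (i : Fin k) :
    |m' i| ≤ 2 * N := by
  rcases h i with h | ⟨h1, h2⟩
  · rw [h]; exact hm i
  · have h3 := hm i
    obtain ⟨y, hy⟩ := h1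
    rw [abs_le] at h3 ⊢
    omega

theorem bdry_face {N : ℕ} {m m' : Fin k → ℤ} (h : IsFace m' m) (hm : ∃ i, |m i| = 2 * N) :
    ∃ i, |m' i| = 2 * N := by
  obtain ⟨i, hi⟩ := hm
  refine ⟨i, ?_⟩
  rcases h i with h | ⟨h1, h2⟩
  · rw [h]; exact hi
  · exfalso
    obtain ⟨y, hy⟩ := h1
    rcases abs_eq (by positivity : (0 : ℤ) ≤ 2 * N) |>.mp hi with h3 | h3 <;> omega

theorem neg_mem_cells {N : ℕ} {J : Finset (Fin k × Bool)} (hJ : AF J) {m : Fin k → ℤ} :
    m ∈ cells N J → -m ∈ cells N (negS J) := by
  intro hm
  rw [cells, Fintype.mem_piFinset] at hm ⊢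
  intro i
  have := hm i
  unfold AJ at this ⊢
  simp only [mem_negS, neg_apply, Bool.not_true, Bool.not_false, Pi.neg_apply]
  by_cases h1 : (i, true) ∈ J
  · have h2 : (i, false) ∉ J := fun h => hJ _ h (by simpa using h1)
    rw [if_pos h1, mem_singleton] at this
    rw [if_neg h2, if_pos h1, this]
    simp
  · by_cases h2 : (i, false) ∈ J
    · rw [if_neg h1, if_pos h2, mem_singleton] at this
      rw [if_pos h2, this]
      simp
    · rw [if_neg h1, if_neg h2] at this
      rw [if_neg h2, if_neg h1, mem_oddset] at *
      rw [abs_neg]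
      exact ⟨by simpa using this.1, this.2⟩

variable {V : Type*} [DecidableEq V]

/-- the chain of the face `J` -/
def FJ (lam : (Fin k → ℤ) → V × Bool) (N : ℕ) (J : Finset (Fin k × Bool)) : Ch V :=
  ∑ m ∈ cells N J, Phi lam (k - J.card) m

theorem T_FJ {lam : (Fin k → ℤ) → V × Bool} {N : ℕ} (hN : 0 < N)
    (hanti : ∀ m : Fin k → ℤ, (∀ i, |m i| ≤ 2 * N) → (∃ i, |m i| = 2 * N) → lam (-m) = neg (lam m))
    {J : Finset (Fin k × Bool)} (hJ : AF J) (hne : J.Nonempty) :
    T (FJ lam N J) = FJ lam N (negS J) := by
  rw [FJ, T_sum, FJ, card_negS]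
  refine sum_bij' (fun m _ => -m) (fun m _ => -m) ?_ ?_ ?_ ?_ ?_
  · intro m hm
    exact neg_mem_cells hJ hm
  · intro m hm
    have := neg_mem_cells hJ.negS hm
    rwa [negS_negS] at this
  · intro m _
    exact neg_neg m
  · intro m _
    exact neg_neg m
  · intro m hm
    refine T_Phi lam _ m fun m' hm' => hanti m' (abs_face hm' (abs_cells hm)) ?_
    exact bdry_face hm' (bdry_cells hN hne hm)

theorem FJ_supp {lam : (Fin k → ℤ) → V × Bool} {N : ℕ} {J : Finset (Fin k × Bool)}
    {s : Finset (V × Bool)} (h : FJ lam N J s ≠ 0) :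
    ∃ m ∈ cells N J, s.card = k - J.card + 1 ∧ ∀ p ∈ s, ∃ m', IsFace m' m ∧ lam m' = p := by
  obtain ⟨m, hm, h1⟩ := exists_of_sum_ne h
  exact ⟨m, hm, Phi_supp lam _ m h1⟩

variable [Fintype V]

theorem bd_FJ {lam : (Fin k → ℤ) → V × Bool} {N : ℕ} {J : Finset (Fin k × Bool)} (hJ : AF J)
    (hlt : J.card < k) (s : Finset (V × Bool)) :
    bd (FJ lam N J) s = ∑ i ∈ univ \ pr J, (FJ lam N (insert (i, true) J) s +
      FJ lam N (insert (i, false) J) s) := by
  obtain ⟨d, hd⟩ : ∃ d, k - J.card = d + 1 := ⟨k - J.card - 1, by omega⟩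
  have h1 : bd (FJ lam N J) s = ∑ m ∈ cells N J, ∑ i ∈ univ \ pr J,
      (Phi lam d (up m i) s + Phi lam d (dn m i) s) := by
    rw [FJ, bd_sum, Finset.sum_apply]
    refine sum_congr rfl fun m hm => ?_
    rw [hd, bd_Phi lam d m (by rw [card_odds_cells hJ hm, hd]), BPhi, odds_cells hm,
      Finset.sum_apply]
    rfl
  rw [h1, sum_comm]
  refine sum_congr rfl fun i hi => ?_
  have hi' : i ∉ pr J := (mem_sdiff.mp hi).2
  have hit : (i, true) ∉ J := fun h => hi' (mem_pr h)
  have hif : (i, false) ∉ J := fun h => hi' (mem_pr h)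
  have hA : AJ N J i = oddset N := by simp [AJ, hit, hif]
  have hdt : k - (insert (i, true) J).card = d := by
    rw [card_insert_of_notMem hit]; omega
  have hdf : k - (insert (i, false) J).card = d := by
    rw [card_insert_of_notMem hif]; omega
  rw [cells, sum_piFinset_split (AJ N J) i, hA, FJ, FJ, Finset.sum_apply, Finset.sum_apply, hdt, hdf,
    cells, cells, AJ_insert_true, AJ_insert_false hit,
    sum_piFinset_split (Function.update (AJ N J) i {2 * (N : ℤ)}) i,
    sum_piFinset_split (Function.update (AJ N J) i {-(2 * (N : ℤ))}) i]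
  simp only [Function.update_idem, Function.update_self, sum_singleton]
  rw [← sum_add_distrib]
  refine sum_congr rfl fun b _ => ?_
  have := sum_oddset (N := N) fun x => Phi lam d (Function.update b i x) s
  rw [← this]
  refine sum_congr rfl fun o _ => ?_
  simp only [up, dn, Function.update_self, Function.update_idem]

open Classical in
/-- the alternating chain of faces of the cube with `r` fixed coordinates -/
noncomputable def cr (k r : ℕ) (b : Bool) : Ch (Fin k) :=
  fun J => if AF J ∧ J.card = r ∧ altp b J then 1 else 0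

theorem cr_negS (r : ℕ) (b : Bool) (J : Finset (Fin k × Bool)) : cr k r b (negS J) = cr k r (!b) J := by
  have h : AF (negS J) ↔ AF J := by
    constructor
    · intro h; have := h.negS; rwa [negS_negS] at this
    · intro h; exact h.negS
  have h2 : (AF (negS J) ∧ (negS J).card = r ∧ altp b (negS J)) ↔
      (AF J ∧ J.card = r ∧ altp (!b) J) := by
    rw [h, card_negS, altp_negS]
  unfold cr
  by_cases h3 : AF J ∧ J.card = r ∧ altp (!b) J
  · rw [if_pos (h2.mpr h3), if_pos h3]
  · rw [if_neg (fun h4 => h3 (h2.mp h4)), if_neg h3]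

/-- the chain -/
noncomputable def DD (lam : (Fin k → ℤ) → V × Bool) (N r : ℕ) (b : Bool) : Ch V :=
  fun s => ∑ J, cr k r b J * FJ lam N J s

theorem DD_supp {lam : (Fin k → ℤ) → V × Bool} {N r : ℕ} {b : Bool} {s : Finset (V × Bool)}
    (h : DD lam N r b s ≠ 0) :
    ∃ m : Fin k → ℤ, (∀ i, |m i| ≤ 2 * N) ∧ s.card = k - r + 1 ∧
      ∀ p ∈ s, ∃ m', IsFace m' m ∧ lam m' = p := by
  obtain ⟨J, _, hJ⟩ := exists_ne_zero_of_sum_ne_zero h
  have h1 : cr k r b J ≠ 0 := left_ne_zero_of_mul hJ
  have h2 := right_ne_zero_of_mul hJ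
  obtain ⟨m, hm, h3, h4⟩ := FJ_supp h2
  unfold cr at h1
  split_ifs at h1 with h5
  · exact ⟨m, abs_cells hm, by rw [h3, h5.2.1], h4⟩
  · exact absurd rfl h1

theorem T_DD {lam : (Fin k → ℤ) → V × Bool} {N : ℕ} (hN : 0 < N)
    (hanti : ∀ m : Fin k → ℤ, (∀ i, |m i| ≤ 2 * N) → (∃ i, |m i| = 2 * N) → lam (-m) = neg (lam m))
    (r : ℕ) (b : Bool) : T (DD lam N (r + 1) b) = DD lam N (r + 1) (!b) := by
  funext s
  rw [T_apply]
  unfold DD
  refine Fintype.sum_equiv ⟨negS, negS, negS_negS, negS_negS⟩ _ _ fun J => ?_
  change _ = cr k (r + 1) (!b) (negS J) * FJ lam N (negS J) s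
  rw [cr_negS, Bool.not_not]
  by_cases h : cr k (r + 1) b J = 0
  · rw [h, zero_mul, zero_mul]
  · congr 1
    unfold cr at h
    split_ifs at h with h5
    · rw [← T_apply (FJ lam N J) s, T_FJ hN hanti h5.1 (card_pos.mp (by omega))]
    · exact absurd rfl h

theorem bd_DD {lam : (Fin k → ℤ) → V × Bool} {N : ℕ} {r : ℕ} (hr : r < k) :
    bd (DD lam N r true) = DD lam N (r + 1) true + DD lam N (r + 1) false := by
  classical
  funext s
  -- linearity
  have h1 : bd (DD lam N r true) s = ∑ J, cr k r true J * bd (FJ lam N J) s := by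
    rw [bd_apply]
    have : ∀ x : V × Bool, (if x ∈ s then 0 else DD lam N r true (insert x s)) =
        ∑ J, cr k r true J * (if x ∈ s then 0 else FJ lam N J (insert x s)) := by
      intro x
      split_ifs with hx
      · simp
      · rfl
    rw [sum_congr rfl fun x _ => this x, sum_comm]
    refine sum_congr rfl fun J _ => ?_
    rw [← mul_sum, bd_apply]
  rw [h1]
  let f : Ch (Fin k) := fun J => if AF J then FJ lam N J s else 0
  have h2 : ∀ J, cr k r true J * bd (FJ lam N J) s = bd f J * cr k r true J := by
    intro J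
    by_cases hc : cr k r true J = 0
    · rw [hc, zero_mul, mul_zero]
    · have h5 : AF J ∧ J.card = r ∧ altp true J := by
        unfold cr at hc
        split_ifs at hc with h5
        · exact h5
        · exact absurd rfl hc
      rw [mul_comm]
      congr 1
      rw [bd_FJ h5.1 (by omega), bd_apply]
      have h6 : ∀ x : Fin k × Bool, (if x ∈ J then 0 else f (insert x J)) =
          if x.1 ∈ univ \ pr J then FJ lam N (insert x J) s else 0 := by
        intro x
        by_cases hx : x ∈ J
        · rw [if_pos hx, if_neg]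
          simp only [mem_sdiff, mem_univ, true_and, not_not]
          exact mem_pr hx
        · rw [if_neg hx]
          by_cases hx2 : neg x ∈ J
          · rw [if_neg]
            · simp only [f]
              rw [if_neg]
              intro hAF
              exact hAF _ (mem_insert_self _ _) (mem_insert_of_mem hx2)
            · simp only [mem_sdiff, mem_univ, true_and, not_not]
              have h7 := mem_pr hx2
              rwa [neg_fst] at h7
          · have hx3 : x.1 ∉ pr J := by
              intro hp
              simp only [pr, mem_image] at hp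
              obtain ⟨q, hq, he⟩ := hp
              by_cases hb : q.2 = x.2
              · exact hx (by rw [← show q = x from Prod.ext he hb]; exact hq)
              · refine hx2 ?_
                have : neg x = q := by
                  refine Prod.ext he.symm ?_
                  simp only [neg_apply]
                  exact (Bool.eq_not_of_ne hb).symm
                rw [this]; exact hq
            rw [if_pos (by simp [hx3])]
            simp only [f]
            rw [if_pos]
            intro p hp hn
            rw [mem_insert] at hp hn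
            rcases hp with rfl | hp
            · rcases hn with hn | hn
              · exact neg_ne _ hn
              · exact hx2 hn
            · rcases hn with hn | hn
              · apply hx2
                rw [← hn, neg_neg']; exact hp
              · exact h5.1 p hp hn
      rw [sum_congr rfl fun x _ => h6 x]
      rw [Fintype.sum_prod_type]
      simp only
      rw [← sum_filter_add_sum_filter_not univ (fun i : Fin k => i ∈ univ \ pr J)]
      have h7 : (∑ i ∈ univ.filter (fun i : Fin k => ¬ i ∈ univ \ pr J), ∑ b : Bool,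
          if i ∈ univ \ pr J then FJ lam N (insert (i, b) J) s else 0) = 0 := by
        refine sum_eq_zero fun i hi => sum_eq_zero fun b _ => ?_
        rw [if_neg (mem_filter.mp hi).2]
      rw [h7, add_zero]
      have h8 : (univ.filter fun i : Fin k => i ∈ univ \ pr J) = univ \ pr J := by ext; simp
      rw [h8]
      refine sum_congr rfl fun i hi => ?_
      rw [Fintype.sum_bool, if_pos hi, if_pos hi]
  rw [sum_congr rfl fun J _ => h2 J, sum_bd_mul, Pi.add_apply]
  unfold DD
  rw [← sum_add_distrib]
  refine sum_congr rfl fun J _ => ?_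
  by_cases hJ : AF J ∧ J.card = r + 1
  · obtain ⟨hJ1, hJ2⟩ := hJ
    have h3 : f J = FJ lam N J s := if_pos hJ1
    have h4 : ∀ x ∈ J, cr k r true (J.erase x) = altc true (J.erase x) := by
      intro x hx
      unfold cr altc
      have : AF (J.erase x) := hJ1.subset (erase_subset _ _)
      simp only [this, card_erase_of_mem hx, hJ2, Nat.add_sub_cancel, true_and]
    have h5 : ∀ b, cr k (r + 1) b J = altc b J := by
      intro b
      unfold cr altc
      simp only [hJ1, hJ2, true_and]
    rw [h3, sum_congr rfl h4, altc_erase hJ1 (card_pos.mp (by omega)), h5, h5]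
    simp only [Bool.not_true]
    ring
  · have h5 : ∀ b, cr k (r + 1) b J = 0 := by
      intro b
      unfold cr
      rw [if_neg]
      rintro ⟨h6, h7, _⟩
      exact hJ ⟨h6, h7⟩
    rw [h5, h5, zero_mul, add_zero]
    by_cases hJ1 : AF J
    · have h6 : ∀ x ∈ J, cr k r true (J.erase x) = 0 := by
        intro x hx
        unfold cr
        rw [if_neg]
        rintro ⟨_, h7, _⟩
        rw [card_erase_of_mem hx] at h7
        have := card_pos.mpr ⟨x, hx⟩
        exact hJ ⟨hJ1, by omega⟩
      rw [sum_congr rfl h6]
      simp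
    · have : f J = 0 := if_neg hJ1
      rw [this, zero_mul]

theorem sum_single (t : Finset (V × Bool)) : ∑ s, single t s = 1 := by
  simp only [single]
  rw [sum_ite_eq' univ t, if_pos (mem_univ _)]

theorem sum_DD_top (lam : (Fin k → ℤ) → V × Bool) (N : ℕ) : ∑ s, DD lam N k true s = 1 := by
  classical
  unfold DD
  rw [sum_comm]
  have h1 : ∀ J, ∑ s, cr k k true J * FJ lam N J s = cr k k true J := by
    intro J
    by_cases hc : cr k k true J = 0
    · rw [hc]; simp
    · have h5 : AF J ∧ J.card = k ∧ altp true J := by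
        unfold cr at hc
        split_ifs at hc with h5
        · exact h5
        · exact absurd rfl hc
      rw [← mul_sum]
      have h6 : ∑ s, FJ lam N J s = 1 := by
        -- the face consists of one cell
        have hpr : pr J = univ := by
          rw [← card_eq_iff_eq_univ, card_pr_AF h5.1, h5.2.1, Fintype.card_fin]
        have hcell : ∃ m, cells N J = {m} := by
          refine ⟨fun i => if (i, true) ∈ J then 2 * (N : ℤ) else -(2 * (N : ℤ)), ?_⟩
          ext m
          rw [cells, Fintype.mem_piFinset, mem_singleton, funext_iff]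
          refine forall_congr' fun i => ?_
          unfold AJ
          by_cases hi : (i, true) ∈ J
          · rw [if_pos hi, if_pos hi, mem_singleton]
          · have hi2 : (i, false) ∈ J := by
              have := mem_univ i
              rw [← hpr] at this
              simp only [pr, mem_image] at this
              obtain ⟨p, hp, he⟩ := this
              rcases hb : p.2 with _ | _
              · rw [← show p = (i, false) from Prod.ext he hb]; exact hp
              · exact absurd (by rw [← show p = (i, true) from Prod.ext he hb]; exact hp) hi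
            rw [if_neg hi, if_pos hi2, if_neg hi, mem_singleton]
        obtain ⟨m, hm⟩ := hcell
        have : FJ lam N J = single {lam m} := by
          rw [FJ, hm, sum_singleton, h5.2.1, Nat.sub_self]
          rfl
        rw [this]
        exact sum_single _
      rw [h6, mul_one]
  rw [sum_congr rfl fun J _ => h1 J]
  -- exactly one alternating corner
  let J0 : Finset (Fin k × Bool) :=
    univ.map ⟨fun i => (i, xor true (decide (Odd (i : ℕ)))), fun i j h => (Prod.ext_iff.mp h).1⟩
  have hmem : ∀ p : Fin k × Bool, p ∈ J0 ↔ p.2 = xor true (decide (Odd (p.1 : ℕ))) := by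
    intro p
    simp only [J0, mem_map, mem_univ, true_and, Function.Embedding.coeFn_mk]
    constructor
    · rintro ⟨i, rfl⟩; rfl
    · intro h; exact ⟨p.1, Prod.ext rfl h.symm⟩
  have hbefore : ∀ J : Finset (Fin k × Bool), AF J → pr J = univ → ∀ v : Fin k,
      before J v = (v : ℕ) := by
    intro J hJ hpr v
    have h2 : (J.filter fun q => q.1 < v).card = ((univ : Finset (Fin k)).filter fun i => i < v).card := by
      rw [← hpr]
      unfold pr
      rw [filter_image, card_image_of_injOn]
      intro p hp q hq he
      have hp' := (mem_filter.mp (mem_coe.mp hp)).1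
      have hq' := (mem_filter.mp (mem_coe.mp hq)).1
      by_contra hne
      have : q = neg p := by
        refine Prod.ext he.symm ?_
        have : q.2 ≠ p.2 := fun h => hne (Prod.ext he h.symm)
        simp only [neg_apply]
        exact Bool.eq_not_of_ne this
      exact hJ p hp' (this ▸ hq')
    unfold before
    rw [h2]
    have h3 : (univ.filter fun i : Fin k => i < v) = Iio v := by ext; simp
    rw [h3, Fin.card_Iio]
  have hAF0 : AF J0 := by
    intro p hp hn
    rw [hmem] at hp hn
    simp only [neg_apply] at hn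
    exact Bool.not_ne_self p.2 (hn.trans hp.symm)
  have hpr0 : pr J0 = univ := by
    ext i
    simp only [pr, mem_image, mem_univ, iff_true]
    exact ⟨(i, xor true (decide (Odd (i : ℕ)))), (hmem _).mpr rfl, rfl⟩
  rw [sum_eq_single J0]
  · unfold cr
    rw [if_pos]
    refine ⟨hAF0, by rw [card_map, card_univ, Fintype.card_fin], fun p hp => ?_⟩
    rw [hbefore J0 hAF0 hpr0]
    exact (hmem p).mp hp
  · intro J _ hJ
    unfold cr
    rw [if_neg]
    rintro ⟨h1, h2, h3⟩
    apply hJ
    have hpr : pr J = univ := by
      rw [← card_eq_iff_eq_univ, card_pr_AF h1, h2, Fintype.card_fin]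
    refine eq_of_subset_of_card_le (fun p hp => ?_) ?_
    · rw [hmem]
      have := h3 p hp
      rwa [hbefore J h1 hpr] at this
    · rw [card_map, card_univ, Fintype.card_fin, h2]
  · intro h
    exact absurd (mem_univ _) h

/-- **Grid theorem.** A labelling of the cells of the grid `[-2N, 2N]^k`, antipodal on the boundary
of the cube, such that the labels of the faces of each cell form a coherent set, yields a witness.
-/
theorem P_of_grid {a : V → V → Bool} {N : ℕ} (hN : 0 < N) (lam : (Fin k → ℤ) → V × Bool)
    (hanti : ∀ m : Fin k → ℤ, (∀ i, |m i| ≤ 2 * N) → (∃ i, |m i| = 2 * N) → lam (-m) = neg (lam m))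
    (hcoh : ∀ m : Fin k → ℤ, (∀ i, |m i| ≤ 2 * N) → ∀ m', IsFace m' m → ∀ m'', IsFace m'' m →
      ((lam m').1 = (lam m'').1 → lam m' = lam m'') ∧
      ((lam m').1 ≠ (lam m'').1 → a (lam m').1 (lam m'').1 = xor (lam m').2 (lam m'').2)) :
    P a k univ := by
  have hcoh' : ∀ (r : ℕ) (b : Bool) (s : Finset (V × Bool)), DD lam N r b s ≠ 0 →
      CohS a s ∧ s.card = k - r + 1 := by
    intro r b s hs
    obtain ⟨m, hm, h1, h2⟩ := DD_supp hs
    refine ⟨fun p hp q hq => ?_, h1⟩
    obtain ⟨m', hm', rfl⟩ := h2 p hp
    obtain ⟨m'', hm'', rfl⟩ := h2 q hq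
    exact hcoh m hm m' hm' m'' hm''
  have hsupp : ∀ (r : ℕ) (b : Bool), Supp (k - r) (DD lam N r b) := fun r b s hs =>
    ⟨(hcoh' r b s hs).1.af, (hcoh' r b s hs).2⟩
  have hess : ∀ j ≤ k, Ess j (DD lam N (k - j) true + T (DD lam N (k - j) true)) := by
    intro j hj
    induction j with
    | zero =>
      refine ⟨DD lam N (k - 0) true, ?_, rfl, ?_⟩
      · have := hsupp (k - 0) true
        simpa using this
      · rw [Nat.sub_zero]
        exact sum_DD_top lam N
    | succ j ih =>
      refine ⟨DD lam N (k - (j + 1)) true, ?_, rfl, ?_⟩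
      · have := hsupp (k - (j + 1)) true
        rwa [show k - (k - (j + 1)) = j + 1 by omega] at this
      · rw [bd_DD (by omega : k - (j + 1) < k), show k - (j + 1) + 1 = k - j by omega]
        have h1 := ih (by omega)
        by_cases hjk : j = k
        · omega
        · obtain ⟨r, hr⟩ : ∃ r, k - j = r + 1 := ⟨k - j - 1, by omega⟩
          rw [hr] at h1 ⊢
          rw [T_DD hN hanti] at h1
          exact h1
  have h0 := hess k le_rfl
  rw [Nat.sub_self] at h0
  refine ⟨_, ⟨?_, ?_, h0⟩⟩
  · intro s hs
    refine ⟨?_, subset_univ _⟩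
    by_cases h : DD lam N 0 true s = 0
    · have : DD lam N 0 true (negS s) ≠ 0 := by
        intro h'
        apply hs
        rw [Pi.add_apply, T_apply, h, h', add_zero]
      have := (hcoh' 0 true _ this).1.negS
      rwa [negS_negS] at this
    · exact (hcoh' 0 true s h).1
  · rw [bd_add, bd_T]
    rcases Nat.eq_zero_or_pos k with hk | hk
    · -- dimension zero
      subst hk
      have h1 : Supp 0 (DD lam N 0 true) := hsupp 0 true
      have h2 : bd (DD lam N 0 true) = (fun r => if r = ∅ then ∑ s, DD lam N 0 true s else 0) := by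
        funext r
        by_cases hr : r = ∅
        · subst hr
          rw [if_pos rfl, bd_apply]
          simp only [notMem_empty, if_false, insert_empty_eq]
          refine sum_of_injOn (fun x => {x}) (fun x _ y _ h => singleton_injective h)
            (fun x _ => mem_coe.mpr (mem_univ _)) ?_ (fun x _ => rfl)
          intro s _ hs
          by_contra hne
          apply hs
          obtain ⟨x, hx⟩ := card_eq_one.mp (h1 s hne).2
          exact ⟨x, mem_coe.mpr (mem_univ _), hx.symm⟩
        · rw [if_neg hr, bd_apply]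
          refine sum_eq_zero fun x _ => ?_
          split_ifs with hx
          · rfl
          · by_contra hne
            have := (h1 _ hne).2
            rw [card_insert_of_notMem hx] at this
            exact hr (card_eq_zero.mp (by omega))
      funext r
      rw [h2, Pi.add_apply, T_apply]
      have : negS r = ∅ ↔ r = ∅ := by
        rw [← card_eq_zero, card_negS, card_eq_zero]
      simp only [this]
      exact CharTwo.add_self_eq_zero _
    · rw [bd_DD hk, T_add, T_DD hN hanti, T_DD hN hanti]
      simp only [Bool.not_true, Bool.not_false]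
      rw [add_comm (DD lam N (0 + 1) true)]
      exact add_self_ch _

end faces

end Pool.Agent.RP5
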