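import Pool.Agent.RP5.Iso

/-!
# Extending signed graphs by one vertex
-/

set_option autoImplicit false
set_option linter.unusedSectionVars false

open Finset

namespace Pool.Agent.RP5

theorem pos_lt {u v n : ℕ} (huv : u < v) (hv : v < n) : pos u v < n * (n - 1) / 2 := by
  unfold pos
  have h1 : v * (v - 1) / 2 + v ≤ n * (n - 1) / 2 := by
    have h2 : v * (v - 1) / 2 + v = (v + 1) * v / 2 := by
      have : (v + 1) * v = v * (v - 1) + v * 2 := by
        rcases v with _ | v
        · rfl
        · simp only [Nat.add_sub_cancel]; ring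
      rw [this, Nat.add_mul_div_right _ _ (by norm_num)]
    rw [h2]
    refine Nat.div_le_div_right ?_
    exact Nat.mul_le_mul (by omega) (by omega)
  omega

theorem tgN_ext_lt {n c r u v : ℕ} (huv : u < v) (hv : v < n) :
    tgN (extC n c r) u v = tgN c u v := by
  unfold tgN extC
  rw [if_pos huv, if_pos huv, Nat.testBit_xor, Nat.testBit_shiftLeft]
  have := pos_lt huv hv
  rw [decide_eq_false (by omega : ¬ n * (n - 1) / 2 ≤ pos u v)]
  simp

theorem tgN_ext_last {n c r u : ℕ} (hc : c < 2 ^ (n * (n - 1) / 2)) (hu : u < n) :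
    tgN (extC n c r) u n = r.testBit u := by
  unfold tgN extC
  rw [if_pos hu, Nat.testBit_xor, Nat.testBit_shiftLeft]
  unfold pos
  rw [decide_eq_true (by omega : n * (n - 1) / 2 ≤ n * (n - 1) / 2 + u),
    Nat.testBit_lt_two_pow (lt_of_lt_of_le hc (Nat.pow_le_pow_right (by norm_num) (by omega)))]
  simp

/-- extension by one vertex -/
theorem exists_ext {n : ℕ} {a : Fin (n + 1) → Fin (n + 1) → Bool} (ha : ∀ u v, a u v = a v u)
    {c : ℕ} (hc : c < 2 ^ (n * (n - 1) / 2))
    (h : IsoTo (fun u v : Fin n => a u.castSucc v.castSucc) (tg n c)) :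
    ∃ r < 2 ^ n, IsoTo a (tg (n + 1) (extC n c r)) := by
  obtain ⟨e, δ, h⟩ := h
  refine ⟨Nat.ofBits (fun v : Fin n => xor (a (Fin.last n) (e v).castSucc) (δ v)),
    Nat.ofBits_lt_two_pow _, ?_⟩
  refine ⟨finSuccEquivLast.trans ((Equiv.optionCongr e).trans finSuccEquivLast.symm),
    Fin.lastCases false δ, ?_⟩
  have key : ∀ u v : Fin (n + 1), (u : ℕ) < v → tg (n + 1) (extC n c
      (Nat.ofBits (fun v : Fin n => xor (a (Fin.last n) (e v).castSucc) (δ v)))) u v =
      pullA (finSuccEquivLast.trans ((Equiv.optionCongr e).trans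
        finSuccEquivLast.symm)).toEmbedding (Fin.lastCases false δ) a u v := by
    intro u v huv
    induction v using Fin.lastCases with
    | last =>
      induction u using Fin.lastCases with
      | last => exact absurd huv (lt_irrefl _)
      | cast u =>
        unfold pullA tg
        simp only [Fin.val_castSucc, Fin.val_last]
        rw [tgN_ext_last hc u.2, Nat.testBit_ofBits_lt _ _ u.2]
        simp only [Fin.eta, Equiv.toEmbedding_apply, Equiv.trans_apply,
          finSuccEquivLast_castSucc, Equiv.optionCongr_apply, Option.map_some,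
          finSuccEquivLast_symm_some, finSuccEquivLast_last, Option.map_none,
          finSuccEquivLast_symm_none, Fin.lastCases_castSucc, Fin.lastCases_last, Bool.xor_false]
        rw [ha]
    | cast v =>
      induction u using Fin.lastCases with
      | last =>
        simp only [Fin.val_castSucc, Fin.val_last] at huv
        have := v.2
        omega
      | cast u =>
        unfold pullA tg
        simp only [Fin.val_castSucc] at huv ⊢
        rw [tgN_ext_lt huv v.2]
        simp only [Equiv.toEmbedding_apply, Equiv.trans_apply,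
          finSuccEquivLast_castSucc, Equiv.optionCongr_apply, Option.map_some,
          finSuccEquivLast_symm_some, Fin.lastCases_castSucc]
        have h1 := h u v (fun he => by rw [he] at huv; exact lt_irrefl _ huv)
        unfold pullA tg at h1
        simpa using h1
  intro u v huv
  rcases lt_or_gt_of_ne (fun he => huv (Fin.ext he)) with h1 | h1
  · exact key u v h1
  · have h2 := key v u h1
    rw [tg_symm, h2]
    unfold pullA
    rw [ha, Bool.xor_comm (Fin.lastCases (motive := fun _ => Bool) false δ v)]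

theorem Cls.ext {n : ℕ} {Q : (Fin n → Fin n → Bool) → Prop}
    {Q' : (Fin (n + 1) → Fin (n + 1) → Bool) → Prop} {L L' : List ℕ} (h : Cls n Q L)
    (hL : ∀ c ∈ L, c < 2 ^ (n * (n - 1) / 2))
    (hQ : ∀ a, Q' a → Q (fun u v : Fin n => a u.castSucc v.castSucc))
    (hQ' : ∀ a b, IsoTo a b → Q' a → Q' b)
    (hext : ∀ c ∈ L, ∀ r < 2 ^ n, Q' (tg (n + 1) (extC n c r)) →
      ∃ d ∈ L', IsoTo (tg (n + 1) (extC n c r)) (tg (n + 1) d)) : Cls (n + 1) Q' L' := by
  intro a ha hQa
  obtain ⟨c, hc, hi⟩ := h _ (fun u v => ha _ _) (hQ a hQa)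
  obtain ⟨r, hr, hir⟩ := exists_ext ha (hL c hc) hi
  obtain ⟨d, hd, hid⟩ := hext c hc r hr (hQ' _ _ hir hQa)
  exact ⟨d, hd, hir.trans hid⟩

end Pool.Agent.RP5
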