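import Mathlib

/-! Signed complete graphs (two-graphs), balanced vectors and the Borsuk-Ulam index property:
definitions shared by all files of the `RP^5` project. -/

namespace Pool.Agent.RP5

open Finset

variable {V : Type} [Fintype V] [DecidableEq V]

/-- The support of a real vector. -/
noncomputable def supp (z : V → ℝ) : Finset V := by
  classical exact univ.filter (fun v => z v ≠ 0)

omit [DecidableEq V] in
theorem mem_supp {z : V → ℝ} {v : V} : v ∈ supp z ↔ z v ≠ 0 := by
  simp [supp]

/-- `z` is balanced for the signing `s` (`s u v = true` means that the pair `uv` has sign `-1`). -/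
def BalV (s : V → V → Bool) (z : V → ℝ) : Prop :=
  ∀ u v, u ≠ v → z u ≠ 0 → z v ≠ 0 → (s u v = true ↔ z u * z v < 0)

/-- `A` is a balanced set, with sign vector `c` (only the values of `c` on `A` matter). -/
def BalW (s : V → V → Bool) (c : V → Bool) (A : Finset V) : Prop :=
  ∀ u ∈ A, ∀ v ∈ A, u ≠ v → s u v = (c u != c v)

/-- `A` is a balanced set. -/
def Bal (s : V → V → Bool) (A : Finset V) : Prop := ∃ c : V → Bool, BalW s c A

/-- The index property: each odd continuous map `ℝ^V → ℝ^j` kills a nonzero balanced vector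
whose support lies in `S` and satisfies `P`. -/
def Ind (s : V → V → Bool) (j : ℕ) (S : Finset V) (P : Finset V → Prop) : Prop :=
  ∀ f : (V → ℝ) → (Fin j → ℝ), Continuous f → (∀ z, f (-z) = - f z) →
    ∃ z : V → ℝ, z ≠ 0 ∧ BalV s z ∧ f z = 0 ∧ supp z ⊆ S ∧ P (supp z)

omit [DecidableEq V] in
theorem Ind.mono {s : V → V → Bool} {j : ℕ} {S : Finset V} {P Q : Finset V → Prop}
    (h : Ind s j S P) (hPQ : ∀ A, Bal s A → A ⊆ S → P A → Q A) : Ind s j S Q := by
  intro f hf hodd
  obtain ⟨z, hz, hb, hfz, hS, hP⟩ := h f hf hodd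
  refine ⟨z, hz, hb, hfz, hS, hPQ _ ⟨fun v => decide (z v < 0), ?_⟩ hS hP⟩
  intro u hu v hv huv
  rw [mem_supp] at hu hv
  have h1 := hb u v huv hu hv
  rcases lt_or_gt_of_ne hu with h2 | h2 <;> rcases lt_or_gt_of_ne hv with h3 | h3
  · have : ¬ (z u * z v < 0) := not_lt.2 (mul_pos_of_neg_of_neg h2 h3).le
    have h4 : s u v = false := by
      cases hs : s u v
      · rfl
      · exact absurd (h1.1 hs) this
    simp [h4, h2, h3]
  · have : z u * z v < 0 := mul_neg_of_neg_of_pos h2 h3
    have h4 := h1.2 this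
    simp [h4, h2, not_lt.2 h3.le]
  · have : z u * z v < 0 := mul_neg_of_pos_of_neg h2 h3
    have h4 := h1.2 this
    simp [h4, h3, not_lt.2 h2.le]
  · have : ¬ (z u * z v < 0) := not_lt.2 (mul_pos h2 h3).le
    have h4 : s u v = false := by
      cases hs : s u v
      · rfl
      · exact absurd (h1.1 hs) this
    simp [h4, not_lt.2 h2.le, not_lt.2 h3.le]

/-- The family `P` used for restricted supports: at most `j` elements, or a member of `Y`. -/
def Small (j : ℕ) (Y : Finset V → Prop) (A : Finset V) : Prop := A.card ≤ j ∨ Y A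

/-- The family obtained from `Y` by removing the balanced set `W` (with signs `c`): those
`(j+1)`-sets `A ⊆ S \ W` that are extended to members of `Y` by two elements of `W` of opposite
sign relative to `A`. -/
def Step (s : V → V → Bool) (j : ℕ) (S W : Finset V) (c : V → Bool) (Y : Finset V → Prop)
    (A : Finset V) : Prop :=
  A.card = j + 1 ∧ A ⊆ S \ W ∧ Bal s A ∧
    ∃ w ∈ W, ∃ w' ∈ W, Y (insert w A) ∧ Y (insert w' A) ∧
      ∀ x ∈ A, (s w x != c w) ≠ (s w' x != c w')

end Pool.Agent.RP5
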