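import Mathlib
import Pool.Agent.RP5.Sem

/-! The alternation lemma for the index property (moment curve and sign changes). -/

namespace Pool.Agent.RP5

open Finset

/-- Prepending a smaller element to an increasing family. -/
theorem cons_strictMono {V : Type} {r : V → ℝ} {n : ℕ} {v : Fin n → V} {w : V}
    (hv : StrictMono (fun a => r (v a))) (hw : ∀ a, r w < r (v a)) :
    StrictMono (fun a => r ((Fin.cons w v : Fin (n + 1) → V) a)) := by
  intro a b
  refine Fin.cases ?_ (fun a' => ?_) a
  · refine Fin.cases ?_ (fun b' => ?_) b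
    · intro h; exact absurd h (lt_irrefl _)
    · intro _
      simpa using hw b'
  · refine Fin.cases ?_ (fun b' => ?_) b
    · intro h; exact absurd h (Fin.not_lt_zero _)
    · intro h
      simpa using hv (Fin.succ_lt_succ_iff.1 h)

/-- A nonzero vector orthogonal to the first `j` powers of `r` has an alternating chain of
length `j + 1`. -/
theorem alt_chain {V : Type} {S : Finset V} {r : V → ℝ} (hr : Set.InjOn r S) :
    ∀ (j : ℕ) (x : V → ℝ), (∃ v ∈ S, x v ≠ 0) →
      (∀ i < j, ∑ v ∈ S, x v * r v ^ i = 0) →
      ∃ σ : ℝ, (σ = 1 ∨ σ = -1) ∧ ∃ v : Fin (j + 1) → V, (∀ a, v a ∈ S) ∧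
        StrictMono (fun a => r (v a)) ∧ ∀ a : Fin (j + 1), 0 < σ * (-1) ^ (a : ℕ) * x (v a) := by
  intro j
  induction j with
  | zero =>
    rintro x ⟨v, hv, hx⟩ -
    rcases lt_or_gt_of_ne hx with h | h
    · refine ⟨-1, Or.inr rfl, fun _ => v, fun _ => hv, ?_, ?_⟩
      · intro a b hab
        exact absurd hab (by rw [Fin.lt_def]; omega)
      · intro a
        have : (a : ℕ) = 0 := by omega
        rw [this]
        simp only [pow_zero, mul_one]
        linarith
    · refine ⟨1, Or.inl rfl, fun _ => v, fun _ => hv, ?_, ?_⟩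
      · intro a b hab
        exact absurd hab (by rw [Fin.lt_def]; omega)
      · intro a
        have : (a : ℕ) = 0 := by omega
        rw [this]
        simp only [pow_zero, mul_one, one_mul]
        exact h
  | succ j ih =>
    rintro x ⟨v₁, hv₁, hx₁⟩ hm
    classical
    -- the first nonzero element
    have hN : (S.filter (fun v => x v ≠ 0)).Nonempty := ⟨v₁, by simp [hv₁, hx₁]⟩
    obtain ⟨u, hu, humin⟩ := Finset.exists_min_image _ r hN
    rw [Finset.mem_filter] at hu
    obtain ⟨τ, hτ, hτu⟩ : ∃ τ : ℝ, (τ = 1 ∨ τ = -1) ∧ 0 < τ * x u := by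
      rcases lt_or_gt_of_ne hu.2 with h | h
      · exact ⟨-1, Or.inr rfl, by linarith⟩
      · exact ⟨1, Or.inl rfl, by linarith⟩
    have hτ2 : τ * τ = 1 := by rcases hτ with h | h <;> rw [h] <;> norm_num
    -- the first element of the opposite sign
    have hK : (S.filter (fun v => τ * x v < 0)).Nonempty := by
      by_contra hcon
      rw [Finset.not_nonempty_iff_eq_empty, Finset.filter_eq_empty_iff] at hcon
      have h0 : ∑ v ∈ S, τ * x v = 0 := by
        rw [← Finset.mul_sum]
        have := hm 0 (Nat.succ_pos j)
        simp only [pow_zero, mul_one] at this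
        rw [this, mul_zero]
      have h1 : ∀ v ∈ S, 0 ≤ τ * x v := fun v hv => not_lt.1 (hcon hv)
      have h2 := (Finset.sum_eq_zero_iff_of_nonneg h1).1 h0 u hu.1
      linarith
    obtain ⟨k, hk, hkmin⟩ := Finset.exists_min_image _ r hK
    rw [Finset.mem_filter] at hk
    have hleft : ∀ v ∈ S, r v < r k → 0 ≤ τ * x v := by
      intro v hv hvk
      by_contra hcon
      have := hkmin v (by rw [Finset.mem_filter]; exact ⟨hv, not_le.1 hcon⟩)
      linarith
    have hxk : x k ≠ 0 := by
      intro h
      have := hk.2
      rw [h, mul_zero] at this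
      exact lt_irrefl _ this
    have huk : r u < r k := by
      have h1 := humin k (by rw [Finset.mem_filter]; exact ⟨hk.1, hxk⟩)
      rcases h1.lt_or_eq with h2 | h2
      · exact h2
      · have h3 := hr hu.1 hk.1 h2
        rw [h3] at hτu
        linarith [hk.2]
    -- the new vector
    obtain ⟨σ, hσ, v, hvS, hmono, hsign⟩ := ih (fun w => x w * (r w - r k))
      ⟨u, hu.1, mul_ne_zero hu.2 (sub_ne_zero.2 huk.ne)⟩
      (by
        intro i hi
        have e : ∀ w, x w * (r w - r k) * r w ^ i = x w * r w ^ (i + 1) - r k * (x w * r w ^ i) := by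
          intro w; ring
        simp only [e]
        rw [Finset.sum_sub_distrib, ← Finset.mul_sum, hm (i + 1) (by omega), hm i (by omega)]
        ring)
    have hσ2 : σ * σ = 1 := by rcases hσ with h | h <;> rw [h] <;> norm_num
    by_cases hv0 : r (v 0) < r k
    · -- case A
      have hx0 : 0 < τ * x (v 0) := by
        have h1 := hleft _ (hvS 0) hv0
        rcases h1.lt_or_eq with h2 | h2
        · exact h2
        · exfalso
          have h3 := hsign 0
          have h4 : x (v 0) = 0 := by
            have : τ * (τ * x (v 0)) = 0 := by rw [← h2, mul_zero]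
            rwa [← mul_assoc, hτ2, one_mul] at this
          rw [h4] at h3
          simp at h3
      have hστ : σ = -τ := by
        have h3 := hsign 0
        simp only [Fin.val_zero, pow_zero, mul_one] at h3
        have h4 : r (v 0) - r k < 0 := by linarith
        rcases hσ with h | h <;> rcases hτ with h' | h' <;> rw [h, h']
        · exfalso
          rw [h] at h3; rw [h'] at hx0
          have : x (v 0) * (r (v 0) - r k) < 0 := mul_neg_of_pos_of_neg (by linarith) h4
          linarith
        · norm_num
        · exfalso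
          rw [h] at h3; rw [h'] at hx0
          have : 0 < x (v 0) * (r (v 0) - r k) := mul_pos_of_neg_of_neg (by linarith) h4
          linarith
      have hright : ∀ i : Fin j, r k < r (v i.succ) := by
        intro i
        -- enough for the first one
        have h1 : r k < r (v ⟨1, by have := i.2; omega⟩) := by
          by_contra hcon
          have h2 := hsign ⟨1, by have := i.2; omega⟩
          simp only [pow_one] at h2
          rcases (not_lt.1 hcon).lt_or_eq with h3 | h3
          · have h4 := hleft _ (hvS _) h3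
            have h5 : τ * x (v ⟨1, by have := i.2; omega⟩) *
                (r (v ⟨1, by have := i.2; omega⟩) - r k) ≤ 0 :=
              mul_nonpos_of_nonneg_of_nonpos h4 (by linarith)
            rw [hστ] at h2
            linarith
          · rw [h3] at h2
            simp at h2
        have h6 : (⟨1, by have := i.2; omega⟩ : Fin (j + 1)) ≤ i.succ := by
          rw [Fin.le_def]
          simp
        have h7 := hmono.monotone h6
        exact lt_of_lt_of_le h1 h7
      refine ⟨τ, hτ, Fin.cons (v 0) (Fin.cons k (fun i : Fin j => v i.succ)), ?_, ?_, ?_⟩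
      · intro a
        refine Fin.cases ?_ (fun b => ?_) a
        · simpa using hvS 0
        · refine Fin.cases ?_ (fun c => ?_) b
          · simpa using hk.1
          · simpa using hvS c.succ
      · have htail : StrictMono (fun i : Fin j => r (v i.succ)) := by
          intro a b hab
          exact hmono (Fin.succ_lt_succ_iff.2 hab)
        have h1 := cons_strictMono (w := k) htail hright
        refine cons_strictMono (w := v 0) h1 ?_
        intro a
        refine Fin.cases ?_ (fun b => ?_) a
        · simpa using hv0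
        · have := hright b
          simp only [Fin.cons_succ]
          linarith
      · intro a
        refine Fin.cases ?_ (fun b => ?_) a
        · simpa using hx0
        · refine Fin.cases ?_ (fun c => ?_) b
          · simp only [Fin.cons_succ, Fin.cons_zero, Fin.val_succ, Fin.val_zero, zero_add, pow_one]
            linarith [hk.2]
          · simp only [Fin.cons_succ, Fin.val_succ]
            have h1 := hsign c.succ
            simp only [Fin.val_succ] at h1
            have h2 : 0 < r (v c.succ) - r k := by linarith [hright c]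
            have h3 : 0 < (σ * (-1) ^ ((c : ℕ) + 1) * x (v c.succ)) * (r (v c.succ) - r k) := by
              linarith [h1, (by ring : σ * (-1) ^ ((c : ℕ) + 1) * (x (v c.succ) * (r (v c.succ) - r k)) = (σ * (-1) ^ ((c : ℕ) + 1) * x (v c.succ)) * (r (v c.succ) - r k))]
            have h4 := (mul_pos_iff_of_pos_right h2).1 h3
            rw [hστ] at h4
            have e : τ * (-1) ^ ((c : ℕ) + 1 + 1) * x (v c.succ) =
                -τ * (-1) ^ ((c : ℕ) + 1) * x (v c.succ) := by ring
            rw [e]
            exact h4
    · -- case B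
      have hne : ∀ a, r (v a) ≠ r k := by
        intro a h
        have := hsign a
        rw [h] at this
        simp at this
      have hgt0 : r k < r (v 0) := lt_of_le_of_ne (not_lt.1 hv0) (Ne.symm (hne 0))
      have hgt : ∀ a, r k < r (v a) := fun a => lt_of_lt_of_le hgt0 (hmono.monotone (Fin.zero_le a))
      have hs : ∀ a : Fin (j + 1), 0 < σ * (-1) ^ (a : ℕ) * x (v a) := by
        intro a
        have h1 := hsign a
        have h2 : 0 < r (v a) - r k := by linarith [hgt a]
        have h3 : 0 < (σ * (-1) ^ (a : ℕ) * x (v a)) * (r (v a) - r k) := by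
          have e : σ * (-1) ^ (a : ℕ) * (x (v a) * (r (v a) - r k)) =
            (σ * (-1) ^ (a : ℕ) * x (v a)) * (r (v a) - r k) := by ring
          rw [← e]; exact h1
        exact (mul_pos_iff_of_pos_right h2).1 h3
      have hcase : σ = τ ∨ σ = -τ := by
        rcases hσ with h | h <;> rcases hτ with h' | h' <;> rw [h, h'] <;> norm_num
      have key : ∀ w ∈ S, r w ≤ r k → 0 < -σ * x w →
          ∃ σ' : ℝ, (σ' = 1 ∨ σ' = -1) ∧ ∃ v' : Fin (j + 1 + 1) → V, (∀ a, v' a ∈ S) ∧
            StrictMono (fun a => r (v' a)) ∧
            ∀ a : Fin (j + 1 + 1), 0 < σ' * (-1) ^ (a : ℕ) * x (v' a) := by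
        intro w hw hwk hwx
        refine ⟨-σ, by rcases hσ with h | h <;> rw [h] <;> norm_num, Fin.cons w v, ?_, ?_, ?_⟩
        · intro a
          refine Fin.cases ?_ (fun b => ?_) a
          · simpa using hw
          · simpa using hvS b
        · exact cons_strictMono hmono (fun a => lt_of_le_of_lt hwk (hgt a))
        · intro a
          refine Fin.cases ?_ (fun b => ?_) a
          · simpa using hwx
          · simp only [Fin.cons_succ, Fin.val_succ]
            have e : -σ * (-1) ^ ((b : ℕ) + 1) * x (v b) = σ * (-1) ^ (b : ℕ) * x (v b) := by ring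
            rw [e]
            exact hs b
      rcases hcase with h | h
      · exact key k hk.1 le_rfl (by rw [h]; linarith [hk.2])
      · exact key u hu.1 huk.le (by rw [h]; simpa using hτu)

variable {V : Type} [Fintype V] [DecidableEq V]

/-- P1: alternation lemma. -/
theorem Ind.alt {s : V → V → Bool} (hs : ∀ u v, s u v = s v u) {j : ℕ} {S : Finset V}
    {P : Finset V → Prop} (h : Ind s j S P) (r : V → ℝ) (hr : Set.InjOn r S) (t : V → Bool) :
    ∃ v : Fin (j + 1) → V, (∀ a b, a < b → r (v a) < r (v b)) ∧
      (∀ a b : Fin (j + 1), a < b →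
        s (v a) (v b) = ((t (v a) != t (v b)) != decide ((b.1 - a.1) % 2 = 1))) ∧
      ∃ A : Finset V, P A ∧ A ⊆ S ∧ Bal s A ∧ ∀ a, v a ∈ A := by
  have _ := hs
  -- the moment map
  let ε : V → ℝ := fun v => if t v then -1 else 1
  have hε2 : ∀ v, ε v * ε v = 1 := by
    intro v
    by_cases hv : t v <;> simp [ε, hv]
  obtain ⟨z, hz, hb, hfz, hS, hP⟩ := h
    (fun z i => ∑ v ∈ S, (ε v * z v) * r v ^ (i : ℕ))
    (by
      refine continuous_pi fun i => ?_
      refine continuous_finsetSum _ fun v _ => ?_
      exact (continuous_const.mul (continuous_apply v)).mul continuous_const)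
    (by
      intro z
      funext i
      simp only [Pi.neg_apply, mul_neg, neg_mul, Finset.sum_neg_distrib])
  have hzS : ∀ v, z v ≠ 0 → v ∈ S := fun v hv => hS (mem_supp.2 hv)
  obtain ⟨v₁, hv₁⟩ := Function.ne_iff.1 hz
  have hεne : ∀ v, ε v ≠ 0 := by
    intro v h0
    have := hε2 v
    rw [h0] at this
    norm_num at this
  obtain ⟨σ, hσ, v, hvS, hmono, hsign⟩ := alt_chain hr j (fun v => ε v * z v)
    ⟨v₁, hzS v₁ hv₁, mul_ne_zero (hεne v₁) hv₁⟩
    (by
      intro i hi
      have := congrFun hfz ⟨i, hi⟩
      simpa using this)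
  have hσ2 : σ * σ = 1 := by rcases hσ with h | h <;> rw [h] <;> norm_num
  have hne : ∀ a, z (v a) ≠ 0 := by
    intro a h0
    have := hsign a
    simp only [h0, mul_zero, lt_irrefl] at this
  have hvne : ∀ a b, a < b → v a ≠ v b := by
    intro a b hab he
    have := hmono hab
    simp only [he, lt_irrefl] at this
  refine ⟨v, fun a b hab => hmono hab, ?_, supp z, hP, hS, ?_, fun a => mem_supp.2 (hne a)⟩
  · intro a b hab
    have h1 := hb (v a) (v b) (hvne a b hab) (hne a) (hne b)
    have h2 : 0 < (ε (v a) * ε (v b)) * (-1) ^ ((b : ℕ) - (a : ℕ)) * (z (v a) * z (v b)) := by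
      have h3 := mul_pos (hsign a) (hsign b)
      have e1 : ((-1 : ℝ)) ^ (a : ℕ) * (-1) ^ (b : ℕ) = (-1) ^ ((b : ℕ) - (a : ℕ)) := by
        have hle : (a : ℕ) ≤ (b : ℕ) := hab.le
        obtain ⟨d, hd⟩ := Nat.exists_eq_add_of_le hle
        rw [hd, Nat.add_sub_cancel_left, pow_add, ← mul_assoc, ← pow_add, ← two_mul, pow_mul]
        norm_num
      have e2 : σ * (-1) ^ (a : ℕ) * (ε (v a) * z (v a)) * (σ * (-1) ^ (b : ℕ) * (ε (v b) * z (v b)))
          = (σ * σ) * ((ε (v a) * ε (v b)) * ((-1) ^ (a : ℕ) * (-1) ^ (b : ℕ)) * (z (v a) * z (v b))) := by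
        ring
      rw [e2, hσ2, e1, one_mul] at h3
      exact h3
    have hzz : z (v a) * z (v b) ≠ 0 := mul_ne_zero (hne a) (hne b)
    have hodd : ((-1 : ℝ)) ^ ((b : ℕ) - (a : ℕ)) = if ((b : ℕ) - (a : ℕ)) % 2 = 1 then -1 else 1 := by
      split_ifs with h4
      · exact Odd.neg_one_pow (Nat.odd_iff.2 h4)
      · exact Even.neg_one_pow (Nat.even_iff.2 (by omega))
    rw [hodd] at h2
    have hεa : ε (v a) = if t (v a) then -1 else 1 := rfl
    have hεb : ε (v b) = if t (v b) then -1 else 1 := rfl
    rw [hεa, hεb] at h2
    have h5 : s (v a) (v b) = decide (z (v a) * z (v b) < 0) := by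
      cases hsb : s (v a) (v b)
      · symm
        rw [decide_eq_false_iff_not]
        intro h6
        rw [h1.2 h6] at hsb
        exact Bool.noConfusion hsb
      · symm
        rw [decide_eq_true_eq]
        exact h1.1 hsb
    rw [h5]
    by_cases hta : t (v a) <;> by_cases htb : t (v b) <;>
      by_cases hpar : ((b : ℕ) - (a : ℕ)) % 2 = 1 <;>
      simp only [hta, htb, hpar, if_true, if_false, Bool.false_eq_true] at h2 ⊢ <;>
      first
        | (have h7 : z (v a) * z (v b) < 0 := by linarith
           simp [h7])
        | (have h7 : ¬ z (v a) * z (v b) < 0 := by linarith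
           simp [h7])
  · refine ⟨fun u => decide (z u < 0), ?_⟩
    intro u hu w hw huw
    rw [mem_supp] at hu hw
    have h1 := hb u w huw hu hw
    have h5 : s u w = decide (z u * z w < 0) := by
      cases hsb : s u w
      · symm
        rw [decide_eq_false_iff_not]
        intro h6
        rw [h1.2 h6] at hsb
        exact Bool.noConfusion hsb
      · symm
        rw [decide_eq_true_eq]
        exact h1.1 hsb
    rw [h5]
    rcases lt_or_gt_of_ne hu with h2 | h2 <;> rcases lt_or_gt_of_ne hw with h3 | h3
    · simp [h2, h3, (mul_pos_of_neg_of_neg h2 h3).le]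
    · simp [h2, h3.le, mul_neg_of_neg_of_pos h2 h3]
    · simp [h2.le, h3, mul_neg_of_pos_of_neg h2 h3]
    · simp [not_lt.2 h2.le, not_lt.2 h3.le, not_lt.2 (mul_pos h2 h3).le]

end Pool.Agent.RP5
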