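import Pool.Agent.RP5.Alt

/-!
# Signed complete graphs (two-graphs), coherent sets, and the property `P a k U`

`a u v` is the sign of the pair `u v` (`true` means negative).  A set of vertices is coherent if all
its triples are balanced.  `P a k U` says that the complex of coherent subsets of `U` carries a
`k`-cycle (in its double cover, symmetric, mod 2) of odd Yang index; equivalently the `k`-th power
of the class of the double cover is not zero.
-/

set_option autoImplicit false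
set_option linter.unusedSectionVars false

open Finset

namespace Pool.Agent.RP5

variable {V : Type*} [DecidableEq V]

/-- a coherent set of signed vertices -/
def CohS (a : V → V → Bool) (s : Finset (V × Bool)) : Prop :=
  ∀ p ∈ s, ∀ q ∈ s, (p.1 = q.1 → p = q) ∧ (p.1 ≠ q.1 → a p.1 q.1 = xor p.2 q.2)

/-- a coherent set of vertices: every triple is balanced -/
def Coh (a : V → V → Bool) (S : Finset V) : Prop :=
  ∀ u ∈ S, ∀ v ∈ S, ∀ w ∈ S, u ≠ v → v ≠ w → u ≠ w → xor (a u v) (a v w) = a u w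

/-- the set of vertices of a signed set -/
def pr (s : Finset (V × Bool)) : Finset V := s.image Prod.fst

theorem CohS.af {a : V → V → Bool} {s : Finset (V × Bool)} (h : CohS a s) : AF s := by
  intro p hp hn
  exact neg_ne p (((h p hp _ hn).1 rfl).symm)

theorem CohS.subset {a : V → V → Bool} {s t : Finset (V × Bool)} (h : CohS a s) (hts : t ⊆ s) :
    CohS a t := fun p hp q hq => h p (hts hp) q (hts hq)

theorem CohS.negS {a : V → V → Bool} {s : Finset (V × Bool)} (h : CohS a s) :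
    CohS a (negS s) := by
  intro p hp q hq
  rw [mem_negS] at hp hq
  obtain ⟨h1, h2⟩ := h _ hp _ hq
  refine ⟨fun he => neg.injective (h1 he), fun hne => ?_⟩
  have := h2 hne
  simp only [neg_apply] at this
  rw [this]
  cases p.2 <;> cases q.2 <;> rfl

theorem pr_negS (s : Finset (V × Bool)) : pr (negS s) = pr s := by
  ext v
  simp only [pr, mem_image, mem_negS]
  constructor
  · rintro ⟨p, hp, rfl⟩
    exact ⟨_, hp, rfl⟩
  · rintro ⟨p, hp, rfl⟩
    exact ⟨neg p, by rw [neg_neg']; exact hp, rfl⟩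

theorem mem_pr {s : Finset (V × Bool)} {p : V × Bool} (h : p ∈ s) : p.1 ∈ pr s :=
  mem_image_of_mem _ h

theorem card_pr {a : V → V → Bool} {s : Finset (V × Bool)} (h : CohS a s) :
    (pr s).card = s.card := by
  refine card_image_of_injOn fun p hp q hq he => (h p hp q hq).1 he

theorem CohS.coh {a : V → V → Bool} {s : Finset (V × Bool)} (h : CohS a s) : Coh a (pr s) := by
  intro u hu v hv w hw huv hvw huw
  simp only [pr, mem_image] at hu hv hw
  obtain ⟨p, hp, rfl⟩ := hu
  obtain ⟨q, hq, rfl⟩ := hv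
  obtain ⟨r, hr, rfl⟩ := hw
  rw [(h p hp q hq).2 huv, (h q hq r hr).2 hvw, (h p hp r hr).2 huw]
  cases p.2 <;> cases q.2 <;> cases r.2 <;> rfl

/-- the lift of `S` with signs `ε` -/
def lift (ε : V → Bool) (S : Finset V) : Finset (V × Bool) :=
  S.map ⟨fun v => (v, ε v), fun u v h => (Prod.ext_iff.mp h).1⟩

theorem mem_lift {ε : V → Bool} {S : Finset V} {p : V × Bool} :
    p ∈ lift ε S ↔ p.1 ∈ S ∧ p.2 = ε p.1 := by
  simp only [lift, mem_map, Function.Embedding.coeFn_mk]
  constructor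
  · rintro ⟨v, hv, rfl⟩; exact ⟨hv, rfl⟩
  · rintro ⟨h1, h2⟩; exact ⟨p.1, h1, Prod.ext rfl h2.symm⟩

theorem pr_lift (ε : V → Bool) (S : Finset V) : pr (lift ε S) = S := by
  ext v
  simp only [pr, mem_image, mem_lift]
  constructor
  · rintro ⟨p, ⟨h1, _⟩, rfl⟩; exact h1
  · intro h; exact ⟨(v, ε v), ⟨h, rfl⟩, rfl⟩

/-- `ε` is a choice of signs which makes `S` coherent -/
def IsSgn (a : V → V → Bool) (ε : V → Bool) (S : Finset V) : Prop :=
  ∀ u ∈ S, ∀ v ∈ S, u ≠ v → a u v = xor (ε u) (ε v)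

theorem IsSgn.cohS {a : V → V → Bool} {ε : V → Bool} {S : Finset V} (h : IsSgn a ε S) :
    CohS a (lift ε S) := by
  intro p hp q hq
  rw [mem_lift] at hp hq
  refine ⟨fun he => Prod.ext he (by rw [hp.2, hq.2, he]), fun hne => ?_⟩
  rw [h _ hp.1 _ hq.1 hne, hp.2, hq.2]

theorem IsSgn.coh {a : V → V → Bool} {ε : V → Bool} {S : Finset V} (h : IsSgn a ε S) :
    Coh a S := by
  have := h.cohS.coh
  rwa [pr_lift] at this

/-- signs relative to a base vertex -/
def sgn (a : V → V → Bool) (b : V) (c : Bool) (v : V) : Bool :=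
  if v = b then c else xor c (a b v)

theorem Coh.isSgn {a : V → V → Bool} (ha : ∀ u v, a u v = a v u) {S : Finset V} (h : Coh a S)
    {b : V} (hb : b ∈ S) (c : Bool) : IsSgn a (sgn a b c) S := by
  intro u hu v hv huv
  unfold sgn
  by_cases h1 : u = b
  · subst h1
    rw [if_pos rfl, if_neg huv.symm]
    cases c <;> simp
  · by_cases h2 : v = b
    · subst h2
      rw [if_neg h1, if_pos rfl, ha u v]
      cases c <;> simp
    · rw [if_neg h1, if_neg h2, ← h u hu b hb v hv h1 (Ne.symm h2) huv, ha u b]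
      cases c <;> simp

theorem Coh.exists_isSgn {a : V → V → Bool} (ha : ∀ u v, a u v = a v u) {S : Finset V}
    (h : Coh a S) : ∃ ε, IsSgn a ε S := by
  rcases S.eq_empty_or_nonempty with rfl | ⟨b, hb⟩
  · exact ⟨fun _ => false, by intro u hu; simp at hu⟩
  · exact ⟨_, h.isSgn ha hb false⟩

/-- a coherent signed set is the lift of its vertex set -/
theorem CohS.eq_lift {a : V → V → Bool} (ha : ∀ u v, a u v = a v u) {s : Finset (V × Bool)}
    (h : CohS a s) {b : V} (hb : b ∈ pr s) :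
    s = lift (sgn a b true) (pr s) ∨ s = lift (sgn a b false) (pr s) := by
  simp only [pr, mem_image] at hb
  obtain ⟨p, hp, rfl⟩ := hb
  have key : s = lift (sgn a p.1 p.2) (pr s) := by
    ext q
    rw [mem_lift]
    constructor
    · intro hq
      refine ⟨mem_pr hq, ?_⟩
      unfold sgn
      by_cases he : q.1 = p.1
      · rw [if_pos he, (h q hq p hp).1 he]
      · rw [if_neg he, (h p hp q hq).2 (Ne.symm he)]
        cases p.2 <;> simp
    · rintro ⟨h1, h2⟩
      simp only [pr, mem_image] at h1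
      obtain ⟨r, hr, he⟩ := h1
      have : r.2 = q.2 := by
        rw [h2]
        unfold sgn
        by_cases he' : q.1 = p.1
        · rw [if_pos he', (h r hr p hp).1 (he.trans he')]
        · rw [if_neg he', ← he, (h p hp r hr).2 (by rw [he]; exact Ne.symm he')]
          cases p.2 <;> simp
      rw [← Prod.ext he this]; exact hr
  rcases hb2 : p.2 with _ | _
  · right; rw [hb2] at key; exact key
  · left; rw [hb2] at key; exact key

variable [Fintype V]

/-- the coherent sets satisfying `F` carry a `k`-cycle of odd index -/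
def PF (a : V → V → Bool) (k : ℕ) (F : Finset V → Prop) : Prop :=
  ∃ z, IsWit k (fun s => CohS a s ∧ F (pr s)) z

/-- the coherent subsets of `U` carry a `k`-cycle of odd index -/
def P (a : V → V → Bool) (k : ℕ) (U : Finset V) : Prop := PF a k (fun ρ => ρ ⊆ U)

theorem PF.mono {a : V → V → Bool} {k : ℕ} {F G : Finset V → Prop} (h : PF a k F)
    (hFG : ∀ ρ, Coh a ρ → ρ.card = k + 1 → F ρ → G ρ) : PF a k G := by
  obtain ⟨z, hz⟩ := h
  refine ⟨z, ⟨fun s hs => ?_, hz.cycle, hz.ess⟩⟩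
  obtain ⟨h1, h2⟩ := hz.supp s hs
  exact ⟨h1, hFG _ h1.coh (by rw [card_pr h1, hz.card hs]) h2⟩

theorem P.mono {a : V → V → Bool} {k : ℕ} {U W : Finset V} (h : P a k U) (hUW : U ⊆ W) :
    P a k W := PF.mono h fun _ _ _ h => h.trans hUW

theorem P.card_lt {a : V → V → Bool} {k : ℕ} {U : Finset V} (h : P a k U) : k < U.card := by
  obtain ⟨z, hz⟩ := h
  obtain ⟨s, hs⟩ := hz.ne_zero
  obtain ⟨h1, h2⟩ := hz.supp s hs
  have := card_le_card h2
  rw [card_pr h1, hz.card hs] at this
  omega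

/-- (B) exchange: the set `Z` of (vertex sets of) simplices of the cycle -/
theorem PF.exchange {a : V → V → Bool} {k : ℕ} {F : Finset V → Prop} (h : PF a (k + 1) F) :
    ∃ Z : Set (Finset V), Z.Nonempty ∧ (∀ s ∈ Z, F s ∧ s.card = k + 2 ∧ Coh a s) ∧
      ∀ s ∈ Z, ∀ t ∈ s, ∃ v, v ∉ s ∧ insert v (s.erase t) ∈ Z := by
  obtain ⟨z, hz⟩ := h
  refine ⟨{ρ | ∃ s, z s ≠ 0 ∧ pr s = ρ}, ?_, ?_, ?_⟩
  · obtain ⟨s, hs⟩ := hz.ne_zero
    exact ⟨pr s, s, hs, rfl⟩
  · rintro ρ ⟨s, hs, rfl⟩
    obtain ⟨h1, h2⟩ := hz.supp s hs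
    exact ⟨h2, by rw [card_pr h1, hz.card hs], h1.coh⟩
  · rintro ρ ⟨s, hs, rfl⟩ t ht
    simp only [pr, mem_image] at ht
    obtain ⟨p, hp, rfl⟩ := ht
    obtain ⟨v, hv, hzv⟩ := hz.exchange hs hp
    obtain ⟨h1, _⟩ := hz.supp s hs
    obtain ⟨h3, _⟩ := hz.supp _ hzv
    have hpr : pr (insert v (s.erase p)) = insert v.1 ((pr s).erase p.1) := by
      ext u
      simp only [pr, mem_image, mem_insert, mem_erase]
      constructor
      · rintro ⟨q, rfl | ⟨hqp, hq⟩, rfl⟩
        · left; rfl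
        · right
          exact ⟨fun he => hqp ((h1 q hq p hp).1 he), q, hq, rfl⟩
      · rintro (rfl | ⟨hne, q, hq, rfl⟩)
        · exact ⟨v, Or.inl rfl, rfl⟩
        · exact ⟨q, Or.inr ⟨fun he => hne (by rw [he]), hq⟩, rfl⟩
    have hcard : (pr (insert v (s.erase p))).card = k + 2 := by rw [card_pr h3, hz.card hzv]
    by_cases hvs : v.1 ∈ pr s
    · exfalso
      by_cases hvp : v.1 = p.1
      · -- v = neg p
        have hvne : v ≠ p := fun he => hv (he ▸ hp)
        have hne : (s.erase p).Nonempty := by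
          rw [← card_pos, card_erase_of_mem hp, hz.card hs]; omega
        obtain ⟨q, hq⟩ := hne
        have hqs := mem_of_mem_erase hq
        have hqp : q ≠ p := ne_of_mem_erase hq
        have hq1 : q.1 ≠ p.1 := fun he => hqp ((h1 q hqs p hp).1 he)
        have e1 := (h1 p hp q hqs).2 hq1.symm
        have e2 := (h3 v (mem_insert_self _ _) q (mem_insert_of_mem hq)).2
          (by rw [hvp]; exact hq1.symm)
        rw [hvp, e1] at e2
        apply hvne
        refine Prod.ext hvp ?_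
        revert e2
        cases p.2 <;> cases v.2 <;> cases q.2 <;> simp
      · have : v.1 ∈ (pr s).erase p.1 := mem_erase.mpr ⟨hvp, hvs⟩
        rw [hpr, insert_eq_of_mem this, card_erase_of_mem (mem_pr hp), card_pr h1,
          hz.card hs] at hcard
        omega
    · exact ⟨v.1, hvs, _, hzv, hpr⟩

/-- the recursion, with covering statement, for signed sets -/
theorem P.step_signed {a : V → V → Bool} {k : ℕ} {U S : Finset V} {ε : V → Bool}
    (h : P a (k + 1) U) (hS : IsSgn a ε S) :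
    ∃ y, IsWit k (fun r => (CohS a r ∧ pr r ⊆ U \ S) ∧ ((∃ x ∈ lift ε S, CohS a (insert x r)) ∨
      ∃ x, x ∉ r ∧ CohS a (insert x r) ∧ pr (insert x r) ⊆ U \ S)) y := by
  obtain ⟨z, hz⟩ := h
  obtain ⟨y, hy⟩ := hz.step (lift ε S) (by
    intro s hs p hp hps q hq hqs
    obtain ⟨h1, _⟩ := hz.supp s hs
    rw [mem_lift] at hp hq
    by_cases he : p.1 = q.1
    · have : p = q := Prod.ext he (by rw [hp.2, hq.2, he])
      subst this
      exact h1.af p hps hqs
    · have h2 := (h1 p hps _ hqs).2 he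
      rw [neg_fst, hS _ hp.1 _ hq.1 he, hp.2] at h2
      simp only [neg_apply, hq.2] at h2
      revert h2
      cases ε p.1 <;> cases ε q.1 <;> simp)
  have hpr : ∀ (x : V × Bool) (r : Finset (V × Bool)), pr (insert x r) = insert x.1 (pr r) := by
    intro x r
    simp [pr, image_insert]
  refine ⟨y, ⟨fun r hr => ?_, hy.cycle, hy.ess⟩⟩
  obtain ⟨h1, h2⟩ := hy.supp r hr
  have hnS : ∀ (s : Finset (V × Bool)), (∀ p ∈ lift ε S, p ∉ s ∧ neg p ∉ s) →
      ∀ v ∈ pr s, v ∉ S := by
    intro s hs v hv hvS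
    simp only [pr, mem_image] at hv
    obtain ⟨q, hq, rfl⟩ := hv
    have h3 := hs (q.1, ε q.1) (mem_lift.mpr ⟨hvS, rfl⟩)
    by_cases he : q.2 = ε q.1
    · exact h3.1 (by rw [← he]; exact hq)
    · refine h3.2 ?_
      have : q = neg (q.1, ε q.1) := Prod.ext rfl (by simpa using Bool.eq_not_of_ne he)
      rw [← this]; exact hq
  have hex : ∃ x, z (insert x r) ≠ 0 := by
    rcases h2 with ⟨x, _, hx⟩ | ⟨x, _, hx, _⟩ <;> exact ⟨x, hx⟩
  obtain ⟨x, hx⟩ := hex
  obtain ⟨h3, h4⟩ := hz.supp _ hx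
  have hrU : pr r ⊆ U \ S := by
    intro v hv
    refine mem_sdiff.mpr ⟨h4 ?_, hnS r h1 v hv⟩
    rw [hpr]; exact mem_insert_of_mem hv
  refine ⟨⟨h3.subset (subset_insert _ _), hrU⟩, ?_⟩
  rcases h2 with ⟨x, hx, hzx⟩ | ⟨x, hxr, hzx, hx2⟩
  · left
    exact ⟨x, hx, (hz.supp _ hzx).1⟩
  · right
    obtain ⟨h5, h6⟩ := hz.supp _ hzx
    refine ⟨x, hxr, h5, fun v hv => mem_sdiff.mpr ⟨h6 hv, hnS _ hx2 v hv⟩⟩

/-- (A) the recursion -/
theorem P.step {a : V → V → Bool} (ha : ∀ u v, a u v = a v u) {k : ℕ} {U S : Finset V}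
    (h : P a (k + 1) U) (hS : Coh a S) : P a k (U \ S) := by
  obtain ⟨ε, hε⟩ := hS.exists_isSgn ha
  obtain ⟨y, hy⟩ := h.step_signed hε
  exact ⟨y, ⟨fun r hr => (hy.supp r hr).1, hy.cycle, hy.ess⟩⟩

/-- `ρ` is unavoidable: every witness for `W` uses it -/
def Must (a : V → V → Bool) (k : ℕ) (W ρ : Finset V) : Prop :=
  ¬ PF a k (fun σ => σ ⊆ W ∧ σ ≠ ρ)

/-- (D) the covering lemma: let `S` be coherent with signs `ε`, and `ρ` an unavoidable set of
`U \ S`. Then for each of the two choices of signs for `ρ`, either some vertex `t` of `S` has the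
same signs to all vertices of `ρ`, or `ρ` lies in a coherent set of `U \ S` with one more element.
-/
theorem P.cover {a : V → V → Bool} (ha : ∀ u v, a u v = a v u) {k : ℕ} {U S ρ : Finset V}
    {ε : V → Bool} (h : P a (k + 1) U) (hS : IsSgn a ε S) (hM : Must a k (U \ S) ρ)
    {b : V} (hb : b ∈ ρ) (c : Bool) :
    (∃ t ∈ S, ∀ v ∈ ρ, a t v = xor (ε t) (sgn a b c v)) ∨
      ∃ w ∈ U \ S, w ∉ ρ ∧ Coh a (insert w ρ) := by
  obtain ⟨y, hy⟩ := h.step_signed hS
  have h1 : ∃ r, y r ≠ 0 ∧ pr r = ρ := by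
    by_contra hn
    push Not at hn
    refine hM ⟨y, ⟨fun r hr => ?_, hy.cycle, hy.ess⟩⟩
    exact ⟨(hy.supp r hr).1.1, (hy.supp r hr).1.2, hn r hr⟩
  have h2 : ∃ r, y r ≠ 0 ∧ pr r = ρ ∧ r = lift (sgn a b c) ρ := by
    obtain ⟨r, hr, hrρ⟩ := h1
    have hc := (hy.supp r hr).1.1
    have hneg : Pool.Agent.RP5.negS (lift (sgn a b (!c)) ρ) = lift (sgn a b c) ρ := by
      ext p
      rw [mem_negS, mem_lift, mem_lift, neg_fst]
      refine and_congr_right fun _ => ?_
      unfold sgn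
      simp only [neg_apply]
      split_ifs <;> cases p.2 <;> cases c <;> simp
    have h3 : r = lift (sgn a b c) ρ ∨ r = lift (sgn a b (!c)) ρ := by
      have := hc.eq_lift ha (b := b) (by rw [hrρ]; exact hb)
      rw [hrρ] at this
      cases c
      · simpa using this.symm
      · simpa using this
    rcases h3 with h3 | h3
    · exact ⟨r, hr, hrρ, h3⟩
    · refine ⟨Pool.Agent.RP5.negS r, ?_, by rw [pr_negS, hrρ], by rw [h3, hneg]⟩
      rw [hy.symm_apply]; exact hr
  obtain ⟨r, hr, hrρ, hrl⟩ := h2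
  obtain ⟨⟨h3, h4⟩, h5⟩ := hy.supp r hr
  have hpr : ∀ (x : V × Bool) (r : Finset (V × Bool)), pr (insert x r) = insert x.1 (pr r) := by
    intro x r
    simp [pr, image_insert]
  rcases h5 with ⟨x, hx, hxr⟩ | ⟨x, hx, hxr, hxU⟩
  · left
    rw [mem_lift] at hx
    refine ⟨x.1, hx.1, fun v hv => ?_⟩
    have hvr : (v, sgn a b c v) ∈ r := by rw [hrl, mem_lift]; exact ⟨hv, rfl⟩
    have hvS : v ∉ S := by
      rw [← hrρ] at hv
      exact (mem_sdiff.mp (h4 hv)).2
    have := (hxr x (mem_insert_self _ _) _ (mem_insert_of_mem hvr)).2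
      (fun he => hvS (by rw [← show x.1 = v from he]; exact hx.1))
    rw [this, hx.2]
  · right
    refine ⟨x.1, hxU (by rw [hpr]; exact mem_insert_self _ _), ?_, ?_⟩
    · intro hxρ
      -- then `x = ` the element of `r` over `x.1`
      rw [← hrρ] at hxρ
      simp only [pr, mem_image] at hxρ
      obtain ⟨q, hq, he⟩ := hxρ
      have := (hxr q (mem_insert_of_mem hq) x (mem_insert_self _ _)).1 he
      exact hx (this ▸ hq)
    · have := hxr.coh
      rw [hpr, hrρ] at this
      exact this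

end Pool.Agent.RP5
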