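import Pool.Agent.RP5.Grid
import Pool.Agent.RP5.Defs

/-!
# Antipodal coherent open covers of the sphere give witnesses
-/

set_option autoImplicit false
set_option linter.unusedSectionVars false

open Finset

namespace Pool.Agent.RP5

section map
variable {k : ℕ}

/-- the map to `ℝ^(k+1) \ 0` -/
noncomputable def GG (x : Fin k → ℝ) : EuclideanSpace ℝ (Fin (k + 1)) :=
  WithLp.toLp 2 (Fin.cons (1 - ‖x‖) x)

theorem GG_zero (x : Fin k → ℝ) : GG x 0 = 1 - ‖x‖ := by simp [GG]

theorem GG_succ (x : Fin k → ℝ) (i : Fin k) : GG x i.succ = x i := by simp [GG]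

theorem continuous_GG : Continuous (GG : (Fin k → ℝ) → EuclideanSpace ℝ (Fin (k + 1))) := by
  unfold GG
  refine (PiLp.continuous_toLp 2 _).comp ?_
  refine continuous_pi fun i => ?_
  refine Fin.cases ?_ (fun j => ?_) i
  · simp only [Fin.cons_zero]
    fun_prop
  · simp only [Fin.cons_succ]
    fun_prop

theorem GG_ne_zero (x : Fin k → ℝ) : GG x ≠ 0 := by
  intro h
  have h0 : x = 0 := by
    funext i
    have := GG_succ x i
    rw [h] at this
    simpa using this.symm
  have h1 := GG_zero x
  rw [h, h0] at h1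
  simp at h1

/-- the map to the sphere -/
noncomputable def gg (x : Fin k → ℝ) : Sph k :=
  ⟨(‖GG x‖)⁻¹ • GG x, by
    rw [mem_sphere_zero_iff_norm, norm_smul, norm_inv, norm_norm]
    exact inv_mul_cancel₀ (norm_ne_zero_iff.mpr (GG_ne_zero x))⟩

theorem continuous_gg : Continuous (gg : (Fin k → ℝ) → Sph k) := by
  refine Continuous.subtype_mk ?_ _
  exact (continuous_GG.norm.inv₀ fun x => norm_ne_zero_iff.mpr (GG_ne_zero x)).smul continuous_GG

theorem gg_neg {x : Fin k → ℝ} (hx : ‖x‖ = 1) : gg (-x) = -gg x := by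
  have h : GG (-x) = -GG x := by
    ext i
    refine Fin.cases ?_ (fun j => ?_) i
    · rw [GG_zero, PiLp.neg_apply, GG_zero, norm_neg, hx]; simp
    · rw [GG_succ, PiLp.neg_apply, GG_succ]; rfl
  refine Subtype.ext ?_
  simp only [gg, h, norm_neg, smul_neg]
  rfl

end map

theorem ne_neg_sph {k : ℕ} (y : Sph k) : -y ≠ y := by
  intro h
  have h1 : -(y : EuclideanSpace ℝ (Fin (k + 1))) = y := congrArg Subtype.val h
  have h2 : (y : EuclideanSpace ℝ (Fin (k + 1))) = 0 := by
    have : (2 : ℝ) • (y : EuclideanSpace ℝ (Fin (k + 1))) = 0 := by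
      rw [two_smul]
      nth_rw 1 [← h1]
      exact neg_add_cancel _
    exact (smul_eq_zero.mp this).resolve_left two_ne_zero
  have h3 := y.2
  rw [mem_sphere_zero_iff_norm, h2, norm_zero] at h3
  exact zero_ne_one h3

variable {V : Type*} [DecidableEq V] [Fintype V]

/-- **Cover theorem.** -/
theorem P_of_cover {k : ℕ} {a : V → V → Bool} (A : V × Bool → Set (Sph k))
    (hA : ∀ p, IsOpen (A p)) (hcov : ∀ y, ∃ p, y ∈ A p) (hneg : ∀ y p, y ∈ A p → -y ∈ A (neg p))
    (hcoh : ∀ y p q, y ∈ A p → y ∈ A q →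
      (p.1 = q.1 → p = q) ∧ (p.1 ≠ q.1 → a p.1 q.1 = xor p.2 q.2)) : P a k univ := by
  classical
  obtain ⟨δ, hδ, hleb⟩ := lebesgue_number_lemma_of_metric (isCompact_univ (X := Sph k)) hA
    (fun y _ => Set.mem_iUnion.mpr (hcov y))
  choose p0 hp0 using fun y => hleb y (Set.mem_univ _)
  let R : Sph k → Sph k → Prop := WellOrderingRel
  have hwf : WellFounded R := IsWellFounded.wf
  let lam0 : Sph k → V × Bool := fun y => if R y (-y) then p0 y else neg (p0 (-y))
  have hlam0 : ∀ y, Metric.ball y δ ⊆ A (lam0 y) := by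
    intro y
    simp only [lam0]
    split_ifs with h
    · exact hp0 y
    · intro z hz
      have h1 : -z ∈ Metric.ball (-y) δ := by
        rw [Metric.mem_ball] at hz ⊢
        rwa [Subtype.dist_eq, show ((-z : Sph k) : EuclideanSpace ℝ (Fin (k + 1))) = -z.1 from rfl,
          show ((-y : Sph k) : EuclideanSpace ℝ (Fin (k + 1))) = -y.1 from rfl, dist_neg_neg]
      have h2 := hneg _ _ (hp0 (-y) h1)
      rwa [neg_neg] at h2
  have hanti0 : ∀ y, lam0 (-y) = neg (lam0 y) := by
    intro y
    simp only [lam0, neg_neg]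
    by_cases h : R y (-y)
    · rw [if_pos h, if_neg (hwf.asymmetric _ _ h)]
    · have h' : R (-y) y := by
        rcases trichotomous_of R y (-y) with h3 | h3 | h3
        · exact absurd h3 h
        · exact absurd h3.symm (ne_neg_sph y)
        · exact h3
      rw [if_neg h, if_pos h', neg_neg']
  -- uniform continuity
  have huc : UniformContinuousOn (gg : (Fin k → ℝ) → Sph k) (Metric.closedBall 0 1) :=
    (isCompact_closedBall 0 1).uniformContinuousOn_of_continuous continuous_gg.continuousOn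
  rw [Metric.uniformContinuousOn_iff] at huc
  obtain ⟨η, hη, huc⟩ := huc δ hδ
  obtain ⟨N, hN⟩ := exists_nat_gt (1 / η)
  have hN0 : 0 < N := by
    have : (0 : ℝ) < N := lt_trans (by positivity) hN
    exact_mod_cast this
  have hN0' : (0 : ℝ) < N := by exact_mod_cast hN0
  have h2N : (0 : ℝ) < 2 * N := by positivity
  let xm : (Fin k → ℤ) → (Fin k → ℝ) := fun m i => (m i : ℝ) / (2 * N)
  have hxm : ∀ m : Fin k → ℤ, (∀ i, |m i| ≤ 2 * N) → xm m ∈ Metric.closedBall (0 : Fin k → ℝ) 1 := by
    intro m hm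
    rw [mem_closedBall_zero_iff, pi_norm_le_iff_of_nonneg zero_le_one]
    intro i
    simp only [xm]
    rw [Real.norm_eq_abs, abs_div, abs_of_pos h2N, div_le_one h2N]
    have := hm i
    have h3 : ((|m i| : ℤ) : ℝ) ≤ ((2 * N : ℤ) : ℝ) := by exact_mod_cast this
    push_cast at h3
    exact h3
  refine P_of_grid hN0 (fun m => lam0 (gg (xm m))) ?_ ?_
  · intro m hm hb
    have h1 : xm (-m) = -xm m := by
      funext i
      simp only [xm, Pi.neg_apply, Int.cast_neg, neg_div]
    have h2 : ‖xm m‖ = 1 := by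
      refine le_antisymm (mem_closedBall_zero_iff.mp (hxm m hm)) ?_
      obtain ⟨i, hi⟩ := hb
      refine le_trans (le_of_eq ?_) (norm_le_pi_norm (xm m) i)
      simp only [xm]
      rw [Real.norm_eq_abs, abs_div, abs_of_pos h2N, eq_comm, div_eq_one_iff_eq h2N.ne']
      have h3 : ((|m i| : ℤ) : ℝ) = ((2 * N : ℤ) : ℝ) := by exact_mod_cast hi
      push_cast at h3
      exact h3
    change lam0 (gg (xm (-m))) = neg (lam0 (gg (xm m)))
    rw [h1, gg_neg h2, hanti0]
  · intro m hm m' hm' m'' hm''
    have key : ∀ m' : Fin k → ℤ, IsFace m' m → gg (xm m) ∈ A (lam0 (gg (xm m'))) := by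
      intro m' hm'
      refine hlam0 _ ?_
      rw [Metric.mem_ball]
      refine huc _ (hxm m hm) _ (hxm m' (abs_face hm' hm)) ?_
      rw [dist_pi_lt_iff hη]
      intro i
      simp only [xm]
      rw [Real.dist_eq, ← sub_div, abs_div, abs_of_pos h2N]
      have h4 : |(m i : ℝ) - (m' i : ℝ)| ≤ 1 := by
        have : |m i - m' i| ≤ 1 := by
          rcases hm' i with h | ⟨_, h | h⟩
          · rw [h]; simp
          · rw [h, abs_le]; omega
          · rw [h, abs_le]; omega
        have h5 : ((|m i - m' i| : ℤ) : ℝ) ≤ 1 := by exact_mod_cast this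
        push_cast at h5
        exact h5
      calc |(m i : ℝ) - (m' i : ℝ)| / (2 * N) ≤ 1 / (2 * N) := by gcongr
        _ < 1 / N := by
            apply one_div_lt_one_div_of_lt hN0'
            linarith
        _ < η := by
            rw [div_lt_iff₀ hN0']
            rw [div_lt_iff₀ hη] at hN
            linarith
    exact hcoh _ _ _ (key m' hm') (key m'' hm'')

end Pool.Agent.RP5
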