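import Pool.Agent.RP5.Sphere

/-!
# Triangulations of real projective space give witnesses
-/

set_option autoImplicit false
set_option linter.unusedSectionVars false

open Finset

namespace Pool.Agent.RP5

section action
variable {k : ℕ}

/-- the action of the two element group on the sphere -/
noncomputable def act (k : ℕ) : MulAction ℤˣ (Sph k) where
  smul u y := if u = 1 then y else -y
  one_smul y := if_pos rfl
  mul_smul u v y := by
    change (if u * v = 1 then y else -y) = if u = 1 then (if v = 1 then y else -y) else
      -(if v = 1 then y else -y)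
    rcases Int.units_eq_one_or u with rfl | rfl <;> rcases Int.units_eq_one_or v with rfl | rfl <;>
      simp

theorem isCoveringMap_mk (k : ℕ) {Y : Type*} [TopologicalSpace Y] (φ : RP k ≃ₜ Y) :
    IsCoveringMap (φ ∘ Quotient.mk (antipodal k)) := by
  letI := act k
  have hsmul : ∀ (u : ℤˣ) (y : Sph k), u • y = if u = 1 then y else -y := fun _ _ => rfl
  have hq : IsQuotientCoveringMap (Quotient.mk (antipodal k)) ℤˣ := by
    refine ⟨isQuotientMap_quotient_mk', ⟨fun u => ?_⟩, ?_, ?_⟩
    · rcases Int.units_eq_one_or u with rfl | rfl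
      · simp only [one_smul]; exact continuous_id
      · have : (fun y : Sph k => (-1 : ℤˣ) • y) = fun y => -y := by
          funext y; rw [hsmul, if_neg (by decide)]
        rw [this]
        exact continuous_neg
    · intro x y
      rw [Quotient.eq]
      constructor
      · rintro (h | h)
        · exact ⟨1, by rw [h]; exact one_smul _ _⟩
        · refine ⟨-1, ?_⟩
          change (-1 : ℤˣ) • y = x
          rw [hsmul, if_neg (by decide), h]
      · rintro ⟨u, hu⟩
        change u • y = x at hu
        rw [hsmul] at hu
        split_ifs at hu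
        · exact Or.inl hu.symm
        · exact Or.inr hu.symm
    · intro e
      refine ⟨Metric.ball e 1, Metric.ball_mem_nhds e one_pos, fun g hg => ?_⟩
      by_contra hne
      obtain ⟨y, ⟨z, hz, hzy⟩, hy⟩ := hg
      change g • z = y at hzy
      rw [hsmul, if_neg hne] at hzy
      subst hzy
      rw [Metric.mem_ball, Subtype.dist_eq] at hz hy
      have h1 : dist (z : EuclideanSpace ℝ (Fin (k + 1))) (-z) < 2 := by
        calc dist (z : EuclideanSpace ℝ (Fin (k + 1))) (-z) ≤
            dist (z : EuclideanSpace ℝ (Fin (k + 1))) e + dist (e : EuclideanSpace ℝ (Fin (k + 1))) (-z) :=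
              dist_triangle _ _ _
          _ < 1 + 1 := by
              refine add_lt_add hz ?_
              rw [dist_comm]; exact hy
          _ = 2 := by norm_num
      rw [dist_eq_norm, sub_neg_eq_add, ← two_smul ℝ, norm_smul,
        mem_sphere_zero_iff_norm.mp z.2] at h1
      norm_num at h1
  exact (hq.homeomorph_comp φ).isCoveringMap

end action

section realization
variable {V : Type*} [Fintype V] {K : AbstractSimplicialComplex V}

theorem mem_realization_of {x y : V → ℝ} (hx : x ∈ realization K) (hy : y ∈ stdSimplex ℝ V)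
    (h : ∀ w, x w = 0 → y w = 0) : y ∈ realization K := by
  classical
  refine ⟨hy, (K.isRelLowerSet_faces hx.2).2 ?_ ?_⟩
  · intro w hw
    rw [mem_filter] at hw ⊢
    exact ⟨mem_univ _, fun h' => hw.2 (h w h')⟩
  · by_contra hne
    rw [not_nonempty_iff_eq_empty, filter_eq_empty_iff] at hne
    have h1 := hy.2
    rw [sum_eq_zero (fun w hw => not_not.mp (hne hw))] at h1
    exact zero_ne_one h1

theorem comb_mem {x y : V → ℝ} (hx : x ∈ realization K) (hy : y ∈ stdSimplex ℝ V)
    (h : ∀ w, x w = 0 → y w = 0) {t : ℝ} (ht : t ∈ Set.Icc (0 : ℝ) 1) :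
    (1 - t) • y + t • x ∈ realization K := by
  refine mem_realization_of hx (convex_stdSimplex ℝ V hy hx.1 (by linarith [ht.2]) ht.1 (by ring)) ?_
  intro w hw
  simp [hw, h w hw]

theorem single_mem_std [DecidableEq V] (v : V) : (Pi.single v (1 : ℝ) : V → ℝ) ∈ stdSimplex ℝ V :=
  single_mem_stdSimplex ℝ v

end realization

section main
open unitInterval
variable {V : Type*} [Fintype V] [DecidableEq V] {K : AbstractSimplicialComplex V}

/-- sections of the covering over the open stars of the vertices -/
theorem exists_section {E : Type*} [TopologicalSpace E] {q : E → realization K}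
    (cov : IsCoveringMap q) (hsur : Function.Surjective q) (v : V) :
    ∃ s : realization K → E, (∀ x : realization K, 0 < x.1 v → q (s x) = x) ∧
      ContinuousOn s {x | 0 < x.1 v} := by
  classical
  let A := {x : realization K // 0 < x.1 v}
  have hcomb : ∀ (t : I) (x : A), (1 - (t : ℝ)) • (Pi.single v (1 : ℝ) : V → ℝ) + (t : ℝ) • x.1.1 ∈
      realization K := by
    intro t x
    refine comb_mem x.1.2 (single_mem_std v) (fun w hw => ?_) t.2
    have : w ≠ v := by
      rintro rfl
      exact absurd hw x.2.ne'
    simp [this]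
  let H : C(I × A, realization K) :=
    ⟨fun p => ⟨(1 - (p.1 : ℝ)) • (Pi.single v (1 : ℝ) : V → ℝ) + (p.1 : ℝ) • p.2.1.1,
      hcomb p.1 p.2⟩, by
      refine Continuous.subtype_mk ?_ _
      refine ((continuous_const.sub (continuous_subtype_val.comp continuous_fst)).smul
        continuous_const).add ((continuous_subtype_val.comp continuous_fst).smul ?_)
      exact continuous_subtype_val.comp (continuous_subtype_val.comp continuous_snd)⟩
  by_cases hA : Nonempty A
  · obtain ⟨x0⟩ := hA
    obtain ⟨y0, hy0⟩ := hsur (H (0, x0))
    let f : C(A, E) := ContinuousMap.const A y0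
    have H0 : ∀ x, H (0, x) = q (f x) := by
      intro x
      change H (0, x) = q y0
      rw [hy0]
      refine Subtype.ext ?_
      change (1 - ((0 : I) : ℝ)) • (Pi.single v (1 : ℝ) : V → ℝ) + ((0 : I) : ℝ) • x.1.1 =
        (1 - ((0 : I) : ℝ)) • (Pi.single v (1 : ℝ) : V → ℝ) + ((0 : I) : ℝ) • x0.1.1
      simp
    let L := cov.liftHomotopy H f H0
    have hL := cov.liftHomotopy_lifts H f H0
    refine ⟨fun x => if h : 0 < x.1 v then L (1, ⟨x, h⟩) else y0, ?_, ?_⟩
    · intro x hx
      simp only [dif_pos hx]
      have := congrFun hL (1, ⟨x, hx⟩)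
      change q (L (1, ⟨x, hx⟩)) = H (1, ⟨x, hx⟩) at this
      rw [this]
      refine Subtype.ext ?_
      change (1 - ((1 : I) : ℝ)) • (Pi.single v (1 : ℝ) : V → ℝ) + ((1 : I) : ℝ) • x.1 = x.1
      simp
    · rw [continuousOn_iff_continuous_domRestrict]
      have : Set.domRestrict {x : realization K | 0 < x.1 v}
          (fun x => if h : 0 < x.1 v then L (1, ⟨x, h⟩) else y0) =
          fun x : {x : realization K | 0 < x.1 v} => L (1, ⟨x.1, x.2⟩) := by
        funext x
        exact dif_pos x.2
      rw [this]
      exact L.continuous.comp (continuous_const.prodMk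
        (Continuous.subtype_mk continuous_subtype_val _))
  · refine ⟨fun x => (hsur x).choose, fun x hx => absurd ⟨⟨x, hx⟩⟩ hA, ?_⟩
    have : {x : realization K | 0 < x.1 v} = ∅ := by
      ext x
      simp only [Set.mem_ofPred_eq, Set.mem_empty_iff_false, iff_false]
      intro hx
      exact hA ⟨⟨x, hx⟩⟩
    rw [this]
    exact continuousOn_empty _

theorem isPreconnected_star (v w : V) :
    IsPreconnected {x : realization K | 0 < x.1 v ∧ 0 < x.1 w} := by
  classical
  by_cases hne : ∃ x : realization K, 0 < x.1 v ∧ 0 < x.1 w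
  · obtain ⟨x0, hx0⟩ := hne
    let m : V → ℝ := (1 / 2 : ℝ) • (Pi.single v (1 : ℝ) : V → ℝ) +
      (1 / 2 : ℝ) • (Pi.single w (1 : ℝ) : V → ℝ)
    have hm : m ∈ stdSimplex ℝ V := convex_stdSimplex ℝ V (single_mem_std v) (single_mem_std w)
      (by norm_num) (by norm_num) (by norm_num)
    have hmz : ∀ u, u ≠ v → u ≠ w → m u = 0 := by
      intro u h1 h2
      simp [m, h1, h2]
    have hmv : 0 < m v := by
      simp only [m, Pi.add_apply, Pi.smul_apply, Pi.single_eq_same, smul_eq_mul]
      have : (0 : ℝ) ≤ (Pi.single w (1 : ℝ) : V → ℝ) v := by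
        by_cases h : v = w
        · subst h; simp
        · simp [h]
      linarith
    have hmw : 0 < m w := by
      simp only [m, Pi.add_apply, Pi.smul_apply, Pi.single_eq_same, smul_eq_mul]
      have : (0 : ℝ) ≤ (Pi.single v (1 : ℝ) : V → ℝ) w := by
        by_cases h : w = v
        · subst h; simp
        · simp [h]
      linarith
    have hz : ∀ x : realization K, 0 < x.1 v ∧ 0 < x.1 w → ∀ u, x.1 u = 0 → m u = 0 := by
      intro x hx u hu
      refine hmz u ?_ ?_
      · rintro rfl; exact absurd hu hx.1.ne'
      · rintro rfl; exact absurd hu hx.2.ne'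
    have hmK : m ∈ realization K := mem_realization_of x0.2 hm (hz x0 hx0)
    refine isPreconnected_of_forall ⟨m, hmK⟩ ?_
    intro x hx
    let c : I → realization K := fun t => ⟨(1 - (t : ℝ)) • m + (t : ℝ) • x.1,
      comb_mem x.2 hm (hz x hx) t.2⟩
    have hc : Continuous c := by
      refine Continuous.subtype_mk ?_ _
      fun_prop
    refine ⟨Set.range c, ?_, ⟨0, ?_⟩, ⟨1, ?_⟩, isPreconnected_range hc⟩
    · rintro _ ⟨t, rfl⟩
      have h0 := t.2.1
      have h1 := t.2.2
      constructor
      · change 0 < (1 - (t : ℝ)) * m v + (t : ℝ) * x.1 v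
        rcases h0.eq_or_lt with h | h
        · rw [← h]; simpa using hmv
        · have := mul_pos h hx.1
          have := mul_nonneg (sub_nonneg.mpr h1) hmv.le
          linarith
      · change 0 < (1 - (t : ℝ)) * m w + (t : ℝ) * x.1 w
        rcases h0.eq_or_lt with h | h
        · rw [← h]; simpa using hmw
        · have := mul_pos h hx.2
          have := mul_nonneg (sub_nonneg.mpr h1) hmw.le
          linarith
    · refine Subtype.ext ?_
      change (1 - ((0 : I) : ℝ)) • m + ((0 : I) : ℝ) • x.1 = m
      simp
    · refine Subtype.ext ?_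
      change (1 - ((1 : I) : ℝ)) • m + ((1 : I) : ℝ) • x.1 = x.1
      simp
  · have : {x : realization K | 0 < x.1 v ∧ 0 < x.1 w} = ∅ := by
      ext x
      simp only [Set.mem_ofPred_eq, Set.mem_empty_iff_false, iff_false]
      intro hx
      exact hne ⟨x, hx⟩
    rw [this]
    exact isPreconnected_empty

/-- **Topological input.** If the geometric realization of a finite abstract simplicial complex is
homeomorphic to `RP^k`, then some signed complete graph on its vertices has the property `P`. -/
theorem exists_P {k : ℕ} (K : AbstractSimplicialComplex V) (e : realization K ≃ₜ RP k) :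
    ∃ a : V → V → Bool, (∀ u v, a u v = a v u) ∧ P a k univ := by
  classical
  let q : Sph k → realization K := e.symm ∘ Quotient.mk (antipodal k)
  have cov : IsCoveringMap q := isCoveringMap_mk k e.symm
  have hsur : Function.Surjective q := e.symm.surjective.comp Quotient.mk_surjective
  have hq : ∀ x y, q x = q y ↔ x = y ∨ x = -y := by
    intro x y
    change e.symm _ = e.symm _ ↔ _
    rw [e.symm.injective.eq_iff, Quotient.eq]
    rfl
  choose s hs1 hs2 using fun v => exists_section cov hsur v
  have hcase : ∀ v y, 0 < (q y).1 v → s v (q y) = y ∨ s v (q y) = -y := by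
    intro v y hy
    exact (hq _ _).mp (hs1 v (q y) hy)
  -- two sections agree up to a constant sign
  have hconst : ∀ v w, (∃ x : realization K, (0 < x.1 v ∧ 0 < x.1 w) ∧ s v x ≠ s w x) →
      ∀ x : realization K, 0 < x.1 v → 0 < x.1 w → s v x = -s w x := by
    rintro v w ⟨x0, hx0, hne⟩ x hxv hxw
    have : PreconnectedSpace {x : realization K | 0 < x.1 v ∧ 0 < x.1 w} :=
      isPreconnected_iff_preconnectedSpace.mp (isPreconnected_star v w)
    have h0 : s v x0 = -s w x0 := by
      rcases (hq _ _).mp ((hs1 v x0 hx0.1).trans (hs1 w x0 hx0.2).symm) with h | h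
      · exact absurd h hne
      · exact h
    have hc1 : Continuous (Set.domRestrict {x : realization K | 0 < x.1 v ∧ 0 < x.1 w} (s v)) := by
      rw [← continuousOn_iff_continuous_domRestrict]
      exact (hs2 v).mono fun x hx => hx.1
    have hc2 : Continuous (fun x => -Set.domRestrict {x : realization K | 0 < x.1 v ∧ 0 < x.1 w} (s w) x) := by
      refine Continuous.neg ?_
      rw [← continuousOn_iff_continuous_domRestrict]
      exact (hs2 w).mono fun x hx => hx.2
    have heq := cov.eq_of_comp_eq hc1 hc2 (by
      funext x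
      change q (s v x.1) = q (-s w x.1)
      rw [hs1 v x.1 x.2.1]
      have h2 : q (-s w x.1) = q (s w x.1) := (hq _ _).mpr (Or.inr rfl)
      rw [h2, hs1 w x.1 x.2.2]) ⟨x0, hx0⟩ h0
    exact congrFun heq ⟨x, hxv, hxw⟩
  let a : V → V → Bool := fun v w =>
    decide (∃ x : realization K, (0 < x.1 v ∧ 0 < x.1 w) ∧ s v x ≠ s w x)
  refine ⟨a, ?_, ?_⟩
  · intro u v
    simp only [a]
    congr 1
    refine propext (exists_congr fun x => ?_)
    rw [and_comm (a := 0 < x.1 u)]
    exact and_congr_right fun _ => ne_comm
  · refine P_of_cover (fun p => {y : Sph k | 0 < (q y).1 p.1 ∧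
      s p.1 (q y) = if p.2 then -y else y}) ?_ ?_ ?_ ?_
    · rintro ⟨v, b⟩
      have hW : IsOpen {y : Sph k | 0 < (q y).1 v} := by
        have : Continuous fun y : Sph k => (q y).1 v :=
          (continuous_apply v).comp (continuous_subtype_val.comp cov.continuous)
        exact isOpen_lt continuous_const this
      have hf : ContinuousOn (fun y : Sph k => inner ℝ (y : EuclideanSpace ℝ (Fin (k + 1)))
          (s v (q y) : EuclideanSpace ℝ (Fin (k + 1)))) {y : Sph k | 0 < (q y).1 v} := by
        refine ContinuousOn.inner (𝕜 := ℝ) continuous_subtype_val.continuousOn ?_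
        exact continuous_subtype_val.comp_continuousOn
          ((hs2 v).comp cov.continuous.continuousOn fun y hy => hy)
      have hyy : ∀ y : Sph k, inner ℝ (y : EuclideanSpace ℝ (Fin (k + 1)))
          (y : EuclideanSpace ℝ (Fin (k + 1))) = (1 : ℝ) := by
        intro y
        rw [real_inner_self_eq_norm_sq, mem_sphere_zero_iff_norm.mp y.2]; norm_num
      have hyn : ∀ y : Sph k, inner ℝ (y : EuclideanSpace ℝ (Fin (k + 1)))
          ((-y : Sph k) : EuclideanSpace ℝ (Fin (k + 1))) = (-1 : ℝ) := by
        intro y
        change inner ℝ (y : EuclideanSpace ℝ (Fin (k + 1)))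
          (-(y : EuclideanSpace ℝ (Fin (k + 1)))) = (-1 : ℝ)
        rw [inner_neg_right, hyy]
      cases b
      · have := hf.isOpen_inter_preimage hW (isOpen_Ioi (a := (0 : ℝ)))
        convert this using 1
        ext y
        simp only [Set.mem_ofPred_eq, Set.mem_inter_iff, Set.mem_preimage, Set.mem_Ioi]
        refine and_congr_right fun hy => ?_
        rcases hcase v y hy with h | h
        · rw [h, hyy]; simp
        · rw [h, hyn]; simp [ne_neg_sph y]
      · have := hf.isOpen_inter_preimage hW (isOpen_Iio (a := (0 : ℝ)))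
        convert this using 1
        ext y
        simp only [Set.mem_ofPred_eq, Set.mem_inter_iff, Set.mem_preimage, Set.mem_Iio]
        refine and_congr_right fun hy => ?_
        rcases hcase v y hy with h | h
        · rw [h, hyy]; simp [(ne_neg_sph y).symm]
        · rw [h, hyn]; simp
    · intro y
      obtain ⟨v, hv⟩ : ∃ v, 0 < (q y).1 v := by
        by_contra hne
        push Not at hne
        have h1 := (q y).2.1.2
        have h2 := (q y).2.1.1
        rw [sum_eq_zero fun w _ => le_antisymm (hne w) (h2 w)] at h1
        exact zero_ne_one h1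
      rcases hcase v y hv with h | h
      · exact ⟨(v, false), hv, by rw [h]; rfl⟩
      · exact ⟨(v, true), hv, by rw [h]; rfl⟩
    · rintro y ⟨v, b⟩ ⟨h1, h2⟩
      have hqn : q (-y) = q y := (hq _ _).mpr (Or.inr rfl)
      simp only [Set.mem_ofPred_eq, neg_apply] at h1 h2 ⊢
      rw [hqn]
      refine ⟨h1, ?_⟩
      rw [h2]
      cases b <;> simp
    · rintro y ⟨v, b⟩ ⟨w, c⟩ ⟨h1, h2⟩ ⟨h3, h4⟩
      simp only at h1 h2 h3 h4 ⊢
      refine ⟨fun he => ?_, fun hne => ?_⟩
      · subst he
        rw [h2] at h4
        have : b = c := by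
          cases b <;> cases c
          · rfl
          · exact absurd h4.symm (ne_neg_sph y)
          · exact absurd h4 (ne_neg_sph y)
          · rfl
        rw [this]
      · simp only [a]
        by_cases hex : ∃ x : realization K, (0 < x.1 v ∧ 0 < x.1 w) ∧ s v x ≠ s w x
        · have := hconst v w hex (q y) h1 h3
          rw [h2, h4] at this
          rw [decide_eq_true hex]
          cases b <;> cases c <;> simp at this ⊢
          · exact absurd this.symm (ne_neg_sph y)
          · exact absurd this (ne_neg_sph y)
        · rw [decide_eq_false hex]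
          have : s v (q y) = s w (q y) := by
            by_contra h5
            exact hex ⟨q y, ⟨h1, h3⟩, h5⟩
          rw [h2, h4] at this
          cases b <;> cases c <;> simp at this ⊢
          · exact absurd this.symm (ne_neg_sph y)
          · exact absurd this (ne_neg_sph y)

end main

end Pool.Agent.RP5
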