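import Pool.Agent.RP5.Signed

/-!
# Transfer of witnesses along injections and switchings
-/

set_option autoImplicit false
set_option linter.unusedSectionVars false

open Finset

namespace Pool.Agent.RP5

variable {V W : Type*} [DecidableEq V] [Fintype V] [DecidableEq W] [Fintype W]

/-- an equivariant injection of signed vertices, from an injection and a switching -/
def sgnEmb (f : W ↪ V) (δ : W → Bool) : W × Bool ↪ V × Bool :=
  ⟨fun p => (f p.1, xor p.2 (δ p.1)), by
    rintro ⟨u, b⟩ ⟨v, c⟩ h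
    simp only [Prod.mk.injEq] at h
    obtain ⟨h1, h2⟩ := h
    have := f.injective h1
    subst this
    refine Prod.ext rfl ?_
    simpa using h2⟩

theorem sgnEmb_apply (f : W ↪ V) (δ : W → Bool) (p : W × Bool) :
    sgnEmb f δ p = (f p.1, xor p.2 (δ p.1)) := rfl

theorem sgnEmb_neg (f : W ↪ V) (δ : W → Bool) (p : W × Bool) :
    sgnEmb f δ (neg p) = neg (sgnEmb f δ p) := by
  simp only [sgnEmb_apply, neg_apply]
  refine Prod.ext rfl ?_
  cases p.2 <;> cases δ p.1 <;> rfl

theorem negS_map (f : W ↪ V) (δ : W → Bool) (s : Finset (W × Bool)) :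
    negS (s.map (sgnEmb f δ)) = (negS s).map (sgnEmb f δ) := by
  ext p
  rw [mem_negS, mem_map, mem_map]
  constructor
  · rintro ⟨q, hq, he⟩
    refine ⟨neg q, ?_, ?_⟩
    · rw [mem_negS, neg_neg']; exact hq
    · rw [sgnEmb_neg, he, neg_neg']
  · rintro ⟨q, hq, he⟩
    refine ⟨neg q, mem_negS.mp hq, ?_⟩
    rw [sgnEmb_neg, he]

/-- pull back of chains -/
def pull (f : W ↪ V) (δ : W → Bool) (z : Ch V) : Ch W := fun s => z (s.map (sgnEmb f δ))

theorem pull_apply (f : W ↪ V) (δ : W → Bool) (z : Ch V) (s : Finset (W × Bool)) :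
    pull f δ z s = z (s.map (sgnEmb f δ)) := rfl

theorem pull_add (f : W ↪ V) (δ : W → Bool) (z w : Ch V) :
    pull f δ (z + w) = pull f δ z + pull f δ w := rfl

theorem pull_T (f : W ↪ V) (δ : W → Bool) (z : Ch V) : pull f δ (T z) = T (pull f δ z) := by
  funext s
  simp only [pull_apply, T_apply, negS_map]

/-- chains supported on the range -/
def InR (f : W ↪ V) (z : Ch V) : Prop := ∀ s, z s ≠ 0 → ∀ p ∈ s, p.1 ∈ Set.range f

theorem mem_range_sgnEmb (f : W ↪ V) (δ : W → Bool) {p : V × Bool} (h : p.1 ∈ Set.range f) :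
    ∃ q, sgnEmb f δ q = p := by
  obtain ⟨w, hw⟩ := h
  refine ⟨(w, xor p.2 (δ w)), ?_⟩
  rw [sgnEmb_apply]
  refine Prod.ext hw ?_
  simp

theorem pull_bd (f : W ↪ V) (δ : W → Bool) {z : Ch V} (hz : InR f z) :
    pull f δ (bd z) = bd (pull f δ z) := by
  classical
  funext r
  rw [pull_apply, bd_apply, bd_apply]
  symm
  refine sum_of_injOn (sgnEmb f δ) (sgnEmb f δ).injective.injOn (fun p _ => mem_coe.mpr (mem_univ _))
    ?_ ?_
  · intro p _ hp
    split_ifs with h
    · rfl
    · by_contra hne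
      apply hp
      obtain ⟨q, hq⟩ := mem_range_sgnEmb f δ (hz _ hne p (mem_insert_self _ _))
      exact ⟨q, mem_coe.mpr (mem_univ _), hq⟩
  · intro p _
    simp only [pull_apply, map_insert, mem_map']

theorem InR.bd {f : W ↪ V} {z : Ch V} (hz : InR f z) : InR f (bd z) := by
  intro r hr p hp
  obtain ⟨x, _, hx⟩ := exists_of_bd_ne hr
  exact hz _ hx p (mem_insert_of_mem hp)

theorem AF.of_map {f : W ↪ V} {δ : W → Bool} {s : Finset (W × Bool)}
    (h : AF (s.map (sgnEmb f δ))) : AF s := by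
  intro p hp hn
  refine h _ (mem_map_of_mem _ hp) ?_
  rw [← sgnEmb_neg]
  exact mem_map_of_mem _ hn

theorem Supp.pull {f : W ↪ V} {δ : W → Bool} {k : ℕ} {z : Ch V} (hz : Supp k z) :
    Supp k (pull f δ z) := by
  intro s hs
  obtain ⟨h1, h2⟩ := hz _ hs
  rw [card_map] at h2
  exact ⟨h1.of_map, h2⟩

theorem sum_pull {f : W ↪ V} {δ : W → Bool} {z : Ch V} (hz : InR f z) :
    ∑ s, pull f δ z s = ∑ s, z s := by
  classical
  refine sum_of_injOn (fun s => s.map (sgnEmb f δ)) (fun s _ t _ h => map_injective _ h)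
    (fun p _ => mem_coe.mpr (mem_univ _)) ?_ (fun s _ => rfl)
  intro s _ hs
  by_contra hne
  apply hs
  refine ⟨univ.filter fun q => sgnEmb f δ q ∈ s, mem_coe.mpr (mem_univ _), ?_⟩
  ext p
  simp only [mem_map, mem_filter, mem_univ, true_and]
  constructor
  · rintro ⟨q, hq, rfl⟩; exact hq
  · intro hp
    obtain ⟨q, hq⟩ := mem_range_sgnEmb f δ (hz _ hne p hp)
    exact ⟨q, by rw [hq]; exact hp, hq⟩

theorem Ess.pull {f : W ↪ V} {δ : W → Bool} {k : ℕ} {z : Ch V} (h : Ess k z) (hz : InR f z) :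
    Ess k (pull f δ z) := by
  induction k generalizing z with
  | zero =>
    obtain ⟨c0, h1, h2, h3⟩ := h
    have hs : Supp 0 z := by rw [h2]; exact h1.add h1.T
    have hT : T z = z := by rw [h2, T_add, T_T, add_comm]
    obtain ⟨c, hc1, hc2, hc3⟩ := exists_half hs hT
    have hcR : InR f c := fun s hs' => hz s fun h' => hs' (hc3 s h')
    refine ⟨Pool.Agent.RP5.pull f δ c, hc1.pull, ?_, ?_⟩
    · conv_lhs => rw [hc2]
      rw [pull_add, pull_T]
    · rw [sum_pull hcR, ← h3]
      -- the sums over two halves agree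
      have hd : Supp 0 (c + c0) := hc1.add h1
      have hs' : T (c + c0) = c + c0 := by
        have h4 : c + T c = c0 + T c0 := by rw [← hc2, h2]
        rw [T_add]
        calc T c + T c0 = (c + c) + T c + T c0 := by rw [add_self_ch, zero_add]
          _ = c + (c + T c) + T c0 := by abel
          _ = c + (c0 + T c0) + T c0 := by rw [h4]
          _ = c + c0 + (T c0 + T c0) := by abel
          _ = c + c0 := by rw [add_self_ch, add_zero]
      obtain ⟨x, _, hx2, _⟩ := exists_half hd hs'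
      have h5 : c = c0 + (x + T x) := by
        rw [← hx2]
        calc c = c + (c0 + c0) := by rw [add_self_ch, add_zero]
          _ = c0 + (c + c0) := by abel
      have h4 : ∑ s, T x s = ∑ s, x s := by
        refine Fintype.sum_equiv ⟨negS, negS, negS_negS, negS_negS⟩ _ _ fun s => rfl
      rw [h5]
      simp only [Pi.add_apply, sum_add_distrib, h4]
      rw [CharTwo.add_self_eq_zero, add_zero]
  | succ k ih =>
    obtain ⟨c, hc1, hc2, hc3⟩ := exists_half h.supp h.symm
    have hcR : InR f c := fun s hs' => hz s fun h' => hs' (hc3 s h')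
    refine ⟨Pool.Agent.RP5.pull f δ c, hc1.pull, ?_, ?_⟩
    · conv_lhs => rw [hc2]
      rw [pull_add, pull_T]
    · rw [← pull_bd f δ hcR]
      exact ih (h.half hc1 hc2) hcR.bd

/-- the pulled back signed graph -/
def pullA (f : W ↪ V) (δ : W → Bool) (a : V → V → Bool) : W → W → Bool :=
  fun u v => xor (a (f u) (f v)) (xor (δ u) (δ v))

theorem CohS.pull {f : W ↪ V} {δ : W → Bool} {a : V → V → Bool} {s : Finset (W × Bool)}
    (h : CohS a (s.map (sgnEmb f δ))) : CohS (pullA f δ a) s := by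
  intro p hp q hq
  have h1 := h _ (mem_map_of_mem _ hp) _ (mem_map_of_mem _ hq)
  refine ⟨fun he => ?_, fun hne => ?_⟩
  · exact (sgnEmb f δ).injective (h1.1 (by simp only [sgnEmb_apply, he]))
  · have := h1.2 (by simp only [sgnEmb_apply]; exact fun h' => hne (f.injective h'))
    simp only [sgnEmb_apply] at this
    unfold pullA
    rw [this]
    cases p.2 <;> cases q.2 <;> cases δ p.1 <;> cases δ q.1 <;> rfl

theorem pr_map (f : W ↪ V) (δ : W → Bool) (s : Finset (W × Bool)) :
    pr (s.map (sgnEmb f δ)) = (pr s).map f := by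
  ext v
  simp only [pr, mem_image, mem_map]
  constructor
  · rintro ⟨p, ⟨q, hq, rfl⟩, rfl⟩
    exact ⟨q.1, ⟨q, hq, rfl⟩, rfl⟩
  · rintro ⟨w, ⟨q, hq, rfl⟩, rfl⟩
    exact ⟨_, ⟨q, hq, rfl⟩, rfl⟩

/-- **Transfer.** A witness on the image of `f` can be pulled back. -/
theorem PF.pull {a : V → V → Bool} {k : ℕ} {F : Finset V → Prop} (h : PF a k F) (f : W ↪ V)
    (δ : W → Bool) (hF : ∀ ρ, F ρ → ∀ v ∈ ρ, v ∈ Set.range f) :
    PF (pullA f δ a) k (fun ρ => F (ρ.map f)) := by
  obtain ⟨z, hz⟩ := h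
  have hR : InR f z := fun s hs p hp => hF _ (hz.supp s hs).2 p.1 (mem_pr hp)
  refine ⟨Pool.Agent.RP5.pull f δ z, ⟨fun s hs => ?_, ?_, hz.ess.pull hR⟩⟩
  · obtain ⟨h1, h2⟩ := hz.supp _ hs
    rw [pr_map] at h2
    exact ⟨h1.pull, h2⟩
  · rw [← pull_bd f δ hR, hz.cycle]
    rfl

theorem P.pull {a : V → V → Bool} {k : ℕ} {U : Finset V} (h : P a k U) (f : W ↪ V)
    (δ : W → Bool) (hU : ∀ v ∈ U, v ∈ Set.range f) :
    P (pullA f δ a) k univ :=
  PF.mono (PF.pull h f δ fun ρ hρ v hv => hU v (hρ hv)) fun _ _ _ _ => subset_univ _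

end Pool.Agent.RP5
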