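import Pool.Agent.RP5.Chain

/-!
# Yang's index of symmetric cycles, and the recursion
-/

set_option autoImplicit false
set_option linter.unusedSectionVars false

open Finset

namespace Pool.Agent.RP5

variable {V : Type*} [DecidableEq V] [Fintype V]

/-- `z` is a symmetric chain of dimension `k` with odd index: `z = c + T c` where the boundary of
`c` has odd index, and for `k = 0` the number of points of `c` is odd. -/
def Ess : ℕ → Ch V → Prop
  | 0, z => ∃ c, Supp 0 c ∧ z = c + T c ∧ ∑ s, c s = 1
  | k + 1, z => ∃ c, Supp (k + 1) c ∧ z = c + T c ∧ Ess k (bd c)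

theorem Ess.supp {k : ℕ} {z : Ch V} (h : Ess k z) : Supp k z := by
  cases k with
  | zero =>
    obtain ⟨c, h1, h2, _⟩ := h
    rw [h2]; exact h1.add h1.T
  | succ k =>
    obtain ⟨c, h1, h2, _⟩ := h
    rw [h2]; exact h1.add h1.T

theorem Ess.symm {k : ℕ} {z : Ch V} (h : Ess k z) : T z = z := by
  cases k with
  | zero =>
    obtain ⟨c, _, h2, _⟩ := h
    rw [h2, T_add, T_T, add_comm]
  | succ k =>
    obtain ⟨c, _, h2, _⟩ := h
    rw [h2, T_add, T_T, add_comm]

/-- adding a symmetric boundary does not change the index -/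
theorem Ess.add_bd {k : ℕ} {w x : Ch V} (h : Ess k w) (hx : Supp (k + 1) x) :
    Ess k (w + (bd x + T (bd x))) := by
  cases k with
  | zero =>
    obtain ⟨c, h1, h2, h3⟩ := h
    refine ⟨c + bd x, h1.add hx.bd, ?_, ?_⟩
    · rw [h2, T_add]; abel
    · simp only [Pi.add_apply, sum_add_distrib, h3, sum_bd hx, add_zero]
  | succ k =>
    obtain ⟨c, h1, h2, h3⟩ := h
    refine ⟨c + bd x, h1.add hx.bd, ?_, ?_⟩
    · rw [h2, T_add]; abel
    · rw [bd_add, bd_bd, add_zero]; exact h3

/-- a symmetric chain on antipode free sets is of the form `x + T x` -/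
theorem exists_half {k : ℕ} {d : Ch V} (hd : Supp k d) (hs : T d = d) :
    ∃ x, Supp k x ∧ d = x + T x ∧ ∀ s, d s = 0 → x s = 0 := by
  classical
  let R : Finset (V × Bool) → Finset (V × Bool) → Prop := WellOrderingRel
  refine ⟨fun s => if R s (negS s) then d s else 0, ?_, ?_, ?_⟩
  · intro s h
    refine hd s fun h' => h ?_
    simp [h']
  rotate_left
  · intro s h
    simp [h]
  · funext s
    have hT : d (negS s) = d s := congrFun hs s
    simp only [Pi.add_apply, T_apply, negS_negS, hT]
    by_cases h0 : d s = 0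
    · simp [h0]
    · obtain ⟨h1, h2⟩ := hd s h0
      have hne : negS s ≠ s := h1.negS_ne (card_pos.mp (by omega))
      have hwf : WellFounded R := IsWellFounded.wf
      by_cases h : R s (negS s)
      · rw [if_pos h, if_neg (hwf.asymmetric _ _ h), add_zero]
      · have h' : R (negS s) s := by
          rcases trichotomous_of R s (negS s) with h3 | h3 | h3
          · exact absurd h3 h
          · exact absurd h3.symm hne
          · exact h3
        rw [if_neg h, if_pos h', zero_add]

/-- the index does not depend on the choice of the half -/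
theorem Ess.half {k : ℕ} {z c : Ch V} (h : Ess (k + 1) z) (hc : Supp (k + 1) c)
    (hz : z = c + T c) : Ess k (bd c) := by
  obtain ⟨c0, h1, h2, h3⟩ := h
  have hd : Supp (k + 1) (c + c0) := hc.add h1
  have hs : T (c + c0) = c + c0 := by
    have h4 : c + T c = c0 + T c0 := by rw [← hz, h2]
    rw [T_add]
    calc T c + T c0 = (c + c) + T c + T c0 := by rw [add_self_ch, zero_add]
      _ = c + (c + T c) + T c0 := by abel
      _ = c + (c0 + T c0) + T c0 := by rw [h4]
      _ = c + c0 + (T c0 + T c0) := by abel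
      _ = c + c0 := by rw [add_self_ch, add_zero]
  obtain ⟨x, hx1, hx2, _⟩ := exists_half hd hs
  have h5 : c = c0 + (x + T x) := by
    rw [← hx2]
    calc c = c + (c0 + c0) := by rw [add_self_ch, add_zero]
      _ = c0 + (c + c0) := by abel
  rw [h5, bd_add, bd_add, bd_T]
  exact h3.add_bd hx1

theorem Ess.ne_zero {k : ℕ} : ¬ Ess k (0 : Ch V) := by
  induction k with
  | zero =>
    rintro ⟨c, h1, h2, h3⟩
    have hs : T c = c := by
      have : c + (c + T c) = c + 0 := by rw [← h2]
      rw [← add_assoc, add_self_ch, zero_add, add_zero] at this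
      exact this
    obtain ⟨x, _, hx2, _⟩ := exists_half h1 hs
    rw [hx2] at h3
    have h4 : ∑ s, T x s = ∑ s, x s := by
      refine Fintype.sum_equiv ⟨negS, negS, negS_negS, negS_negS⟩ _ _ fun s => rfl
    simp only [Pi.add_apply, sum_add_distrib, h4] at h3
    rw [CharTwo.add_self_eq_zero] at h3
    exact absurd h3 (by decide)
  | succ k ih =>
    intro h
    have := h.half (c := 0) (fun s hs => absurd rfl hs) (by simp; rfl)
    rw [bd_zero] at this
    exact ih this

/-- `z` is a symmetric cycle of dimension `k` with odd index, supported on sets satisfying `K` -/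
structure IsWit (k : ℕ) (K : Finset (V × Bool) → Prop) (z : Ch V) : Prop where
  supp : ∀ s, z s ≠ 0 → K s
  cycle : bd z = 0
  ess : Ess k z

theorem IsWit.ne_zero {k : ℕ} {K : Finset (V × Bool) → Prop} {z : Ch V} (h : IsWit k K z) :
    ∃ s, z s ≠ 0 := by
  by_contra hn
  push Not at hn
  have : z = 0 := funext hn
  exact Ess.ne_zero (this ▸ h.ess)

theorem IsWit.af {k : ℕ} {K : Finset (V × Bool) → Prop} {z : Ch V} (h : IsWit k K z)
    {s : Finset (V × Bool)} (hs : z s ≠ 0) : AF s := (h.ess.supp s hs).1

theorem IsWit.card {k : ℕ} {K : Finset (V × Bool) → Prop} {z : Ch V} (h : IsWit k K z)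
    {s : Finset (V × Bool)} (hs : z s ≠ 0) : s.card = k + 1 := (h.ess.supp s hs).2

theorem IsWit.symm_apply {k : ℕ} {K : Finset (V × Bool) → Prop} {z : Ch V} (h : IsWit k K z)
    (s : Finset (V × Bool)) : z (negS s) = z s := congrFun h.ess.symm s

/-- exchange: every face of a simplex of the cycle lies in another simplex of the cycle -/
theorem IsWit.exchange {k : ℕ} {K : Finset (V × Bool) → Prop} {z : Ch V} (h : IsWit k K z)
    {s : Finset (V × Bool)} (hs : z s ≠ 0) {t : V × Bool} (ht : t ∈ s) :
    ∃ v, v ∉ s ∧ z (insert v (s.erase t)) ≠ 0 := by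
  by_contra hn
  push Not at hn
  have h1 : bd z (s.erase t) = 0 := by rw [h.cycle]; rfl
  rw [bd_apply] at h1
  rw [sum_eq_single t] at h1
  · rw [if_neg (notMem_erase t s), insert_erase ht] at h1
    exact hs h1
  · intro v _ hv
    split_ifs with hv2
    · rfl
    · refine hn v fun hvs => hv2 (mem_erase.mpr ⟨hv, hvs⟩)
  · intro h2
    exact absurd (mem_univ _) h2

/-- **The recursion.** Let `z` be a witness in dimension `k + 1` and `τ` a set of signed vertices
such that no simplex of `z` meets both `τ` and its antipode. Then there is a witness `y` in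
dimension `k`, all of whose simplices avoid `τ` and its antipode, and each of whose simplices `r`
either is covered by some `x` in `τ` (that is, `r ∪ x` is a simplex of `z`) or is contained in a
simplex of `z` that avoids `τ` and its antipode. -/
theorem IsWit.step {k : ℕ} {K : Finset (V × Bool) → Prop} {z : Ch V} (h : IsWit (k + 1) K z)
    (τ : Finset (V × Bool)) (hτ : ∀ s, z s ≠ 0 → ∀ p ∈ τ, p ∈ s → ∀ q ∈ τ, neg q ∉ s) :
    ∃ y, IsWit k (fun r => (∀ p ∈ τ, p ∉ r ∧ neg p ∉ r) ∧
      ((∃ x ∈ τ, z (insert x r) ≠ 0) ∨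
        ∃ x, x ∉ r ∧ z (insert x r) ≠ 0 ∧ ∀ p ∈ τ, p ∉ insert x r ∧ neg p ∉ insert x r)) y := by
  classical
  -- the half which contains all simplices meeting `τ`
  have hsym := h.ess.symm
  have hzneg : ∀ s, z (Pool.Agent.RP5.negS s) = z s := fun s => congrFun hsym s
  let z0 : Ch V := fun s => if (∀ p ∈ τ, p ∉ s ∧ neg p ∉ s) then z s else 0
  have hz0s : Supp (k + 1) z0 := by
    intro s hs
    refine h.ess.supp s fun h' => hs ?_
    simp only [z0, h', ite_self]
  have hcond : ∀ s : Finset (V × Bool), (∀ p ∈ τ, p ∉ Pool.Agent.RP5.negS s ∧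
      neg p ∉ Pool.Agent.RP5.negS s) ↔ (∀ p ∈ τ, p ∉ s ∧ neg p ∉ s) := by
    intro s
    refine forall₂_congr fun p _ => ?_
    rw [neg_mem_negS, mem_negS, and_comm]
  have hz0T : T z0 = z0 := by
    funext s
    simp only [T_apply, z0, hcond, hzneg]
  obtain ⟨x0, hx0, hx0', hx0''⟩ := exists_half hz0s hz0T
  let zt : Ch V := fun s => if (∃ p ∈ τ, p ∈ s) then z s else 0
  have hcz : z = zt + T zt + z0 := by
    funext s
    simp only [Pi.add_apply, T_apply, z0, zt, hzneg]
    by_cases h0 : z s = 0
    · simp [h0]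
    · by_cases h1 : ∃ p ∈ τ, p ∈ s
      · have h2 : ¬ ∃ p ∈ τ, p ∈ Pool.Agent.RP5.negS s := by
          rintro ⟨q, hq, hqs⟩
          obtain ⟨p, hp, hps⟩ := h1
          rw [mem_negS] at hqs
          exact hτ s h0 p hp hps q hq hqs
        have h3 : ¬ ∀ p ∈ τ, p ∉ s ∧ neg p ∉ s := by
          obtain ⟨p, hp, hps⟩ := h1
          intro h4
          exact (h4 p hp).1 hps
        rw [if_pos h1, if_neg h2, if_neg h3]; ring
      · by_cases h2 : ∃ p ∈ τ, p ∈ Pool.Agent.RP5.negS s
        · have h3 : ¬ ∀ p ∈ τ, p ∉ s ∧ neg p ∉ s := by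
            obtain ⟨p, hp, hps⟩ := h2
            intro h4
            rw [mem_negS] at hps
            exact (h4 p hp).2 hps
          rw [if_neg h1, if_pos h2, if_neg h3]; ring
        · have h3 : ∀ p ∈ τ, p ∉ s ∧ neg p ∉ s := by
            intro p hp
            refine ⟨fun hps => h1 ⟨p, hp, hps⟩, fun hps => h2 ⟨p, hp, ?_⟩⟩
            rw [mem_negS]; exact hps
          rw [if_neg h1, if_neg h2, if_pos h3]; ring
  have hzt : Supp (k + 1) zt := by
    intro s hs
    refine h.ess.supp s fun h' => hs ?_
    simp only [zt, h', ite_self]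
  have hc : Supp (k + 1) (zt + x0) := hzt.add hx0
  have hzc : z = (zt + x0) + T (zt + x0) := by
    rw [T_add]
    calc z = zt + T zt + z0 := hcz
      _ = zt + T zt + (x0 + T x0) := by rw [← hx0']
      _ = _ := by abel
  have hess : Ess k (bd (zt + x0)) := h.ess.half hc hzc
  have hx0z : ∀ s, x0 s ≠ 0 → z s ≠ 0 ∧ ∀ p ∈ τ, p ∉ s ∧ neg p ∉ s := by
    intro s hs
    have h1 : z0 s ≠ 0 := fun h' => hs (hx0'' s h')
    simp only [z0] at h1
    split_ifs at h1 with h2
    · exact ⟨h1, h2⟩
    · exact absurd rfl h1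
  have hav : ∀ r, bd (zt + x0) r ≠ 0 → ∀ p ∈ τ, p ∉ r ∧ neg p ∉ r := by
    intro r hr p hp
    constructor
    · intro hpr
      apply hr
      have h1 : bd (zt + x0) r = bd z r := by
        rw [bd_apply, bd_apply]
        refine sum_congr rfl fun x _ => ?_
        split_ifs with hx
        · rfl
        · have h2 : x0 (insert x r) = 0 := by
            by_contra h3
            exact ((hx0z _ h3).2 p hp).1 (mem_insert_of_mem hpr)
          have h3 : zt (insert x r) = z (insert x r) :=
            if_pos ⟨p, hp, mem_insert_of_mem hpr⟩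
          rw [Pi.add_apply, h2, h3, add_zero]
      rw [h1, h.cycle]; rfl
    · intro hpr
      apply hr
      rw [bd_apply]
      refine sum_eq_zero fun x _ => ?_
      split_ifs with hx
      · rfl
      · have h2 : x0 (insert x r) = 0 := by
          by_contra h3
          exact ((hx0z _ h3).2 p hp).2 (mem_insert_of_mem hpr)
        have h3 : zt (insert x r) = 0 := by
          by_contra h4
          have h5 : ∃ q ∈ τ, q ∈ insert x r := by
            by_contra h6
            exact h4 (if_neg h6)
          have h6 : z (insert x r) ≠ 0 := by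
            intro h7
            apply h4
            simp only [zt, h7, ite_self]
          obtain ⟨q, hq, hqr⟩ := h5
          exact hτ _ h6 q hq hqr p hp (mem_insert_of_mem hpr)
        rw [Pi.add_apply, h2, h3, add_zero]
  refine ⟨bd (zt + x0), ?_, bd_bd _, hess⟩
  intro r hr
  refine ⟨hav r hr, ?_⟩
  obtain ⟨x, hx, hxc⟩ := exists_of_bd_ne hr
  by_cases h1 : x0 (insert x r) = 0
  · left
    rw [Pi.add_apply, h1, add_zero] at hxc
    have h5 : ∃ q ∈ τ, q ∈ insert x r := by
      by_contra h6
      exact hxc (if_neg h6)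
    have h6 : z (insert x r) ≠ 0 := by
      intro h7
      apply hxc
      simp only [zt, h7, ite_self]
    obtain ⟨q, hq, hqr⟩ := h5
    have hqx : q = x := by
      rcases mem_insert.mp hqr with h7 | h7
      · exact h7
      · exact absurd h7 (hav r hr q hq).1
    exact ⟨x, hqx ▸ hq, h6⟩
  · right
    exact ⟨x, hx, hx0z _ h1⟩

end Pool.Agent.RP5
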